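import Mathlib

/-!
# Ramified covers of semiabelian varieties over number fields: elliptic curves over `K`, the interface of block RK
-/

namespace VK

open Finset NumberField

/-- the Weierstrass curve `y² = x³ + a x + b` over `F` -/
def EK {F : Type} [Field F] (a b : F) : WeierstrassCurve F := ⟨0, 0, 0, a, b⟩

/-- its points over `F` -/
abbrev Pt {F : Type} [Field F] (a b : F) : Type := (EK a b).toAffine.Point

/-- the discriminant up to a factor `- 16` -/
def ds {R : Type} [CommRing R] (a b : R) : R := 4 * a ^ 3 + 27 * b ^ 2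

/-- `E(F)`, `E : y² = x³ + a x + b`, has at most `2 ^ t` classes modulo `2` -/
def FewK {F : Type} [Field F] [DecidableEq F] (a b : F) (t : ℕ) : Prop :=
  ∃ r : Fin (2 ^ t) → Pt a b, ∀ P : Pt a b, ∃ i, ∃ Q : Pt a b, P = r i + 2 • Q

/-- the element with the coordinates `c` -/
def el {R : Type} [CommRing R] {e : ℕ} (ω : Fin e → R) (c : Fin e → ℤ) : R := ∑ k, (c k : R) * ω k

/-- the interface of block RK: the average of `#E(K)/2E(K)` over all curves -/
def FactRK (K : Type) [Field K] [NumberField K] [DecidableEq K] : Prop :=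
  ∀ (e : ℕ) (ω : Module.Basis (Fin e) ℤ (𝓞 K)), ∃ (C : ℝ) (k : ℕ), ∀ H : ℕ, 1 ≤ H → ∀ t : ℕ,
    (Nat.card {z : (Fin e → ℤ) × (Fin e → ℤ) // (∀ i, |z.1 i| ≤ (H : ℤ) ^ 2) ∧ (∀ i, |z.2 i| ≤ (H : ℤ) ^ 3) ∧
      ds (el ω z.1) (el ω z.2) ≠ 0 ∧ ¬ FewK ((el ω z.1 : 𝓞 K) : K) ((el ω z.2 : 𝓞 K) : K) t} : ℝ) * 2 ^ t ≤
      C * (H : ℝ) ^ (5 * e) * (1 + Real.log H) ^ k

end VK
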