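import Pool.Agent.Lib.MP_17a322_ntVK.Defs
import Pool.Agent.Lib.MP_17a322_ntCI.Stmt

/-!
# Ramified covers and complete intersections over `G_m^n × E_1 × .. × E_g` (times `ℙ^m`) over a number field: definitions
-/

namespace VK

open Finset NumberField

/-- the coordinates of the coefficients of `g` curves `y² = x³ + A_l x + B_l` -/
abbrev Cv (e g : ℕ) : Type := Fin g → (Fin e → ℤ) × (Fin e → ℤ)

/-- the coefficient `A` -/
def cA {K : Type} [Field K] [NumberField K] {e : ℕ} (ω : Fin e → 𝓞 K) (z : (Fin e → ℤ) × (Fin e → ℤ)) : K :=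
  ((el ω z.1 : 𝓞 K) : K)

/-- the coefficient `B` -/
def cB {K : Type} [Field K] [NumberField K] {e : ℕ} (ω : Fin e → 𝓞 K) (z : (Fin e → ℤ) × (Fin e → ℤ)) : K :=
  ((el ω z.2 : 𝓞 K) : K)

/-- the points of the curve `y² = x³ + A x + B` over the field `K`; `none` is the point `O` at infinity -/
def IsPt {K : Type} [Field K] (A B : K) : Option (K × K) → Prop
  | none => True
  | some z => z.2 ^ 2 = z.1 ^ 3 + A * z.1 + B

/-- the indices of the coefficients of the sections on `G_m^n × E_1 × .. × E_g`: a Laurent monomial (indexed by `ι`) and an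
element of the basis of the sections of `O(2 d_1 O) ⊠ .. ⊠ O(2 d_g O)` -/
abbrev IxT (ι : Type) {g : ℕ} (d : Fin g → ℕ) : Type := ι × RamCov.IxG d

/-- the value at `(x, P)` of an element of the basis -/
def bT {K : Type} [Field K] {n g : ℕ} {ι : Type} (E : ι → Fin n → ℤ) {d : Fin g → ℕ} (x : Fin n → K)
    (P : Fin g → Option (K × K)) (t : IxT ι d) : K :=
  (∏ l, x l ^ E t.1 l) * ∏ l, RamCov.bas K (d l) (P l) (t.2 l)

/-- the coefficients `∑ k, c (t, k) ω k` -/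
def cf {K : Type} [Field K] [NumberField K] {τ : Type} {e : ℕ} (ω : Fin e → 𝓞 K) (c : τ × Fin e → ℤ) (t : τ) : K :=
  ((el ω fun k => c (t, k) : 𝓞 K) : K)

/-- the indices of the coefficients of `s` sections which are forms of degrees `ν j` on `ℙ^m` -/
abbrev IxM (ι : Type) (m : ℕ) {g s : ℕ} (ν : Fin s → ℕ) (d : Fin s → Fin g → ℕ) : Type :=
  Σ j : Fin s, MWS.Mo m (ν j) × IxT ι (d j)

/-- the value at `(x, P, u)` of the `j`-th section with the coefficients `a` -/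
def sM {K : Type} [Field K] {n m g s : ℕ} {ι : Type} [Fintype ι] {ν : Fin s → ℕ} {d : Fin s → Fin g → ℕ}
    (E : Fin s → ι → Fin n → ℤ) (a : IxM ι m ν d → K) (x : Fin n → K) (P : Fin g → Option (K × K)) (u : Fin (m + 1) → K)
    (j : Fin s) : K :=
  ∑ t : MWS.Mo m (ν j) × IxT ι (d j), a ⟨j, t⟩ * (MWS.mo u t.1 * bT (E j) x P t.2)

/-- the box: `A_l = ∑ α_k ω_k`, `B_l = ∑ β_k ω_k` with `|α_k| ≤ H²`, `|β_k| ≤ H³`, coefficients with coordinates of absolute
value at most `H` -/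
def Box {K : Type} [Field K] [NumberField K] {e g : ℕ} {τ : Type} (ω : Fin e → 𝓞 K) (H : ℕ) (z : Cv e g × (τ → ℤ)) : Prop :=
  (∀ l, ds (el ω (z.1 l).1) (el ω (z.1 l).2) ≠ 0 ∧ (∀ i, |(z.1 l).1 i| ≤ (H : ℤ) ^ 2) ∧
    (∀ i, |(z.1 l).2 i| ≤ (H : ℤ) ^ 3)) ∧ ∀ i, |z.2 i| ≤ (H : ℤ)

end VK
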