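import Pool.Agent.Lib.MP_17a322_ntVK.EB
import Pool.Agent.Lib.MP_17a322_ntVK.Stmt
import Pool.Agent.Lib.MP_17a322_ntLH.T9A

/-!
# The sieve over a number field: definitions
-/

namespace VK

open Finset NumberField LVH

open Classical in
/-- reduction of a point of `E(K)` at the place `π`: `none` is the point at infinity -/
noncomputable def rdK {K : Type} [Field K] {p : ℕ} (π : Pl K p) {A B : K} : Pt A B → Option (ZMod p × ZMod p)
  | .zero => none
  | .some x y _ => if x ∈ π.V then some (res π x, res π y) else none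

/-- the local conditions: depends on the place, the residues of the coordinates of the torus and the reductions of the
points of the elliptic curves -/
abbrev Loc (K : Type) [Field K] (n g : ℕ) (ι : Type) : Type :=
  (p : ℕ) → Pl K p → (Fin n → ZMod p) → (Fin g → Option (ZMod p × ZMod p)) → Set (ι → ZMod p)

/-- the integral vector `c` satisfies the local conditions at all places of degree one of `K` over the primes `p ≥ p0` of
degree one in `L` at which the curves have good reduction and the `x l` are units -/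
def AdmK {K : Type} [Field K] (L : Type) [Field L] [NumberField L] (p0 : ℕ) {ι : Type} {n g : ℕ} (R : Loc K n g ι)
    {A B : Fin g → K} (c : ι → ℤ) (x : Fin n → Kˣ) (P : (l : Fin g) → Pt (A l) (B l)) : Prop :=
  ∀ p : ℕ, p.Prime → p0 ≤ p → D1 L p → ∀ π : Pl K p, (∀ l, A l ∈ π.V ∧ B l ∈ π.V) →
    (∀ l, ds (res π (A l)) (res π (B l)) ≠ 0) → (∀ l, (x l : K) ∈ π.V ∧ (x l : K)⁻¹ ∈ π.V) →
    (fun i => ((c i : ℤ) : ZMod p)) ∈ R p π (fun l => res π (x l : K)) (fun l => rdK π (P l))

/-- the density of each local condition is at most `1 - κ` -/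
def DensK {K : Type} [Field K] (L : Type) [Field L] [NumberField L] (p0 : ℕ) {ι : Type} [Fintype ι] {n g : ℕ}
    (R : Loc K n g ι) (κ : ℝ) : Prop :=
  ∀ p : ℕ, p.Prime → p0 ≤ p → D1 L p → ∀ (π : Pl K p) (u : Fin n → ZMod p) (z : Fin g → Option (ZMod p × ZMod p)),
    (∀ l, u l ≠ 0) → (Nat.card (R p π u z) : ℝ) ≤ (1 - κ) * (p : ℝ) ^ Fintype.card ι

/-- the set of the tuples of the box with a point satisfying the local conditions -/
abbrev ZK {K : Type} [Field K] [NumberField K] (L : Type) [Field L] [NumberField L] (p0 : ℕ) {e n g : ℕ} {ι : Type}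
    (ω : Fin e → 𝓞 K) (Γ : Subgroup Kˣ) (H : ℕ) (R : Loc K n g ι) : Type :=
  {z : Cv e g × (ι → ℤ) // Box ω H z ∧ ∃ x : Fin n → Kˣ, (∀ l, x l ∈ Γ) ∧
    ∃ P : (l : Fin g) → Pt (cA ω (z.1 l)) (cB ω (z.1 l)),
      AdmK L p0 R (A := fun l => cA ω (z.1 l)) (B := fun l => cB ω (z.1 l)) z.2 x P}

/-- classes modulo `M` of the points of the torus with coordinates in `Γ` -/
def TCls {K : Type} [Field K] (Γ : Subgroup Kˣ) (n t : ℕ) : Prop :=
  ∀ M : ℕ, 1 ≤ M → ∃ r : Fin (M ^ t) → Fin n → Kˣ, (∀ i l, r i l ∈ Γ) ∧ ∀ x : Fin n → Kˣ, (∀ l, x l ∈ Γ) →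
    ∃ i, ∃ y : Fin n → Kˣ, (∀ l, y l ∈ Γ) ∧ ∀ l, x l = r i l * y l ^ M

end VK
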