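import Pool.Agent.Lib.MP_17a322_ntVK.SR1
import Pool.Agent.Lib.MP_17a322_ntLH.T4

/-!
# LEAF SC1: places of subfields, residues of the coordinates

PROOF of `sub_pl`.  `π' : Pl L p` with `exists_pl L`; `V = π'.V.comap (algebraMap K L)` (`ValuationSubring.comap`), `ρ x = π'.ρ (algebraMap K L x)` (restriction), `ker`: `(x)⁻¹ ∉ V` gives `(algebraMap x)⁻¹ ∉ π'.V` (`map_inv₀`).
PROOF of `el_rd`.  `el ω c = ∑ k, c k * ω k`, coercion to `K`, `Rd.sum`, `Rd.mul`, `Rd.int`.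
PROOF of `w_ne`.  If all residues of the `ω k` are `0` then so is the residue of `1 = ∑ k, m k * ω k` (`ω` a basis of `𝓞 K` over `ℤ`), but it is `1 ≠ 0`.
-/

namespace VK

open Finset NumberField LVH

theorem sub_pl {K L : Type} [Field K] [Field L] [NumberField L] [Algebra K L] {p : ℕ} (hp : p.Prime) (h : D1 L p) :
    Nonempty (Pl K p) := by
  obtain ⟨π'⟩ := exists_pl L hp h
  let V : ValuationSubring K := π'.V.comap (algebraMap K L)
  let j : V →+* π'.V := ((algebraMap K L).comp V.subtype).codRestrict π'.V fun x => x.2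
  refine ⟨⟨V, π'.ρ.comp j, fun x hx => ?_⟩⟩
  refine π'.ker (j x) fun h1 => hx ?_
  show algebraMap K L (x : K)⁻¹ ∈ π'.V
  rw [map_inv₀]
  exact h1

theorem el_rd {K : Type} [Field K] [NumberField K] {p e : ℕ} {π : Pl K p} {ω : Fin e → 𝓞 K} {w : Fin e → ZMod p}
    (hw : ∀ k, Rd π ((ω k : 𝓞 K) : K) (w k)) (c : Fin e → ℤ) :
    Rd π ((el ω c : 𝓞 K) : K) (∑ k, ((c k : ℤ) : ZMod p) * w k) := by
  have h1 : ((el ω c : 𝓞 K) : K) = ∑ k, ((c k : ℤ) : K) * ((ω k : 𝓞 K) : K) := by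
    unfold el
    show algebraMap (𝓞 K) K (∑ k, ((c k : ℤ) : 𝓞 K) * ω k) = _
    rw [map_sum]
    refine Finset.sum_congr rfl fun k _ => ?_
    rw [map_mul, map_intCast]
  rw [h1]
  exact Rd.sum _ fun k _ => (Rd.int (c k)).mul (hw k)

theorem w_ne {K : Type} [Field K] [NumberField K] {p e : ℕ} [Fact p.Prime] {π : Pl K p} (ω : Module.Basis (Fin e) ℤ (𝓞 K))
    {w : Fin e → ZMod p} (hw : ∀ k, Rd π ((ω k : 𝓞 K) : K) (w k)) : w ≠ 0 := by
  intro h0
  have h1 : ((1 : 𝓞 K) : K) = ((el ω (fun k => ω.repr 1 k) : 𝓞 K) : K) := by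
    congr 1
    unfold el
    have h2 := ω.sum_repr 1
    rw [← h2]
    refine Finset.sum_congr rfl fun k _ => ?_
    rw [h2, zsmul_eq_mul]
  have h3 := el_rd hw (fun k => ω.repr 1 k)
  have h5 : ((1 : 𝓞 K) : K) = 1 := map_one (algebraMap (𝓞 K) K)
  rw [← h1, h5] at h3
  have h4 : (∑ k, (((ω.repr 1 k : ℤ)) : ZMod p) * w k) = 0 := by
    refine Finset.sum_eq_zero fun k _ => ?_
    rw [h0, Pi.zero_apply, mul_zero]
  rw [h4] at h3
  exact one_ne_zero (Rd.unique Rd.one h3)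

end VK
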