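import Pool.Agent.Lib.MP_17a322_ntVK.SD1
import Pool.Agent.Lib.MP_17a322_ntVK.SC1
import Pool.Agent.Lib.MP_17a322_ntCT.PC

/-!
# LEAF SD5: the local condition at a point of a complete intersection

PROOF.  `scale` (`MP_17a322_ntCT/PC`): `c₀ ≠ 0`, `y' ≠ 0`, `Rd π (c₀ * u l) (y' l)`.  `mo (c₀ • u) e = c₀ ^ ν j * mo u e` for `e : Mo m (ν j)` (the sum of the exponents is `ν j`; private `GI2`/`HH` lemmas show it), so the `j`-th equation holds for `c₀ • u`.
For every `j`: `σ` from `bT_red` with `q = 1`; multiply the `j`-th equation by `σ`; residues as in leaf SD3 (`el_rd`, `Rd.sum`, `Rd.mul`, `Rd.prod`, `Rd.pow` for `mo`), `Rd.unique` with `Rd.zero`.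
-/

namespace VK

open Finset NumberField LVH

private theorem SD5_mo {K : Type} [Field K] {m n : ℕ} (c : K) (u : Fin (m + 1) → K) (e : MWS.Mo m n) :
    MWS.mo (fun l => c * u l) e = c ^ n * MWS.mo u e := by
  unfold MWS.mo
  simp only [mul_pow]
  rw [Finset.prod_mul_distrib, Finset.prod_pow_eq_pow_sum, e.2]

private theorem SD5_mo_rd {K : Type} [Field K] {p : ℕ} {π : Pl K p} {m n : ℕ} {u : Fin (m + 1) → K}
    {y : Fin (m + 1) → ZMod p} (h : ∀ l, Rd π (u l) (y l)) (e : MWS.Mo m n) :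
    Rd π (MWS.mo u e) (MWS.mo y e) :=
  Rd.prod _ fun l _ => (h l).pow _

theorem adm_RB {K : Type} [Field K] [NumberField K] (L : Type) [Field L] [NumberField L] (p0 : ℕ) {n m g s e : ℕ}
    {ι : Type} [Fintype ι] {ν : Fin s → ℕ} {d : Fin s → Fin g → ℕ} (hd : ∀ j l, 1 ≤ d j l) (E : Fin s → ι → Fin n → ℤ)
    (ω : Fin e → 𝓞 K) {A B : Fin g → K} (c : IxM ι m ν d × Fin e → ℤ) (x : Fin n → Kˣ)
    (P : (l : Fin g) → Pt (A l) (B l)) (u : Fin (m + 1) → K) (hu : u ≠ 0)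
    (h : ∀ j, sM E (cf ω c) (fun l => (x l : K)) (fun l => opK (P l)) u j = 0) :
    AdmK L p0 (RB (m := m) ν d E ω) c x P := by
  intro p hp _ _ π hAB _ hx
  have hF : Fact p.Prime := ⟨hp⟩
  obtain ⟨c0, y', hc0, hy', hR⟩ := ct_scale π u hu
  refine ⟨hF, y', hy', fun j => ?_⟩
  obtain ⟨σ, hσ, hb⟩ := bT_red π hAB (q := 1) (d := d j) (hd j) (fun l => one_dvd _) P (E j)
    (fun l => (x l : K)) (fun l => (hx l).1) (fun l => (hx l).2)
  have hrd : Rd π (∑ t : MWS.Mo m (ν j) × IxT ι (d j), cf ω c ⟨j, t⟩ *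
      (MWS.mo (fun l => c0 * u l) t.1 *
        (σ ^ 1 * bT (E j) (fun l => (x l : K)) (fun l => opK (P l)) t.2)))
      (∑ t : MWS.Mo m (ν j) × IxT ι (d j),
        (∑ k, (((c (⟨j, t⟩, k) : ℤ) : ZMod p)) * res π ((ω k : 𝓞 K) : K)) *
        (MWS.mo y' t.1 * bT (E j) (fun l => res π (x l : K)) (fun l => rdK π (P l)) t.2)) := by
    refine Rd.sum _ fun t _ => ?_
    exact (el_rd (fun k => rd_res (int_mem π (ω k))) (fun k => c (⟨j, t⟩, k))).mul
      ((SD5_mo_rd hR t.1).mul (hb t.2))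
  have hz : (∑ t : MWS.Mo m (ν j) × IxT ι (d j), cf ω c ⟨j, t⟩ *
      (MWS.mo (fun l => c0 * u l) t.1 *
        (σ ^ 1 * bT (E j) (fun l => (x l : K)) (fun l => opK (P l)) t.2))) = 0 := by
    have h1 := h j
    unfold sM at h1
    have h2 : (∑ t : MWS.Mo m (ν j) × IxT ι (d j), cf ω c ⟨j, t⟩ *
        (MWS.mo (fun l => c0 * u l) t.1 *
          (σ ^ 1 * bT (E j) (fun l => (x l : K)) (fun l => opK (P l)) t.2))) =
        c0 ^ ν j * σ * ∑ t : MWS.Mo m (ν j) × IxT ι (d j), cf ω c ⟨j, t⟩ *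
          (MWS.mo u t.1 * bT (E j) (fun l => (x l : K)) (fun l => opK (P l)) t.2) := by
      rw [Finset.mul_sum]
      refine Finset.sum_congr rfl fun t _ => ?_
      rw [SD5_mo]
      ring
    rw [h2, h1, mul_zero]
  rw [hz] at hrd
  exact hrd.unique Rd.zero

end VK
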