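import Pool.Agent.Lib.MP_17a322_ntVK.SD1
import Pool.Agent.Lib.MP_17a322_ntVK.SC1
import Pool.Agent.Lib.MP_17a322_ntCT.PA
import Pool.Agent.Lib.MP_17a322_ntCT.PE
import Pool.Agent.Lib.MP_17a322_ntLH.T4

/-!
# LEAF SD2: the density for the covers

PROOF.  `p ≥ q + 3`, `D1 L p`: `exists_pl` gives a place of `L`, so `q ∣ p - 1` by `root_dvd` (`MP_17a322_ntCT/PE`, over `L`).  `RA q E d ω p π u z` is `{c // ∃ s, γ s ^ q = ∑ (t, k), c (t, k) * w (t, k)}` with `γ = u (Fin.last n) ≠ 0` and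
`w (t, k) = res π (ω k) * bT E _ z t` (`Fintype.sum_prod_type`), `w ≠ 0` (`w_ne` with `rd_res`, `int_mem`; `bT_ne`): `dens_pow` (`MP_17a322_ntCT/PA`).
-/

namespace VK

open Finset NumberField LVH

theorem dens_RA {K L : Type} [Field K] [NumberField K] [Field L] [NumberField L] {q : ℕ} (hq : q.Prime) {ζ : L}
    (hζ : IsPrimitiveRoot ζ q) {n g e : ℕ} {ι : Type} [Fintype ι] [DecidableEq ι] [Nonempty ι] (E : ι → Fin n → ℤ)
    (d : Fin g → ℕ) (ω : Module.Basis (Fin e) ℤ (𝓞 K)) : DensK L (q + 3) (RA q E d ω) (1 / 3) := by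
  intro p hp hp0 hD π u z hu
  have : Fact p.Prime := ⟨hp⟩
  obtain ⟨π'⟩ := exists_pl L hp hD
  have h1 : q ∣ p - 1 := root_dvd hq (by omega) π' hζ
  obtain ⟨t, ht⟩ := bT_ne E d (fun l => u l.castSucc) (fun l => hu _) z
  have hk := w_ne (π := π) ω (fun k => rd_res (int_mem π (ω k)))
  obtain ⟨k, hk⟩ := Function.ne_iff.1 hk
  have hw : (fun a : IxT ι d × Fin e =>
      res π ((ω a.2 : 𝓞 K) : K) * bT E (fun l => u l.castSucc) z a.1) ≠ 0 := by
    intro h0
    have h3 := congrFun h0 (t, k)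
    exact mul_ne_zero hk ht h3
  classical
  have h2 := dens_pow hq h1 _ hw (u (Fin.last n)) (hu _)
  have h4 : (RA q E d ω p π u z) = {c : IxT ι d × Fin e → ZMod p | ∃ s : ZMod p,
      u (Fin.last n) * s ^ q = ∑ a, c a * (res π ((ω a.2 : 𝓞 K) : K) *
        bT E (fun l => u l.castSucc) z a.1)} := by
    ext c
    have h5 : ∑ t : IxT ι d, (∑ k, c (t, k) * res π ((ω k : 𝓞 K) : K)) *
        bT E (fun l => u l.castSucc) z t = ∑ a : IxT ι d × Fin e, c a *
          (res π ((ω a.2 : 𝓞 K) : K) * bT E (fun l => u l.castSucc) z a.1) := by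
      refine Eq.trans ?_ (Fintype.sum_prod_type (α₁ := IxT ι d) (α₂ := Fin e) _).symm
      apply Finset.sum_congr rfl
      intro t _
      rw [Finset.sum_mul]
      apply Finset.sum_congr rfl
      intro k _
      exact mul_assoc _ _ _
    constructor
    · rintro ⟨_, s, hs⟩
      exact ⟨s, hs.trans h5⟩
    · rintro ⟨s, hs⟩
      exact ⟨inferInstance, s, hs.trans h5.symm⟩
  rw [h4]
  exact h2

end VK
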