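import Pool.Agent.Lib.MP_17a322_ntVK.SD1
import Pool.Agent.Lib.MP_17a322_ntVK.SC1
import Pool.Agent.Lib.MP_17a322_ntCT.PC

/-!
# LEAF SD3: the local condition at a point of a cover

PROOF.  `σ` from `bT_red`; multiply the equation by `σ ^ q`: `x_last * (w σ) ^ q = ∑ t, cf ω c t * (σ ^ q * bT ..)`, whose right side has residue `∑ t, (∑ k, c (t, k) res (ω k)) * bT (residues)` (`el_rd` with `w k = res π (ω k)`, `rd_res`, `int_mem`; `Rd.sum`, `Rd.mul`);
`pow_red` (`MP_17a322_ntCT/PC`) with `γ' = res π x_last ≠ 0` (`res_ne` of `LH/T9A`).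
-/

namespace VK

open Finset NumberField LVH

theorem adm_RA {K : Type} [Field K] [NumberField K] (L : Type) [Field L] [NumberField L] (p0 : ℕ) {q : ℕ} (hq : 1 ≤ q)
    {n g e : ℕ} {ι : Type} [Fintype ι] (E : ι → Fin n → ℤ) {d : Fin g → ℕ} (hd : ∀ l, 1 ≤ d l) (hqd : ∀ l, q ∣ 2 * d l)
    (ω : Fin e → 𝓞 K) {A B : Fin g → K} (c : IxT ι d × Fin e → ℤ) (x : Fin (n + 1) → Kˣ)
    (P : (l : Fin g) → Pt (A l) (B l)) (w : K)
    (h : (x (Fin.last n) : K) * w ^ q =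
      ∑ t : IxT ι d, cf ω c t * bT E (fun l => (x l.castSucc : K)) (fun l => opK (P l)) t) :
    AdmK L p0 (RA q E d ω) c x P := by
  intro p hp _ _ π hAB _ hx
  have : Fact p.Prime := ⟨hp⟩
  obtain ⟨σ, -, hσ⟩ := bT_red π hAB hd hqd P E (fun l => (x l.castSucc : K)) (fun l => (hx l.castSucc).1)
    (fun l => (hx l.castSucc).2)
  have h1 : (x (Fin.last n) : K) * (w * σ) ^ q =
      ∑ t : IxT ι d, cf ω c t * (σ ^ q * bT E (fun l => (x l.castSucc : K)) (fun l => opK (P l)) t) := by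
    rw [mul_pow, ← mul_assoc, h, Finset.sum_mul]
    refine Finset.sum_congr rfl fun t _ => ?_
    ring
  have h2 : Rd π (∑ t : IxT ι d, cf ω c t * (σ ^ q * bT E (fun l => (x l.castSucc : K)) (fun l => opK (P l)) t))
      (∑ t : IxT ι d, (∑ k, ((c (t, k) : ℤ) : ZMod p) * res π ((ω k : 𝓞 K) : K)) *
        bT E (fun l => res π (x l.castSucc : K)) (fun l => rdK π (P l)) t) := by
    refine Rd.sum _ fun t _ => ?_
    exact (el_rd (fun k => rd_res (int_mem π (ω k))) (fun k => c (t, k))).mul (hσ t)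
  obtain ⟨s, hs⟩ := pow_red hq (rd_res (hx (Fin.last n)).1)
    (res_ne (x (Fin.last n)).ne_zero (hx (Fin.last n)).1 (hx (Fin.last n)).2) h2 h1
  exact ⟨⟨hp⟩, s, hs⟩

end VK
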