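import Pool.Agent.Lib.MP_17a322_ntVK.SD1
import Pool.Agent.Lib.MP_17a322_ntVK.SC1
import Pool.Agent.Lib.MP_17a322_ntCI.HF

/-!
# LEAF SD4: the density for complete intersections (as `dens_RG4` of `MP_17a322_ntCI/HG`)

PROOF.  Copy of `dens_RG4`: the map `f c = fun t : Σ j, Mo m (ν j) => ∑ (t', k), c (⟨t.1, (t.2, t')⟩, k) * (res π (ω k) * bT (E t.1) u z t')` is additive and surjective (`res π (ω k₀) ≠ 0` for some `k₀`: `w_ne` with `rd_res`, `int_mem`; `bT_ne` for every `j`);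
`card_surj` (HA) and `ci_dens` (HF).
-/

namespace VK

open Finset NumberField LVH

theorem dens_RB {K : Type} [Field K] [NumberField K] (L : Type) [Field L] [NumberField L] {n m g s e : ℕ} {ι : Type}
    [Fintype ι] [DecidableEq ι] [Nonempty ι] (hm : m ≤ s) (ν : Fin s → ℕ) (hν : ∀ j, 1 ≤ ν j) (hs : m + 1 ≤ ∑ j, ν j)
    (d : Fin s → Fin g → ℕ) (E : Fin s → ι → Fin n → ℤ) (ω : Module.Basis (Fin e) ℤ (𝓞 K)) :
    DensK L 11 (RB (m := m) ν d E ω) (1 / 20) := by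
  classical
  intro p hpp hp _ π u z hu
  have : Fact p.Prime := ⟨hpp⟩
  choose t₀ ht₀ using fun j => bT_ne (E j) (d j) u hu z
  have hw : (fun k => res π ((ω k : 𝓞 K) : K)) ≠ 0 := w_ne (π := π) ω fun k => rd_res (int_mem π (ω k))
  obtain ⟨k₀, hk₀⟩ := Function.ne_iff.1 hw
  have hk₀' : res π ((ω k₀ : 𝓞 K) : K) ≠ 0 := hk₀
  let f : (IxM ι m ν d × Fin e → ZMod p) →+ ((Σ j, MWS.Mo m (ν j)) → ZMod p) :=
    { toFun := fun c t => ∑ q : IxT ι (d t.1), ∑ k : Fin e, c (⟨t.1, (t.2, q)⟩, k) *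
        (res π ((ω k : 𝓞 K) : K) * bT (E t.1) u z q)
      map_zero' := by
        funext t
        exact Finset.sum_eq_zero fun q _ => Finset.sum_eq_zero fun k _ => zero_mul _
      map_add' := fun c c' => by
        funext t
        show ∑ q : IxT ι (d t.1), ∑ k : Fin e, (c (⟨t.1, (t.2, q)⟩, k) + c' (⟨t.1, (t.2, q)⟩, k)) *
            (res π ((ω k : 𝓞 K) : K) * bT (E t.1) u z q) =
          (∑ q : IxT ι (d t.1), ∑ k : Fin e, c (⟨t.1, (t.2, q)⟩, k) *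
            (res π ((ω k : 𝓞 K) : K) * bT (E t.1) u z q)) +
          ∑ q : IxT ι (d t.1), ∑ k : Fin e, c' (⟨t.1, (t.2, q)⟩, k) *
            (res π ((ω k : 𝓞 K) : K) * bT (E t.1) u z q)
        rw [← Finset.sum_add_distrib]
        refine Finset.sum_congr rfl fun q _ => ?_
        rw [← Finset.sum_add_distrib]
        exact Finset.sum_congr rfl fun k _ => add_mul _ _ _ }
  have hf : ∀ c t, f c t = ∑ q : IxT ι (d t.1), ∑ k : Fin e, c (⟨t.1, (t.2, q)⟩, k) *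
        (res π ((ω k : 𝓞 K) : K) * bT (E t.1) u z q) := fun c t => rfl
  have hs' : Function.Surjective f := by
    intro y
    refine ⟨fun t => if t.1.2.2 = t₀ t.1.1 ∧ t.2 = k₀ then y ⟨t.1.1, t.1.2.1⟩ *
      (res π ((ω k₀ : 𝓞 K) : K) * bT (E t.1.1) u z (t₀ t.1.1))⁻¹ else 0, ?_⟩
    funext t
    rw [hf]
    rw [Finset.sum_eq_single (t₀ t.1)]
    · rw [Finset.sum_eq_single k₀]
      · show (if t₀ t.1 = t₀ t.1 ∧ k₀ = k₀ then y ⟨t.1, t.2⟩ *
          (res π ((ω k₀ : 𝓞 K) : K) * bT (E t.1) u z (t₀ t.1))⁻¹ else 0) *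
            (res π ((ω k₀ : 𝓞 K) : K) * bT (E t.1) u z (t₀ t.1)) = y t
        rw [if_pos ⟨rfl, rfl⟩, mul_assoc, inv_mul_cancel₀ (mul_ne_zero hk₀' (ht₀ t.1)), mul_one]
      · intro k _ hk
        show (if t₀ t.1 = t₀ t.1 ∧ k = k₀ then y ⟨t.1, t.2⟩ *
          (res π ((ω k₀ : 𝓞 K) : K) * bT (E t.1) u z (t₀ t.1))⁻¹ else 0) *
            (res π ((ω k : 𝓞 K) : K) * bT (E t.1) u z (t₀ t.1)) = 0
        rw [if_neg (fun h => hk h.2), zero_mul]
      · intro h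
        exact absurd (Finset.mem_univ _) h
    · intro q _ hq
      refine Finset.sum_eq_zero fun k _ => ?_
      show (if q = t₀ t.1 ∧ k = k₀ then y ⟨t.1, t.2⟩ *
          (res π ((ω k₀ : 𝓞 K) : K) * bT (E t.1) u z (t₀ t.1))⁻¹ else 0) *
            (res π ((ω k : 𝓞 K) : K) * bT (E t.1) u z q) = 0
      rw [if_neg (fun h => hq h.1), zero_mul]
    · intro h
      exact absurd (Finset.mem_univ _) h
  have h1 := MWS.card_surj f hs' {w | ∃ y : Fin (m + 1) → ZMod p, y ≠ 0 ∧ ∀ j, ∑ a, w ⟨j, a⟩ * MWS.mo y a = 0}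
  have h2 := MWS.ci_dens (p := p) hp hm ν hν hs
  have hval : ∀ (c : IxM ι m ν d × Fin e → ZMod p) (y : Fin (m + 1) → ZMod p) (j : Fin s),
      sM E (fun t => ∑ k, c (t, k) * res π ((ω k : 𝓞 K) : K)) u z y j = ∑ a, f c ⟨j, a⟩ * MWS.mo y a := by
    intro c y j
    unfold sM
    rw [Fintype.sum_prod_type]
    refine Finset.sum_congr rfl fun a _ => ?_
    rw [hf, Finset.sum_mul]
    refine Finset.sum_congr rfl fun q _ => ?_
    rw [Finset.sum_mul, Finset.sum_mul]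
    refine Finset.sum_congr rfl fun k _ => ?_
    ring
  have h3 : Nat.card (RB (m := m) ν d E ω p π u z) = Nat.card {c : IxM ι m ν d × Fin e → ZMod p // f c ∈
      {w : (Σ j, MWS.Mo m (ν j)) → ZMod p | ∃ y : Fin (m + 1) → ZMod p, y ≠ 0 ∧
        ∀ j, ∑ a, w ⟨j, a⟩ * MWS.mo y a = 0}} := by
    refine Nat.card_congr (Equiv.subtypeEquivRight fun c => ?_)
    show (∃ _ : Fact p.Prime, ∃ y : Fin (m + 1) → ZMod p, y ≠ 0 ∧
        ∀ j, sM E (fun t => ∑ k, c (t, k) * res π ((ω k : 𝓞 K) : K)) u z y j = 0) ↔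
      ∃ y : Fin (m + 1) → ZMod p, y ≠ 0 ∧ ∀ j, ∑ a, f c ⟨j, a⟩ * MWS.mo y a = 0
    constructor
    · rintro ⟨_, y, hy, h⟩
      exact ⟨y, hy, fun j => (hval c y j).symm.trans (h j)⟩
    · rintro ⟨y, hy, h⟩
      exact ⟨this, y, hy, fun j => (hval c y j).trans (h j)⟩
  rw [← h3] at h1
  have hp0 : (0 : ℝ) < (p : ℝ) ^ Fintype.card (Σ j, MWS.Mo m (ν j)) := by
    have : (0 : ℝ) < p := by exact_mod_cast hpp.pos
    positivity
  have h4 : (Nat.card (RB (m := m) ν d E ω p π u z) : ℝ) * (p : ℝ) ^ Fintype.card (Σ j, MWS.Mo m (ν j)) =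
      (Nat.card {w : (Σ j, MWS.Mo m (ν j)) → ZMod p // ∃ y : Fin (m + 1) → ZMod p, y ≠ 0 ∧
        ∀ j, ∑ a, w ⟨j, a⟩ * MWS.mo y a = 0} : ℝ) * (p : ℝ) ^ Fintype.card (IxM ι m ν d × Fin e) := by
    exact_mod_cast h1
  refine le_of_mul_le_mul_right ?_ hp0
  rw [h4]
  calc _ ≤ ((1 - 1 / 20) * (p : ℝ) ^ Fintype.card (Σ j, MWS.Mo m (ν j))) *
          (p : ℝ) ^ Fintype.card (IxM ι m ν d × Fin e) :=
        mul_le_mul_of_nonneg_right h2 (by positivity)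
    _ = _ := by ring

end VK
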