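import Pool.Agent.Lib.MP_17a322_ntVK.SD0

/-!
# LEAF SD6: translation between the elementary statements and the points of the group (as `GP_pt`, `GP_le` of `MP_10e784_agBG/GP`)

PROOF of `pt_iff`: `EK_nons` (`2 ≠ 0` in `K`), choose a point for every `l`; `EK_eqn` for the converse.  `box_le`: both sets are finite (subsets of boxes: the coordinates are in `Icc`), injection.
-/

namespace VK

open Finset NumberField LVH

theorem pt_iff {K : Type} [Field K] [CharZero K] {g : ℕ} {A B : Fin g → K} (hd : ∀ l, ds (A l) (B l) ≠ 0)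
    (Φ : (Fin g → Option (K × K)) → Prop) :
    (∃ P, (∀ l, IsPt (A l) (B l) (P l)) ∧ Φ P) ↔ ∃ P : (l : Fin g) → Pt (A l) (B l), Φ (fun l => opK (P l)) := by
  classical
  have hsur : ∀ l, ∀ P : Option (K × K), IsPt (A l) (B l) P → ∃ Q : Pt (A l) (B l), opK Q = P := by
    intro l P hP
    rcases P with _ | z
    · exact ⟨.zero, rfl⟩
    · exact ⟨.some z.1 z.2 ((EK_nons (A l) (B l) two_ne_zero (hd l) z.1 z.2).2 hP), rfl⟩
  have hpt : ∀ l, ∀ Q : Pt (A l) (B l), IsPt (A l) (B l) (opK Q) := by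
    intro l Q
    rcases Q with _ | ⟨x, y, h⟩
    · exact trivial
    · exact (EK_eqn (A l) (B l) x y).1 h.1
  constructor
  · rintro ⟨P, h1, h2⟩
    choose Q hQ using fun l => hsur l (P l) (h1 l)
    refine ⟨Q, ?_⟩
    have e : (fun l => opK (Q l)) = P := funext hQ
    rw [e]
    exact h2
  · rintro ⟨Q, h2⟩
    exact ⟨fun l => opK (Q l), fun l => hpt l (Q l), h2⟩

theorem box_le {K : Type} [Field K] [NumberField K] {e g : ℕ} {τ : Type} [Fintype τ] (ω : Fin e → 𝓞 K) (H : ℕ)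
    (Q Q' : Cv e g × (τ → ℤ) → Prop) (h : ∀ z, Box ω H z → Q z → Q' z) :
    Nat.card {z : Cv e g × (τ → ℤ) // Box ω H z ∧ Q z} ≤ Nat.card {z : Cv e g × (τ → ℤ) // Box ω H z ∧ Q' z} := by
  have hfin : Finite {z : Cv e g × (τ → ℤ) // Box ω H z ∧ Q' z} := by
    let f : {z : Cv e g × (τ → ℤ) // Box ω H z ∧ Q' z} →
        (Fin g → (Fin e → (Icc (-(H : ℤ) ^ 2) ((H : ℤ) ^ 2) : Finset ℤ)) ×
          (Fin e → (Icc (-(H : ℤ) ^ 3) ((H : ℤ) ^ 3) : Finset ℤ))) × (τ → (Icc (-(H : ℤ)) H : Finset ℤ)) :=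
      fun z => (fun l => (fun i => ⟨(z.1.1 l).1 i, mem_Icc.2 (abs_le.1 ((z.2.1.1 l).2.1 i))⟩,
        fun i => ⟨(z.1.1 l).2 i, mem_Icc.2 (abs_le.1 ((z.2.1.1 l).2.2 i))⟩),
        fun i => ⟨z.1.2 i, mem_Icc.2 (abs_le.1 (z.2.1.2 i))⟩)
    refine Finite.of_injective f fun a b hab => ?_
    have h1 : a.1.1 = b.1.1 := by
      funext l
      refine Prod.ext (funext fun i => ?_) (funext fun i => ?_)
      · exact congrArg (fun w => ((w.1 l).1 i : ℤ)) hab
      · exact congrArg (fun w => ((w.1 l).2 i : ℤ)) hab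
    have h2 : a.1.2 = b.1.2 := by
      funext i
      exact congrArg (fun w => (w.2 i : ℤ)) hab
    exact Subtype.ext (Prod.ext h1 h2)
  refine Nat.card_le_card_of_injective (fun z => ⟨z.1, z.2.1, h z.1 z.2.1 z.2.2⟩) ?_
  intro a b hab
  exact Subtype.ext (congrArg (fun w => w.1) hab)

end VK
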