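import Pool.Agent.Lib.MP_17a322_ntVK.SC2
import Pool.Agent.Lib.MP_17a322_ntVK.SD2
import Pool.Agent.Lib.MP_17a322_ntVK.SD3
import Pool.Agent.Lib.MP_17a322_ntVK.SD4
import Pool.Agent.Lib.MP_17a322_ntVK.SD5
import Pool.Agent.Lib.MP_17a322_ntVK.SD6

/-!
# The two families over a number field (assembly)
-/

namespace VK

open Finset NumberField LVH

/-- cyclic covers of prime degree `q`, over the sieve with the primes of degree one in an extension containing the roots of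
unity -/
theorem cover_q (K : Type) [Field K] [NumberField K] [DecidableEq K] (hFR : FactRK K) (hFQ : MWS.FactQ) {q : ℕ}
    (hq : q.Prime) : ∃ c : ℝ, 0 < c ∧ ∀ (e : ℕ) (ω : Module.Basis (Fin e) ℤ (𝓞 K)) (Γ : Subgroup Kˣ), Γ.FG →
    ∀ (n g : ℕ) (ι : Type) [Fintype ι] [DecidableEq ι] [Nonempty ι] (E : ι → Fin n → ℤ) (d : Fin g → ℕ),
    (∀ l, 1 ≤ d l) → (∀ l, q ∣ 2 * d l) → ∃ C : ℝ, ∀ H : ℕ, 1 ≤ H →
    (Nat.card {z : Cv e g × (IxT ι d × Fin e → ℤ) // Box ω H z ∧ ∃ x : Fin n → Kˣ, (∀ l, x l ∈ Γ) ∧ ∃ γ ∈ Γ,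
      ∃ (P : Fin g → Option (K × K)) (w : K), (∀ l, IsPt (cA ω (z.1 l)) (cB ω (z.1 l)) (P l)) ∧
      (γ : K) * w ^ q = ∑ t, cf ω z.2 t * bT E (fun l => (x l : K)) P t} : ℝ) ≤
      C * (H : ℝ) ^ (e * (Fintype.card (IxT ι d) + 5 * g)) * Real.exp (-(Real.log H) ^ c) := by
  have hqz : NeZero q := ⟨hq.ne_zero⟩
  obtain ⟨c, hc, h⟩ := coreK K hFR hFQ (CyclotomicField q K)
  refine ⟨c, hc, fun e ω Γ hΓ n g ι _ _ _ E d hd hqd => ?_⟩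
  obtain ⟨C, hC⟩ := h e ω Γ hΓ (n + 1) g (q + 3) (Fintype.card (IxT ι d × Fin e)) (1 / 3) (by norm_num) (by norm_num)
  refine ⟨C, fun H hH => ?_⟩
  have h1 := hC H hH (IxT ι d × Fin e) rfl (RA q E d ω)
    (dens_RA hq (IsCyclotomicExtension.zeta_spec q K (CyclotomicField q K)) E d ω)
  have e1 : Fintype.card (IxT ι d × Fin e) + 5 * e * g = e * (Fintype.card (IxT ι d) + 5 * g) := by
    rw [Fintype.card_prod, Fintype.card_fin]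
    ring
  rw [e1] at h1
  refine le_trans ?_ h1
  have h2 := box_le (⇑ω) H
    (fun z : Cv e g × (IxT ι d × Fin e → ℤ) => ∃ x : Fin n → Kˣ, (∀ l, x l ∈ Γ) ∧ ∃ γ ∈ Γ,
      ∃ (P : Fin g → Option (K × K)) (w : K), (∀ l, IsPt (cA ω (z.1 l)) (cB ω (z.1 l)) (P l)) ∧
      (γ : K) * w ^ q = ∑ t, cf ω z.2 t * bT E (fun l => (x l : K)) P t)
    (fun z => ∃ x : Fin (n + 1) → Kˣ, (∀ l, x l ∈ Γ) ∧ ∃ P : (l : Fin g) → Pt (cA ω (z.1 l)) (cB ω (z.1 l)),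
      AdmK (CyclotomicField q K) (q + 3) (RA q E d ω) (A := fun l => cA ω (z.1 l)) (B := fun l => cB ω (z.1 l)) z.2 x P)
    (by
      rintro z hz ⟨x, hx, γ, hγ, P, w, hP, hw⟩
      have hds : ∀ l, ds (cA ω (z.1 l)) (cB ω (z.1 l)) ≠ 0 := by
        intro l h0
        refine (hz.1 l).1 ?_
        apply RingOfIntegers.coe_injective
        rw [map_zero]
        rw [← h0]
        simp only [ds, cA, cB, map_add, map_mul, map_pow, map_ofNat]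
      obtain ⟨Q, hQ⟩ := (pt_iff hds (fun P => (γ : K) * w ^ q =
        ∑ t, cf ω z.2 t * bT E (fun l => (x l : K)) P t)).1 ⟨P, hP, hw⟩
      refine ⟨Fin.snoc x γ, fun l => ?_, Q, ?_⟩
      · refine Fin.lastCases ?_ (fun i => ?_) l
        · rw [Fin.snoc_last]
          exact hγ
        · rw [Fin.snoc_castSucc]
          exact hx i
      · refine adm_RA (CyclotomicField q K) (q + 3) hq.one_le E hd hqd ω z.2 (Fin.snoc x γ) Q w ?_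
        simp only [Fin.snoc_last, Fin.snoc_castSucc]
        exact hQ)
  exact_mod_cast h2

/-- cyclic covers of degree `r` -/
theorem covers (K : Type) [Field K] [NumberField K] [DecidableEq K] (hFR : FactRK K) (hFQ : MWS.FactQ) {r : ℕ}
    (hr : 2 ≤ r) : ∃ c : ℝ, 0 < c ∧ ∀ (e : ℕ) (ω : Module.Basis (Fin e) ℤ (𝓞 K)) (Γ : Subgroup Kˣ), Γ.FG →
    ∀ (n g : ℕ) (ι : Type) [Fintype ι] [DecidableEq ι] [Nonempty ι] (E : ι → Fin n → ℤ) (d : Fin g → ℕ),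
    (∀ l, 1 ≤ d l) → (∀ l, r ∣ 2 * d l) → ∃ C : ℝ, ∀ H : ℕ, 1 ≤ H →
    (Nat.card {z : Cv e g × (IxT ι d × Fin e → ℤ) // Box ω H z ∧ ∃ x : Fin n → Kˣ, (∀ l, x l ∈ Γ) ∧ ∃ γ ∈ Γ,
      ∃ (P : Fin g → Option (K × K)) (w : K), (∀ l, IsPt (cA ω (z.1 l)) (cB ω (z.1 l)) (P l)) ∧
      (γ : K) * w ^ r = ∑ t, cf ω z.2 t * bT E (fun l => (x l : K)) P t} : ℝ) ≤
      C * (H : ℝ) ^ (e * (Fintype.card (IxT ι d) + 5 * g)) * Real.exp (-(Real.log H) ^ c) := by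
  obtain ⟨q, hq, k, rfl⟩ := Nat.exists_prime_and_dvd (n := r) (by omega)
  obtain ⟨c, hc, h⟩ := cover_q K hFR hFQ hq
  refine ⟨c, hc, fun e ω Γ hΓ n g ι _ _ _ E d hd hqd => ?_⟩
  obtain ⟨C, hC⟩ := h e ω Γ hΓ n g ι E d hd (fun l => (Dvd.intro k rfl).trans (hqd l))
  refine ⟨C, fun H hH => le_trans ?_ (hC H hH)⟩
  have h2 := box_le (⇑ω) H
    (fun z : Cv e g × (IxT ι d × Fin e → ℤ) => ∃ x : Fin n → Kˣ, (∀ l, x l ∈ Γ) ∧ ∃ γ ∈ Γ,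
      ∃ (P : Fin g → Option (K × K)) (w : K), (∀ l, IsPt (cA ω (z.1 l)) (cB ω (z.1 l)) (P l)) ∧
      (γ : K) * w ^ (q * k) = ∑ t, cf ω z.2 t * bT E (fun l => (x l : K)) P t)
    (fun z : Cv e g × (IxT ι d × Fin e → ℤ) => ∃ x : Fin n → Kˣ, (∀ l, x l ∈ Γ) ∧ ∃ γ ∈ Γ,
      ∃ (P : Fin g → Option (K × K)) (w : K), (∀ l, IsPt (cA ω (z.1 l)) (cB ω (z.1 l)) (P l)) ∧
      (γ : K) * w ^ q = ∑ t, cf ω z.2 t * bT E (fun l => (x l : K)) P t)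
    (by
      rintro z hz ⟨x, hx, γ, hγ, P, w, hP, hw⟩
      exact ⟨x, hx, γ, hγ, P, w ^ k, hP, by rw [← pow_mul, mul_comm k q]; exact hw⟩)
  exact_mod_cast h2

/-- complete intersections -/
theorem inters (K : Type) [Field K] [NumberField K] [DecidableEq K] (hFR : FactRK K) (hFQ : MWS.FactQ) :
    ∃ c : ℝ, 0 < c ∧ ∀ (e : ℕ) (ω : Module.Basis (Fin e) ℤ (𝓞 K)) (Γ : Subgroup Kˣ), Γ.FG →
    ∀ (n g m s : ℕ) (ι : Type) [Fintype ι] [DecidableEq ι] [Nonempty ι] (ν : Fin s → ℕ) (E : Fin s → ι → Fin n → ℤ)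
    (d : Fin s → Fin g → ℕ), m ≤ s → (∀ j, 1 ≤ ν j) → m + 1 ≤ ∑ j, ν j → (∀ j l, 1 ≤ d j l) →
    ∃ C : ℝ, ∀ H : ℕ, 1 ≤ H →
    (Nat.card {z : Cv e g × (IxM ι m ν d × Fin e → ℤ) // Box ω H z ∧ ∃ x : Fin n → Kˣ, (∀ l, x l ∈ Γ) ∧
      ∃ (P : Fin g → Option (K × K)) (u : Fin (m + 1) → K), (∀ l, IsPt (cA ω (z.1 l)) (cB ω (z.1 l)) (P l)) ∧ u ≠ 0 ∧
      ∀ j, sM E (cf ω z.2) (fun l => (x l : K)) P u j = 0} : ℝ) ≤
      C * (H : ℝ) ^ (e * (Fintype.card (IxM ι m ν d) + 5 * g)) * Real.exp (-(Real.log H) ^ c) := by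
  classical
  obtain ⟨c, hc, h⟩ := coreK K hFR hFQ K
  refine ⟨c, hc, fun e ω Γ hΓ n g m s ι _ _ _ ν E d hm hν hs hd => ?_⟩
  obtain ⟨C, hC⟩ := h e ω Γ hΓ n g 11 (Fintype.card (IxM ι m ν d × Fin e)) (1 / 20) (by norm_num) (by norm_num)
  refine ⟨C, fun H hH => ?_⟩
  have h1 := hC H hH (IxM ι m ν d × Fin e) rfl (RB (m := m) ν d E ω) (dens_RB K hm ν hν hs d E ω)
  have e1 : Fintype.card (IxM ι m ν d × Fin e) + 5 * e * g = e * (Fintype.card (IxM ι m ν d) + 5 * g) := by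
    rw [Fintype.card_prod, Fintype.card_fin]
    ring
  rw [e1] at h1
  refine le_trans ?_ h1
  have h2 := box_le (⇑ω) H
    (fun z : Cv e g × (IxM ι m ν d × Fin e → ℤ) => ∃ x : Fin n → Kˣ, (∀ l, x l ∈ Γ) ∧
      ∃ (P : Fin g → Option (K × K)) (u : Fin (m + 1) → K), (∀ l, IsPt (cA ω (z.1 l)) (cB ω (z.1 l)) (P l)) ∧ u ≠ 0 ∧
      ∀ j, sM E (cf ω z.2) (fun l => (x l : K)) P u j = 0)
    (fun z => ∃ x : Fin n → Kˣ, (∀ l, x l ∈ Γ) ∧ ∃ P : (l : Fin g) → Pt (cA ω (z.1 l)) (cB ω (z.1 l)),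
      AdmK K 11 (RB (m := m) ν d E ω) (A := fun l => cA ω (z.1 l)) (B := fun l => cB ω (z.1 l)) z.2 x P)
    (by
      rintro z hz ⟨x, hx, P, u, hP, hu, hw⟩
      have hds : ∀ l, ds (cA ω (z.1 l)) (cB ω (z.1 l)) ≠ 0 := by
        intro l h0
        refine (hz.1 l).1 ?_
        apply RingOfIntegers.coe_injective
        rw [map_zero]
        rw [← h0]
        simp only [ds, cA, cB, map_add, map_mul, map_pow, map_ofNat]
      obtain ⟨Q, hQ⟩ := (pt_iff hds (fun P => ∀ j, sM E (cf ω z.2) (fun l => (x l : K)) P u j = 0)).1 ⟨P, hP, hw⟩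
      exact ⟨x, hx, Q, adm_RB K 11 hd E ω z.2 x Q u hu hQ⟩)
  exact_mod_cast h2

end VK
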