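import Pool.Agent.Lib.MP_17a322_ntVK.SD0

/-!
# LEAF SD1: the values of the basis at a point and at its reduction (as `bv_red_sq` of `MP_10e784_agBG/GI1`)

PROOF of `bas_red`.  `P = O`: `σ = 1`, both values are `0` or `1`.  `P = (x, y)` with `x ∈ V`: `σ = 1`, `y ∈ V` (`den_xyK`, `EK_eqn`), `Rd.pow`, `Rd.mul`, `rd_res`.  `x ∉ V`: `x⁻¹ ∈ V` has residue `0` (`π.ker`).  `2 d = q m`, `t = x⁻¹`, `σ = (y t²) ^ m`.
`(y t²)² = t v`, `v = 1 + A t² + B t³` (the equation), so `σ ^ q = (y t²) ^ (2 d) = t ^ d v ^ d`; `v` has residue `1`, `y t² ∈ V` (`mem_pow` with the square) with residue `0` (its square is `0`).  `t ^ d x ^ i = t ^ (d - i)` has residue `1` if `i = d`, else `0`;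
`t ^ d x ^ i y = t ^ (d - i - 2) (y t²)` has residue `0` (`i ≤ d - 2`).  `σ ≠ 0`: `v ≠ 0` as its residue is `1`, `t ≠ 0` so `y ≠ 0`.
PROOF of `bas_ne`: `k = inl 0` for an affine point (value `1`), `inl (last)` for `none`.
-/

namespace VK

open Finset NumberField LVH

section

variable {K : Type} [Field K] {p : ℕ} [Fact p.Prime]

private theorem SD1_sq {π : Pl K p} {x : K} {r : ZMod p} (h : Rd π (x ^ 2) r) : Rd π x (res π x) ∧ res π x ^ 2 = r := by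
  have h1 : x ∈ π.V := mem_pow π (by norm_num) h.choose
  have h2 := rd_res h1
  exact ⟨h2, (h2.pow 2).unique h⟩

private theorem SD1_inv {π : Pl K p} {x : K} (hx : x ∉ π.V) : x ≠ 0 ∧ Rd π x⁻¹ 0 := by
  have h0 : x ≠ 0 := by
    rintro rfl
    exact hx π.V.zero_mem
  have h1 : x⁻¹ ∈ π.V := (π.V.mem_or_inv_mem x).resolve_left hx
  refine ⟨h0, h1, ?_⟩
  refine π.ker ⟨x⁻¹, h1⟩ ?_
  show (x⁻¹)⁻¹ ∉ π.V
  rw [inv_inv]
  exact hx

private theorem SD1_zpow {π : Pl K p} {x : K} (h1 : x ∈ π.V) (h2 : x⁻¹ ∈ π.V) (n : ℤ) :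
    Rd π (x ^ n) (res π x ^ n) := by
  have h3 := rd_res h1
  rcases n with n | n
  · show Rd π (x ^ ((n : ℕ) : ℤ)) (res π x ^ ((n : ℕ) : ℤ))
    rw [zpow_natCast, zpow_natCast]
    exact h3.pow n
  · rw [zpow_negSucc, zpow_negSucc, ← inv_pow, ← inv_pow]
    exact (h3.inv h2).pow (n + 1)

private theorem SD1_red {π : Pl K p} {A B : K} (hA : A ∈ π.V) (hB : B ∈ π.V) {d : ℕ} {x y : K}
    (he : y ^ 2 = x ^ 3 + A * x + B) (hx : x ∉ π.V) (k : RamCov.Ix d) :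
    Rd π ((x⁻¹) ^ d * RamCov.bas K d (some (x, y)) k) (RamCov.bas (ZMod p) d none k) := by
  obtain ⟨hx0, ht⟩ := SD1_inv hx
  obtain ⟨t, htdef⟩ : ∃ t, t = x⁻¹ := ⟨_, rfl⟩
  rw [← htdef] at ht ⊢
  have hxt : x * t = 1 := by rw [htdef]; exact mul_inv_cancel₀ hx0
  obtain ⟨s, hsdef⟩ : ∃ s, s = y * t ^ 2 := ⟨_, rfl⟩
  have hs2 : s ^ 2 = t + A * t ^ 3 + B * t ^ 4 := by
    have e1 : s ^ 2 = y ^ 2 * t ^ 4 := by rw [hsdef]; ring
    rw [e1, he]
    have e2 : x ^ 3 * t ^ 4 = t := by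
      have : x ^ 3 * t ^ 4 = (x * t) ^ 3 * t := by ring
      rw [this, hxt]; ring
    have e3 : x * t ^ 4 = t ^ 3 := by
      have : x * t ^ 4 = (x * t) * t ^ 3 := by ring
      rw [this, hxt]; ring
    linear_combination e2 + A * e3
  have hs2r : Rd π (s ^ 2) 0 := by
    rw [hs2]
    have h3 := (ht.add ((rd_res hA).mul (ht.pow 3))).add ((rd_res hB).mul (ht.pow 4))
    simpa using h3
  have hs : Rd π s 0 := by
    obtain ⟨h3, h4⟩ := SD1_sq hs2r
    have h5 : res π s = 0 := (pow_eq_zero_iff two_ne_zero).1 h4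
    rwa [h5] at h3
  rcases k with i | i
  · show Rd π (t ^ d * x ^ (i : ℕ)) (if i = Fin.last d then 1 else 0)
    have hi : (i : ℕ) ≤ d := Nat.lt_succ_iff.1 i.2
    have e4 : t ^ d * x ^ (i : ℕ) = t ^ (d - (i : ℕ)) := by
      have e5 : t ^ d = t ^ (i : ℕ) * t ^ (d - (i : ℕ)) := by rw [← pow_add, Nat.add_sub_cancel' hi]
      have e6 : x ^ (i : ℕ) * t ^ (i : ℕ) = 1 := by rw [← mul_pow, hxt, one_pow]
      rw [e5]
      linear_combination (t ^ (d - (i : ℕ))) * e6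
    rw [e4]
    by_cases hl : i = Fin.last d
    · have h6 : (i : ℕ) = d := by rw [hl]; rfl
      rw [if_pos hl, h6, Nat.sub_self, pow_zero]
      exact Rd.one
    · have h6 : (i : ℕ) < d := lt_of_le_of_ne hi fun h7 => hl (Fin.ext (by rw [h7]; rfl))
      rw [if_neg hl]
      have h7 := ht.pow (d - (i : ℕ))
      rwa [zero_pow (by omega)] at h7
  · show Rd π (t ^ d * (x ^ (i : ℕ) * y)) 0
    have hi : (i : ℕ) < d - 1 := i.2
    have hi2 : (i : ℕ) + 2 ≤ d := by omega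
    have e4 : t ^ d * (x ^ (i : ℕ) * y) = t ^ (d - ((i : ℕ) + 2)) * s := by
      have e5 : t ^ d = t ^ (i : ℕ) * t ^ 2 * t ^ (d - ((i : ℕ) + 2)) := by
        rw [← pow_add, ← pow_add, Nat.add_sub_cancel' hi2]
      have e6 : x ^ (i : ℕ) * t ^ (i : ℕ) = 1 := by rw [← mul_pow, hxt, one_pow]
      rw [e5, hsdef]
      linear_combination (t ^ 2 * y * t ^ (d - ((i : ℕ) + 2))) * e6
    rw [e4]
    have h7 := (ht.pow (d - ((i : ℕ) + 2))).mul hs
    rwa [mul_zero] at h7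

end

theorem bas_red {K : Type} [Field K] {p : ℕ} [Fact p.Prime] (π : Pl K p) {A B : K} (hA : A ∈ π.V) (hB : B ∈ π.V)
    {q d : ℕ} (hd : 1 ≤ d) (hq : q ∣ 2 * d) (P : Pt A B) : ∃ σ : K, σ ≠ 0 ∧ ∀ k : RamCov.Ix d,
      Rd π (σ ^ q * RamCov.bas K d (opK P) k) (RamCov.bas (ZMod p) d (rdK π P) k) := by
  classical
  rcases P with _ | ⟨x, y, hxy⟩
  · refine ⟨1, one_ne_zero, fun k => ?_⟩
    rw [one_pow, one_mul]
    rcases k with i | i
    · show Rd π (if i = Fin.last d then 1 else 0) (if i = Fin.last d then 1 else 0)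
      by_cases hi : i = Fin.last d
      · rw [if_pos hi, if_pos hi]
        exact Rd.one
      · rw [if_neg hi, if_neg hi]
        exact Rd.zero
    · exact Rd.zero
  · have he : y ^ 2 = x ^ 3 + A * x + B := (EK_eqn A B x y).1 hxy.1
    by_cases hx : x ∈ π.V
    · have h1 : rdK π (.some x y hxy : Pt A B) = some (res π x, res π y) := by
        unfold rdK
        exact if_pos hx
      rw [h1]
      have hy : y ∈ π.V := (den_xyK π hA hB he).1 hx
      refine ⟨1, one_ne_zero, fun k => ?_⟩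
      rw [one_pow, one_mul]
      rcases k with i | i
      · show Rd π (x ^ (i : ℕ)) (res π x ^ (i : ℕ))
        exact (rd_res hx).pow _
      · show Rd π (x ^ (i : ℕ) * y) (res π x ^ (i : ℕ) * res π y)
        exact ((rd_res hx).pow _).mul (rd_res hy)
    · have h1 : rdK π (.some x y hxy : Pt A B) = none := by
        unfold rdK
        exact if_neg hx
      rw [h1]
      obtain ⟨hx0, ht⟩ := SD1_inv hx
      have hxt : x * x⁻¹ = 1 := mul_inv_cancel₀ hx0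
      have ht0 : x⁻¹ ≠ 0 := inv_ne_zero hx0
      have hv : Rd π (1 + A * (x⁻¹) ^ 2 + B * (x⁻¹) ^ 3) 1 := by
        have h3 := (Rd.one.add ((rd_res hA).mul (ht.pow 2))).add ((rd_res hB).mul (ht.pow 3))
        simpa using h3
      have hv0 : 1 + A * (x⁻¹) ^ 2 + B * (x⁻¹) ^ 3 ≠ 0 := by
        intro h0
        rw [h0] at hv
        exact one_ne_zero (hv.unique Rd.zero)
      have hsq : (y * (x⁻¹) ^ 2) ^ 2 = x⁻¹ * (1 + A * (x⁻¹) ^ 2 + B * (x⁻¹) ^ 3) := by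
        have e1 : (y * (x⁻¹) ^ 2) ^ 2 = y ^ 2 * (x⁻¹) ^ 4 := by ring
        rw [e1, he]
        have e2 : x ^ 3 * (x⁻¹) ^ 4 = x⁻¹ := by
          have : x ^ 3 * (x⁻¹) ^ 4 = (x * x⁻¹) ^ 3 * x⁻¹ := by ring
          rw [this, hxt]; ring
        have e3 : x * (x⁻¹) ^ 4 = (x⁻¹) ^ 3 := by
          have : x * (x⁻¹) ^ 4 = (x * x⁻¹) * (x⁻¹) ^ 3 := by ring
          rw [this, hxt]; ring
        linear_combination e2 + A * e3
      have hs0 : y * (x⁻¹) ^ 2 ≠ 0 := by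
        intro h0
        rw [h0, zero_pow two_ne_zero] at hsq
        exact mul_ne_zero ht0 hv0 hsq.symm
      obtain ⟨m, hm⟩ := hq
      refine ⟨(y * (x⁻¹) ^ 2) ^ m, pow_ne_zero _ hs0, fun k => ?_⟩
      have e : ((y * (x⁻¹) ^ 2) ^ m) ^ q * RamCov.bas K d (opK (.some x y hxy : Pt A B)) k =
          (1 + A * (x⁻¹) ^ 2 + B * (x⁻¹) ^ 3) ^ d * ((x⁻¹) ^ d * RamCov.bas K d (some (x, y)) k) := by
        have e1 : ((y * (x⁻¹) ^ 2) ^ m) ^ q = ((y * (x⁻¹) ^ 2) ^ 2) ^ d := by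
          rw [← pow_mul, ← pow_mul, hm, mul_comm q m]
        rw [e1, hsq, mul_pow]
        show (x⁻¹) ^ d * (1 + A * (x⁻¹) ^ 2 + B * (x⁻¹) ^ 3) ^ d * RamCov.bas K d (some (x, y)) k = _
        ring
      rw [e]
      have h5 := (hv.pow d).mul (SD1_red (d := d) hA hB he hx k)
      rw [one_pow, one_mul] at h5
      exact h5

theorem bas_ne {F : Type} [Field F] {g : ℕ} (d : Fin g → ℕ) (z : Fin g → Option (F × F)) :
    ∃ k : RamCov.IxG d, ∏ l, RamCov.bas F (d l) (z l) (k l) = 1 := by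
  refine ⟨fun l => match z l with
    | none => .inl (Fin.last (d l))
    | some _ => .inl 0, ?_⟩
  refine Finset.prod_eq_one fun l _ => ?_
  rcases h : z l with _ | w
  · simp only [h]
    show (if Fin.last (d l) = Fin.last (d l) then (1 : F) else 0) = 1
    rw [if_pos rfl]
  · simp only [h]
    show w.1 ^ (((0 : Fin (d l + 1)) : ℕ)) = 1
    rw [Fin.val_zero, pow_zero]

/-- the values of the basis of the sections -/
theorem bT_ne {F : Type} [Field F] {n g : ℕ} {ι : Type} [Nonempty ι] (E : ι → Fin n → ℤ) (d : Fin g → ℕ) (u : Fin n → F)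
    (hu : ∀ l, u l ≠ 0) (z : Fin g → Option (F × F)) : ∃ t : IxT ι d, bT E u z t ≠ 0 := by
  obtain ⟨k, hk⟩ := bas_ne d z
  obtain ⟨i⟩ := (inferInstance : Nonempty ι)
  refine ⟨(i, k), ?_⟩
  unfold bT
  show (∏ l, u l ^ E i l) * (∏ l, RamCov.bas F (d l) (z l) (k l)) ≠ 0
  rw [hk, mul_one]
  exact Finset.prod_ne_zero_iff.2 fun l _ => zpow_ne_zero _ (hu l)

theorem bT_red {K : Type} [Field K] {p : ℕ} [Fact p.Prime] (π : Pl K p) {n g : ℕ} {A B : Fin g → K}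
    (hAB : ∀ l, A l ∈ π.V ∧ B l ∈ π.V) {q : ℕ} {d : Fin g → ℕ} (hd : ∀ l, 1 ≤ d l) (hq : ∀ l, q ∣ 2 * d l)
    (P : (l : Fin g) → Pt (A l) (B l)) {ι : Type} (E : ι → Fin n → ℤ) (x : Fin n → K) (hx : ∀ l, x l ∈ π.V)
    (hx' : ∀ l, (x l)⁻¹ ∈ π.V) : ∃ σ : K, σ ≠ 0 ∧ ∀ t : IxT ι d,
      Rd π (σ ^ q * bT E x (fun l => opK (P l)) t) (bT E (fun l => res π (x l)) (fun l => rdK π (P l)) t) := by
  choose s hs0 hs using fun l => bas_red π (hAB l).1 (hAB l).2 (hd l) (hq l) (P l)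
  refine ⟨∏ l, s l, Finset.prod_ne_zero_iff.2 fun l _ => hs0 l, fun t => ?_⟩
  have e1 : (∏ l, s l) ^ q * bT E x (fun l => opK (P l)) t =
      (∏ l, x l ^ E t.1 l) * ∏ l, (s l ^ q * RamCov.bas K (d l) (opK (P l)) (t.2 l)) := by
    unfold bT
    rw [Finset.prod_mul_distrib, Finset.prod_pow]
    ring
  rw [e1]
  unfold bT
  exact (Rd.prod _ fun l _ => SD1_zpow (hx l) (hx' l) _).mul (Rd.prod _ fun l _ => hs l (t.2 l))

end VK
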