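import Pool.Agent.Lib.MP_17a322_ntVK.RC2

/-!
LEAF RC3.  The number of integral forms in the region (model: the end of `Lib/MP_10e784_agBR/Cnt.lean`).
PROOF.  `C₀ = max C 1`.  Let `F` be in the set, `L = κ H`, `R` its scale.  Let `j` be the natural number with `C₀/2^(j+1) < R ≤ C₀/2^j` (`exists_nat_pow_near` for `C₀ / R ≥ 1`), `R' = C₀/2^j`, so `R ≤ R' ≤ 2 R`, `R' ≤ C₀`.
Then `F` is in `Bxs K M R'` with `M = 4 C κ H` (`w a ≤ C L R² ≤ C L R'²`; `w d ≤ C L / R ≤ 2 C L / R'`; `w e ≤ 4 C L / R'²`).  `1 ≤ M R'²` (`one_le_of_le` for `a`), so `4^j ≤ M C₀²`, `j < J` with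
`J = ⌊log (M C₀²)/log 4⌋₊ + 1 ≤ C' (1 + log H)`.  The set is contained in the union of the `Bxs K M (C₀/2^j)`, `j < J`: finite, `ncard ≤ J * C'' M^(5 e)` (`Set.ncard_iUnion_le`, or finsets and `Finset.card_biUnion_le`), and
`M^(5e) = (4 C κ)^(5 e) H^(5 e)`.
-/

namespace VK

open NumberField MWS

private theorem RC3_sub {K : Type} [Field K] [NumberField K] (C L : ℝ) (hC : 0 < C) (hL : 0 < L)
    (F : Qu (𝓞 K)) (ha : F.a ≠ 0) (h : RgK C L F) :
    ∃ j : ℕ, F ∈ Bxs K (4 * C * L) (max C 1 / 2 ^ j) ∧ (4 : ℝ) ^ j ≤ 4 * C * L * (max C 1) ^ 2 := by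
  obtain ⟨R, hR, hRC, hb⟩ := h
  have hC0 : 0 < max C 1 := lt_of_lt_of_le hC (le_max_left _ _)
  have hRC0 : R ≤ max C 1 := hRC.trans (le_max_left _ _)
  obtain ⟨j, hj1, hj2⟩ := exists_nat_pow_near (x := max C 1 / R) (y := 2)
    (by rw [le_div_iff₀ hR]; linarith) (by norm_num)
  have hT0 : (0 : ℝ) < 2 ^ j := by positivity
  have hRT : R ≤ max C 1 / 2 ^ j := by
    rw [le_div_iff₀ hR] at hj1
    rw [le_div_iff₀ hT0]
    linarith
  have hRT1 : max C 1 / 2 ^ j ≤ 2 * R := by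
    rw [div_lt_iff₀ hR, pow_succ] at hj2
    rw [div_le_iff₀ hT0]
    nlinarith
  set S : ℝ := max C 1 / 2 ^ j with hS
  have hS0 : 0 < S := lt_of_lt_of_le hR hRT
  have hCL : 0 < C * L := mul_pos hC hL
  have hmem : F ∈ Bxs K (4 * C * L) S := by
    refine ⟨ha, fun w => ?_⟩
    obtain ⟨h1, h2, h3, h4, h5⟩ := hb w
    have n4 : 0 ≤ w (F.d : K) := w.1.nonneg _
    have n5 : 0 ≤ w (F.e : K) := w.1.nonneg _
    refine ⟨?_, ?_, ?_, ?_, ?_⟩
    · calc w (F.a : K) ≤ C * L * R ^ 2 := h1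
        _ ≤ C * L * S ^ 2 := by gcongr
        _ ≤ 4 * C * L * S ^ 2 := by nlinarith [mul_pos hCL (pow_pos hS0 2)]
    · calc w (F.b : K) ≤ C * L * R := h2
        _ ≤ C * L * S := by gcongr
        _ ≤ 4 * C * L * S := by nlinarith [mul_pos hCL hS0]
    · nlinarith
    · rw [le_div_iff₀ hS0]
      calc w (F.d : K) * S ≤ w (F.d : K) * (2 * R) := by gcongr
        _ = 2 * (w (F.d : K) * R) := by ring
        _ ≤ 2 * (C * L) := by gcongr
        _ ≤ 4 * C * L := by nlinarith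
    · rw [le_div_iff₀ (pow_pos hS0 2)]
      calc w (F.e : K) * S ^ 2 ≤ w (F.e : K) * (2 * R) ^ 2 := by gcongr
        _ = 4 * (w (F.e : K) * R ^ 2) := by ring
        _ ≤ 4 * (C * L) := by gcongr
        _ = 4 * C * L := by ring
  refine ⟨j, hmem, ?_⟩
  have h1 : 1 ≤ 4 * C * L * S ^ 2 := one_le_of_le F.a ha _ (fun w => (hmem.2 w).1)
  have e4 : (4 : ℝ) ^ j = (2 ^ j) ^ 2 := by
    rw [← pow_mul, mul_comm, pow_mul]
    norm_num
  have hS2 : S * 2 ^ j = max C 1 := by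
    rw [hS]
    field_simp
  calc (4 : ℝ) ^ j = 1 * (2 ^ j) ^ 2 := by rw [e4, one_mul]
    _ ≤ (4 * C * L * S ^ 2) * (2 ^ j) ^ 2 := by gcongr
    _ = 4 * C * L * (S * 2 ^ j) ^ 2 := by ring
    _ = _ := by rw [hS2]

theorem count_regionK (K : Type) [Field K] [NumberField K] (C κ : ℝ) (hC : 0 < C) (hκ : 0 < κ) :
    ∃ C' : ℝ, 0 < C' ∧ ∀ H : ℕ, 1 ≤ H →
      ({F : Qu (𝓞 K) | F.a ≠ 0 ∧ RgK C (κ * H) F} : Set (Qu (𝓞 K))).Finite ∧
      (({F : Qu (𝓞 K) | F.a ≠ 0 ∧ RgK C (κ * H) F} : Set (Qu (𝓞 K))).ncard : ℝ) ≤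
        C' * (H : ℝ) ^ (5 * Module.finrank ℚ K) * (1 + Real.log H) := by
  classical
  have hC0 : 1 ≤ max C 1 := le_max_right _ _
  obtain ⟨D, hD, hcount⟩ := count_scale K (max C 1) hC0
  set A : ℝ := 4 * C * κ * (max C 1) ^ 2 with hA
  have hA0 : 0 < A := by positivity
  refine ⟨(1 + |Real.log A|) * (D * (4 * C * κ) ^ (5 * Module.finrank ℚ K)), by positivity, ?_⟩
  intro H hH
  have hH1 : (1 : ℝ) ≤ H := by exact_mod_cast hH
  have hH0 : (0 : ℝ) < H := by linarith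
  have hl0 : 0 ≤ Real.log H := Real.log_nonneg hH1
  have hL : 0 < κ * (H : ℝ) := mul_pos hκ hH0
  have hM0 : 0 < 4 * C * (κ * (H : ℝ)) := by positivity
  set J : ℕ := ⌊Real.log (A * H) / Real.log 4⌋₊ + 1 with hJ
  have hlog4 : 1 ≤ Real.log 4 := by
    have e : (4 : ℝ) = 2 ^ 2 := by norm_num
    rw [e, Real.log_pow]
    have := Real.log_two_gt_d9
    push_cast
    linarith
  have hlog40 : 0 < Real.log 4 := by linarith
  have hfin : ∀ j : ℕ, (Bxs K (4 * C * (κ * H)) (max C 1 / 2 ^ j)).Finite ∧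
      ((Bxs K (4 * C * (κ * H)) (max C 1 / 2 ^ j)).ncard : ℝ) ≤
        D * (4 * C * (κ * H)) ^ (5 * Module.finrank ℚ K) := by
    intro j
    refine hcount _ _ (by positivity) ?_ hM0
    exact div_le_self (by linarith) (one_le_pow₀ (by norm_num))
  set B : Finset (Qu (𝓞 K)) := (Finset.range J).biUnion (fun j => (hfin j).1.toFinset) with hB
  have hsub : ({F : Qu (𝓞 K) | F.a ≠ 0 ∧ RgK C (κ * H) F} : Set (Qu (𝓞 K))) ⊆
      (B : Set (Qu (𝓞 K))) := by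
    intro F hF
    obtain ⟨j, hm, hj⟩ := RC3_sub C (κ * H) hC hL F hF.1 hF.2
    rw [Finset.mem_coe, hB, Finset.mem_biUnion]
    refine ⟨j, Finset.mem_range.mpr ?_, ?_⟩
    · rw [hJ]
      refine Nat.lt_succ_of_le (Nat.le_floor ?_)
      rw [le_div_iff₀ hlog40, ← Real.log_pow]
      refine Real.log_le_log (by positivity) (hj.trans (le_of_eq ?_))
      rw [hA]
      ring
    · rw [Set.Finite.mem_toFinset]
      exact hm
  refine ⟨B.finite_toSet.subset hsub, ?_⟩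
  have h1 : ({F : Qu (𝓞 K) | F.a ≠ 0 ∧ RgK C (κ * H) F} : Set (Qu (𝓞 K))).ncard ≤ B.card := by
    have := Set.ncard_le_ncard hsub B.finite_toSet
    rwa [Set.ncard_coe_finset] at this
  have h2 : (B.card : ℝ) ≤ ∑ j ∈ Finset.range J, (((hfin j).1.toFinset).card : ℝ) := by
    rw [hB]
    exact_mod_cast Finset.card_biUnion_le
  have h3 : ∑ j ∈ Finset.range J, (((hfin j).1.toFinset).card : ℝ) ≤
      (J : ℝ) * (D * (4 * C * (κ * H)) ^ (5 * Module.finrank ℚ K)) := by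
    refine (Finset.sum_le_card_nsmul _ _ (D * (4 * C * (κ * H)) ^ (5 * Module.finrank ℚ K))
      (fun j _ => ?_)).trans (le_of_eq ?_)
    · rw [← Set.ncard_eq_toFinset_card _ (hfin j).1]
      exact (hfin j).2
    · rw [Finset.card_range, nsmul_eq_mul]
  have h4 : (J : ℝ) ≤ (1 + |Real.log A|) * (1 + Real.log H) := by
    have h5 : Real.log (A * H) / Real.log 4 ≤ |Real.log A| + Real.log H := by
      rw [Real.log_mul hA0.ne' hH0.ne', div_le_iff₀ hlog40]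
      have := le_abs_self (Real.log A)
      have h6 : 0 ≤ |Real.log A| + Real.log H := add_nonneg (abs_nonneg _) hl0
      nlinarith
    have h7 : (⌊Real.log (A * H) / Real.log 4⌋₊ : ℝ) ≤ |Real.log A| + Real.log H := by
      have h8 : ⌊Real.log (A * H) / Real.log 4⌋₊ ≤ ⌊|Real.log A| + Real.log H⌋₊ :=
        Nat.floor_le_floor h5
      have h9 : ((⌊|Real.log A| + Real.log H⌋₊ : ℕ) : ℝ) ≤ |Real.log A| + Real.log H :=
        Nat.floor_le (add_nonneg (abs_nonneg _) hl0)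
      calc (⌊Real.log (A * H) / Real.log 4⌋₊ : ℝ) ≤ ((⌊|Real.log A| + Real.log H⌋₊ : ℕ) : ℝ) := by
            exact_mod_cast h8
        _ ≤ _ := h9
    have h10 : (J : ℝ) = (⌊Real.log (A * H) / Real.log 4⌋₊ : ℝ) + 1 := by
      rw [hJ]
      push_cast
      ring
    rw [h10]
    nlinarith [mul_nonneg (abs_nonneg (Real.log A)) hl0]
  calc (({F : Qu (𝓞 K) | F.a ≠ 0 ∧ RgK C (κ * H) F} : Set (Qu (𝓞 K))).ncard : ℝ)
      ≤ (B.card : ℝ) := by exact_mod_cast h1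
    _ ≤ _ := h2
    _ ≤ _ := h3
    _ ≤ ((1 + |Real.log A|) * (1 + Real.log H)) *
        (D * (4 * C * (κ * H)) ^ (5 * Module.finrank ℚ K)) :=
        mul_le_mul_of_nonneg_right h4 (by positivity)
    _ = (1 + |Real.log A|) * (D * (4 * C * κ) ^ (5 * Module.finrank ℚ K)) *
        (H : ℝ) ^ (5 * Module.finrank ℚ K) * (1 + Real.log H) := by
        have e : 4 * C * (κ * (H : ℝ)) = (4 * C * κ) * H := by ring
        rw [e, mul_pow]
        ring

end VK
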