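import Pool.Agent.Lib.MP_17a322_ntVK.RH

/-!
LEAF RF.  A curve with few forms has few classes modulo 2 (model: `Lib/MP_10e784_agBR/Few.lean`, `few_of_card`).
PROOF.  Every point `P = (x, y)` which is not in `2 E(K)` has a form in `S`: `hmod` gives `F`; `F.a ≠ 0` by `two_of_relK` (the first coefficient of `(mp F).sm c⁻¹` is `c⁻¹ F.a`); `F.I = - 48 c² A`, `F.J = - 1728 c³ B` by `RelK.I_eq`,
`RelK.J_eq`, `Qu.I_sm`, `Qu.J_sm`, `mp_I`, `mp_J`, `fP_I`, `fP_J` and the injectivity of `𝓞 K → K`.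
For every `G` in `S` choose a point `P_G = (x, y)` with `RelK (fP A x y) ((mp G).sm c⁻¹)` if there is one, else `P_G = 0`.  The set `{0} ∪ {P_G : G ∈ S}` has at most `2 ^ t` elements; enumerate it by `r : Fin (2 ^ t) → Pt`.
Every `P`: if `P = 2 • U` then `P = 0 + 2 • U`.  Otherwise `P = (x', y')`, with `G` in `S`, `P_G = (x, y)`, so `RelK (fP A x y) (fP A x' y')` (`RelK.trans`, `RelK.symm`) and `cls_of_relK` gives `P = P_G + 2 • U`.
-/

namespace VK

open NumberField MWS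

private theorem RF_enum {X : Type*} [DecidableEq X] (x₀ : X) (T : Finset X) (N : ℕ)
    (h : T.card ≤ N) : ∃ r : Fin N → X, ∀ x ∈ T, ∃ i, r i = x := by
  refine ⟨fun i => if hi : (i : ℕ) < T.card then (T.equivFin.symm ⟨i, hi⟩).1 else x₀, ?_⟩
  intro x hx
  have h1 : ((T.equivFin ⟨x, hx⟩ : Fin T.card) : ℕ) < T.card := (T.equivFin ⟨x, hx⟩).2
  refine ⟨⟨(T.equivFin ⟨x, hx⟩ : Fin T.card), lt_of_lt_of_le h1 h⟩, ?_⟩
  simp only [h1, dif_pos, Fin.eta, Equiv.symm_apply_apply]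

/-- a form in the region for a point which is not twice a point -/
private theorem RF_form {K : Type} [Field K] [NumberField K] [DecidableEq K] (c : ℕ) (hc : 0 < c) (C L : ℝ)
    (A B : 𝓞 K) (hd : ds A B ≠ 0)
    (hmod : ∀ x y : K, y ^ 2 = x ^ 3 + (A : K) * x + (B : K) →
      ∃ F : Qu (𝓞 K), RelK (fP (A : K) x y) ((mp (algebraMap (𝓞 K) K) F).sm (c : K)⁻¹) ∧ RgK C L F)
    (x y : K) (h : (EK (A : K) (B : K)).toAffine.Nonsingular x y)
    (hn : ¬ ∃ U : Pt (A : K) (B : K), (.some x y h : Pt (A : K) (B : K)) = 2 • U) :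
    ∃ F : Qu (𝓞 K), (F.a ≠ 0 ∧ RgK C L F ∧ F.I = -48 * (c : 𝓞 K) ^ 2 * A ∧ F.J = -1728 * (c : 𝓞 K) ^ 3 * B) ∧
      RelK (fP (A : K) x y) ((mp (algebraMap (𝓞 K) K) F).sm (c : K)⁻¹) := by
  have hc0 : (c : K) ≠ 0 := Nat.cast_ne_zero.2 hc.ne'
  have hinj : Function.Injective (algebraMap (𝓞 K) K) := FaithfulSMul.algebraMap_injective (𝓞 K) K
  have hdK : ds (A : K) (B : K) ≠ 0 := by
    intro h0
    apply hd
    apply hinj
    rw [map_zero, ← h0]
    unfold ds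
    simp only [map_add, map_mul, map_pow, map_ofNat]
  have he : y ^ 2 = x ^ 3 + (A : K) * x + (B : K) := (RK_eqn (A : K) (B : K) x y).1 h.1
  obtain ⟨F, hF, hR⟩ := hmod x y he
  refine ⟨F, ⟨?_, hR, ?_, ?_⟩, hF⟩
  · intro h0
    apply hn
    refine two_of_relK hdK x y h _ hF ?_
    show (c : K)⁻¹ * algebraMap (𝓞 K) K F.a = 0
    rw [h0, map_zero, mul_zero]
  · apply hinj
    have h1 := hF.I_eq
    rw [fP_I, Qu.I_sm, mp_I, inv_pow, inv_mul_eq_iff_eq_mul₀ (pow_ne_zero 2 hc0)] at h1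
    rw [h1, map_mul, map_mul, map_pow, map_natCast, map_neg, map_ofNat]
    ring
  · apply hinj
    have h1 := hF.J_eq
    rw [fP_J _ _ _ _ he, Qu.J_sm, mp_J, inv_pow, inv_mul_eq_iff_eq_mul₀ (pow_ne_zero 3 hc0)] at h1
    rw [h1, map_mul, map_mul, map_pow, map_natCast, map_neg, map_ofNat]
    ring

theorem few_of_cardK {K : Type} [Field K] [NumberField K] [DecidableEq K] (c : ℕ) (hc : 0 < c) (C L : ℝ)
    (A B : 𝓞 K) (hd : ds A B ≠ 0)
    (hmod : ∀ x y : K, y ^ 2 = x ^ 3 + (A : K) * x + (B : K) →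
      ∃ F : Qu (𝓞 K), RelK (fP (A : K) x y) ((mp (algebraMap (𝓞 K) K) F).sm (c : K)⁻¹) ∧ RgK C L F)
    (S : Finset (Qu (𝓞 K)))
    (hS : ∀ F : Qu (𝓞 K), F.a ≠ 0 → RgK C L F → F.I = -48 * (c : 𝓞 K) ^ 2 * A → F.J = -1728 * (c : 𝓞 K) ^ 3 * B → F ∈ S)
    (t : ℕ) (h : S.card + 1 ≤ 2 ^ t) : FewK (A : K) (B : K) t := by
  classical
  have hinj : Function.Injective (algebraMap (𝓞 K) K) := FaithfulSMul.algebraMap_injective (𝓞 K) K
  have hdK : ds (A : K) (B : K) ≠ 0 := by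
    intro h0
    apply hd
    apply hinj
    rw [map_zero, ← h0]
    unfold ds
    simp only [map_add, map_mul, map_pow, map_ofNat]
  -- the chosen points
  let Good : Qu (𝓞 K) → Pt (A : K) (B : K) → Prop := fun G P =>
    ∃ (x y : K) (hh : (EK (A : K) (B : K)).toAffine.Nonsingular x y),
      P = .some x y hh ∧ RelK (fP (A : K) x y) ((mp (algebraMap (𝓞 K) K) G).sm (c : K)⁻¹)
  let pt : Qu (𝓞 K) → Pt (A : K) (B : K) := fun G => if hG : ∃ P, Good G P then hG.choose else 0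
  have hpt : ∀ G, (∃ P, Good G P) → Good G (pt G) := by
    intro G hG
    have h1 : pt G = hG.choose := dif_pos hG
    rw [h1]
    exact hG.choose_spec
  have hcard : (insert (0 : Pt (A : K) (B : K)) (S.image pt)).card ≤ 2 ^ t := by
    refine le_trans (Finset.card_insert_le _ _) (le_trans ?_ h)
    exact Nat.add_le_add_right Finset.card_image_le 1
  obtain ⟨r, hr⟩ := RF_enum (0 : Pt (A : K) (B : K)) _ _ hcard
  refine ⟨r, fun P => ?_⟩
  by_cases h2 : ∃ U : Pt (A : K) (B : K), P = 2 • U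
  · obtain ⟨U, hU⟩ := h2
    obtain ⟨i, hi⟩ := hr 0 (Finset.mem_insert_self _ _)
    exact ⟨i, U, by rw [hi, zero_add, hU]⟩
  · match P, h2 with
    | .zero, h2 => exact absurd ⟨0, (smul_zero 2).symm⟩ h2
    | .some x' y' h', h2 =>
      obtain ⟨G, hG, hrel⟩ := RF_form c hc C L A B hd hmod x' y' h' h2
      obtain ⟨x, y, hh, hP, hrel'⟩ := hpt G ⟨_, x', y', h', rfl, hrel⟩
      have hmem : pt G ∈ insert (0 : Pt (A : K) (B : K)) (S.image pt) :=
        Finset.mem_insert_of_mem (Finset.mem_image_of_mem pt (hS G hG.1 hG.2.1 hG.2.2.1 hG.2.2.2))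
      obtain ⟨i, hi⟩ := hr _ hmem
      obtain ⟨U, hU⟩ := cls_of_relK hdK x y hh x' y' h' (hrel'.trans hrel.symm)
      exact ⟨i, U, by rw [hi, hP]; exact hU⟩

end VK
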