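import Pool.Agent.Lib.MP_17a322_ntVK.RE
import Pool.Agent.Lib.MP_17a322_ntVK.RC3
import Pool.Agent.Lib.MP_17a322_ntVK.RF

/-!
LEAF RMain.  The average (model: `Lib/MP_10e784_agBR/Main.lean`, `factR`).
PROOF.  `ω` given, `κ = max 1 (∑_i ∑_w w (ω i))`: if all coordinates of `A` are at most `H²` then `w A ≤ κ H² ≤ (κ H)²`, and `w B ≤ κ H³ ≤ (κ H)³`.  `c, C` from `exists_reducedK`, `L = κ H`; `S_H` the finite set of `count_regionK`
(with `C`, `κ`).  For a bad `z`, `A = el ω z.1`, `B = el ω z.2`, the set `S_(A,B)` of the forms in `S_H` with the invariants `(- 48 c² A, - 1728 c³ B)` has at least `2 ^ t` elements (`few_of_cardK` with the finset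
`S_H.filter ..`).  These subsets of `S_H` are disjoint for different `z` (`z ↦ (A, B)` is injective because `ω` is a basis; `- 48 c² ≠ 0`), so `2 ^ t * #bad ≤ #S_H ≤ C' H^(5 e) (1 + log H)`, `k = 1`
(`Finset.sum_card_fiberwise_eq_card_filter`).  `finrank ℚ K = e` (`RingOfIntegers.rank`, `Module.finrank_eq_card_basis`).  The set of bad `z` is finite (a box).
-/

namespace VK

open NumberField MWS

/-- the absolute values of an element with small coordinates -/
private theorem RMain_size {K : Type} [Field K] [NumberField K] {e : ℕ} (ω : Module.Basis (Fin e) ℤ (𝓞 K)) :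
    ∃ κ : ℝ, 1 ≤ κ ∧ ∀ (c : Fin e → ℤ) (T : ℤ), (∀ i, |c i| ≤ T) →
      ∀ w : InfinitePlace K, w ((el ω c : 𝓞 K) : K) ≤ κ * (T : ℝ) ∨ T < 0 := by
  have h0 : ∀ i, 0 ≤ ∑ w : InfinitePlace K, w (ω i : K) := fun i =>
    Finset.sum_nonneg fun w _ => apply_nonneg w _
  refine ⟨1 + ∑ i, ∑ w : InfinitePlace K, w (ω i : K), ?_, ?_⟩
  · have := Finset.sum_nonneg (s := Finset.univ) fun i _ => h0 i
    linarith
  · intro c T hc w
    by_cases hT : T < 0
    · exact Or.inr hT
    left
    push Not at hT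
    have hT' : (0 : ℝ) ≤ T := by exact_mod_cast hT
    have h1 : ((el ω c : 𝓞 K) : K) = ∑ i, ((c i : ℤ) : K) * (ω i : K) := by
      simp only [el, map_sum, map_mul, map_intCast]
    rw [← InfinitePlace.norm_embedding_eq, h1, map_sum]
    refine (norm_sum_le _ _).trans ?_
    have h2 : ∀ i, ‖w.embedding (((c i : ℤ) : K) * (ω i : K))‖ ≤
        (∑ w : InfinitePlace K, w (ω i : K)) * (T : ℝ) := by
      intro i
      rw [map_mul, norm_mul, InfinitePlace.norm_embedding_eq w (ω i : K), map_intCast, Complex.norm_intCast]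
      have h3 : |((c i : ℤ) : ℝ)| ≤ (T : ℝ) := by exact_mod_cast hc i
      have h4 : w (ω i : K) ≤ ∑ w : InfinitePlace K, w (ω i : K) :=
        Finset.single_le_sum (f := fun w : InfinitePlace K => w (ω i : K)) (fun w _ => apply_nonneg w _)
          (Finset.mem_univ w)
      calc |((c i : ℤ) : ℝ)| * w (ω i : K) ≤ (T : ℝ) * ∑ w : InfinitePlace K, w (ω i : K) :=
            mul_le_mul h3 h4 (apply_nonneg w _) hT'
        _ = _ := mul_comm _ _
    refine (Finset.sum_le_sum fun i _ => h2 i).trans ?_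
    rw [← Finset.sum_mul]
    refine mul_le_mul_of_nonneg_right ?_ hT'
    linarith

theorem factRK (K : Type) [Field K] [NumberField K] [DecidableEq K] : FactRK K := by
  classical
  intro e ω
  obtain ⟨c, C, hc, hC, hred⟩ := exists_reducedK K
  obtain ⟨κ, hκ, hsz⟩ := RMain_size ω
  obtain ⟨C', hC', hreg⟩ := count_regionK K C κ hC (by linarith)
  have hfr : Module.finrank ℚ K = e := by
    rw [← RingOfIntegers.rank, Module.finrank_eq_card_basis ω, Fintype.card_fin]
  refine ⟨C', 1, fun H hH t => ?_⟩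
  obtain ⟨hfin, hcard⟩ := hreg H hH
  rw [Set.ncard_eq_toFinset_card _ hfin, hfr] at hcard
  have hH1 : (1 : ℝ) ≤ H := by exact_mod_cast hH
  have hκ0 : 0 < κ := by linarith
  have hcK : (c : 𝓞 K) ≠ 0 := by exact_mod_cast hc.ne'
  have hB : ({z : (Fin e → ℤ) × (Fin e → ℤ) | (∀ i, |z.1 i| ≤ (H : ℤ) ^ 2) ∧
      (∀ i, |z.2 i| ≤ (H : ℤ) ^ 3) ∧ ds (el ω z.1) (el ω z.2) ≠ 0 ∧
      ¬ FewK ((el ω z.1 : 𝓞 K) : K) ((el ω z.2 : 𝓞 K) : K) t}).Finite := by
    refine ((Set.finite_Icc (fun _ : Fin e => -((H : ℤ) ^ 2)) (fun _ => (H : ℤ) ^ 2)).prod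
      (Set.finite_Icc (fun _ : Fin e => -((H : ℤ) ^ 3)) (fun _ => (H : ℤ) ^ 3))).subset ?_
    rintro ⟨a, b⟩ ⟨h1, h2, -⟩
    exact ⟨⟨fun i => (abs_le.1 (h1 i)).1, fun i => (abs_le.1 (h1 i)).2⟩,
      ⟨fun i => (abs_le.1 (h2 i)).1, fun i => (abs_le.1 (h2 i)).2⟩⟩
  have hcB : Nat.card {z : (Fin e → ℤ) × (Fin e → ℤ) // (∀ i, |z.1 i| ≤ (H : ℤ) ^ 2) ∧
      (∀ i, |z.2 i| ≤ (H : ℤ) ^ 3) ∧ ds (el ω z.1) (el ω z.2) ≠ 0 ∧
      ¬ FewK ((el ω z.1 : 𝓞 K) : K) ((el ω z.2 : 𝓞 K) : K) t} = hB.toFinset.card := by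
    rw [← Set.ncard_eq_toFinset_card _ hB]
    rfl
  have hel : Function.Injective fun x : Fin e → ℤ => (el ω x : 𝓞 K) := by
    intro x y hxy
    have h1 : ∀ x : Fin e → ℤ, (el ω x : 𝓞 K) = ∑ i, x i • ω i := by
      intro x
      simp only [el, zsmul_eq_mul]
    have h2 : ∑ i, x i • ω i = ∑ i, y i • ω i := by rw [← h1, ← h1]; exact hxy
    funext i
    have h3 := congrArg (fun z => ω.repr z i) h2
    have h4 : ∀ x : Fin e → ℤ, ω.repr (∑ j, x j • ω j) i = x i := fun x => by
      rw [Module.Basis.repr_sum_self]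
    rw [← h4 x, ← h4 y]
    exact h3
  have hkey : hB.toFinset.card * 2 ^ t ≤ hfin.toFinset.card := by
    let g : Qu (𝓞 K) → 𝓞 K × 𝓞 K := fun F => (F.I, F.J)
    let φ : (Fin e → ℤ) × (Fin e → ℤ) → 𝓞 K × 𝓞 K := fun z =>
      (-48 * (c : 𝓞 K) ^ 2 * el ω z.1, -1728 * (c : 𝓞 K) ^ 3 * el ω z.2)
    have hφ : Function.Injective φ := by
      rintro ⟨a, b⟩ ⟨a', b'⟩ hh
      simp only [φ, Prod.mk.injEq] at hh ⊢
      constructor
      · refine hel (mul_left_cancel₀ ?_ hh.1)
        exact mul_ne_zero (by norm_num) (pow_ne_zero _ hcK)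
      · refine hel (mul_left_cancel₀ ?_ hh.2)
        exact mul_ne_zero (by norm_num) (pow_ne_zero _ hcK)
    calc hB.toFinset.card * 2 ^ t = ∑ z ∈ hB.toFinset, 2 ^ t := by
          rw [Finset.sum_const, smul_eq_mul]
      _ ≤ ∑ z ∈ hB.toFinset, (hfin.toFinset.filter fun F => g F = φ z).card := by
          refine Finset.sum_le_sum fun z hz => ?_
          obtain ⟨h1, h2, h3, h4⟩ := (Set.Finite.mem_toFinset hB).1 hz
          by_contra hlt
          push Not at hlt
          have hA' : ∀ w : InfinitePlace K, w ((el ω z.1 : 𝓞 K) : K) ≤ (κ * H) ^ 2 := by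
            intro w
            rcases hsz z.1 _ h1 w with h | h
            · refine h.trans ?_
              push_cast
              have h5 : κ * (H : ℝ) ^ 2 ≤ κ * (κ * (H : ℝ) ^ 2) := by
                refine mul_le_mul_of_nonneg_left ?_ hκ0.le
                exact le_mul_of_one_le_left (by positivity) hκ
              linarith [h5, show (κ * (H : ℝ)) ^ 2 = κ * (κ * (H : ℝ) ^ 2) by ring]
            · exfalso
              have : (0 : ℤ) ≤ (H : ℤ) ^ 2 := by positivity
              omega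
          have hB' : ∀ w : InfinitePlace K, w ((el ω z.2 : 𝓞 K) : K) ≤ (κ * H) ^ 3 := by
            intro w
            rcases hsz z.2 _ h2 w with h | h
            · refine h.trans ?_
              push_cast
              have h6 : (1 : ℝ) ≤ κ ^ 2 := one_le_pow₀ hκ
              have h5 : κ * (H : ℝ) ^ 3 ≤ κ ^ 2 * (κ * (H : ℝ) ^ 3) :=
                le_mul_of_one_le_left (by positivity) h6
              linarith [h5, show (κ * (H : ℝ)) ^ 3 = κ ^ 2 * (κ * (H : ℝ) ^ 3) by ring]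
            · exfalso
              have : (0 : ℤ) ≤ (H : ℤ) ^ 3 := by positivity
              omega
          refine h4 (few_of_cardK c hc C (κ * H) (el ω z.1) (el ω z.2) h3
            (hred _ _ _ (by positivity) hA' hB' h3)
            (hfin.toFinset.filter fun F => g F = φ z) ?_ t (by omega))
          intro F ha hR hI hJ
          rw [Finset.mem_filter, Set.Finite.mem_toFinset]
          exact ⟨⟨ha, hR⟩, Prod.ext hI hJ⟩
      _ = ∑ w ∈ hB.toFinset.image φ, (hfin.toFinset.filter fun F => g F = w).card := by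
          rw [Finset.sum_image fun x _ y _ hxy => hφ hxy]
      _ = (hfin.toFinset.filter fun F => g F ∈ hB.toFinset.image φ).card :=
          Finset.sum_card_fiberwise_eq_card_filter _ _ _
      _ ≤ hfin.toFinset.card := Finset.card_filter_le _ _
  rw [hcB, pow_one]
  refine le_trans ?_ hcard
  exact_mod_cast hkey

end VK
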