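import Pool.Agent.Lib.MP_17a322_ntVK.SR3
import Pool.Agent.Lib.MP_17a322_ntCT.PD
import Pool.Agent.Lib.MP_10e784_agBS.S3
import Pool.Agent.Lib.MP_10e784_agV.VM

/-!
# LEAF SF1: one product of curves and the torus, the classes modulo `M` (as `fixedG` of `MP_10e784_agBG/GA`)

PROOF.  As `fixedG`.  For `p ∈ T` choose `π p` (`hT`).  `M` kills `Pt (res A_l) (res B_l)` (`killK` of EB), so `rdK π (r l i + M • Q) = rdK π (r l i)` (`rd_classK`); for the torus `x l = s i l * y l ^ M` has the residue of `s i l`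
(`res_cls` of `MP_17a322_ntCT/PD`, `p - 1 ∣ M`; `rd_res`, `res_eq`).  So the `c` lie in the union over `(i, j) : Fin N₂ × (Fin g → Fin N₁)` (`≃ Fin (N₂ * N₁ ^ g)`: `finProdFinEquiv`, `finFunctionFinEquiv`) of the sets
`{c | ∀ p ∈ T, c mod p ∈ R p (π p) (fun l => res (s i l)) (fun l => rdK (r l (j l)))}`; `VM_union` and `box_crt` exactly as in `fixedG` (the residues of `s i l` are not zero: `Rd.ne`-like, `res_ne` of T9A).
-/

namespace VK

open Finset NumberField LVH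

theorem fixedK {K : Type} [Field K] [NumberField K] [DecidableEq K] (L : Type) [Field L] [NumberField L] {p0 : ℕ}
    {ι : Type} [Fintype ι] [DecidableEq ι] {n g : ℕ} {A B : Fin g → K} {κ : ℝ} (h0 : 0 ≤ κ) (h1 : κ ≤ 1)
    {R : Loc K n g ι} (hR : DensK L p0 R κ) {Γ : Subgroup Kˣ} {M N₁ N₂ : ℕ}
    (r : (l : Fin g) → Fin N₁ → Pt (A l) (B l))
    (hr : ∀ l, ∀ P : Pt (A l) (B l), ∃ i, ∃ Q : Pt (A l) (B l), P = r l i + M • Q)
    (s : Fin N₂ → Fin n → Kˣ) (hs : ∀ i l, s i l ∈ Γ)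
    (hs2 : ∀ x : Fin n → Kˣ, (∀ l, x l ∈ Γ) → ∃ i, ∃ y : Fin n → Kˣ, (∀ l, y l ∈ Γ) ∧ ∀ l, x l = s i l * y l ^ M)
    (T : Finset ℕ)
    (hT : ∀ p ∈ T, p.Prime ∧ 3 ≤ p ∧ p0 ≤ p ∧ D1 L p ∧ p - 1 ∣ M ∧ ∃ π : Pl K p, (∀ l, A l ∈ π.V ∧ B l ∈ π.V) ∧
      (∀ l, ds (res π (A l)) (res π (B l)) ≠ 0 ∧ MWS.nz (res π (A l)) (res π (B l)) + 1 ∣ M) ∧
      ∀ γ ∈ Γ, (γ : K) ∈ π.V ∧ (γ : K)⁻¹ ∈ π.V)
    {H : ℕ} (hq : ∏ p ∈ T, p ≤ H) :
    (Nat.card {c : ι → ℤ // (∀ i, |c i| ≤ (H : ℤ)) ∧ ∃ x : Fin n → Kˣ, (∀ l, x l ∈ Γ) ∧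
      ∃ P : (l : Fin g) → Pt (A l) (B l), AdmK L p0 R c x P} : ℝ) ≤
      (N₂ : ℝ) * (N₁ : ℝ) ^ g * ((4 * (H : ℝ)) ^ Fintype.card ι * (1 - κ) ^ T.card) := by
  classical
  choose π h4 h5 h6 using fun (p : ℕ) (hp : p ∈ T) => (hT p hp).2.2.2.2.2
  let e : Fin N₂ × (Fin g → Fin N₁) ≃ Fin (N₂ * N₁ ^ g) :=
    (Equiv.prodCongr (Equiv.refl _) finFunctionFinEquiv).trans finProdFinEquiv
  let W : Fin (N₂ * N₁ ^ g) → (p : ℕ) → Set (ι → ZMod p) := fun i p =>
    {b | ∃ hp : p ∈ T, b ∈ R p (π p hp) (fun l => res (π p hp) (s (e.symm i).1 l : K))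
      (fun l => rdK (π p hp) (r l ((e.symm i).2 l)))}
  have hU := MWS.VM_union (ι := ι) (H := H) (N := N₂ * N₁ ^ g)
    (fun c => ∃ x : Fin n → Kˣ, (∀ l, x l ∈ Γ) ∧ ∃ P : (l : Fin g) → Pt (A l) (B l), AdmK L p0 R c x P)
    (fun i c => ∀ p ∈ T, (fun j => ((c j : ℤ) : ZMod p)) ∈ W i p)
    (by
      rintro c - ⟨x, hx, P, hP⟩
      obtain ⟨i, y, hy, hxy⟩ := hs2 x hx
      choose j Q hj using fun l => hr l (P l)
      refine ⟨e (i, j), fun p hp => ?_⟩
      obtain ⟨g1, g2, g3, g4, g5, -⟩ := hT p hp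
      have hF : Fact p.Prime := ⟨g1⟩
      have k1 := hP p g1 g3 g4 (π p hp) (h4 p hp) (fun l => (h5 p hp l).1) (fun l => h6 p hp (x l) (hx l))
      have k2 : (fun l => res (π p hp) (x l : K)) = fun l => res (π p hp) (s i l : K) := by
        funext l
        rw [hxy l]
        exact res_eq (res_cls (h6 p hp _ (hs i l)).1 (h6 p hp _ (hy l)).1 (h6 p hp _ (hy l)).2 g5
          (rd_res (h6 p hp _ (hs i l)).1))
      have k3 : (fun l => rdK (π p hp) (P l)) = fun l => rdK (π p hp) (r l (j l)) := by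
        funext l
        rw [hj l]
        exact rd_classK (π p hp) (h4 p hp l).1 (h4 p hp l).2 (by omega) (h5 p hp l).1 M
          (fun S => killK (by omega) (h5 p hp l).1 (h5 p hp l).2 S) _ _
      rw [k2, k3] at k1
      refine ⟨hp, ?_⟩
      rw [Equiv.symm_apply_apply]
      exact k1)
    1 ((4 * (H : ℝ)) ^ Fintype.card ι * (1 - κ) ^ T.card) zero_le_one
    (fun i => by
      rw [mul_one, MWS.VM_card]
      have hb := MWS.box_crt (ι := ι) T (fun p hp => (hT p hp).1) (fun _ => H) (fun _ => hq)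
        (fun p b => if b ∈ W i p then (1 : ℝ) else 0)
        (fun p b => by split_ifs <;> norm_num) (fun _ => 1 - κ)
        (fun p hp hne => by
          obtain ⟨g1, g2, g3, g4, g5, -⟩ := hT p hp
          have hF : Fact p.Prime := ⟨g1⟩
          have h3 := hR p g1 g3 g4 (π p hp) (fun l => res (π p hp) (s (e.symm i).1 l : K))
            (fun l => rdK (π p hp) (r l ((e.symm i).2 l)))
            (fun l => res_ne (s (e.symm i).1 l).ne_zero (h6 p hp _ (hs _ l)).1 (h6 p hp _ (hs _ l)).2)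
          have hW : W i p = R p (π p hp) (fun l => res (π p hp) (s (e.symm i).1 l : K))
              (fun l => rdK (π p hp) (r l ((e.symm i).2 l))) := by
            ext b
            exact ⟨fun h => h.2, fun h => ⟨hp, h⟩⟩
          rw [sum_boole]
          refine le_trans (le_of_eq ?_) h3
          rw [← hW, Nat.card_eq_fintype_card, Fintype.card_subtype])
      rw [prod_const, prod_const, card_univ] at hb
      refine le_trans (le_of_eq ?_) hb
      rw [card_filter]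
      push_cast
      refine sum_congr rfl fun c _ => ?_
      rw [prod_boole])
  rw [mul_one, Nat.cast_mul, Nat.cast_pow] at hU
  exact hU

end VK
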