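import Mathlib

/-!
# LEAF ST3: classes modulo `L` in a finitely generated abelian group (Mathlib only; as `MP_10e784_agV/C4`, `cls_fg`)

PROOF.  As `cls_fg` of `MP_10e784_agV/C4` (copy it), but with representatives of the classes of `T` modulo `L T` (`T` the torsion subgroup, finite) instead of all of `T`: their number is `|T / L T| = |{x ∈ T // L x = 0}| ≤ L` (the homomorphism
`x ↦ L x` of the finite group `T`: `|T| = |ker| |range|` and `|T| = |T / range| |range|`; `Subgroup.card_eq_card_quotient_mul_card_subgroup`, `QuotientAddGroup.quotientKerEquivRange`; the kernel is contained in `{x : G // L • x = 0}`).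
-/

namespace VK

theorem cls_fgT (G : Type) [AddCommGroup G] [Module.Finite ℤ G] (t : ℕ)
    (h2 : ∃ r : Fin (2 ^ t) → G, ∀ P : G, ∃ i, ∃ Q : G, P = r i + 2 • Q) (L : ℕ) (hL : 1 ≤ L)
    (hT : Nat.card {x : G // L • x = 0} ≤ L) :
    ∃ r : Fin (L ^ (t + 1)) → G, ∀ P : G, ∃ i, ∃ Q : G, P = r i + L • Q := by
  classical
  -- the torsion subgroup is finite
  have hTfin : Finite (Submodule.torsion ℤ G) :=
    Module.finite_of_fg_torsion _ (Submodule.torsion_isTorsion)
  let f : Submodule.torsion ℤ G →+ Submodule.torsion ℤ G := nsmulAddMonoidHom L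
  have hfin0 : Finite {x : G // L • x = 0} := by
    have hm : ∀ x : {x : G // L • x = 0}, (x : G) ∈ Submodule.torsion ℤ G := by
      intro x
      rw [Submodule.mem_torsion_iff]
      refine ⟨⟨(L : ℤ), mem_nonZeroDivisors_of_ne_zero (by exact_mod_cast (by omega : L ≠ 0))⟩, ?_⟩
      have h1 : ((L : ℤ)) • (x : G) = 0 := by rw [natCast_zsmul]; exact x.2
      exact h1
    exact Finite.of_injective (fun x : {x : G // L • x = 0} => (⟨(x : G), hm x⟩ : Submodule.torsion ℤ G))
      (fun x y h => Subtype.ext (congrArg (fun z : Submodule.torsion ℤ G => (z : G)) h))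
  have hker : Nat.card f.ker ≤ L := by
    refine le_trans (Nat.card_le_card_of_injective (fun x : f.ker => (⟨((x : Submodule.torsion ℤ G) : G), by
      have h1 : L • (x : Submodule.torsion ℤ G) = 0 := x.2
      have h2 := congrArg (fun z : Submodule.torsion ℤ G => (z : G)) h1
      exact h2⟩ : {x : G // L • x = 0})) ?_) hT
    intro x y h
    exact Subtype.ext (Subtype.ext (congrArg (fun z : {x : G // L • x = 0} => (z : G)) h))
  have hcardT : Nat.card (Submodule.torsion ℤ G ⧸ f.range) ≤ L := by
    have e1 : Nat.card f.ker * f.ker.index = Nat.card (Submodule.torsion ℤ G) := AddSubgroup.card_mul_index _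
    have e2 : Nat.card f.range * f.range.index = Nat.card (Submodule.torsion ℤ G) := AddSubgroup.card_mul_index _
    have e3 : f.ker.index = Nat.card f.range := AddSubgroup.index_ker f
    have e4 : 0 < Nat.card f.range := Nat.card_pos
    have e5 : f.range.index = Nat.card f.ker := by
      rw [e3, ← e2, mul_comm] at e1
      exact (Nat.eq_of_mul_eq_mul_left e4 e1).symm
    change f.range.index ≤ L
    rw [e5]
    exact hker
  let b := Module.Free.chooseBasis ℤ (G ⧸ Submodule.torsion ℤ G)
  -- the rank is at most t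
  have hmap : Function.Surjective (fun i : Fin (2 ^ t) =>
      fun j => ((b.repr (Submodule.Quotient.mk (h2.choose i)) j : ℤ) : ZMod 2)) := by
    intro y
    obtain ⟨P, hP⟩ := Submodule.Quotient.mk_surjective (Submodule.torsion ℤ G)
      (∑ j, ((y j).val : ℤ) • b j)
    obtain ⟨i, Q, hQ⟩ := h2.choose_spec P
    refine ⟨i, ?_⟩
    funext j
    have h3 : h2.choose i = P - 2 • Q := by rw [hQ]; abel
    have h4 : (b.repr (Submodule.Quotient.mk (h2.choose i)) j : ℤ) =
        b.repr (Submodule.Quotient.mk P) j - 2 * b.repr (Submodule.Quotient.mk Q) j := by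
      rw [h3, Submodule.Quotient.mk_sub, two_nsmul, Submodule.Quotient.mk_add, map_sub, map_add,
        Finsupp.sub_apply, Finsupp.add_apply]
      ring
    have h5 : b.repr (Submodule.Quotient.mk P) j = ((y j).val : ℤ) := by
      rw [hP, Module.Basis.repr_sum_self]
    show ((b.repr (Submodule.Quotient.mk (h2.choose i)) j : ℤ) : ZMod 2) = y j
    rw [h4, h5]
    push_cast
    have h6 : (2 : ZMod 2) = 0 := by decide
    rw [h6, zero_mul, sub_zero, ZMod.natCast_zmod_val]
  have hrank : Fintype.card (Module.Free.ChooseBasisIndex ℤ (G ⧸ Submodule.torsion ℤ G)) ≤ t := by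
    have h7 := Fintype.card_le_of_surjective _ hmap
    rw [Fintype.card_fin, Fintype.card_fun, ZMod.card] at h7
    exact (Nat.pow_le_pow_iff_right (by norm_num)).1 h7
  -- lifts of the basis
  choose g hg using fun j => Submodule.Quotient.mk_surjective (Submodule.torsion ℤ G) (b j)
  have iT : Fintype (Submodule.torsion ℤ G ⧸ f.range) := Fintype.ofFinite _
  let J := (Module.Free.ChooseBasisIndex ℤ (G ⧸ Submodule.torsion ℤ G) → Fin L) ×
    (Submodule.torsion ℤ G ⧸ f.range)
  have iL : NeZero L := ⟨by omega⟩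
  have hJ : Fintype.card J ≤ L ^ (t + 1) := by
    rw [Fintype.card_prod, Fintype.card_fun, Fintype.card_fin, pow_succ]
    refine Nat.mul_le_mul (Nat.pow_le_pow_right hL hrank) ?_
    rw [← Nat.card_eq_fintype_card]; exact hcardT
  have iN : Nonempty J := ⟨(fun _ => 0, 0)⟩
  obtain ⟨e⟩ := Function.Embedding.nonempty_of_card_le
    (show Fintype.card J ≤ Fintype.card (Fin (L ^ (t + 1))) by rw [Fintype.card_fin]; exact hJ)
  refine ⟨fun k => (∑ j, ((((Function.invFun e k).1 j : Fin L) : ℕ) : ℤ) • g j) +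
    ((Quotient.out (Function.invFun e k).2 : Submodule.torsion ℤ G) : G), fun P => ?_⟩
  -- coordinates of P
  set c : Module.Free.ChooseBasisIndex ℤ (G ⧸ Submodule.torsion ℤ G) → ℤ :=
    fun j => b.repr (Submodule.Quotient.mk P) j with hc
  have hLz : (L : ℤ) ≠ 0 := by exact_mod_cast (by omega : L ≠ 0)
  have hτ : P - ∑ j, c j • g j ∈ Submodule.torsion ℤ G := by
    rw [← Submodule.Quotient.mk_eq_zero, Submodule.Quotient.mk_sub, sub_eq_zero]
    have h8 : (Submodule.Quotient.mk (∑ j, c j • g j) : G ⧸ Submodule.torsion ℤ G) =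
        ∑ j, c j • b j := by
      rw [← Submodule.mkQ_apply, map_sum]
      refine Finset.sum_congr rfl fun j _ => ?_
      rw [map_smul, Submodule.mkQ_apply, hg]
    rw [h8]
    exact (b.sum_repr _).symm
  let x : J := (fun j => ⟨(c j % L).toNat, by
      have h9 := Int.emod_lt_of_pos (c j) (by omega : (0 : ℤ) < L)
      have h10 := Int.emod_nonneg (c j) hLz
      omega⟩, QuotientAddGroup.mk ⟨_, hτ⟩)
  obtain ⟨⟨_, σ, rfl⟩, hσ⟩ := QuotientAddGroup.mk_out_eq_add f.range (⟨_, hτ⟩ : Submodule.torsion ℤ G)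
  refine ⟨e x, ∑ j, (c j / L) • g j - (σ : G), ?_⟩
  have hinv : Function.invFun e (e x) = x := Function.leftInverse_invFun e.injective x
  beta_reduce
  rw [hinv]
  have hval : ∀ j, ((((x.1 j : Fin L) : ℕ)) : ℤ) = c j % L := by
    intro j
    have h10 := Int.emod_nonneg (c j) hLz
    show (((c j % L).toNat : ℕ) : ℤ) = c j % L
    omega
  have hx2 : ((Quotient.out x.2 : Submodule.torsion ℤ G) : G) = (P - ∑ j, c j • g j) + L • (σ : G) := by
    have h11 := congrArg (fun z : Submodule.torsion ℤ G => (z : G)) hσ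
    exact h11
  have hsum : ∑ j, c j • g j = (∑ j, ((((x.1 j : Fin L) : ℕ)) : ℤ) • g j) +
      L • ∑ j, (c j / L) • g j := by
    rw [Finset.smul_sum, ← Finset.sum_add_distrib]
    refine Finset.sum_congr rfl fun j _ => ?_
    rw [hval, ← natCast_zsmul, smul_smul, ← add_smul, Int.emod_add_mul_ediv]
  rw [hx2]
  rw [hsum, smul_sub]
  abel


end VK
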