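import Pool.Agent.Lib.MP_17a322_ntVK.ST2
import Pool.Agent.Lib.MP_17a322_ntVK.ST3
import Pool.Agent.Lib.MP_10e784_agBS.S6

/-!
# LEAF ST4: few classes modulo `2`, few classes modulo `M` (as `few_cls` of `MP_10e784_agBS/S7`)

PROOF.  `cls_fgT` for `Pt A B` (`mwK` of EB), `tors_M` (ST2) and `nz_le` (`MP_10e784_agBS/S6`): `nz + 1 ≤ 2 p + 1 ≤ M`.
-/

namespace VK

open NumberField LVH

theorem few_clsK {K : Type} [Field K] [NumberField K] [DecidableEq K] {A B : K} (hd0 : ds A B ≠ 0) {t M p : ℕ}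
    [Fact p.Prime] (hF : FewK A B t) (π : Pl K p) (hA : A ∈ π.V) (hB : B ∈ π.V) (hp2 : p ≠ 2)
    (hd : ds (res π A) (res π B) ≠ 0) (hM : ¬ p ∣ M) (hL : 2 * p + 1 ≤ M) :
    ∃ r : Fin (M ^ (t + 1)) → Pt A B, ∀ P : Pt A B, ∃ i, ∃ Q : Pt A B, P = r i + M • Q := by
  have : Module.Finite ℤ (Pt A B) := mwK hd0
  have h1 := tors_M π hA hB hp2 hd hM
  have h2 := MWS.nz_le (Fact.out : p.Prime) (res π A) (res π B)
  exact cls_fgT (Pt A B) t hF M (by omega) (by omega)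

end VK
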