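import Pool.Agent.Lib.MP_17a322_ntVK.SC1
import Pool.Agent.Lib.MP_17a322_ntVK.ST4
import Pool.Agent.Lib.MP_17a322_ntVK.SF1

/-!
# LEAF SF3: one product of curves with few classes modulo `2` (as `one_tuple` of `MP_10e784_agBG/GC`)

PROOF.  As `one_tuple` (copy private lemmas `GC_primorial`, `GC_box`).  `M = primorial Y ^ b`, `T` the filtered set.  For `p ∈ T`: `π` from `hw`, `res π (cA ..) = ∑ (z l).1 k w p k` (`el_rd`, `res_eq`), `cA .. ∈ π.V` (`int_mem`), `ds ≠ 0` and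
`nz + 1 ∣ M` (`Gk_dvd` of `agBS/S6` with `k = 1`; `Gk` contains `4 a³ + 27 b² ≠ 0`); `p - 1 ∣ M`: all prime factors of `p - 1 ≤ X` are `≤ Y` (`MWS.dvd_prim` of `agW/FA1`, as in the proof of `Gk_dvd`, with `Nat.log 2 (3 X) ≤ b`); `p ∤ M` because
`Y < p` (a prime divisor of `primorial Y` is `≤ Y`).  If `T` has an element `p`: `2 p + 1 ≤ 3 X ≤ 2 ^ b ≤ M`, `few_clsK` for every `l` (with this `p`), `hΓ M`, `fixedK` with `N₁ = M ^ (t + 1)`, `N₂ = M ^ t'`.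
If `T = ∅`: the trivial bound `(4 H) ^ N` and `1 ≤ M ^ ..`.
-/

namespace VK

open Finset NumberField LVH

private theorem SF3_primorial {Y : ℕ} (hY : 4 ≤ Y) : 2 ≤ primorial Y := by
  refine Nat.le_of_dvd (primorial_pos Y) ?_
  unfold primorial
  exact Finset.dvd_prod_of_mem (f := fun p => p) (a := 2)
    (Finset.mem_filter.2 ⟨Finset.mem_range.2 (by omega), Nat.prime_two⟩)

private theorem SF3_box {ι : Type} [Fintype ι] [DecidableEq ι] {H : ℕ} (hH : 1 ≤ H) (Q : (ι → ℤ) → Prop) :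
    (Nat.card {c : ι → ℤ // (∀ i, |c i| ≤ (H : ℤ)) ∧ Q c} : ℝ) ≤ (4 * (H : ℝ)) ^ Fintype.card ι := by
  classical
  rw [MWS.VM_card H Q]
  have h1 : ((Fintype.piFinset (fun _ : ι => Icc (-(H : ℤ)) H)).filter Q).card ≤ (2 * H + 1) ^ Fintype.card ι := by
    refine (card_filter_le _ _).trans ?_
    rw [Fintype.card_piFinset, Finset.prod_const, Int.card_Icc, card_univ]
    refine Nat.pow_le_pow_left ?_ _
    omega
  have h2 : (((Fintype.piFinset (fun _ : ι => Icc (-(H : ℤ)) H)).filter Q).card : ℝ) ≤ ((2 * H + 1 : ℕ) : ℝ) ^ Fintype.card ι := by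
    exact_mod_cast h1
  refine h2.trans ?_
  have h3 : (1 : ℝ) ≤ H := by exact_mod_cast hH
  refine pow_le_pow_left₀ (by positivity) ?_ _
  push_cast
  linarith

private theorem SF3_ndvd {p Y b : ℕ} (hp : p.Prime) (h : Y < p) : ¬ p ∣ primorial Y ^ b := by
  intro h1
  have h2 : p ∣ primorial Y := hp.dvd_of_dvd_pow h1
  unfold primorial at h2
  rw [hp.prime.dvd_finsetProd_iff] at h2
  obtain ⟨q, hq, h3⟩ := h2
  rw [Finset.mem_filter, Finset.mem_range] at hq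
  have h4 : p ≤ q := Nat.le_of_dvd hq.2.pos h3
  omega

open Classical in
theorem one_tupleK {K : Type} [Field K] [NumberField K] [DecidableEq K] (L : Type) [Field L] [NumberField L] {p0 : ℕ}
    {ι : Type} [Fintype ι] [DecidableEq ι] {e n g : ℕ} {κ : ℝ} (h0 : 0 ≤ κ) (h1 : κ ≤ 1) {R : Loc K n g ι}
    (hR : DensK L p0 R κ) (ω : Fin e → 𝓞 K) (z : Cv e g) (hd : ∀ l, ds (el ω (z l).1) (el ω (z l).2) ≠ 0) {t t' : ℕ}
    (hF : ∀ l, FewK (cA ω (z l)) (cB ω (z l)) t) {Γ : Subgroup Kˣ} (hΓ : TCls Γ n t') (S : Finset ℕ)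
    (w : (p : ℕ) → Fin e → ZMod p)
    (hw : ∀ p ∈ S, ∃ π : Pl K p, (∀ k, Rd π ((ω k : 𝓞 K) : K) (w p k)) ∧ ∀ γ ∈ Γ, (γ : K) ∈ π.V ∧ (γ : K)⁻¹ ∈ π.V)
    {X U Y b H : ℕ} (hS : ∀ p ∈ S, p.Prime ∧ 11 ≤ p ∧ p ≤ X ∧ Y < p ∧ p0 ≤ p ∧ D1 L p ∧ ∀ q : ℕ, q.Prime → q ∣ p - 1 → q ≤ Y)
    (hU : 1 ≤ U) (hY : 4 * U ≤ Y) (hX : 3 * X ≤ Y * U ^ 1) (he : 3 * X ≤ 2 ^ b) (hq : ∏ p ∈ S, p ≤ H) :
    (Nat.card {c : ι → ℤ // (∀ i, |c i| ≤ (H : ℤ)) ∧ ∃ x : Fin n → Kˣ, (∀ l, x l ∈ Γ) ∧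
      ∃ P : (l : Fin g) → Pt (cA ω (z l)) (cB ω (z l)),
        AdmK L p0 R (A := fun l => cA ω (z l)) (B := fun l => cB ω (z l)) c x P} : ℝ) ≤
      ((primorial Y : ℝ) ^ b) ^ (t' + (t + 1) * g) * ((4 * (H : ℝ)) ^ Fintype.card ι *
        (1 - κ) ^ (S.filter fun p => ∀ l, MWS.Gk p U 1 (∑ k, (((z l).1 k : ℤ) : ZMod p) * w p k,
          ∑ k, (((z l).2 k : ℤ) : ZMod p) * w p k)).card) := by
  have hprod : ∀ T : Finset ℕ, T ⊆ S → ∏ p ∈ T, p ≤ ∏ p ∈ S, p := fun T hT =>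
    Finset.prod_le_prod_of_subset_of_one_le' hT fun p hp _ => (hS p hp).1.one_lt.le
  have hH : 1 ≤ H := by
    have := (hprod ∅ (Finset.empty_subset S)).trans hq
    simpa using this
  have hP : 2 ≤ primorial Y := SF3_primorial (by omega)
  obtain ⟨T, hTdef⟩ : ∃ T : Finset ℕ, T = S.filter fun p => ∀ l, MWS.Gk p U 1 (∑ k, (((z l).1 k : ℤ) : ZMod p) * w p k,
          ∑ k, (((z l).2 k : ℤ) : ZMod p) * w p k) :=
    ⟨_, rfl⟩
  rw [← hTdef]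
  have hTS : T ⊆ S := by
    rw [hTdef]
    exact Finset.filter_subset _ _
  rcases T.eq_empty_or_nonempty with hT | ⟨p, hp⟩
  · rw [hT, Finset.card_empty, pow_zero, mul_one]
    refine (SF3_box hH _).trans ?_
    have h2 : (1 : ℝ) ≤ ((primorial Y : ℝ) ^ b) ^ (t' + (t + 1) * g) := by
      refine one_le_pow₀ (one_le_pow₀ ?_)
      have : (2 : ℝ) ≤ primorial Y := by exact_mod_cast hP
      linarith
    have h3 : (0 : ℝ) ≤ (4 * (H : ℝ)) ^ Fintype.card ι := by positivity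
    nlinarith
  · have hG : ∀ q ∈ T, ∀ l, MWS.Gk q U 1 (∑ k, (((z l).1 k : ℤ) : ZMod q) * w q k,
          ∑ k, (((z l).2 k : ℤ) : ZMod q) * w q k) := fun q hq => by
      rw [hTdef] at hq
      exact (Finset.mem_filter.1 hq).2
    have hlog : Nat.log 2 (3 * X) ≤ b := by
      calc Nat.log 2 (3 * X) ≤ Nat.log 2 (2 ^ b) := Nat.log_mono_right he
        _ = b := Nat.log_pow one_lt_two b
    have hT' : ∀ q ∈ T, q.Prime ∧ 3 ≤ q ∧ p0 ≤ q ∧ D1 L q ∧ q - 1 ∣ primorial Y ^ b ∧ ∃ π : Pl K q,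
        (∀ l, cA ω (z l) ∈ π.V ∧ cB ω (z l) ∈ π.V) ∧
        (∀ l, ds (res π (cA ω (z l))) (res π (cB ω (z l))) ≠ 0 ∧
          MWS.nz (res π (cA ω (z l))) (res π (cB ω (z l))) + 1 ∣ primorial Y ^ b) ∧
        ∀ γ ∈ Γ, (γ : K) ∈ π.V ∧ (γ : K)⁻¹ ∈ π.V := by
      intro q hq
      obtain ⟨a1, a2, a3, a4, a5, a6, a7⟩ := hS q (hTS hq)
      obtain ⟨π, c1, c2⟩ := hw q (hTS hq)
      have : Fact q.Prime := ⟨a1⟩
      have e1 : ∀ l, res π (cA ω (z l)) = ∑ k, (((z l).1 k : ℤ) : ZMod q) * w q k := fun l =>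
        res_eq (el_rd c1 (z l).1)
      have e2 : ∀ l, res π (cB ω (z l)) = ∑ k, (((z l).2 k : ℤ) : ZMod q) * w q k := fun l =>
        res_eq (el_rd c1 (z l).2)
      refine ⟨a1, by omega, a5, a6, ?_, π, fun l => ⟨int_mem π _, int_mem π _⟩, fun l => ?_, c2⟩
      · exact (MWS.dvd_prim (q - 1) (3 * X) Y (by omega) (by omega) a7).trans (pow_dvd_pow _ hlog)
      · rw [e1, e2]
        exact ⟨(hG q hq l).1, MWS.Gk_dvd a1 a3 (hG q hq l) hU hY hX he⟩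
    obtain ⟨b1, b2, b3, b4, -, -, -⟩ := hS p (hTS hp)
    obtain ⟨-, -, -, -, -, π, d1, d2, d3⟩ := hT' p hp
    have : Fact p.Prime := ⟨b1⟩
    have hL : 2 * p + 1 ≤ primorial Y ^ b := by
      have : 2 ^ b ≤ primorial Y ^ b := Nat.pow_le_pow_left hP b
      omega
    have hds : ∀ l, ds (cA ω (z l)) (cB ω (z l)) ≠ 0 := by
      intro l h
      refine hd l (RingOfIntegers.ext ?_)
      unfold ds cA cB at h
      unfold ds
      push_cast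
      exact h
    have hcls := fun l => few_clsK (hds l) (hF l) π (d1 l).1 (d1 l).2 (by omega) (d2 l).1
      (SF3_ndvd (b := b) b1 b4) hL
    choose r hr using hcls
    obtain ⟨s, hs1, hs2⟩ := hΓ (primorial Y ^ b) (by omega)
    have key := fixedK L h0 h1 hR r hr s hs1 hs2 T hT' (H := H) ((hprod T hTS).trans hq)
    refine key.trans (le_of_eq ?_)
    push_cast
    rw [pow_add _ t' ((t + 1) * g), pow_mul _ (t + 1) g]

end VK
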