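import Pool.Agent.Lib.MP_17a322_ntVK.EA
import Pool.Agent.Lib.MP_10e784_agBS.Defs
import Pool.Agent.Lib.MP_10e784_agW.GA

/-!
# The group of points: Mordell-Weil over `K`, the order over `ZMod p` (as `MP_10e784_agW/GA`, `RD`)
-/

namespace VK

open Finset NumberField

theorem mwK {K : Type} [Field K] [NumberField K] [DecidableEq K] {A B : K} (hd : ds A B ≠ 0) :
    Module.Finite ℤ (Pt A B) := by
  have h : (EK A B).Δ = -16 * ds A B := by
    simp only [EK, WeierstrassCurve.Δ, WeierstrassCurve.b₂, WeierstrassCurve.b₄,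
      WeierstrassCurve.b₆, WeierstrassCurve.b₈, ds]
    ring
  have h2 : (EK A B).Δ ≠ 0 := by
    rw [h]
    exact mul_ne_zero (by norm_num) hd
  have : (EK A B).IsElliptic := ⟨isUnit_iff_ne_zero.2 h2⟩
  exact Module.Finite.iff_addGroup_fg.2 (Pool.Agent.Lib.MP_17a322_nt.VJ.mordell_weil (EK A B))

/-- the points and the affine points -/
noncomputable def ptEquiv {F : Type} [Field F] [DecidableEq F] {a b : F} (h2 : (2 : F) ≠ 0) (hd : ds a b ≠ 0) :
    Pt a b ≃ Option {z : F × F // z.2 ^ 2 = z.1 ^ 3 + a * z.1 + b} where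
  toFun
    | .zero => none
    | .some x y h => some ⟨(x, y), (EK_eqn a b x y).1 h.1⟩
  invFun
    | none => .zero
    | some z => .some z.1.1 z.1.2 ((EK_nons a b h2 hd _ _).2 z.2)
  left_inv P := by
    rcases P with _ | ⟨x, y, h⟩ <;> rfl
  right_inv z := by
    rcases z with _ | ⟨⟨x, y⟩, h⟩ <;> rfl

theorem two_ne {p : ℕ} [Fact p.Prime] (hp2 : p ≠ 2) : (2 : ZMod p) ≠ 0 := by
  intro h
  have h1 : ((2 : ℕ) : ZMod p) = 0 := by exact_mod_cast h
  rw [ZMod.natCast_eq_zero_iff] at h1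
  exact hp2 ((Nat.prime_dvd_prime_iff_eq Fact.out Nat.prime_two).1 h1)

theorem card_pt {p : ℕ} [Fact p.Prime] (hp2 : p ≠ 2) {a b : ZMod p} (hd : ds a b ≠ 0) :
    Nat.card (Pt a b) = MWS.nz a b + 1 := by
  rw [Nat.card_congr (ptEquiv (two_ne hp2) hd), Finite.card_option]
  rfl

theorem fin_pt {p : ℕ} [Fact p.Prime] (hp2 : p ≠ 2) {a b : ZMod p} (hd : ds a b ≠ 0) : Finite (Pt a b) :=
  Nat.finite_of_card_ne_zero (by rw [card_pt hp2 hd]; omega)

theorem killK {p : ℕ} [Fact p.Prime] (hp2 : p ≠ 2) {a b : ZMod p} (hd : ds a b ≠ 0) {L : ℕ}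
    (hn : MWS.nz a b + 1 ∣ L) (P : Pt a b) : L • P = 0 := by
  obtain ⟨k, rfl⟩ := hn
  rw [mul_comm, mul_smul, ← card_pt hp2 hd, card_nsmul_eq_zero', smul_zero]

end VK
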