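import Pool.Agent.Lib.MP_17a322_ntVK.Defs

/-!
# Collinear points of `y² = x³ + a x + b` over a field (as `MP_10e784_agW/RA`, with coefficients in the field)
-/

namespace VK

/-- three points on the line `y = l x + n`, with the factorisation of `x³ + a x + b - (l x + n)²` -/
structure Lin {F : Type} [Field F] (a b l n x₁ y₁ x₂ y₂ x₃ y₃ : F) : Prop where
  y1 : y₁ = l * x₁ + n
  y2 : y₂ = l * x₂ + n
  y3 : y₃ = l * x₃ + n
  e1 : l ^ 2 = x₁ + x₂ + x₃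
  e2 : a - 2 * l * n = x₁ * x₂ + x₁ * x₃ + x₂ * x₃
  e3 : b - n ^ 2 = - (x₁ * x₂ * x₃)

variable {F : Type} [Field F] [DecidableEq F]

theorem EK_eqn (a b : F) (x y : F) :
    (EK a b).toAffine.Equation x y ↔ y ^ 2 = x ^ 3 + a * x + b := by
  rw [WeierstrassCurve.Affine.equation_iff]
  simp [EK]

theorem EK_nons (a b : F) (h2 : (2 : F) ≠ 0) (hd : ds a b ≠ 0) (x y : F) :
    (EK a b).toAffine.Nonsingular x y ↔ y ^ 2 = x ^ 3 + a * x + b := by
  rw [WeierstrassCurve.Affine.nonsingular_iff', EK_eqn]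
  refine ⟨fun h => h.1, fun h => ⟨h, ?_⟩⟩
  by_contra hcon
  rw [not_or, not_not, not_not] at hcon
  obtain ⟨h3, h4⟩ := hcon
  have h3' : 3 * x ^ 2 + a = 0 := by
    have h5 : (0 : F) * y - (3 * x ^ 2 + 2 * 0 * x + a) = 0 := h3
    linear_combination -h5
  have h4' : y = 0 := by
    have h5 : 2 * y + (0 : F) * x + 0 = 0 := h4
    have h6 : 2 * y = 0 := by linear_combination h5
    exact (mul_eq_zero.1 h6).resolve_left h2
  refine hd ?_
  rw [h4'] at h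
  unfold ds
  have ha : a = -3 * x ^ 2 := by linear_combination h3'
  have hb : b = 2 * x ^ 3 := by
    rw [ha] at h
    linear_combination -h
  rw [ha, hb]
  ring

private theorem RA_slope (a b : F) {x₁ y₁ x₂ y₂ : F}
    (h₁ : (EK a b).toAffine.Equation x₁ y₁) (h₂ : (EK a b).toAffine.Equation x₂ y₂)
    (hxy : ¬(x₁ = x₂ ∧ y₁ = (EK a b).toAffine.negY x₂ y₂)) :
    y₂ = (EK a b).toAffine.slope x₁ x₂ y₁ y₂ * (x₂ - x₁) + y₁ := by
  by_cases hx : x₁ = x₂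
  · have hy : y₁ ≠ (EK a b).toAffine.negY x₂ y₂ := fun h => hxy ⟨hx, h⟩
    have h3 := WeierstrassCurve.Affine.Y_eq_of_Y_ne h₁ h₂ hx hy
    rw [hx, sub_self, mul_zero, zero_add, h3]
  · rw [WeierstrassCurve.Affine.slope_of_X_ne hx]
    have h3 : x₁ - x₂ ≠ 0 := sub_ne_zero.2 hx
    field_simp
    ring

private theorem RA_coeffs (a b : F) {x₁ y₁ x₂ y₂ : F}
    (h₁ : (EK a b).toAffine.Equation x₁ y₁) (h₂ : (EK a b).toAffine.Equation x₂ y₂)
    (hxy : ¬(x₁ = x₂ ∧ y₁ = (EK a b).toAffine.negY x₂ y₂)) (l x₃ : F)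
    (hl : (EK a b).toAffine.slope x₁ x₂ y₁ y₂ = l)
    (h3 : (EK a b).toAffine.addX x₁ x₂ l = x₃) :
    2 * x₁ * l ^ 2 - 2 * y₁ * l + a = x₁ * x₂ + x₁ * x₃ + x₂ * x₃ ∧
      -x₁ ^ 2 * l ^ 2 + 2 * x₁ * y₁ * l - (y₁ ^ 2 - b) = -(x₁ * x₂ * x₃) := by
  have h := WeierstrassCurve.Affine.addPolynomial_slope h₁ h₂ hxy
  rw [hl, h3, WeierstrassCurve.Affine.addPolynomial_eq, neg_inj, Cubic.prod_X_sub_C_eq,
    Cubic.toPoly_injective] at h
  have hc : 2 * x₁ * l ^ 2 + ((0 : F) * x₁ - 2 * y₁ - 0) * l + (-(0 : F) * y₁ + a) =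
      x₁ * x₂ + x₁ * x₃ + x₂ * x₃ := congrArg Cubic.c h
  have hd : -x₁ ^ 2 * l ^ 2 + (2 * x₁ * y₁ + (0 : F) * x₁) * l - (y₁ ^ 2 + 0 * y₁ - b) =
      -(x₁ * x₂ * x₃) := congrArg Cubic.d h
  constructor
  · linear_combination hc
  · linear_combination hd

theorem lin_of_sum (a b : F) (h2 : (2 : F) ≠ 0) (x₁ y₁ x₂ y₂ x₃ y₃ : F)
    (h₁ : (EK a b).toAffine.Nonsingular x₁ y₁) (h₂ : (EK a b).toAffine.Nonsingular x₂ y₂)
    (h₃ : (EK a b).toAffine.Nonsingular x₃ y₃)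
    (h : (.some x₁ y₁ h₁ : Pt a b) + .some x₂ y₂ h₂ + .some x₃ y₃ h₃ = 0) :
    ∃ l n : F, Lin a b l n x₁ y₁ x₂ y₂ x₃ y₃ := by
  have _ := h2
  have hxy : ¬(x₁ = x₂ ∧ y₁ = (EK a b).toAffine.negY x₂ y₂) := by
    rintro ⟨hx, hy⟩
    rw [WeierstrassCurve.Affine.Point.add_of_Y_eq hx hy, zero_add] at h
    exact WeierstrassCurve.Affine.Point.some_ne_zero h₃ h
  have h4 := eq_neg_of_add_eq_zero_left h
  rw [WeierstrassCurve.Affine.Point.add_some hxy, WeierstrassCurve.Affine.Point.neg_some,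
    WeierstrassCurve.Affine.Point.some.injEq] at h4
  obtain ⟨hX, hY⟩ := h4
  obtain ⟨l, hl⟩ : ∃ l, (EK a b).toAffine.slope x₁ x₂ y₁ y₂ = l := ⟨_, rfl⟩
  have hs := RA_slope a b h₁.1 h₂.1 hxy
  rw [hl] at hX hY hs
  obtain ⟨hc, hd⟩ := RA_coeffs a b h₁.1 h₂.1 hxy l x₃ hl hX
  have hX' : l ^ 2 + (0 : F) * l - 0 - x₁ - x₂ = x₃ := hX
  have hY' : -(l * ((EK a b).toAffine.addX x₁ x₂ l - x₁) + y₁) -
      (0 : F) * (EK a b).toAffine.addX x₁ x₂ l - 0 = -y₃ - 0 * x₃ - 0 := hY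
  rw [hX] at hY'
  refine ⟨l, y₁ - l * x₁, ?_, ?_, ?_, ?_, ?_, ?_⟩
  · ring
  · linear_combination hs
  · linear_combination hY'
  · linear_combination hX'
  · linear_combination hc
  · linear_combination hd

theorem sum_of_lin (a b : F) (h2 : (2 : F) ≠ 0) (hd : ds a b ≠ 0) (x₁ y₁ x₂ y₂ x₃ y₃ l n : F)
    (h₁ : (EK a b).toAffine.Nonsingular x₁ y₁) (h₂ : (EK a b).toAffine.Nonsingular x₂ y₂)
    (h₃ : (EK a b).toAffine.Nonsingular x₃ y₃) (h : Lin a b l n x₁ y₁ x₂ y₂ x₃ y₃) :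
    (.some x₁ y₁ h₁ : Pt a b) + .some x₂ y₂ h₂ + .some x₃ y₃ h₃ = 0 := by
  have e₁ := (EK_eqn a b x₁ y₁).1 h₁.1
  have hn : ∀ x y : F, (EK a b).toAffine.negY x y = -y := by
    intro x y
    show -y - (0 : F) * x - 0 = -y
    ring
  -- the slope
  have key : ¬(x₁ = x₂ ∧ y₁ = (EK a b).toAffine.negY x₂ y₂) ∧
      (EK a b).toAffine.slope x₁ x₂ y₁ y₂ = l := by
    by_cases hx : x₁ = x₂
    · have hy : y₁ = y₂ := by rw [h.y1, h.y2, hx]
      subst hx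
      subst hy
      have ht : 3 * x₁ ^ 2 + a = 2 * l * y₁ := by
        have := h.y1
        linear_combination h.e2 - 2 * x₁ * h.e1 + 2 * l * (-1) * this
      have hy0 : y₁ ≠ 0 := by
        intro hy0
        refine hd ?_
        rw [hy0, mul_zero] at ht
        rw [hy0] at e₁
        unfold ds
        have ha : a = -3 * x₁ ^ 2 := by linear_combination ht
        have hb : b = 2 * x₁ ^ 3 := by
          rw [ha] at e₁
          linear_combination -e₁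
        rw [ha, hb]
        ring
      have hne : y₁ ≠ (EK a b).toAffine.negY x₁ y₁ := by
        rw [hn]
        intro hc
        have h5 : 2 * y₁ = 0 := by linear_combination hc
        exact hy0 ((mul_eq_zero.1 h5).resolve_left h2)
      refine ⟨fun hc => hne hc.2, ?_⟩
      rw [WeierstrassCurve.Affine.slope_of_Y_ne rfl hne, hn]
      have h6 : (3 * x₁ ^ 2 + 2 * (0 : F) * x₁ + a - 0 * y₁) / (y₁ - -y₁) = l := by
        have h7 : y₁ - -y₁ ≠ 0 := by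
          intro hc
          have h5 : 2 * y₁ = 0 := by linear_combination hc
          exact hy0 ((mul_eq_zero.1 h5).resolve_left h2)
        rw [div_eq_iff h7]
        linear_combination ht
      exact h6
    · refine ⟨fun hc => hx hc.1, ?_⟩
      rw [WeierstrassCurve.Affine.slope_of_X_ne hx, div_eq_iff (sub_ne_zero.2 hx), h.y1, h.y2]
      ring
  obtain ⟨hxy, hl⟩ := key
  rw [add_eq_zero_iff_eq_neg, WeierstrassCurve.Affine.Point.add_some hxy,
    WeierstrassCurve.Affine.Point.neg_some, WeierstrassCurve.Affine.Point.some.injEq, hl]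
  have hX : (EK a b).toAffine.addX x₁ x₂ l = x₃ := by
    show l ^ 2 + (0 : F) * l - 0 - x₁ - x₂ = x₃
    linear_combination h.e1
  refine ⟨hX, ?_⟩
  rw [WeierstrassCurve.Affine.addY, WeierstrassCurve.Affine.negAddY, hX, hn, hn, h.y1, h.y3]
  ring

end VK
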