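import Pool.Agent.Lib.MP_17a322_ntVK.SR2

/-!
# LEAF SR3: the reduction homomorphism at a place (as `MP_10e784_agW/RC`)

PROOF.  Copy of `exists_red` and `rd_class` of `MP_10e784_agW/RC.lean` with `Pt A B` over `K`, `Pt (res π A) (res π B)` over `ZMod p`; `p ∣ x.den` becomes `x ∉ π.V`; `EK_nons`, `lin_of_sum`, `sum_of_lin` (EA), `two_ne` (EB),
`red_linK`, `den_xyK` (SR1), `red_unitK` (SR2).
-/

namespace VK

open LVH

section SR3

variable {K : Type} [Field K] {p : ℕ} [Fact p.Prime] (π : Pl K p) {A B : K}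

private theorem SR3_eqn (hA : A ∈ π.V) (hB : B ∈ π.V) {x y : K} (hx : x ∈ π.V)
    (h : y ^ 2 = x ^ 3 + A * x + B) :
    (res π y) ^ 2 = (res π x) ^ 3 + res π A * res π x + res π B := by
  have hy : y ∈ π.V := (den_xyK π hA hB h).1 hx
  have h1 : Rd π (y ^ 2) ((res π y) ^ 2) := (rd_res hy).pow 2
  have h2 : Rd π (x ^ 3 + A * x + B) ((res π x) ^ 3 + res π A * res π x + res π B) :=
    (((rd_res hx).pow 3).add ((rd_res hA).mul (rd_res hx))).add (rd_res hB)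
  rw [← h] at h2
  rw [← res_eq h1, ← res_eq h2]

variable [DecidableEq K]

omit [DecidableEq K] in
private theorem SR3_eq {F : Type} [Field F] [DecidableEq F] {a b x y : F}
    (h : (EK a b).toAffine.Nonsingular x y) : y ^ 2 = x ^ 3 + a * x + b :=
  (EK_eqn a b x y).1 h.1

private theorem SR3_ns (hA : A ∈ π.V) (hB : B ∈ π.V) (hp2 : p ≠ 2) (hd : ds (res π A) (res π B) ≠ 0)
    {x y : K} (h : (EK A B).toAffine.Nonsingular x y) (hx : x ∈ π.V) :
    (EK (res π A) (res π B)).toAffine.Nonsingular (res π x) (res π y) :=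
  (EK_nons _ _ (two_ne hp2) hd _ _).2 (SR3_eqn π hA hB hx (SR3_eq h))

open Classical in
/-- the reduction map -/
private noncomputable def SR3_f (hA : A ∈ π.V) (hB : B ∈ π.V) (hp2 : p ≠ 2)
    (hd : ds (res π A) (res π B) ≠ 0) : Pt A B → Pt (res π A) (res π B)
  | .zero => .zero
  | .some x y h => if hx : x ∈ π.V then
      .some (res π x) (res π y) (SR3_ns π hA hB hp2 hd h hx) else .zero

private theorem SR3_bad (hA : A ∈ π.V) (hB : B ∈ π.V) (hp2 : p ≠ 2) (hd : ds (res π A) (res π B) ≠ 0)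
    (x y : K) (h : (EK A B).toAffine.Nonsingular x y) (hx : x ∉ π.V) :
    SR3_f π hA hB hp2 hd (.some x y h) = 0 := dif_neg hx

private theorem SR3_good (hA : A ∈ π.V) (hB : B ∈ π.V) (hp2 : p ≠ 2) (hd : ds (res π A) (res π B) ≠ 0)
    (x y : K) (h : (EK A B).toAffine.Nonsingular x y) (hx : x ∈ π.V) :
    SR3_f π hA hB hp2 hd (.some x y h) = .some (res π x) (res π y) (SR3_ns π hA hB hp2 hd h hx) := dif_pos hx

private theorem SR3_neg (hA : A ∈ π.V) (hB : B ∈ π.V) (hp2 : p ≠ 2) (hd : ds (res π A) (res π B) ≠ 0)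
    (P : Pt A B) : SR3_f π hA hB hp2 hd (-P) = - SR3_f π hA hB hp2 hd P := by
  rcases P with _ | ⟨x, y, h⟩
  · rfl
  · rw [WeierstrassCurve.Affine.Point.neg_some]
    by_cases hx : x ∈ π.V
    · rw [SR3_good π hA hB hp2 hd _ _ _ hx, SR3_good π hA hB hp2 hd _ _ _ hx,
        WeierstrassCurve.Affine.Point.neg_some]
      have hy : y ∈ π.V := (den_xyK π hA hB (SR3_eq h)).1 hx
      have e1 : (EK A B).toAffine.negY x y = -y := by
        simp [WeierstrassCurve.Affine.negY, EK]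
      have e2 : (EK (res π A) (res π B)).toAffine.negY (res π x) (res π y) = - res π y := by
        simp [WeierstrassCurve.Affine.negY, EK]
      have e3 : res π ((EK A B).toAffine.negY x y) =
          (EK (res π A) (res π B)).toAffine.negY (res π x) (res π y) := by
        rw [e1, e2]
        obtain ⟨g1, g2⟩ := rd_res hy
        have g3 : Rd π (-y) (-res π y) := ⟨π.V.neg_mem _ g1, by rw [← g2]; exact map_neg π.ρ ⟨y, g1⟩⟩
        exact res_eq g3
      simp only [e3]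
    · rw [SR3_bad π hA hB hp2 hd _ _ _ hx, SR3_bad π hA hB hp2 hd _ _ _ hx, neg_zero]

omit [DecidableEq K] in
private theorem SR3_swap {F : Type} [Field F] {a b l n x₁ y₁ x₂ y₂ x₃ y₃ : F}
    (h : Lin a b l n x₁ y₁ x₂ y₂ x₃ y₃) : Lin a b l n x₂ y₂ x₁ y₁ x₃ y₃ where
  y1 := h.y2
  y2 := h.y1
  y3 := h.y3
  e1 := by rw [h.e1]; ring
  e2 := by rw [h.e2]; ring
  e3 := by rw [h.e3]; ring

omit [DecidableEq K] in
private theorem SR3_rot {F : Type} [Field F] {a b l n x₁ y₁ x₂ y₂ x₃ y₃ : F}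
    (h : Lin a b l n x₁ y₁ x₂ y₂ x₃ y₃) : Lin a b l n x₂ y₂ x₃ y₃ x₁ y₁ where
  y1 := h.y2
  y2 := h.y3
  y3 := h.y1
  e1 := by rw [h.e1]; ring
  e2 := by rw [h.e2]; ring
  e3 := by rw [h.e3]; ring

omit [DecidableEq K] in
/-- two points with the same first coordinates and opposite second coordinates have sum zero -/
private theorem SR3_opp {F : Type} [Field F] [DecidableEq F] {a b x y x' y' : F}
    (h : (EK a b).toAffine.Nonsingular x y)
    (h' : (EK a b).toAffine.Nonsingular x' y') (hx : x' = x) (hy : y' = -y) :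
    (.some x y h : Pt a b) + .some x' y' h' = 0 := by
  subst hx
  apply WeierstrassCurve.Affine.Point.add_of_Y_eq rfl
  rw [hy]
  simp [WeierstrassCurve.Affine.negY, EK]

/-- the first point in the kernel of reduction -/
private theorem SR3_one (hA : A ∈ π.V) (hB : B ∈ π.V) (hp2 : p ≠ 2) (hd : ds (res π A) (res π B) ≠ 0)
    {x₁ y₁ x₂ y₂ x₃ y₃ : K} {l n : K}
    (h₁ : (EK A B).toAffine.Nonsingular x₁ y₁) (h₂ : (EK A B).toAffine.Nonsingular x₂ y₂)
    (h₃ : (EK A B).toAffine.Nonsingular x₃ y₃) (h : Lin A B l n x₁ y₁ x₂ y₂ x₃ y₃)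
    (k1 : x₁ ∉ π.V) :
    SR3_f π hA hB hp2 hd (.some x₁ y₁ h₁) + SR3_f π hA hB hp2 hd (.some x₂ y₂ h₂)
      + SR3_f π hA hB hp2 hd (.some x₃ y₃ h₃) = 0 := by
  rw [SR3_bad π hA hB hp2 hd _ _ _ k1, zero_add]
  by_cases k2 : x₂ ∈ π.V
  · obtain ⟨g1, g2, g3⟩ := red_unitK π hA hB h (SR3_eq h₁) (SR3_eq h₂) (SR3_eq h₃) k1 k2
    rw [SR3_good π hA hB hp2 hd _ _ _ k2, SR3_good π hA hB hp2 hd _ _ _ g1]
    exact SR3_opp _ _ g2 g3
  · by_cases k3 : x₃ ∈ π.V
    · exact absurd (red_unitK π hA hB (SR3_swap (SR3_rot (SR3_rot h))) (SR3_eq h₁) (SR3_eq h₃) (SR3_eq h₂) k1 k3).1 k2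
    · rw [SR3_bad π hA hB hp2 hd _ _ _ k2, SR3_bad π hA hB hp2 hd _ _ _ k3, zero_add]

private theorem SR3_sum [CharZero K] (hA : A ∈ π.V) (hB : B ∈ π.V) (hp2 : p ≠ 2)
    (hd : ds (res π A) (res π B) ≠ 0) (P Q R : Pt A B) (h : P + Q + R = 0) :
    SR3_f π hA hB hp2 hd P + SR3_f π hA hB hp2 hd Q + SR3_f π hA hB hp2 hd R = 0 := by
  have h0 : SR3_f π hA hB hp2 hd (0 : Pt A B) = 0 := rfl
  by_cases hP : P = 0
  · have h1 : R = -Q := by
      rw [hP, zero_add] at h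
      exact (neg_eq_of_add_eq_zero_right h).symm
    rw [hP, h1, SR3_neg, h0, zero_add, add_neg_cancel]
  by_cases hQ : Q = 0
  · have h1 : R = -P := by
      rw [hQ, add_zero] at h
      exact (neg_eq_of_add_eq_zero_right h).symm
    rw [hQ, h1, SR3_neg, h0, add_zero, add_neg_cancel]
  by_cases hR : R = 0
  · have h1 : Q = -P := by
      rw [hR, add_zero] at h
      exact (neg_eq_of_add_eq_zero_right h).symm
    rw [hR, h1, SR3_neg, h0, add_zero, add_neg_cancel]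
  rcases P with _ | ⟨x₁, y₁, h₁⟩
  · exact absurd rfl hP
  rcases Q with _ | ⟨x₂, y₂, h₂⟩
  · exact absurd rfl hQ
  rcases R with _ | ⟨x₃, y₃, h₃⟩
  · exact absurd rfl hR
  obtain ⟨l, n, hL⟩ := lin_of_sum A B (two_ne_zero) x₁ y₁ x₂ y₂ x₃ y₃ h₁ h₂ h₃ h
  by_cases k1 : x₁ ∈ π.V
  · by_cases k2 : x₂ ∈ π.V
    · by_cases k3 : x₃ ∈ π.V
      · have g1 : y₁ ∈ π.V := (den_xyK π hA hB (SR3_eq h₁)).1 k1
        have hM := red_linK π hA hB hL k1 k2 k3 g1
        rw [SR3_good π hA hB hp2 hd _ _ _ k1, SR3_good π hA hB hp2 hd _ _ _ k2,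
          SR3_good π hA hB hp2 hd _ _ _ k3]
        exact sum_of_lin _ _ (two_ne hp2) hd _ _ _ _ _ _ _ _ _ _ _ hM
      · have := SR3_one π hA hB hp2 hd h₃ h₁ h₂ (SR3_rot (SR3_rot hL)) k3
        rwa [add_assoc, add_comm] at this
    · have := SR3_one π hA hB hp2 hd h₂ h₁ h₃ (SR3_swap hL) k2
      rwa [add_comm (SR3_f π hA hB hp2 hd (.some x₂ y₂ h₂))] at this
  · exact SR3_one π hA hB hp2 hd h₁ h₂ h₃ hL k1

end SR3

theorem exists_redK {K : Type} [Field K] [DecidableEq K] [CharZero K] {p : ℕ} [Fact p.Prime] (π : Pl K p) {A B : K}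
    (hA : A ∈ π.V) (hB : B ∈ π.V) (hp2 : p ≠ 2) (hd : ds (res π A) (res π B) ≠ 0) :
    ∃ ρ : Pt A B →+ Pt (res π A) (res π B), ∀ x y h,
      (x ∉ π.V → ρ (.some x y h) = 0) ∧
      (x ∈ π.V → ∃ h', ρ (.some x y h) = .some (res π x) (res π y) h') := by
  have hadd : ∀ P Q : Pt A B, SR3_f π hA hB hp2 hd (P + Q) = SR3_f π hA hB hp2 hd P + SR3_f π hA hB hp2 hd Q := by
    intro P Q
    have h1 := SR3_sum π hA hB hp2 hd P Q (-(P + Q)) (add_neg_cancel _)
    rw [SR3_neg] at h1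
    exact (add_neg_eq_zero.1 h1).symm
  refine ⟨AddMonoidHom.mk' (SR3_f π hA hB hp2 hd) hadd, fun x y h => ⟨fun hx => ?_, fun hx => ?_⟩⟩
  · exact SR3_bad π hA hB hp2 hd x y h hx
  · exact ⟨_, SR3_good π hA hB hp2 hd x y h hx⟩

theorem rd_classK {K : Type} [Field K] [DecidableEq K] [CharZero K] {p : ℕ} [Fact p.Prime] (π : Pl K p) {A B : K}
    (hA : A ∈ π.V) (hB : B ∈ π.V) (hp2 : p ≠ 2) (hd : ds (res π A) (res π B) ≠ 0) (L : ℕ)
    (hk : ∀ P : Pt (res π A) (res π B), L • P = 0) (P Q : Pt A B) : rdK π (P + L • Q) = rdK π P := by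
  obtain ⟨ρ, hρ⟩ := exists_redK π hA hB hp2 hd
  -- `rdK` is determined by `ρ`
  have key : ∀ P Q : Pt A B, ρ P = ρ Q → rdK π P = rdK π Q := by
    have h0 : ∀ P : Pt A B, (ρ P = 0 ∧ rdK π P = none) ∨
        ∃ x y h', ρ P = .some x y h' ∧ rdK π P = some (x, y) := by
      intro P
      rcases P with _ | ⟨x, y, h⟩
      · left
        exact ⟨map_zero ρ, rfl⟩
      · by_cases hx : x ∈ π.V
        · right
          obtain ⟨h', e⟩ := (hρ x y h).2 hx
          exact ⟨_, _, h', e, if_pos hx⟩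
        · left
          exact ⟨(hρ x y h).1 hx, if_neg hx⟩
    intro P Q hPQ
    rcases h0 P with ⟨a1, a2⟩ | ⟨x, y, h, a1, a2⟩ <;> rcases h0 Q with ⟨b1, b2⟩ | ⟨x', y', h', b1, b2⟩
    · rw [a2, b2]
    · rw [a1, b1] at hPQ
      exact absurd hPQ.symm (by simp)
    · rw [a1, b1] at hPQ
      exact absurd hPQ (by simp)
    · rw [a1, b1] at hPQ
      rw [a2, b2]
      have h3 := (WeierstrassCurve.Affine.Point.some.injEq _ _ _ _ _ _).mp hPQ
      rw [h3.1, h3.2]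
  apply key
  rw [map_add, map_nsmul, hk, add_zero]

end VK
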