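import Pool.Agent.Lib.MP_17a322_ntVK.SP1

/-!
# LEAF SP2: the choice of the parameters in terms of `H` (as `par_gH` of `MP_10e784_agBG/GF`)

PROOF.  Copy of `par_gH` with `par_XK`: `X = ⌊log H / 2⌋₊`.
-/

namespace VK

open Filter

theorem par_HK (K₁ : ℕ) (A : ℝ) (hA : 1 < A) : ∃ c₀ : ℝ, 0 < c₀ ∧ ∀ (g k t₀ : ℕ) (Q q : ℝ), 1 ≤ Q → 0 < q →
    ∀ x₀ : ℝ, ∃ H₀ : ℕ, ∀ H : ℕ, H₀ ≤ H → ∃ X U t b Y : ℕ, x₀ ≤ X ∧ 4 ^ X ≤ H ∧ x₀ ≤ X / Q ∧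
    1 ≤ U ∧ K₁ ≤ U ∧ (U : ℝ) ^ K₁ ≤ X / Q ∧ (K₁ : ℝ) * Real.log X ≤ U ∧ 3 * X ≤ 2 ^ b ∧
    4 * U ≤ Y ∧ 3 * X ≤ Y * U ^ 1 ∧ (Y : ℝ) < X / Q ∧ (X : ℝ) ≤ (Y : ℝ) ^ A ∧ t₀ ≤ t ∧
    (g : ℝ) * (((t : ℝ) + 1) * b * Y * Real.log 4) + (Real.log H) ^ c₀ ≤ q * X / (Real.log X) ^ (g + 1) ∧
    k * Real.log (1 + Real.log H) + (Real.log H) ^ c₀ ≤ t * Real.log 2 := by
  obtain ⟨c₀, hc₀, hpar⟩ := par_XK K₁ A hA
  refine ⟨c₀, hc₀, fun g k t₀ Q q hQ hq x₀ => ?_⟩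
  have hlim : Tendsto (fun H : ℕ => ⌊Real.log (H : ℝ) / 2⌋₊) atTop atTop := by
    refine tendsto_nat_floor_atTop.comp ?_
    exact (Real.tendsto_log_atTop.comp tendsto_natCast_atTop_atTop).atTop_div_const (by norm_num)
  have hX1 : ∀ᶠ X : ℕ in atTop, x₀ ≤ (X : ℝ) := tendsto_natCast_atTop_atTop.eventually_ge_atTop x₀
  have hX2 : ∀ᶠ X : ℕ in atTop, x₀ * Q ≤ (X : ℝ) := tendsto_natCast_atTop_atTop.eventually_ge_atTop (x₀ * Q)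
  have hall := hlim.eventually (((hpar g k t₀ Q q hQ hq).and hX1).and hX2)
  obtain ⟨H₀, hH₀⟩ := eventually_atTop.1 hall
  refine ⟨max H₀ 1, fun H hH => ?_⟩
  have hH1 : 1 ≤ H := le_trans (le_max_right _ _) hH
  obtain ⟨⟨⟨U, t, b, Y, h1, h2, h3, h4, h5, h6, h7, h8, h9, h10, h11, h14⟩, h12⟩, h13⟩ :=
    hH₀ H (le_trans (le_max_left _ _) hH)
  have hHpos : (0 : ℝ) < H := by exact_mod_cast hH1
  have hlog0 : 0 ≤ Real.log H := Real.log_nonneg (by exact_mod_cast hH1)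
  set X : ℕ := ⌊Real.log (H : ℝ) / 2⌋₊ with hX
  have hXle : (X : ℝ) ≤ Real.log H / 2 := Nat.floor_le (by positivity)
  have hXlt : Real.log H / 2 < (X : ℝ) + 1 := Nat.lt_floor_add_one _
  have hlog4 : Real.log 4 ≤ 2 := by
    have : Real.log 4 = 2 * Real.log 2 := by
      rw [show (4 : ℝ) = 2 ^ 2 by norm_num, Real.log_pow]
      norm_num
    have h := Real.log_two_lt_d9
    linarith
  have hlog4' : 0 ≤ Real.log 4 := Real.log_nonneg (by norm_num)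
  have hX0 : (0 : ℝ) ≤ X := Nat.cast_nonneg _
  have h4X : 4 ^ X ≤ H := by
    have h : ((4 : ℝ)) ^ X ≤ H := by
      rw [← Real.log_le_log_iff (by positivity) hHpos, Real.log_pow]
      nlinarith
    exact_mod_cast h
  have hle : Real.log H ≤ 4 * (X : ℝ) + 4 := by linarith
  have hpow : (Real.log H) ^ c₀ ≤ (4 * (X : ℝ) + 4) ^ c₀ := Real.rpow_le_rpow hlog0 hle hc₀.le
  have hll : Real.log (1 + Real.log H) ≤ Real.log (4 * X + 5) :=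
    Real.log_le_log (by linarith) (by linarith)
  have hkk : (k : ℝ) * Real.log (1 + Real.log H) ≤ k * Real.log (4 * X + 5) :=
    mul_le_mul_of_nonneg_left hll (Nat.cast_nonneg k)
  refine ⟨X, U, t, b, Y, h12, h4X, ?_, h1, h2, h3, h4, h5, h6, h7, h8, h9, h10, ?_, ?_⟩
  · rw [le_div_iff₀ (by linarith)]
    exact h13
  · linarith
  · linarith

end VK
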