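import Pool.Agent.Lib.MP_17a322_ntVK.SR1

/-!
# The local conditions of the two families: definitions
-/

namespace VK

open Finset NumberField LVH

/-- the coordinates of a point -/
def opK {K : Type} [Field K] {A B : K} : Pt A B → Option (K × K)
  | .zero => none
  | .some x y _ => some (x, y)

/-- the local condition for the covers `γ w ^ q = F`; `γ` is the last coordinate of the torus -/
def RA {K : Type} [Field K] [NumberField K] (q : ℕ) {n g e : ℕ} {ι : Type} [Fintype ι] (E : ι → Fin n → ℤ)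
    (d : Fin g → ℕ) (ω : Fin e → 𝓞 K) : Loc K (n + 1) g (IxT ι d × Fin e) := fun p π u z =>
  {c | ∃ _ : Fact p.Prime, ∃ s : ZMod p, u (Fin.last n) * s ^ q =
    ∑ t : IxT ι d, (∑ k, c (t, k) * res π ((ω k : 𝓞 K) : K)) * bT E (fun l => u l.castSucc) z t}

/-- the local condition for the common zeros of `s` sections on the product with `ℙ^m` -/
def RB {K : Type} [Field K] [NumberField K] {n m g s e : ℕ} {ι : Type} [Fintype ι] (ν : Fin s → ℕ)
    (d : Fin s → Fin g → ℕ) (E : Fin s → ι → Fin n → ℤ) (ω : Fin e → 𝓞 K) : Loc K n g (IxM ι m ν d × Fin e) :=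
  fun p π u z =>
  {c | ∃ _ : Fact p.Prime, ∃ y : Fin (m + 1) → ZMod p, y ≠ 0 ∧
    ∀ j, sM E (fun t => ∑ k, c (t, k) * res π ((ω k : 𝓞 K) : K)) u z y j = 0}

end VK
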