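import Pool.Agent.Lib.MP_17a322_ntVK.Stmt

/-!
# The covers and the complete intersections over `G_m^n × E_1 × .. × E_g`: the points
-/

namespace VK

open Finset NumberField

/-- the cover `γ w ^ r = F` of `G_m^n × E_1 × .. × E_g` has a point with `x_l, γ ∈ Γ`, `P_l ∈ E_l(K)`, `w ∈ K`; `F` is the
combination of the products `bT E x P t` (a monomial `x^(E i)` times an element of the basis of the sections of
`O(2 d_1 O) ⊠ .. ⊠ O(2 d_g O)`) with the coefficients `cf ω z.2` -/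
def CovK {K : Type} [Field K] [NumberField K] {e n g : ℕ} {ι : Type} [Fintype ι] {d : Fin g → ℕ} (ω : Fin e → 𝓞 K)
    (Γ : Subgroup Kˣ) (r : ℕ) (E : ι → Fin n → ℤ) (z : Cv e g × (IxT ι d × Fin e → ℤ)) : Prop :=
  ∃ x : Fin n → Kˣ, (∀ l, x l ∈ Γ) ∧ ∃ γ ∈ Γ, ∃ (P : Fin g → Option (K × K)) (w : K),
    (∀ l, IsPt (cA ω (z.1 l)) (cB ω (z.1 l)) (P l)) ∧
    (γ : K) * w ^ r = ∑ t, cf ω z.2 t * bT E (fun l => (x l : K)) P t

/-- the subvariety `F_1 = .. = F_s = 0` of `G_m^n × E_1 × .. × E_g × ℙ^m` has a point with `x_l ∈ Γ`, `P_l ∈ E_l(K)` -/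
def ComK {K : Type} [Field K] [NumberField K] {e n m g s : ℕ} {ι : Type} [Fintype ι] {ν : Fin s → ℕ}
    {d : Fin s → Fin g → ℕ} (ω : Fin e → 𝓞 K) (Γ : Subgroup Kˣ) (E : Fin s → ι → Fin n → ℤ)
    (z : Cv e g × (IxM ι m ν d × Fin e → ℤ)) : Prop :=
  ∃ x : Fin n → Kˣ, (∀ l, x l ∈ Γ) ∧ ∃ (P : Fin g → Option (K × K)) (u : Fin (m + 1) → K),
    (∀ l, IsPt (cA ω (z.1 l)) (cB ω (z.1 l)) (P l)) ∧ u ≠ 0 ∧
    ∀ j, sM E (cf ω z.2) (fun l => (x l : K)) P u j = 0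

end VK
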