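import Pool.Agent.Lib.MP_17a322_ntCI.Stmt
import Pool.Agent.Lib.MP_17a322_ntCI.HI
import Pool.Agent.Lib.MP_10e784_agL.GL
import Pool.Agent.Lib.MP_10e784_agBR.Main
import Pool.Agent.Lib.MP_10e784_agWP.QD

/-!
# The Hasse principle for ramified double covers of products of elliptic curves over `ℚ`
-/

set_option autoImplicit false

namespace VK

open RamCov

private theorem pt_eq (E : ℤ × ℤ) (P : Option (ℚ × ℚ)) : IsPt ℚ E P ↔ MWS.IsPt E.1 E.2 P := by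
  rcases P with _ | z <;> exact Iff.rfl

private theorem bas_eq (d : ℕ) (P : Option (ℚ × ℚ)) (k : Ix d) : bas ℚ d P k = MWS.bas d P k := by
  rcases P with _ | z <;> rcases k with i | i <;> rfl

private theorem pt_eqK (K : Type) [Field K] (E : ℤ × ℤ) (P : Option (K × K)) :
    IsPt K E P ↔ BLS.PtK K E.1 E.2 P := by
  rcases P with _ | z <;> exact Iff.rfl

private theorem bas_eqK (K : Type) [Field K] (d : ℕ) (P : Option (K × K)) (k : Ix d) :
    bas K d P k = BLS.basK K d P k := by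
  rcases P with _ | z <;> rcases k with i | i <;> rfl

private theorem cov_eqK (K : Type) [Field K] {g : ℕ} (E : Fin g → ℤ × ℤ) (d : Fin g → ℕ) (a : IxG d → ℤ) :
    Cov K E d a ↔ BLS.SolG K (fun l => (E l).1) (fun l => (E l).2) d a := by
  unfold Cov BLS.SolG
  simp only [pt_eqK, bas_eqK]

private theorem cov_eq {g : ℕ} (E : Fin g → ℤ × ℤ) (d : Fin g → ℕ) (a : IxG d → ℤ) :
    Cov ℚ E d a ↔ ∃ P : Fin g → Option (ℚ × ℚ), (∀ l, MWS.IsPt (E l).1 (E l).2 (P l)) ∧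
      IsSquare (∑ k : IxG d, (a k : ℚ) * ∏ l, MWS.bas (d l) (P l) (k l)) := by
  unfold Cov
  simp only [pt_eq, bas_eq]

private theorem card_G {g : ℕ} (d : Fin g → ℕ) (hd : ∀ l, 1 ≤ d l) : Fintype.card (IxG d) = ∏ l, 2 * d l :=
  MWS.GP_card d hd

/-- a positive proportion of the ramified double covers `w² = F` of `E_1 × .. × E_g` over `ℚ` has points over `ℝ` and
over all `ℚ_p`, but no rational point -/
theorem hasse (g : ℕ) (d : Fin g → ℕ) (hd : ∀ l, 1 ≤ d l) (hd2 : ∃ l, 2 ≤ d l) :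
    ∃ (η : ℝ) (H0 : ℕ), 0 < η ∧ ∀ H : ℕ, H0 ≤ H → η * (H : ℝ) ^ (Fintype.card (IxG d) + 5 * g) ≤
      (Nat.card {z : (Fin g → ℤ × ℤ) × (IxG d → ℤ) // Box H z ∧ Cov ℝ z.1 d z.2 ∧
        (∀ (p : ℕ) [Fact p.Prime], Cov ℚ_[p] z.1 d z.2) ∧ ¬ Cov ℚ z.1 d z.2} : ℝ) := by
  obtain ⟨c, hc, h1, -⟩ := MWS.all_CI MWS.factR WPL.factQ
  have h1' : ∃ C : ℝ, ∀ H : ℕ, 1 ≤ H →
      (Nat.card {z : (Fin g → ℤ × ℤ) × (IxG d → ℤ) // Box H z ∧ Cov ℚ z.1 d z.2} : ℝ) ≤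
        C * (H : ℝ) ^ (Fintype.card (IxG d) + 5 * g) * Real.exp (-(Real.log H) ^ c) := by
    obtain ⟨C, hC⟩ := h1 g d hd
    refine ⟨C, fun H hH => ?_⟩
    have h := hC H hH
    rw [card_G d hd]
    refine le_trans (le_of_eq ?_) h
    exact_mod_cast Nat.card_congr (Equiv.subtypeEquivRight fun z =>
      (and_congr (Iff.refl (Box H z)) (cov_eq z.1 d z.2)).trans and_assoc)
  obtain ⟨l₀, hl₀⟩ := hd2
  have hB : ∀ (H : ℕ) (z : (Fin g → ℤ × ℤ) × (IxG d → ℤ)), BLS.BG d H z ↔ Box H z := by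
    intro H z
    unfold BLS.BG Box
    constructor
    · rintro ⟨a1, a2, a3, a4⟩
      exact ⟨fun l => ⟨a1 l, a2 l, a3 l⟩, a4⟩
    · rintro ⟨a1, a2⟩
      exact ⟨fun l => (a1 l).1, fun l => (a1 l).2.1, fun l => (a1 l).2.2, a2⟩
  have e : 5 * g + ∏ l, (2 * d l) = Fintype.card (IxG d) + 5 * g := by rw [card_G d hd, add_comm]
  obtain ⟨η, H0, hη, h3⟩ := BLS.hp_G hc d hd l₀ hl₀ (by
    obtain ⟨C, hC⟩ := h1'
    refine ⟨C, fun H hH => ?_⟩
    rw [e]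
    refine le_trans (le_of_eq ?_) (hC H hH)
    exact_mod_cast Nat.card_congr (Equiv.subtypeEquivRight fun z => by rw [hB, cov_eqK]))
  refine ⟨η, H0, hη, fun H hH => ?_⟩
  have h4 := h3 H hH
  rw [e] at h4
  refine h4.trans (le_of_eq ?_)
  exact_mod_cast Nat.card_congr (Equiv.subtypeEquivRight fun z => by
    rw [hB]
    simp only [cov_eqK, and_assoc])

end VK
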