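import Pool.Agent.Lib.MP_17a322_ntVK.RDefs

/-!
LEAF RB.  The coefficients of `G (p X + q Z, u X + v Z)`: the coefficient of `X^(4-i) Z^i` is a sum over the 5 coefficients of `G` (each at most `100 L`) of at most 6 products (with multiplicity) of `4 - i` factors among `p, u` and `i` factors
among `q, v`; `‖p‖, ‖u‖ ≤ C l`, `‖q‖, ‖v‖ ≤ C / l`.  (Triangle inequality; `norm_add_le`, `norm_mul`, `norm_pow`, `gcongr`.)
-/

namespace VK

open MWS

private theorem RB_t5 (a b c d e : ℂ) : ‖a + b + c + d + e‖ ≤ ‖a‖ + ‖b‖ + ‖c‖ + ‖d‖ + ‖e‖ := by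
  have h1 := norm_add_le (a + b + c + d) e
  have h2 := norm_add_le (a + b + c) d
  have h3 := norm_add_le (a + b) c
  have h4 := norm_add_le a b
  linarith

private theorem RB_main (G : Qu ℂ) (T P Q : ℝ) (hT : 0 ≤ T) (hP : 0 ≤ P) (hQ : 0 ≤ Q) (hG : Le T G) (p q u v : ℂ)
    (hp : ‖p‖ ≤ P) (hu : ‖u‖ ≤ P) (hq : ‖q‖ ≤ Q) (hv : ‖v‖ ≤ Q) :
    ‖(G.sub p q u v).a‖ ≤ 5 * T * P ^ 4 ∧ ‖(G.sub p q u v).b‖ ≤ 20 * T * P ^ 3 * Q ∧
      ‖(G.sub p q u v).c‖ ≤ 30 * T * P ^ 2 * Q ^ 2 ∧ ‖(G.sub p q u v).d‖ ≤ 20 * T * P * Q ^ 3 ∧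
      ‖(G.sub p q u v).e‖ ≤ 5 * T * Q ^ 4 := by
  obtain ⟨ga, gb, gc, gd, ge⟩ := hG
  refine ⟨?_, ?_, ?_, ?_, ?_⟩
  · have h : ‖(G.sub p q u v).a‖ ≤ T * P ^ 4 + T * P ^ 3 * P + T * P ^ 2 * P ^ 2 + T * P * P ^ 3 + T * P ^ 4 := by
      simp only [Qu.sub]
      refine (RB_t5 _ _ _ _ _).trans ?_
      simp only [norm_mul, norm_pow]
      gcongr
    refine h.trans (le_of_eq ?_)
    ring
  · have h : ‖(G.sub p q u v).b‖ ≤ T * (4 * P ^ 3 * Q) + T * (3 * P ^ 2 * Q * P + P ^ 3 * Q) +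
        T * (2 * P * Q * P ^ 2 + 2 * P ^ 2 * P * Q) + T * (Q * P ^ 3 + 3 * P * P ^ 2 * Q) + T * (4 * P ^ 3 * Q) := by
      simp only [Qu.sub]
      refine (RB_t5 _ _ _ _ _).trans ?_
      refine add_le_add (add_le_add (add_le_add (add_le_add ?_ ?_) ?_) ?_) ?_
      · rw [norm_mul]
        refine mul_le_mul ga ?_ (norm_nonneg _) hT
        simp only [norm_mul, norm_pow, Complex.norm_ofNat]
        gcongr
      · rw [norm_mul]
        refine mul_le_mul gb ((norm_add_le _ _).trans ?_) (norm_nonneg _) hT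
        simp only [norm_mul, norm_pow, Complex.norm_ofNat]
        gcongr
      · rw [norm_mul]
        refine mul_le_mul gc ((norm_add_le _ _).trans ?_) (norm_nonneg _) hT
        simp only [norm_mul, norm_pow, Complex.norm_ofNat]
        gcongr
      · rw [norm_mul]
        refine mul_le_mul gd ((norm_add_le _ _).trans ?_) (norm_nonneg _) hT
        simp only [norm_mul, norm_pow, Complex.norm_ofNat]
        gcongr
      · rw [norm_mul]
        refine mul_le_mul ge ?_ (norm_nonneg _) hT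
        simp only [norm_mul, norm_pow, Complex.norm_ofNat]
        gcongr
    refine h.trans (le_of_eq ?_)
    ring
  · have h : ‖(G.sub p q u v).c‖ ≤ T * (6 * P ^ 2 * Q ^ 2) + T * (3 * P * Q ^ 2 * P + 3 * P ^ 2 * Q * Q) +
        T * (Q ^ 2 * P ^ 2 + 4 * P * Q * P * Q + P ^ 2 * Q ^ 2) + T * (3 * Q * P ^ 2 * Q + 3 * P * P * Q ^ 2) +
        T * (6 * P ^ 2 * Q ^ 2) := by
      simp only [Qu.sub]
      refine (RB_t5 _ _ _ _ _).trans ?_
      refine add_le_add (add_le_add (add_le_add (add_le_add ?_ ?_) ?_) ?_) ?_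
      · rw [norm_mul]
        refine mul_le_mul ga ?_ (norm_nonneg _) hT
        simp only [norm_mul, norm_pow, Complex.norm_ofNat]
        gcongr
      · rw [norm_mul]
        refine mul_le_mul gb ((norm_add_le _ _).trans ?_) (norm_nonneg _) hT
        simp only [norm_mul, norm_pow, Complex.norm_ofNat]
        gcongr
      · rw [norm_mul]
        refine mul_le_mul gc ((norm_add₃_le).trans ?_) (norm_nonneg _) hT
        simp only [norm_mul, norm_pow, Complex.norm_ofNat]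
        gcongr
      · rw [norm_mul]
        refine mul_le_mul gd ((norm_add_le _ _).trans ?_) (norm_nonneg _) hT
        simp only [norm_mul, norm_pow, Complex.norm_ofNat]
        gcongr
      · rw [norm_mul]
        refine mul_le_mul ge ?_ (norm_nonneg _) hT
        simp only [norm_mul, norm_pow, Complex.norm_ofNat]
        gcongr
    refine h.trans (le_of_eq ?_)
    ring
  · have h : ‖(G.sub p q u v).d‖ ≤ T * (4 * P * Q ^ 3) + T * (Q ^ 3 * P + 3 * P * Q ^ 2 * Q) +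
        T * (2 * Q ^ 2 * P * Q + 2 * P * Q * Q ^ 2) + T * (3 * Q * P * Q ^ 2 + P * Q ^ 3) + T * (4 * P * Q ^ 3) := by
      simp only [Qu.sub]
      refine (RB_t5 _ _ _ _ _).trans ?_
      refine add_le_add (add_le_add (add_le_add (add_le_add ?_ ?_) ?_) ?_) ?_
      · rw [norm_mul]
        refine mul_le_mul ga ?_ (norm_nonneg _) hT
        simp only [norm_mul, norm_pow, Complex.norm_ofNat]
        gcongr
      · rw [norm_mul]
        refine mul_le_mul gb ((norm_add_le _ _).trans ?_) (norm_nonneg _) hT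
        simp only [norm_mul, norm_pow, Complex.norm_ofNat]
        gcongr
      · rw [norm_mul]
        refine mul_le_mul gc ((norm_add_le _ _).trans ?_) (norm_nonneg _) hT
        simp only [norm_mul, norm_pow, Complex.norm_ofNat]
        gcongr
      · rw [norm_mul]
        refine mul_le_mul gd ((norm_add_le _ _).trans ?_) (norm_nonneg _) hT
        simp only [norm_mul, norm_pow, Complex.norm_ofNat]
        gcongr
      · rw [norm_mul]
        refine mul_le_mul ge ?_ (norm_nonneg _) hT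
        simp only [norm_mul, norm_pow, Complex.norm_ofNat]
        gcongr
    refine h.trans (le_of_eq ?_)
    ring
  · have h : ‖(G.sub p q u v).e‖ ≤ T * Q ^ 4 + T * Q ^ 3 * Q + T * Q ^ 2 * Q ^ 2 + T * Q * Q ^ 3 + T * Q ^ 4 := by
      simp only [Qu.sub]
      refine (RB_t5 _ _ _ _ _).trans ?_
      simp only [norm_mul, norm_pow]
      gcongr
    refine h.trans (le_of_eq ?_)
    ring

theorem boundK (G : Qu ℂ) (L C l : ℝ) (hL : 0 < L) (hl : 0 < l) (hG : Le (100 * L) G) (p q u v : ℂ)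
    (hp : ‖p‖ ≤ C * l) (hu : ‖u‖ ≤ C * l) (hq : ‖q‖ * l ≤ C) (hv : ‖v‖ * l ≤ C) :
    ‖(G.sub p q u v).a‖ ≤ 3000 * C ^ 4 * L * (l ^ 2) ^ 2 ∧ ‖(G.sub p q u v).b‖ ≤ 3000 * C ^ 4 * L * l ^ 2 ∧
      ‖(G.sub p q u v).c‖ ≤ 3000 * C ^ 4 * L ∧ ‖(G.sub p q u v).d‖ * l ^ 2 ≤ 3000 * C ^ 4 * L ∧
      ‖(G.sub p q u v).e‖ * (l ^ 2) ^ 2 ≤ 3000 * C ^ 4 * L := by
  have hC : 0 ≤ C := (mul_nonneg (norm_nonneg q) hl.le).trans hq
  have hQ : 0 ≤ C / l := div_nonneg hC hl.le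
  have hP : 0 ≤ C * l := mul_nonneg hC hl.le
  have hT : 0 ≤ 100 * L := by linarith
  have hq' : ‖q‖ ≤ C / l := (le_div_iff₀ hl).mpr hq
  have hv' : ‖v‖ ≤ C / l := (le_div_iff₀ hl).mpr hv
  obtain ⟨ha, hb, hc, hd, he⟩ := RB_main G (100 * L) (C * l) (C / l) hT hP hQ hG p q u v hp hu hq' hv'
  have hl0 : l ≠ 0 := hl.ne'
  have hCL : 0 ≤ C ^ 4 * L := mul_nonneg (pow_nonneg hC 4) hL.le
  have hl2 : 0 < l ^ 2 := pow_pos hl 2
  have hl4 : 0 < (l ^ 2) ^ 2 := pow_pos hl2 2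
  refine ⟨ha.trans ?_, hb.trans ?_, hc.trans ?_, ?_, ?_⟩
  · have h1 : 5 * (100 * L) * (C * l) ^ 4 = 500 * (C ^ 4 * L * (l ^ 2) ^ 2) := by ring
    have h2 : 3000 * C ^ 4 * L * (l ^ 2) ^ 2 = 3000 * (C ^ 4 * L * (l ^ 2) ^ 2) := by ring
    have h3 : 0 ≤ C ^ 4 * L * (l ^ 2) ^ 2 := mul_nonneg hCL hl4.le
    rw [h1, h2]
    linarith
  · have h1 : 20 * (100 * L) * (C * l) ^ 3 * (C / l) = 2000 * (C ^ 4 * L * l ^ 2) := by
      field_simp
      ring
    have h2 : 3000 * C ^ 4 * L * l ^ 2 = 3000 * (C ^ 4 * L * l ^ 2) := by ring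
    have h3 : 0 ≤ C ^ 4 * L * l ^ 2 := mul_nonneg hCL hl2.le
    rw [h1, h2]
    linarith
  · have h1 : 30 * (100 * L) * (C * l) ^ 2 * (C / l) ^ 2 = 3000 * C ^ 4 * L := by
      field_simp
      ring
    rw [h1]
  · have h1 : 20 * (100 * L) * (C * l) * (C / l) ^ 3 * l ^ 2 = 2000 * (C ^ 4 * L) := by
      field_simp
      ring
    have h2 := mul_le_mul_of_nonneg_right hd hl2.le
    rw [h1] at h2
    linarith
  · have h1 : 5 * (100 * L) * (C / l) ^ 4 * (l ^ 2) ^ 2 = 500 * (C ^ 4 * L) := by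
      field_simp
      ring
    have h2 := mul_le_mul_of_nonneg_right he hl4.le
    rw [h1] at h2
    linarith

end VK
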