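import Mathlib

/-!
LEAF RC1.  Counting algebraic integers.
(a) If `z ≠ 0` and `w z ≤ T` for all `w` then `1 ≤ T` (`1 ≤ ∏ w z ^ mult ≤ T ^ finrank`: `InfinitePlace.prod_eq_abs_norm`, the norm of a nonzero integer is at least 1, `InfinitePlace.sum_mult_eq`; `T ≥ 0`).
(b) COUNT.  `ω` an integral basis.  There is `C₀` such that for all `z = ∑ n i ω i` (`n i` integers, `z` with `w z ≤ T` for all `w`) `|n i| ≤ C₀ T`: the coordinates are `ℝ`-linear functions on `mixedEmbedding.mixedSpace K`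
(`mixedEmbedding.latticeBasis`), a linear map on a finite dimensional space is bounded, and `‖mixedEmbedding K z‖ ≤ max_w (w z)` (`mixedEmbedding.norm..`, sup norm).  (Or by the inverse of the matrix of the embeddings; or
Mathlib's `NumberField.canonicalEmbedding`/`house`: `house.basis_repr_abs_le`-like lemma: `NumberField.house.basis_repr_norm_le_const_mul_house`.)  So the number of these `z` is at most `(2 C₀ T + 1)^e ≤ C (1 + T)^e`
(an injection into `Fin e → Finset.Icc`; `finrank ℚ K = e`: `RingOfIntegers.rank`).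
-/

namespace VK

open NumberField

theorem one_le_of_le {K : Type} [Field K] [NumberField K] (z : 𝓞 K) (hz : z ≠ 0) (T : ℝ)
    (h : ∀ w : InfinitePlace K, w (z : K) ≤ T) : 1 ≤ T := by
  obtain ⟨w⟩ : Nonempty (InfinitePlace K) := inferInstance
  by_contra hT
  push Not at hT
  have h1 : 1 ≤ w (z : K) := InfinitePlace.one_le_of_lt_one hz (fun v _ => (h v).trans_lt hT)
  linarith [h w]

private theorem RC1_coord (K : Type) [Field K] [NumberField K] :
    ∃ c : ℝ, 0 ≤ c ∧ ∀ (T : ℝ) (z : 𝓞 K), (∀ w : InfinitePlace K, w (z : K) ≤ T) →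
      ∀ i, |((RingOfIntegers.basis K).repr z i : ℝ)| ≤ c * T := by
  classical
  obtain ⟨c, hc⟩ : ∃ c : ℝ, ∀ (α : 𝓞 K) (i : K →+* ℂ),
      ‖((((integralBasis K).reindex (equivReindex K).symm).repr α i : ℚ) : ℂ)‖ ≤
        c * house (algebraMap (𝓞 K) K α) :=
    ⟨_, fun α i => house.basis_repr_norm_le_const_mul_house K α i⟩
  refine ⟨|c|, abs_nonneg _, fun T z hz i => ?_⟩
  have hh : house (algebraMap (𝓞 K) K z) ≤ T := by
    rw [house, canonicalEmbedding.norm_le_iff]
    intro φ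
    have h1 := hz (InfinitePlace.mk φ)
    rwa [InfinitePlace.apply] at h1
  have h0 : 0 ≤ house (algebraMap (𝓞 K) K z) := house_nonneg _
  have h2 := hc z ((equivReindex K).symm i)
  rw [Module.Basis.repr_reindex_apply, Equiv.symm_symm, Equiv.apply_symm_apply] at h2
  have h3 : (integralBasis K).repr (z : K) i = (((RingOfIntegers.basis K).repr z i : ℤ) : ℚ) :=
    integralBasis_repr_apply K z i
  rw [h3] at h2
  have h4 : ‖((((RingOfIntegers.basis K).repr z i : ℤ) : ℚ) : ℂ)‖ =
      |((RingOfIntegers.basis K).repr z i : ℝ)| := by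
    rw [Rat.cast_intCast, Complex.norm_intCast]
  rw [h4] at h2
  calc |((RingOfIntegers.basis K).repr z i : ℝ)| ≤ c * house (algebraMap (𝓞 K) K z) := h2
    _ ≤ |c| * house (algebraMap (𝓞 K) K z) := mul_le_mul_of_nonneg_right (le_abs_self c) h0
    _ ≤ |c| * T := mul_le_mul_of_nonneg_left hh (abs_nonneg c)

theorem count_O (K : Type) [Field K] [NumberField K] :
    ∃ C : ℝ, 1 ≤ C ∧ ∀ T : ℝ, 0 ≤ T → ({z : 𝓞 K | ∀ w : InfinitePlace K, w (z : K) ≤ T} : Set (𝓞 K)).Finite ∧
      (({z : 𝓞 K | ∀ w : InfinitePlace K, w (z : K) ≤ T} : Set (𝓞 K)).ncard : ℝ) ≤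
        C * (1 + T) ^ Module.finrank ℚ K := by
  classical
  obtain ⟨c, hc0, hc⟩ := RC1_coord K
  set ι := Module.Free.ChooseBasisIndex ℤ (𝓞 K)
  have hcard : Fintype.card ι = Module.finrank ℚ K := by
    rw [← Module.finrank_eq_card_basis (RingOfIntegers.basis K), RingOfIntegers.rank]
  refine ⟨(2 * c + 1) ^ Module.finrank ℚ K, one_le_pow₀ (by linarith), fun T hT => ?_⟩
  set N : ℕ := ⌊c * T⌋₊ with hN
  set F : Finset (ι → ℤ) := Fintype.piFinset (fun _ => Finset.Icc (-(N : ℤ)) N) with hF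
  set G : Finset (𝓞 K) := F.image (fun x => (RingOfIntegers.basis K).equivFun.symm x) with hG
  have hsub : {z : 𝓞 K | ∀ w : InfinitePlace K, w (z : K) ≤ T} ⊆ (G : Set (𝓞 K)) := by
    intro z hz
    rw [Finset.mem_coe, hG, Finset.mem_image]
    refine ⟨(RingOfIntegers.basis K).equivFun z, ?_, LinearEquiv.symm_apply_apply _ _⟩
    rw [hF, Fintype.mem_piFinset]
    intro i
    have h1 := hc T z hz i
    have h2 : ((|(RingOfIntegers.basis K).repr z i| : ℤ) : ℝ) ≤ c * T := by
      rw [Int.cast_abs]; exact h1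
    have h3 : |(RingOfIntegers.basis K).repr z i| ≤ (N : ℤ) := by
      have h4 : ((|(RingOfIntegers.basis K).repr z i|).toNat : ℝ) ≤ c * T := by
        rw [← Int.cast_natCast, Int.toNat_of_nonneg (abs_nonneg _)]
        exact h2
      have h5 := Nat.le_floor h4
      have h6 : ((|(RingOfIntegers.basis K).repr z i|).toNat : ℤ) ≤ (N : ℤ) := by
        exact_mod_cast h5
      rwa [Int.toNat_of_nonneg (abs_nonneg _)] at h6
    rw [Finset.mem_Icc, Module.Basis.equivFun_apply]
    exact abs_le.1 h3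
  refine ⟨(Finset.finite_toSet G).subset hsub, ?_⟩
  have h1 : ({z : 𝓞 K | ∀ w : InfinitePlace K, w (z : K) ≤ T} : Set (𝓞 K)).ncard ≤ G.card := by
    rw [← Set.ncard_coe_finset]
    exact Set.ncard_le_ncard hsub (Finset.finite_toSet G)
  have h2 : G.card ≤ (2 * N + 1) ^ Module.finrank ℚ K := by
    refine Finset.card_image_le.trans ?_
    rw [hF, Fintype.card_piFinset, Finset.prod_const, Finset.card_univ, hcard, Int.card_Icc]
    refine le_of_eq ?_
    congr 1
    omega
  have h3 : (N : ℝ) ≤ c * T := Nat.floor_le (mul_nonneg hc0 hT)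
  calc (({z : 𝓞 K | ∀ w : InfinitePlace K, w (z : K) ≤ T} : Set (𝓞 K)).ncard : ℝ)
      ≤ ((2 * N + 1) ^ Module.finrank ℚ K : ℕ) := by exact_mod_cast h1.trans h2
    _ = (2 * (N : ℝ) + 1) ^ Module.finrank ℚ K := by push_cast; ring
    _ ≤ ((2 * c + 1) * (1 + T)) ^ Module.finrank ℚ K := by
        refine pow_le_pow_left₀ (by positivity) ?_ _
        nlinarith [mul_nonneg hc0 hT]
    _ = (2 * c + 1) ^ Module.finrank ℚ K * (1 + T) ^ Module.finrank ℚ K := mul_pow _ _ _

end VK
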