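import Pool.Agent.Lib.MP_17a322_ntVK.RDefs
import Pool.Agent.Lib.MP_17a322_ntVK.RC1

/-!
LEAF RC2.  The number of reduced forms at one dyadic scale.
PROOF.  The set is the image of a product of five sets of `count_O` (injective map from the 5-tuples).  If it is not empty there is `a ≠ 0` with `w a ≤ M R²`, so `1 ≤ M R²` (`one_le_of_le`).  With `0 < R ≤ C₀`:
`1 ≤ M R²`, `1/C₀ ≤ M R` , `1/C₀² ≤ M`, `1/C₀³ ≤ M/R`, `1/C₀⁴ ≤ M/R²`.  With `k = 1 + C₀ + C₀² + C₀³ + C₀⁴`: `1 + T ≤ 2 k T` for each of the five bounds `T`, so the number is at most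
`∏ C₁ (2 k T_i)^e = C₁⁵ (2 k)^(5 e) (M R² · M R · M · M/R · M/R²)^e = C₁⁵ (2 k)^(5e) M^(5 e)`.
-/

namespace VK

open NumberField MWS

/-- the forms of scale `R` -/
def Bxs (K : Type) [Field K] [NumberField K] (M R : ℝ) : Set (Qu (𝓞 K)) :=
  {F | F.a ≠ 0 ∧ ∀ w : InfinitePlace K, w (F.a : K) ≤ M * R ^ 2 ∧ w (F.b : K) ≤ M * R ∧ w (F.c : K) ≤ M ∧
    w (F.d : K) ≤ M / R ∧ w (F.e : K) ≤ M / R ^ 2}

private theorem RC2_step {K : Type} [Field K] [NumberField K] {c : ℝ}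
    (hc : ∀ T : ℝ, 0 ≤ T → ({z : 𝓞 K | ∀ w : InfinitePlace K, w (z : K) ≤ T} : Set (𝓞 K)).Finite ∧
      (({z : 𝓞 K | ∀ w : InfinitePlace K, w (z : K) ≤ T} : Set (𝓞 K)).ncard : ℝ) ≤
        c * (1 + T) ^ Module.finrank ℚ K) (hc1 : 1 ≤ c) {k T : ℝ} (hk1 : 1 ≤ k) (hT : 0 < T)
    (hk : 1 ≤ k * T) :
    (({z : 𝓞 K | ∀ w : InfinitePlace K, w (z : K) ≤ T} : Set (𝓞 K)).ncard : ℝ) ≤
      c * (2 * k * T) ^ Module.finrank ℚ K := by
  refine (hc T hT.le).2.trans (mul_le_mul_of_nonneg_left ?_ (by linarith))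
  exact pow_le_pow_left₀ (by linarith) (by nlinarith) _

private theorem RC2_prod (c t₁ t₂ t₃ t₄ t₅ : ℝ) (n : ℕ) :
    (c * t₁ ^ n) * ((c * t₂ ^ n) * ((c * t₃ ^ n) * ((c * t₄ ^ n) * (c * t₅ ^ n)))) =
      c ^ 5 * (t₁ * t₂ * t₃ * t₄ * t₅) ^ n := by
  rw [mul_pow, mul_pow, mul_pow, mul_pow]
  ring

theorem count_scale (K : Type) [Field K] [NumberField K] (C₀ : ℝ) (hC : 1 ≤ C₀) :
    ∃ C : ℝ, 0 < C ∧ ∀ M R : ℝ, 0 < R → R ≤ C₀ → 0 < M → (Bxs K M R).Finite ∧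
      ((Bxs K M R).ncard : ℝ) ≤ C * M ^ (5 * Module.finrank ℚ K) := by
  obtain ⟨c, hc1, hc⟩ := count_O K
  have hc0 : 0 < c := by linarith
  have hC0 : 0 < C₀ := by linarith
  refine ⟨c ^ 5 * (2 * C₀ ^ 4) ^ (5 * Module.finrank ℚ K), by positivity, fun M R hR hRC hM => ?_⟩
  set S : ℝ → Set (𝓞 K) := fun T => {z : 𝓞 K | ∀ w : InfinitePlace K, w (z : K) ≤ T} with hS
  have hT1 : 0 < M * R ^ 2 := by positivity
  have hT2 : 0 < M * R := by positivity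
  have hT4 : 0 < M / R := by positivity
  have hT5 : 0 < M / R ^ 2 := by positivity
  set P : Set (𝓞 K × 𝓞 K × 𝓞 K × 𝓞 K × 𝓞 K) :=
    S (M * R ^ 2) ×ˢ S (M * R) ×ˢ S M ×ˢ S (M / R) ×ˢ S (M / R ^ 2) with hP
  have f1 : (S (M * R ^ 2)).Finite := (hc _ hT1.le).1
  have f2 : (S (M * R)).Finite := (hc _ hT2.le).1
  have f3 : (S M).Finite := (hc _ hM.le).1
  have f4 : (S (M / R)).Finite := (hc _ hT4.le).1
  have f5 : (S (M / R ^ 2)).Finite := (hc _ hT5.le).1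
  have hPf : P.Finite := f1.prod (f2.prod (f3.prod (f4.prod f5)))
  have hsub : Bxs K M R ⊆ (fun x : 𝓞 K × 𝓞 K × 𝓞 K × 𝓞 K × 𝓞 K =>
      (⟨x.1, x.2.1, x.2.2.1, x.2.2.2.1, x.2.2.2.2⟩ : Qu (𝓞 K))) '' P := by
    rintro ⟨a, b, c', d, e⟩ ⟨_, h⟩
    exact ⟨(a, b, c', d, e), ⟨fun w => (h w).1, fun w => (h w).2.1, fun w => (h w).2.2.1,
      fun w => (h w).2.2.2.1, fun w => (h w).2.2.2.2⟩, rfl⟩
  refine ⟨(hPf.image _).subset hsub, ?_⟩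
  by_cases hne : (Bxs K M R).Nonempty
  · obtain ⟨F, hF0, hF⟩ := hne
    have g1 : 1 ≤ M * R ^ 2 := one_le_of_le F.a hF0 _ (fun w => (hF w).1)
    have hk : 1 ≤ C₀ ^ 4 := one_le_pow₀ hC
    have e1 : 1 ≤ C₀ ^ 4 * (M * R ^ 2) := by nlinarith
    have hRC1 : ∀ n : ℕ, R ^ n ≤ C₀ ^ n := fun n => pow_le_pow_left₀ hR.le hRC n
    have hCC : ∀ n : ℕ, n ≤ 4 → C₀ ^ n ≤ C₀ ^ 4 := fun n hn => pow_le_pow_right₀ hC hn
    have key : ∀ (n : ℕ) (T : ℝ), n ≤ 4 → 0 < T → M * R ^ 2 = T * R ^ n → 1 ≤ C₀ ^ 4 * T := by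
      intro n T hn hT hTe
      calc (1 : ℝ) ≤ T * R ^ n := by rw [← hTe]; exact g1
        _ ≤ T * C₀ ^ 4 := mul_le_mul_of_nonneg_left ((hRC1 n).trans (hCC n hn)) hT.le
        _ = C₀ ^ 4 * T := mul_comm _ _
    have e2 : 1 ≤ C₀ ^ 4 * (M * R) := key 1 _ (by norm_num) hT2 (by ring)
    have e3 : 1 ≤ C₀ ^ 4 * M := key 2 _ (by norm_num) hM (by ring)
    have e4 : 1 ≤ C₀ ^ 4 * (M / R) := key 3 _ (by norm_num) hT4 (by field_simp)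
    have e5 : 1 ≤ C₀ ^ 4 * (M / R ^ 2) := key 4 _ (by norm_num) hT5 (by field_simp)
    have n1 := RC2_step hc hc1 hk hT1 e1
    have n2 := RC2_step hc hc1 hk hT2 e2
    have n3 := RC2_step hc hc1 hk hM e3
    have n4 := RC2_step hc hc1 hk hT4 e4
    have n5 := RC2_step hc hc1 hk hT5 e5
    have hle : (Bxs K M R).ncard ≤ P.ncard :=
      (Set.ncard_le_ncard hsub (hPf.image _)).trans (Set.ncard_image_le hPf)
    have hPc : P.ncard = (S (M * R ^ 2)).ncard * ((S (M * R)).ncard * ((S M).ncard *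
        ((S (M / R)).ncard * (S (M / R ^ 2)).ncard))) := by
      rw [hP, Set.ncard_prod, Set.ncard_prod, Set.ncard_prod, Set.ncard_prod]
    calc ((Bxs K M R).ncard : ℝ) ≤ (P.ncard : ℝ) := by exact_mod_cast hle
      _ = ((S (M * R ^ 2)).ncard : ℝ) * (((S (M * R)).ncard : ℝ) * (((S M).ncard : ℝ) *
          (((S (M / R)).ncard : ℝ) * ((S (M / R ^ 2)).ncard : ℝ)))) := by
          rw [hPc]; push_cast; ring
      _ ≤ (c * (2 * C₀ ^ 4 * (M * R ^ 2)) ^ Module.finrank ℚ K) *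
          ((c * (2 * C₀ ^ 4 * (M * R)) ^ Module.finrank ℚ K) *
          ((c * (2 * C₀ ^ 4 * M) ^ Module.finrank ℚ K) *
          ((c * (2 * C₀ ^ 4 * (M / R)) ^ Module.finrank ℚ K) *
          (c * (2 * C₀ ^ 4 * (M / R ^ 2)) ^ Module.finrank ℚ K)))) := by
          gcongr
      _ = c ^ 5 * ((2 * C₀ ^ 4 * (M * R ^ 2)) * (2 * C₀ ^ 4 * (M * R)) * (2 * C₀ ^ 4 * M) *
          (2 * C₀ ^ 4 * (M / R)) * (2 * C₀ ^ 4 * (M / R ^ 2))) ^ Module.finrank ℚ K :=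
          RC2_prod _ _ _ _ _ _ _
      _ = c ^ 5 * ((2 * C₀ ^ 4) ^ 5 * M ^ 5) ^ Module.finrank ℚ K := by
          congr 2
          field_simp
      _ = c ^ 5 * (2 * C₀ ^ 4) ^ (5 * Module.finrank ℚ K) * M ^ (5 * Module.finrank ℚ K) := by
          rw [mul_pow, ← pow_mul, ← pow_mul, mul_assoc]
  · rw [Set.not_nonempty_iff_eq_empty] at hne
    rw [hne, Set.ncard_empty, Nat.cast_zero]
    positivity

end VK
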