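import Mathlib

/-!
LEAF RD0.  Real coordinates: every family of complex numbers indexed by the infinite places, real at the real places, is a real combination of the images of an integral basis.
PROOF.  `NumberField.mixedEmbedding.latticeBasis K` is a basis over `ℝ` of `mixedEmbedding.mixedSpace K` (real coordinates at the real places, complex ones at the complex places) consisting of the images
`mixedEmbedding K (b i)` of the basis `integralBasis K` / `RingOfIntegers.basis K` (`latticeBasis_apply`).  The vector `(re (α w))_(w real), (α w)_(w complex)` has real coordinates `x'` in it; the components of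
`mixedEmbedding K z` are `embedding_of_isReal` and `w.embedding z` (`mixedEmbedding_apply_isReal`, `.._isComplex`), so `α w = ∑ x' i * w.embedding (b i)` for all `w` (for real `w` use `im = 0`).
Change of the basis from `b` to `ω`: `b i = ∑ j, (ω.repr (b i) j) • ω j`, integers; exchange the sums.
-/

namespace VK

open NumberField

theorem coords {K : Type} [Field K] [NumberField K] {e : ℕ} (ω : Module.Basis (Fin e) ℤ (𝓞 K))
    (α : InfinitePlace K → ℂ) (h : ∀ w : InfinitePlace K, w.IsReal → (α w).im = 0) :
    ∃ x : Fin e → ℝ, ∀ w : InfinitePlace K, α w = ∑ i, (x i : ℂ) * w.embedding (ω i : K) := by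
  classical
  let v : mixedEmbedding.mixedSpace K := (fun w => (α w.1).re, fun w => α w.1)
  let c := (mixedEmbedding.latticeBasis K).repr v
  have hv : v = ∑ i, c i • mixedEmbedding.latticeBasis K i := ((mixedEmbedding.latticeBasis K).sum_repr v).symm
  let b := RingOfIntegers.basis K
  have hb : ∀ i, mixedEmbedding.latticeBasis K i = mixedEmbedding K (b i : K) := by
    intro i
    rw [mixedEmbedding.latticeBasis_apply, integralBasis_apply]
  have h1 : ∀ w : InfinitePlace K, α w = ∑ i, (c i : ℂ) * w.embedding (b i : K) := by
    intro w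
    rcases w.isReal_or_isComplex with hw | hw
    · have h2 : (α w).re = ∑ i, c i * w.embedding_of_isReal hw (b i : K) := by
        have h3 := congrArg (fun u : mixedEmbedding.mixedSpace K => u.1 ⟨w, hw⟩) hv
        simp only [Prod.fst_sum, Finset.sum_apply, Prod.smul_fst, Pi.smul_apply, smul_eq_mul, hb] at h3
        exact h3
      have h4 : α w = ((α w).re : ℂ) := Complex.ext rfl (h w hw)
      rw [h4, h2, Complex.ofReal_sum]
      refine Finset.sum_congr rfl fun i _ => ?_
      rw [Complex.ofReal_mul, InfinitePlace.embedding_of_isReal_apply]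
    · have h3 := congrArg (fun u : mixedEmbedding.mixedSpace K => u.2 ⟨w, hw⟩) hv
      simp only [Prod.snd_sum, Finset.sum_apply, Prod.smul_snd, Pi.smul_apply, hb] at h3
      rw [show α w = v.2 ⟨w, hw⟩ from rfl, h3]
      refine Finset.sum_congr rfl fun i _ => ?_
      rw [Complex.real_smul]
      rfl
  have hω : ∀ i, (b i : K) = ∑ j, ((ω.repr (b i) j : ℤ) : K) * (ω j : K) := by
    intro i
    have h2 := congrArg (algebraMap (𝓞 K) K) (ω.sum_repr (b i)).symm
    rw [map_sum] at h2
    refine h2.trans (Finset.sum_congr rfl fun j _ => ?_)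
    rw [zsmul_eq_mul, map_mul, map_intCast]
  refine ⟨fun j => ∑ i, c i * ((ω.repr (b i) j : ℤ) : ℝ), fun w => ?_⟩
  rw [h1 w]
  have h5 : ∀ i, (c i : ℂ) * w.embedding (b i : K) =
      ∑ j, (c i : ℂ) * ((ω.repr (b i) j : ℤ) : ℂ) * w.embedding (ω j : K) := by
    intro i
    rw [hω i, map_sum, Finset.mul_sum]
    refine Finset.sum_congr rfl fun j _ => ?_
    rw [map_mul, map_intCast, mul_assoc]
  rw [Finset.sum_congr rfl fun i _ => h5 i, Finset.sum_comm]
  refine Finset.sum_congr rfl fun j _ => ?_
  rw [← Finset.sum_mul, Complex.ofReal_sum]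
  congr 1
  refine Finset.sum_congr rfl fun i _ => ?_
  rw [Complex.ofReal_mul, Complex.ofReal_intCast]

end VK
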