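import Pool.Agent.Lib.MP_17a322_ntVK.RD0

/-!
LEAF RD1.  Rounding.
PROOF.  `ω` an integral basis indexed by `Fin e` (`Module.finBasis` / `RingOfIntegers.basis K` reindexed, `Module.Free.chooseBasis`), `coords`: `α w = ∑ x i w(ω i)`, `z = ∑ ⌊x i⌋ ω i`, the difference is `∑ fract (x i) w(ω i)` of norm at most
`C = ∑_i ∑_w w (ω i)` (`InfinitePlace.norm_embedding_eq`, `Finset.single_le_sum`).
-/

namespace VK

open NumberField

theorem round (K : Type) [Field K] [NumberField K] :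
    ∃ C : ℝ, 0 < C ∧ ∀ α : InfinitePlace K → ℂ, (∀ w : InfinitePlace K, w.IsReal → (α w).im = 0) →
      ∃ z : 𝓞 K, ∀ w : InfinitePlace K, ‖α w - w.embedding (z : K)‖ ≤ C := by
  classical
  let ω := Module.finBasis ℤ (𝓞 K)
  refine ⟨1 + ∑ i, ∑ w : InfinitePlace K, w (ω i : K), ?_, ?_⟩
  · have : 0 ≤ ∑ i, ∑ w : InfinitePlace K, w (ω i : K) :=
      Finset.sum_nonneg fun i _ => Finset.sum_nonneg fun w _ => apply_nonneg w _
    linarith
  intro α hα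
  obtain ⟨x, hx⟩ := coords ω α hα
  refine ⟨∑ i, ⌊x i⌋ • ω i, fun w => ?_⟩
  have h1 : w.embedding ((∑ i, ⌊x i⌋ • ω i : 𝓞 K) : K) = ∑ i, ((⌊x i⌋ : ℤ) : ℂ) * w.embedding (ω i : K) := by
    have h0 : ((∑ i, ⌊x i⌋ • ω i : 𝓞 K) : K) = ∑ i, ((⌊x i⌋ : ℤ) : K) * (ω i : K) := by
      rw [show ((∑ i, ⌊x i⌋ • ω i : 𝓞 K) : K) = algebraMap (𝓞 K) K (∑ i, ⌊x i⌋ • ω i) from rfl, map_sum]
      refine Finset.sum_congr rfl fun i _ => ?_
      rw [zsmul_eq_mul, map_mul, map_intCast]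
    rw [h0, map_sum]
    refine Finset.sum_congr rfl fun i _ => ?_
    rw [map_mul, map_intCast]
  rw [hx w, h1, ← Finset.sum_sub_distrib]
  refine (norm_sum_le _ _).trans ?_
  have h2 : ∀ i ∈ (Finset.univ : Finset (Fin (Module.finrank ℤ (𝓞 K)))),
      ‖(x i : ℂ) * w.embedding (ω i : K) - ((⌊x i⌋ : ℤ) : ℂ) * w.embedding (ω i : K)‖
        ≤ ∑ w : InfinitePlace K, w (ω i : K) := by
    intro i _
    rw [← sub_mul, norm_mul, InfinitePlace.norm_embedding_eq]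
    have h3 : ‖(x i : ℂ) - ((⌊x i⌋ : ℤ) : ℂ)‖ ≤ 1 := by
      have : (x i : ℂ) - ((⌊x i⌋ : ℤ) : ℂ) = ((Int.fract (x i) : ℝ) : ℂ) := by
        rw [Int.fract]; push_cast; ring
      rw [this, Complex.norm_real, Real.norm_eq_abs, abs_of_nonneg (Int.fract_nonneg _)]
      exact (Int.fract_lt_one _).le
    have h4 : w (ω i : K) ≤ ∑ w : InfinitePlace K, w (ω i : K) :=
      Finset.single_le_sum (f := fun w : InfinitePlace K => w (ω i : K))
        (fun w _ => apply_nonneg w _) (Finset.mem_univ w)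
    calc ‖(x i : ℂ) - ((⌊x i⌋ : ℤ) : ℂ)‖ * w (ω i : K) ≤ 1 * w (ω i : K) :=
          mul_le_mul_of_nonneg_right h3 (apply_nonneg w _)
      _ ≤ _ := by rw [one_mul]; exact h4
  refine (Finset.sum_le_sum h2).trans ?_
  linarith

end VK
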