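import Pool.Agent.Lib.MP_17a322_ntVK.RD0

/-!
LEAF RD2.  Simultaneous Dirichlet approximation.
PROOF.  `ω` an integral basis indexed by `Fin e`, `C = ∑_i ∑_w w (ω i) + 1`, `Q` a natural number with `C ≤ ε Q`, `N = Q ^ e`.  `coords`: `α w = ∑ x i w(ω i)`.  The `N + 1` numbers `n = 0, .., N` are mapped to
`(⌊Q fract (n x i)⌋₊)_i` in `(Fin Q)^e`, which has `N` elements: two different ones `n' < n''` have the same image (`Fintype.exists_ne_map_eq_of_card_lt` or `Finset.exists_ne_map_eq_of_card_lt_of_maps_to`), so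
`|fract (n'' x i) - fract (n' x i)| ≤ 1/Q`.  `n = n'' - n'`, `z = ∑ (⌊n'' x i⌋ - ⌊n' x i⌋) ω i`: `n α w - w(z) = ∑ (fract (n'' x i) - fract (n' x i)) w(ω i)`, norm at most `C/Q ≤ ε`.
-/

namespace VK

open NumberField

private theorem RD2_floor {Q : ℕ} (hQ : 0 < Q) {a b : ℝ} (ha : 0 ≤ a) (hb : 0 ≤ b)
    (h : ⌊(Q : ℝ) * a⌋₊ = ⌊(Q : ℝ) * b⌋₊) : |a - b| ≤ 1 / (Q : ℝ) := by
  have hQ' : (0 : ℝ) < Q := by exact_mod_cast hQ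
  have h1 := Nat.floor_le (mul_nonneg hQ'.le ha)
  have h2 := Nat.lt_floor_add_one ((Q : ℝ) * a)
  have h3 := Nat.floor_le (mul_nonneg hQ'.le hb)
  have h4 := Nat.lt_floor_add_one ((Q : ℝ) * b)
  rw [h] at h1 h2
  rw [abs_le]
  constructor
  · rw [neg_le_sub_iff_le_add, ← sub_le_iff_le_add', le_div_iff₀ hQ']
    nlinarith
  · rw [le_div_iff₀ hQ']
    nlinarith

private theorem RD2_main (K : Type) [Field K] [NumberField K] {e : ℕ}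
    (ω : Module.Basis (Fin e) ℤ (𝓞 K)) (ε : ℝ) (Q : ℕ) (hQ : 0 < Q)
    (hC : ∀ w : InfinitePlace K, ∑ i, ‖w.embedding (ω i : K)‖ ≤ ε * Q)
    (α : InfinitePlace K → ℂ) (x : Fin e → ℝ)
    (hx : ∀ w : InfinitePlace K, α w = ∑ i, (x i : ℂ) * w.embedding (ω i : K))
    (n' n'' : ℕ) (hlt : n' < n'') (hn : n'' ≤ Q ^ e)
    (hf : ∀ i, ⌊(Q : ℝ) * Int.fract ((n' : ℝ) * x i)⌋₊ = ⌊(Q : ℝ) * Int.fract ((n'' : ℝ) * x i)⌋₊) :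
    ∃ n : ℕ, 1 ≤ n ∧ n ≤ Q ^ e ∧ ∃ z : 𝓞 K, ∀ w : InfinitePlace K,
      ‖(n : ℂ) * α w - w.embedding (z : K)‖ ≤ ε := by
  have hQ' : (0 : ℝ) < Q := by exact_mod_cast hQ
  refine ⟨n'' - n', by omega, by omega,
    ∑ i, (⌊(n'' : ℝ) * x i⌋ - ⌊(n' : ℝ) * x i⌋) • ω i, ?_⟩
  intro w
  have h1 : ((n'' - n' : ℕ) : ℂ) * α w
      - w.embedding ((∑ i, (⌊(n'' : ℝ) * x i⌋ - ⌊(n' : ℝ) * x i⌋) • ω i : 𝓞 K) : K)
      = ∑ i, ((Int.fract ((n'' : ℝ) * x i) - Int.fract ((n' : ℝ) * x i) : ℝ) : ℂ)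
        * w.embedding (ω i : K) := by
    rw [hx w, Nat.cast_sub hlt.le, Finset.mul_sum]
    have h2 : ((∑ i, (⌊(n'' : ℝ) * x i⌋ - ⌊(n' : ℝ) * x i⌋) • ω i : 𝓞 K) : K)
        = ∑ i, ((⌊(n'' : ℝ) * x i⌋ - ⌊(n' : ℝ) * x i⌋ : ℤ) : K) * (ω i : K) := by
      have h5 : ((∑ i, (⌊(n'' : ℝ) * x i⌋ - ⌊(n' : ℝ) * x i⌋) • ω i : 𝓞 K) : K)
          = ∑ i, (((⌊(n'' : ℝ) * x i⌋ - ⌊(n' : ℝ) * x i⌋) • ω i : 𝓞 K) : K) :=
        map_sum (algebraMap (𝓞 K) K) _ _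
      rw [h5]
      refine Finset.sum_congr rfl fun i _ => ?_
      rw [zsmul_eq_mul]
      have h6 : (((((⌊(n'' : ℝ) * x i⌋ - ⌊(n' : ℝ) * x i⌋ : ℤ) : 𝓞 K) * ω i : 𝓞 K)) : K)
          = ((((⌊(n'' : ℝ) * x i⌋ - ⌊(n' : ℝ) * x i⌋ : ℤ) : 𝓞 K)) : K) * (ω i : K) :=
        map_mul (algebraMap (𝓞 K) K) _ _
      rw [h6]
      have h7 : ((((⌊(n'' : ℝ) * x i⌋ - ⌊(n' : ℝ) * x i⌋ : ℤ) : 𝓞 K)) : K)
          = ((⌊(n'' : ℝ) * x i⌋ - ⌊(n' : ℝ) * x i⌋ : ℤ) : K) :=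
        map_intCast (algebraMap (𝓞 K) K) _
      rw [h7]
    rw [h2, map_sum, ← Finset.sum_sub_distrib]
    refine Finset.sum_congr rfl fun i _ => ?_
    rw [map_mul, map_intCast]
    unfold Int.fract
    push_cast
    ring
  rw [h1]
  calc ‖∑ i, ((Int.fract ((n'' : ℝ) * x i) - Int.fract ((n' : ℝ) * x i) : ℝ) : ℂ)
        * w.embedding (ω i : K)‖
      ≤ ∑ i, ‖((Int.fract ((n'' : ℝ) * x i) - Int.fract ((n' : ℝ) * x i) : ℝ) : ℂ)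
        * w.embedding (ω i : K)‖ := norm_sum_le _ _
    _ ≤ ∑ i, 1 / (Q : ℝ) * ‖w.embedding (ω i : K)‖ := by
        refine Finset.sum_le_sum fun i _ => ?_
        rw [norm_mul]
        refine mul_le_mul_of_nonneg_right ?_ (norm_nonneg _)
        rw [Complex.norm_real, Real.norm_eq_abs]
        exact RD2_floor hQ (Int.fract_nonneg _) (Int.fract_nonneg _) (hf i).symm
    _ = 1 / (Q : ℝ) * ∑ i, ‖w.embedding (ω i : K)‖ := by rw [Finset.mul_sum]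
    _ ≤ 1 / (Q : ℝ) * (ε * Q) := mul_le_mul_of_nonneg_left (hC w) (by positivity)
    _ = ε := by field_simp

theorem dirichlet (K : Type) [Field K] [NumberField K] (ε : ℝ) (hε : 0 < ε) :
    ∃ N : ℕ, ∀ α : InfinitePlace K → ℂ, (∀ w : InfinitePlace K, w.IsReal → (α w).im = 0) →
      ∃ n : ℕ, 1 ≤ n ∧ n ≤ N ∧ ∃ z : 𝓞 K, ∀ w : InfinitePlace K, ‖(n : ℂ) * α w - w.embedding (z : K)‖ ≤ ε := by
  obtain ⟨e, ω⟩ : ∃ e : ℕ, Nonempty (Module.Basis (Fin e) ℤ (𝓞 K)) :=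
    ⟨_, ⟨Module.finBasis ℤ (𝓞 K)⟩⟩
  obtain ⟨ω⟩ := ω
  obtain ⟨Q0, hQ0⟩ := exists_nat_gt ((∑ w : InfinitePlace K, ∑ i, ‖w.embedding (ω i : K)‖) / ε)
  have hQ : 0 < Q0 + 1 := Nat.succ_pos _
  have hC : ∀ w : InfinitePlace K, ∑ i, ‖w.embedding (ω i : K)‖ ≤ ε * ((Q0 + 1 : ℕ) : ℝ) := by
    intro w
    have h1 : ∑ i, ‖w.embedding (ω i : K)‖ ≤ ∑ w : InfinitePlace K, ∑ i, ‖w.embedding (ω i : K)‖ :=
      Finset.single_le_sum (f := fun w : InfinitePlace K => ∑ i, ‖w.embedding (ω i : K)‖)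
        (fun w _ => Finset.sum_nonneg fun i _ => norm_nonneg _) (Finset.mem_univ w)
    rw [div_lt_iff₀ hε] at hQ0
    push_cast
    nlinarith
  refine ⟨(Q0 + 1) ^ e, fun α h => ?_⟩
  obtain ⟨x, hx⟩ := coords ω α h
  have hlt : ∀ y : ℝ, ⌊((Q0 + 1 : ℕ) : ℝ) * Int.fract y⌋₊ < Q0 + 1 := by
    intro y
    rw [Nat.floor_lt (mul_nonneg (Nat.cast_nonneg _) (Int.fract_nonneg _))]
    have h1 : (0 : ℝ) < ((Q0 + 1 : ℕ) : ℝ) := by exact_mod_cast hQ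
    have h2 := Int.fract_lt_one y
    nlinarith
  obtain ⟨a, b, hab, hfab⟩ := Fintype.exists_ne_map_eq_of_card_lt
    (fun (n : Fin ((Q0 + 1) ^ e + 1)) (i : Fin e) =>
      (⟨⌊((Q0 + 1 : ℕ) : ℝ) * Int.fract (((n : ℕ) : ℝ) * x i)⌋₊, hlt _⟩ : Fin (Q0 + 1)))
    (by simp)
  have hf : ∀ i, ⌊((Q0 + 1 : ℕ) : ℝ) * Int.fract (((a : ℕ) : ℝ) * x i)⌋₊
      = ⌊((Q0 + 1 : ℕ) : ℝ) * Int.fract (((b : ℕ) : ℝ) * x i)⌋₊ := fun i =>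
    congrArg Fin.val (congrFun hfab i)
  have hne : (a : ℕ) ≠ b := fun h => hab (Fin.ext h)
  rcases lt_or_gt_of_ne hne with hl | hl
  · exact RD2_main K ω ε (Q0 + 1) hQ hC α x hx a b hl (Nat.le_of_lt_succ b.2) hf
  · exact RD2_main K ω ε (Q0 + 1) hQ hC α x hx b a hl (Nat.le_of_lt_succ a.2) fun i => (hf i).symm

end VK
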