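import Pool.Agent.Lib.MP_10e784_agBR.Defs
import Pool.Agent.Lib.MP_17a322_ntVK.Defs

/-!
# The average of `2 ^ rank` over all elliptic curves over a number field: definitions
Binary quartic forms: `MWS.Qu` (`Lib/MP_10e784_agBR/Defs.lean`).
-/

namespace VK

open NumberField MWS

/-- three points on the line `y = l x + n`, with the factorisation of `x³ + a x + b - (l x + n)²` -/
structure LinK {F : Type} [Field F] (a b : F) (l n x₁ y₁ x₂ y₂ x₃ y₃ : F) : Prop where
  y1 : y₁ = l * x₁ + n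
  y2 : y₂ = l * x₂ + n
  y3 : y₃ = l * x₃ + n
  e1 : l ^ 2 = x₁ + x₂ + x₃
  e2 : a - 2 * l * n = x₁ * x₂ + x₁ * x₃ + x₂ * x₃
  e3 : b - n ^ 2 = - (x₁ * x₂ * x₃)

/-- the image of a form under a ring homomorphism -/
def mp {R S : Type} [CommRing R] [CommRing S] (φ : R →+* S) (F : Qu R) : Qu S :=
  ⟨φ F.a, φ F.b, φ F.c, φ F.d, φ F.e⟩

theorem mp_sub {R S : Type} [CommRing R] [CommRing S] (φ : R →+* S) (F : Qu R) (p q u v : R) :
    mp φ (F.sub p q u v) = (mp φ F).sub (φ p) (φ q) (φ u) (φ v) := by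
  ext <;> simp only [mp, Qu.sub, map_add, map_mul, map_pow, map_ofNat]

theorem mp_sm {R S : Type} [CommRing R] [CommRing S] (φ : R →+* S) (F : Qu R) (s : R) :
    mp φ (F.sm s) = (mp φ F).sm (φ s) := by
  ext <;> simp only [mp, Qu.sm, map_mul]

theorem mp_I {R S : Type} [CommRing R] [CommRing S] (φ : R →+* S) (F : Qu R) :
    (mp φ F).I = φ F.I := by
  simp only [mp, Qu.I, map_add, map_sub, map_mul, map_pow, map_ofNat]

theorem mp_J {R S : Type} [CommRing R] [CommRing S] (φ : R →+* S) (F : Qu R) :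
    (mp φ F).J = φ F.J := by
  simp only [mp, Qu.J, map_add, map_sub, map_mul, map_pow, map_ofNat]

/-- equivalence of binary quartics over a field: `G = D⁻² f ∘ M`, `D = det M` -/
def RelK {F : Type} [Field F] (f G : Qu F) : Prop :=
  ∃ p q u v : F, p * v - q * u ≠ 0 ∧ G.sm ((p * v - q * u) ^ 2) = f.sub p q u v

theorem RelK.trans {K : Type} [Field K] {F G H : Qu K} (h1 : RelK F G) (h2 : RelK G H) :
    RelK F H := by
  obtain ⟨p, q, u, v, h0, e1⟩ := h1
  obtain ⟨k, l, m, n, h0', e2⟩ := h2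
  refine ⟨p * k + q * m, p * l + q * n, u * k + v * m, u * l + v * n, ?_, ?_⟩
  · have : (p * k + q * m) * (u * l + v * n) - (p * l + q * n) * (u * k + v * m) =
        (p * v - q * u) * (k * n - l * m) := by ring
    rw [this]
    exact mul_ne_zero h0 h0'
  · rw [← Qu.sub_sub, ← e1, Qu.sub_sm, ← e2, Qu.sm_sm]
    congr 1
    ring

theorem RelK.symm {K : Type} [Field K] {F G : Qu K} (h : RelK F G) : RelK G F := by
  obtain ⟨p, q, u, v, h0, e⟩ := h
  set D := p * v - q * u with hD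
  refine ⟨v / D, -q / D, -u / D, p / D, ?_, ?_⟩
  · have : v / D * (p / D) - -q / D * (-u / D) = 1 / D := by
      field_simp
      rw [hD]; ring
    rw [this]
    exact one_div_ne_zero h0
  · have h1 : v / D * (p / D) - -q / D * (-u / D) = 1 / D := by
      field_simp
      rw [hD]; ring
    rw [h1]
    have h2 : (G.sm (D ^ 2)).sub (v / D) (-q / D) (-u / D) (p / D) = F := by
      rw [e, Qu.sub_sub]
      have e1 : p * (v / D) + q * (-u / D) = 1 := by
        field_simp
        rw [hD]; ring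
      have e2 : p * (-q / D) + q * (p / D) = 0 := by ring
      have e3 : u * (v / D) + v * (-u / D) = 0 := by ring
      have e4 : u * (-q / D) + v * (p / D) = 1 := by
        field_simp
        rw [hD]; ring
      rw [e1, e2, e3, e4, Qu.sub_id]
    rw [← h2, Qu.sub_sm, Qu.sm_sm]
    have h3 : (1 / D) ^ 2 * D ^ 2 = 1 := by
      field_simp
    rw [h3]
    ext <;> simp [Qu.sm]

theorem RelK.I_eq {K : Type} [Field K] {F G : Qu K} (h : RelK F G) : G.I = F.I := by
  obtain ⟨p, q, u, v, h0, e⟩ := h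
  have h1 := congrArg Qu.I e
  rw [Qu.I_sm, Qu.I_sub, ← pow_mul] at h1
  exact mul_left_cancel₀ (pow_ne_zero _ h0) h1

theorem RelK.J_eq {K : Type} [Field K] {F G : Qu K} (h : RelK F G) : G.J = F.J := by
  obtain ⟨p, q, u, v, h0, e⟩ := h
  have h1 := congrArg Qu.J e
  rw [Qu.J_sm, Qu.J_sub, ← pow_mul] at h1
  exact mul_left_cancel₀ (pow_ne_zero _ h0) h1

theorem fP_I {K : Type} [Field K] (a x y : K) : (fP a x y).I = -48 * a := by
  simp only [fP, Qu.I]
  ring

theorem fP_J {K : Type} [Field K] (a b x y : K) (h : y ^ 2 = x ^ 3 + a * x + b) :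
    (fP a x y).J = -1728 * b := by
  simp only [fP, Qu.J]
  linear_combination (-1728) * h

/-- all coefficients of a complex form are at most `T` -/
def Le (T : ℝ) (G : Qu ℂ) : Prop := ‖G.a‖ ≤ T ∧ ‖G.b‖ ≤ T ∧ ‖G.c‖ ≤ T ∧ ‖G.d‖ ≤ T ∧ ‖G.e‖ ≤ T

/-- the region of the reduced forms with integral coefficients in a number field -/
def RgK {K : Type} [Field K] [NumberField K] (C L : ℝ) (F : Qu (𝓞 K)) : Prop :=
  ∃ R : ℝ, 0 < R ∧ R ≤ C ∧ ∀ w : InfinitePlace K, w (F.a : K) ≤ C * L * R ^ 2 ∧ w (F.b : K) ≤ C * L * R ∧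
    w (F.c : K) ≤ C * L ∧ w (F.d : K) * R ≤ C * L ∧ w (F.e : K) * R ^ 2 ≤ C * L

/-- a family of complex matrices of determinant one, real at the real places -/
structure Gs (K : Type) [Field K] where
  p : InfinitePlace K → ℂ
  q : InfinitePlace K → ℂ
  u : InfinitePlace K → ℂ
  v : InfinitePlace K → ℂ
  det : ∀ w, p w * v w - q w * u w = 1
  re : ∀ w : InfinitePlace K, w.IsReal → (p w).im = 0 ∧ (q w).im = 0 ∧ (u w).im = 0 ∧ (v w).im = 0

/-- the first coordinate of `g_w m`, `m = (X, Z)` -/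
noncomputable def Gs.c1 {K : Type} [Field K] [NumberField K] (g : Gs K) (w : InfinitePlace K) (X Z : 𝓞 K) : ℂ :=
  g.p w * w.embedding (X : K) + g.q w * w.embedding (Z : K)

/-- the second coordinate of `g_w m`, `m = (X, Z)` -/
noncomputable def Gs.c2 {K : Type} [Field K] [NumberField K] (g : Gs K) (w : InfinitePlace K) (X Z : 𝓞 K) : ℂ :=
  g.u w * w.embedding (X : K) + g.v w * w.embedding (Z : K)

/-- the length of `g_w m` -/
noncomputable def Gs.nw {K : Type} [Field K] [NumberField K] (g : Gs K) (w : InfinitePlace K) (X Z : 𝓞 K) : ℝ :=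
  max ‖g.c1 w X Z‖ ‖g.c2 w X Z‖

/-- the product of the lengths -/
noncomputable def Gs.hg {K : Type} [Field K] [NumberField K] (g : Gs K) (X Z : 𝓞 K) : ℝ :=
  ∏ w : InfinitePlace K, g.nw w X Z ^ w.mult

end VK
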