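import Mathlib

/-!
LEAF RN6.  Every nonzero vector of `O²` is proportional to one whose content ideal has bounded norm (class group).
PROOF.  `I = (X, Z)` (`Ideal.span {X, Z}`, nonzero).  `NumberField.exists_ideal_in_class_of_norm_le` applied to the class of `I` (`ClassGroup.mk0`): an integral ideal `J ≠ 0` in the class of `I` with `N(J) ≤ C₀` (a real constant
of `K`; `C = ⌈C₀⌉₊`).  `ClassGroup.mk0_eq_mk0_iff`: `x, y ≠ 0` with `(x) I = (y) J`.  `x X` is in `(x) I = (y) J`, so `x X = y X'` (`Ideal.mem_span_singleton_mul`), the same for `Z`.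
Norms: `N(x) N(I) = N(y) N(J) ≤ C N(y)` (`map_mul`).
-/

namespace VK

open NumberField

theorem content (K : Type) [Field K] [NumberField K] :
    ∃ C : ℕ, ∀ X Z : 𝓞 K, (X ≠ 0 ∨ Z ≠ 0) → ∃ X' Z' x y : 𝓞 K, x ≠ 0 ∧ y ≠ 0 ∧ x * X = y * X' ∧
      x * Z = y * Z' ∧ Ideal.absNorm (Ideal.span {x}) * Ideal.absNorm (Ideal.span {X, Z}) ≤
        C * Ideal.absNorm (Ideal.span {y}) := by
  refine ⟨⌈(4 / Real.pi) ^ InfinitePlace.nrComplexPlaces K *
    ((Module.finrank ℚ K).factorial / (Module.finrank ℚ K : ℝ) ^ (Module.finrank ℚ K) *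
      Real.sqrt |(discr K : ℝ)|)⌉₊, ?_⟩
  intro X Z hXZ
  have hI : Ideal.span {X, Z} ≠ (⊥ : Ideal (𝓞 K)) := by
    intro h
    rw [Ideal.span_eq_bot] at h
    rcases hXZ with h1 | h1
    · exact h1 (h X (by simp))
    · exact h1 (h Z (by simp))
  let I : nonZeroDivisors (Ideal (𝓞 K)) := ⟨Ideal.span {X, Z}, mem_nonZeroDivisors_iff_ne_zero.2 hI⟩
  obtain ⟨J, hJ, hn⟩ := exists_ideal_in_class_of_norm_le (K := K) (ClassGroup.mk0 I)
  obtain ⟨x, y, hx, hy, hxy⟩ := ClassGroup.mk0_eq_mk0_iff.1 hJ.symm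
  have hX : x * X ∈ Ideal.span {y} * (J : Ideal (𝓞 K)) := by
    rw [← hxy]
    exact Ideal.mul_mem_mul (Ideal.mem_span_singleton_self x) (Ideal.subset_span (by simp))
  have hZ : x * Z ∈ Ideal.span {y} * (J : Ideal (𝓞 K)) := by
    rw [← hxy]
    exact Ideal.mul_mem_mul (Ideal.mem_span_singleton_self x) (Ideal.subset_span (by simp))
  obtain ⟨X', _, hX'⟩ := Ideal.mem_span_singleton_mul.1 hX
  obtain ⟨Z', _, hZ'⟩ := Ideal.mem_span_singleton_mul.1 hZ
  refine ⟨X', Z', x, y, hx, hy, hX'.symm, hZ'.symm, ?_⟩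
  have hN := congrArg Ideal.absNorm hxy
  rw [map_mul, map_mul] at hN
  have hle : Ideal.absNorm (J : Ideal (𝓞 K)) ≤ ⌈(4 / Real.pi) ^ InfinitePlace.nrComplexPlaces K *
    ((Module.finrank ℚ K).factorial / (Module.finrank ℚ K : ℝ) ^ (Module.finrank ℚ K) *
      Real.sqrt |(discr K : ℝ)|)⌉₊ := by
    have := hn.trans (Nat.le_ceil _)
    exact_mod_cast this
  calc Ideal.absNorm (Ideal.span {x}) * Ideal.absNorm (Ideal.span {X, Z})
      = Ideal.absNorm (Ideal.span {y}) * Ideal.absNorm (J : Ideal (𝓞 K)) := hN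
    _ ≤ _ := by
      rw [mul_comm]
      exact Nat.mul_le_mul_right _ hle

end VK
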