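import Pool.Agent.Lib.MP_17a322_ntVK.RN1
import Pool.Agent.Lib.MP_17a322_ntVK.RN6

/-!
LEAF RN7.  A nearly minimal vector can be completed to a pair of determinant exactly `D`, `D` depending only on `K` and `κ`.
PROOF.  `content` (constant `C`): `x m = y m'`, `m = (X, Z)`, `m' ≠ 0`.  `N(x) hg m = hg (x m) = hg (y m') = N(y) hg m'` (`hg_mul`), `hg m ≤ κ hg m'`, `hg m' > 0`: `N(y) hg m' ≤ κ N(x) hg m'`, so
`N(y) ≤ κ N(x)`, and `N(x) N((X, Z)) ≤ C N(y) ≤ C κ N(x)`, so `N((X, Z)) ≤ C κ` (`N(x) > 0`: `Ideal.absNorm_eq_zero_iff`).  `D = (⌊C κ⌋₊)!`: the natural number `n = N((X, Z)) ≥ 1` divides `D`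
(`Nat.dvd_factorial`), and `n` is in the ideal `(X, Z)` (`Ideal.absNorm_mem`), so `D` is in `(X, Z)`: `D = a X + b Z` (`Ideal.mem_span_pair`); `Z₂ = a`, `X₂ = - b`.
-/

namespace VK

open NumberField MWS

theorem complete (K : Type) [Field K] [NumberField K] (κ : ℝ) :
    ∃ D : ℕ, 0 < D ∧ ∀ (g : Gs K) (X Z : 𝓞 K), (X ≠ 0 ∨ Z ≠ 0) →
      (∀ X' Z' : 𝓞 K, (X' ≠ 0 ∨ Z' ≠ 0) → g.hg X Z ≤ κ * g.hg X' Z') →
      ∃ X2 Z2 : 𝓞 K, X * Z2 - X2 * Z = (D : 𝓞 K) := by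
  obtain ⟨C, hC⟩ := content K
  refine ⟨(⌊(C : ℝ) * κ⌋₊).factorial, Nat.factorial_pos _, ?_⟩
  intro g X Z hXZ hmin
  obtain ⟨X', Z', x, y, hx, hy, e1, e2, hN⟩ := hC X Z hXZ
  have hXZ' : X' ≠ 0 ∨ Z' ≠ 0 := by
    by_contra hcon
    push Not at hcon
    rw [hcon.1, mul_zero] at e1
    rw [hcon.2, mul_zero] at e2
    rcases hXZ with h | h
    · exact (mul_ne_zero hx h) e1
    · exact (mul_ne_zero hx h) e2
  have h1 : (Ideal.absNorm (Ideal.span {x}) : ℝ) * g.hg X Z =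
      (Ideal.absNorm (Ideal.span {y}) : ℝ) * g.hg X' Z' := by
    rw [← hg_mul, ← hg_mul, e1, e2]
  have hp' : 0 < g.hg X' Z' := hg_pos g X' Z' hXZ'
  have hxn : Ideal.absNorm (Ideal.span {x}) ≠ 0 := by
    rw [Ne, Ideal.absNorm_eq_zero_iff, Ideal.span_singleton_eq_bot]
    exact hx
  have hxp : (0 : ℝ) < (Ideal.absNorm (Ideal.span {x}) : ℝ) := by
    exact_mod_cast Nat.pos_of_ne_zero hxn
  have h2 : (Ideal.absNorm (Ideal.span {y}) : ℝ) ≤ κ * (Ideal.absNorm (Ideal.span {x}) : ℝ) := by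
    have h3 : (Ideal.absNorm (Ideal.span {y}) : ℝ) * g.hg X' Z' ≤
        (κ * (Ideal.absNorm (Ideal.span {x}) : ℝ)) * g.hg X' Z' := by
      rw [← h1]
      calc (Ideal.absNorm (Ideal.span {x}) : ℝ) * g.hg X Z ≤
            (Ideal.absNorm (Ideal.span {x}) : ℝ) * (κ * g.hg X' Z') :=
            mul_le_mul_of_nonneg_left (hmin X' Z' hXZ') hxp.le
        _ = (κ * (Ideal.absNorm (Ideal.span {x}) : ℝ)) * g.hg X' Z' := by ring
    exact le_of_mul_le_mul_right h3 hp'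
  have h4 : (Ideal.absNorm (Ideal.span {X, Z}) : ℝ) ≤ (C : ℝ) * κ := by
    have h5 : ((Ideal.absNorm (Ideal.span {x}) : ℝ)) * (Ideal.absNorm (Ideal.span {X, Z}) : ℝ) ≤
        (C : ℝ) * (Ideal.absNorm (Ideal.span {y}) : ℝ) := by
      exact_mod_cast hN
    have h6 : (C : ℝ) * (Ideal.absNorm (Ideal.span {y}) : ℝ) ≤
        (C : ℝ) * (κ * (Ideal.absNorm (Ideal.span {x}) : ℝ)) :=
      mul_le_mul_of_nonneg_left h2 (Nat.cast_nonneg _)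
    have h7 : ((Ideal.absNorm (Ideal.span {x}) : ℝ)) * (Ideal.absNorm (Ideal.span {X, Z}) : ℝ) ≤
        (Ideal.absNorm (Ideal.span {x}) : ℝ) * ((C : ℝ) * κ) := by
      calc ((Ideal.absNorm (Ideal.span {x}) : ℝ)) * (Ideal.absNorm (Ideal.span {X, Z}) : ℝ) ≤
            (C : ℝ) * (κ * (Ideal.absNorm (Ideal.span {x}) : ℝ)) := le_trans h5 h6
        _ = (Ideal.absNorm (Ideal.span {x}) : ℝ) * ((C : ℝ) * κ) := by ring
    exact le_of_mul_le_mul_left h7 hxp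
  set n := Ideal.absNorm (Ideal.span {X, Z}) with hn
  have hn0 : n ≠ 0 := by
    rw [hn, Ne, Ideal.absNorm_eq_zero_iff, Ideal.span_eq_bot]
    intro h
    rcases hXZ with h' | h'
    · exact h' (h X (by simp))
    · exact h' (h Z (by simp))
  have hle : n ≤ ⌊(C : ℝ) * κ⌋₊ := Nat.le_floor h4
  obtain ⟨k, hk⟩ := Nat.dvd_factorial (Nat.pos_of_ne_zero hn0) hle
  have hmem : (((⌊(C : ℝ) * κ⌋₊).factorial : ℕ) : 𝓞 K) ∈ Ideal.span {X, Z} := by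
    rw [hk, Nat.cast_mul]
    exact Ideal.mul_mem_right _ _ (Ideal.absNorm_mem _)
  obtain ⟨a, b, hab⟩ := Ideal.mem_span_pair.1 hmem
  refine ⟨-b, a, ?_⟩
  rw [← hab]
  ring

end VK
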