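import Mathlib

/-!
LEAF RR1.  Two vectors `a, b` of `ℂ²`: `b` is `α a` plus a short vector.
PROOF.  If `‖a2‖ ≤ ‖a1‖` then `a1 ≠ 0`, `α = b1 / a1`: `n b1 - z a1 = (n α - z) a1` and `n b2 - z a2 = n (b2 - α a2) + (n α - z) a2` with `b2 - α a2 = D / a1` (`D = a1 b2 - b1 a2`), `max ‖a1‖ ‖a2‖ = ‖a1‖`.
Otherwise `α = b2 / a2`, `b1 - α a1 = - D / a2`.  Real entries give a real quotient (`Complex.div_im`).
-/

namespace VK

theorem slide (a1 a2 b1 b2 : ℂ) (ha : 0 < max ‖a1‖ ‖a2‖) :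
    ∃ α : ℂ, (a1.im = 0 → a2.im = 0 → b1.im = 0 → b2.im = 0 → α.im = 0) ∧ ∀ n z : ℂ,
      max ‖n * b1 - z * a1‖ ‖n * b2 - z * a2‖ ≤
        ‖n‖ * ‖a1 * b2 - b1 * a2‖ / max ‖a1‖ ‖a2‖ + ‖n * α - z‖ * max ‖a1‖ ‖a2‖ := by
  have realdiv : ∀ x y : ℂ, x.im = 0 → y.im = 0 → (x / y).im = 0 := by
    intro x y hx hy
    rw [Complex.div_im, hx, hy]
    simp
  rcases le_total ‖a2‖ ‖a1‖ with h | h
  · have hm : max ‖a1‖ ‖a2‖ = ‖a1‖ := max_eq_left h
    rw [hm] at ha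
    have h0 : a1 ≠ 0 := norm_pos_iff.1 ha
    refine ⟨b1 / a1, fun h1 _ h3 _ => realdiv b1 a1 h3 h1, fun n z => ?_⟩
    rw [hm]
    have hD : (0:ℝ) ≤ ‖n‖ * ‖a1 * b2 - b1 * a2‖ / ‖a1‖ := by positivity
    refine max_le ?_ ?_
    · have e1 : n * b1 - z * a1 = (n * (b1 / a1) - z) * a1 := by
        field_simp
      rw [e1, norm_mul]
      linarith
    · have e2 : n * b2 - z * a2 = n * ((a1 * b2 - b1 * a2) / a1) + (n * (b1 / a1) - z) * a2 := by
        field_simp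
        ring
      rw [e2]
      refine (norm_add_le _ _).trans ?_
      rw [norm_mul, norm_div, norm_mul, mul_div_assoc]
      have := mul_le_mul_of_nonneg_left h (norm_nonneg (n * (b1 / a1) - z))
      linarith
  · have hm : max ‖a1‖ ‖a2‖ = ‖a2‖ := max_eq_right h
    rw [hm] at ha
    have h0 : a2 ≠ 0 := norm_pos_iff.1 ha
    refine ⟨b2 / a2, fun _ h2 _ h4 => realdiv b2 a2 h4 h2, fun n z => ?_⟩
    rw [hm]
    have hD : (0:ℝ) ≤ ‖n‖ * ‖a1 * b2 - b1 * a2‖ / ‖a2‖ := by positivity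
    refine max_le ?_ ?_
    · have e2 : n * b1 - z * a1 = -(n * ((a1 * b2 - b1 * a2) / a2)) + (n * (b2 / a2) - z) * a1 := by
        field_simp
        ring
      rw [e2]
      refine (norm_add_le _ _).trans ?_
      rw [norm_neg, norm_mul, norm_div, norm_mul, mul_div_assoc]
      have := mul_le_mul_of_nonneg_left h (norm_nonneg (n * (b2 / a2) - z))
      linarith
    · have e1 : n * b2 - z * a2 = (n * (b2 / a2) - z) * a2 := by
        field_simp
      rw [e1, norm_mul]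
      linarith

end VK
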