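import Pool.Agent.Lib.MP_17a322_ntVK.RN5
import Pool.Agent.Lib.MP_17a322_ntVK.RN7
import Pool.Agent.Lib.MP_17a322_ntVK.RD1
import Pool.Agent.Lib.MP_17a322_ntVK.RD2
import Pool.Agent.Lib.MP_17a322_ntVK.RR1

/-!
LEAF RR2.  THE REDUCTION THEOREM for `SL₂(O)` up to constants.
PROOF.  `C₁ ≥ 1` from `balanced_min`, `D` from `complete` with `κ = C₁`, `C₂` from `round`, `N` from `dirichlet` with `ε = 1/(2 C₁²)`.
`g` given: `m₁ = (X₁, Z₁)`, `l`: `l ≤ C₁ nw w m₁`, `nw w m₁ ≤ C₁ l`; `m' = (X', Z')` with `X₁ Z' - X' Z₁ = D` (`complete`).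
At `w`: `a1 = c1 w m₁, a2 = c2 w m₁, b1 = c1 w m', b2 = c2 w m'`: `a1 b2 - b1 a2 = (p v - q u)(X₁ Z' - X' Z₁) = D` (through `w.embedding`), all real if `w` is real (`g.re`; `w.embedding` has real values at a real place:
`InfinitePlace.conj_embedding_eq_embedding_iff_isReal`-like lemma or `embedding_of_isReal_apply`).  `slide` gives `α w`, so for all `n : ℕ`, `z` in `O` the vector `n m' - z m₁` has
(*) `nw w (n m' - z m₁) ≤ n D / nw w m₁ + ‖n α w - z‖ nw w m₁ ≤ n D C₁ / l + ‖n α w - z‖ C₁ l`.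
(1) `l ≤ C`: `dirichlet`: `1 ≤ n ≤ N`, `z`.  The vector `m'' = n m' - z m₁` is not zero (its determinant with `m₁` is `n D ≠ 0`).  `hg m'' ≤ (N D C₁/l + ε C₁ l)^e` (`hg_le`) and `l^e = hg m₁ ≤ C₁ hg m''
≤ (C₁ (N D C₁/l + ε C₁ l))^e` (`C₁ ≤ C₁^e`), so `l ≤ N D C₁²/l + ε C₁² l = N D C₁²/l + l/2`, `l² ≤ 2 N D C₁²`.
(2) `m₂ = m' - z m₁` with `z` from `round` (`n = 1`): the determinant is still `D` and `nw w m₂ * l ≤ D C₁ + C₂ C₁ l² ≤ D C₁ + C₂ C₁ 2 N D C₁²`.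
-/

namespace VK

open NumberField MWS

private theorem RR2_det {K : Type} [Field K] [NumberField K] (g : Gs K) (w : InfinitePlace K) (X1 Z1 X2 Z2 : 𝓞 K)
    (D : ℕ) (h : X1 * Z2 - X2 * Z1 = (D : 𝓞 K)) :
    g.c1 w X1 Z1 * g.c2 w X2 Z2 - g.c1 w X2 Z2 * g.c2 w X1 Z1 = (D : ℂ) := by
  have h1 : w.embedding (X1 : K) * w.embedding (Z2 : K) - w.embedding (X2 : K) * w.embedding (Z1 : K) = (D : ℂ) := by
    have h2 := congrArg (fun t : 𝓞 K => w.embedding (t : K)) h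
    simp only [map_sub, map_mul, map_natCast] at h2
    exact h2
  have h3 := g.det w
  unfold Gs.c1 Gs.c2
  linear_combination (g.p w * g.v w - g.q w * g.u w) * h1 + (D : ℂ) * h3

private theorem RR2_c1 {K : Type} [Field K] [NumberField K] (g : Gs K) (w : InfinitePlace K) (n : ℕ)
    (z X1 Z1 X2 Z2 : 𝓞 K) :
    g.c1 w ((n : 𝓞 K) * X2 - z * X1) ((n : 𝓞 K) * Z2 - z * Z1) =
      (n : ℂ) * g.c1 w X2 Z2 - w.embedding (z : K) * g.c1 w X1 Z1 := by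
  unfold Gs.c1
  simp only [map_sub, map_mul, map_natCast]
  ring

private theorem RR2_c2 {K : Type} [Field K] [NumberField K] (g : Gs K) (w : InfinitePlace K) (n : ℕ)
    (z X1 Z1 X2 Z2 : 𝓞 K) :
    g.c2 w ((n : 𝓞 K) * X2 - z * X1) ((n : 𝓞 K) * Z2 - z * Z1) =
      (n : ℂ) * g.c2 w X2 Z2 - w.embedding (z : K) * g.c2 w X1 Z1 := by
  unfold Gs.c2
  simp only [map_sub, map_mul, map_natCast]
  ring

private theorem RR2_real {K : Type} [Field K] [NumberField K] {w : InfinitePlace K} (hw : w.IsReal) (x : K) :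
    (w.embedding x).im = 0 := by
  rw [← InfinitePlace.embedding_of_isReal_apply hw x]
  exact Complex.ofReal_im _

private theorem RR2_im {a b c d : ℂ} (ha : a.im = 0) (hb : b.im = 0) (hc : c.im = 0) (hd : d.im = 0) :
    (a * b + c * d).im = 0 := by
  rw [Complex.add_im, Complex.mul_im, Complex.mul_im, ha, hb, hc, hd]
  ring

theorem redu (K : Type) [Field K] [NumberField K] :
    ∃ (C : ℝ) (D : ℕ), 0 < C ∧ 0 < D ∧ ∀ g : Gs K, ∃ (X1 Z1 X2 Z2 : 𝓞 K) (l : ℝ),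
      X1 * Z2 - X2 * Z1 = (D : 𝓞 K) ∧ 0 < l ∧ l ≤ C ∧
      ∀ w : InfinitePlace K, g.nw w X1 Z1 ≤ C * l ∧ g.nw w X2 Z2 * l ≤ C := by
  obtain ⟨C₁, hC1, hbm⟩ := balanced_min K
  obtain ⟨D, hD, hcomp⟩ := complete K C₁
  obtain ⟨C₂, hC2, hround⟩ := round K
  have hC0 : 0 < C₁ := by linarith
  obtain ⟨N, hN⟩ := dirichlet K (1 / (2 * C₁ ^ 2)) (by positivity)
  obtain ⟨B, hB⟩ : ∃ B : ℝ, B = 2 * N * D * C₁ ^ 2 := ⟨_, rfl⟩
  have hB0 : 0 ≤ B := by rw [hB]; positivity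
  refine ⟨1 + B + C₁ + D * C₁ + C₂ * C₁ * B, D, by positivity, hD, fun g => ?_⟩
  obtain ⟨X1, Z1, l, hne, hl, hhg, hnw, hmin⟩ := hbm g
  obtain ⟨X2, Z2, hdet⟩ := hcomp g X1 Z1 hne hmin
  have hnpos : ∀ w, 0 < g.nw w X1 Z1 := fun w => nw_pos g w X1 Z1 hne
  have hsl : ∀ w, ∃ α : ℂ, (w.IsReal → α.im = 0) ∧ ∀ n z : ℂ,
      max ‖n * g.c1 w X2 Z2 - z * g.c1 w X1 Z1‖ ‖n * g.c2 w X2 Z2 - z * g.c2 w X1 Z1‖ ≤
        ‖n‖ * (D : ℝ) / g.nw w X1 Z1 + ‖n * α - z‖ * g.nw w X1 Z1 := by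
    intro w
    obtain ⟨α, h1, h2⟩ := slide (g.c1 w X1 Z1) (g.c2 w X1 Z1) (g.c1 w X2 Z2) (g.c2 w X2 Z2) (hnpos w)
    refine ⟨α, fun hw => ?_, fun n z => ?_⟩
    · have h3 := g.re w hw
      exact h1 (RR2_im h3.1 (RR2_real hw _) h3.2.1 (RR2_real hw _))
        (RR2_im h3.2.2.1 (RR2_real hw _) h3.2.2.2 (RR2_real hw _))
        (RR2_im h3.1 (RR2_real hw _) h3.2.1 (RR2_real hw _))
        (RR2_im h3.2.2.1 (RR2_real hw _) h3.2.2.2 (RR2_real hw _))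
    · have h4 := h2 n z
      rw [RR2_det g w X1 Z1 X2 Z2 D hdet, Complex.norm_natCast] at h4
      exact h4
  choose α hα1 hα2 using hsl
  have key : ∀ (n : ℕ) (z : 𝓞 K) (w : InfinitePlace K),
      g.nw w ((n : 𝓞 K) * X2 - z * X1) ((n : 𝓞 K) * Z2 - z * Z1) ≤
        n * D * C₁ / l + ‖(n : ℂ) * α w - w.embedding (z : K)‖ * (C₁ * l) := by
    intro n z w
    have h1 := hα2 w (n : ℂ) (w.embedding (z : K))
    rw [Complex.norm_natCast, ← RR2_c1, ← RR2_c2] at h1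
    have h2 : (n : ℝ) * D / g.nw w X1 Z1 ≤ n * D * C₁ / l := by
      rw [div_le_div_iff₀ (hnpos w) hl, mul_assoc ((n : ℝ) * D)]
      exact mul_le_mul_of_nonneg_left (hnw w).1 (by positivity)
    have h3 : ‖(n : ℂ) * α w - w.embedding (z : K)‖ * g.nw w X1 Z1 ≤
        ‖(n : ℂ) * α w - w.embedding (z : K)‖ * (C₁ * l) :=
      mul_le_mul_of_nonneg_left (hnw w).2 (norm_nonneg _)
    exact h1.trans (add_le_add h2 h3)
  have he : 1 ≤ Module.finrank ℚ K := Module.finrank_pos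
  -- the bound for `l`
  have hlB : l ^ 2 ≤ B := by
    obtain ⟨n, hn1, hnN, z, hz⟩ := hN α hα1
    have hne2 : ((n : 𝓞 K) * X2 - z * X1 ≠ 0 ∨ (n : 𝓞 K) * Z2 - z * Z1 ≠ 0) := by
      by_contra hcon
      rw [not_or, not_not, not_not] at hcon
      have h1 : (n : 𝓞 K) * (D : 𝓞 K) = 0 := by
        rw [← hdet]
        linear_combination X1 * hcon.2 - Z1 * hcon.1
      have h2 : ((n * D : ℕ) : 𝓞 K) = 0 := by
        rw [Nat.cast_mul]
        exact h1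
      rw [Nat.cast_eq_zero] at h2
      have h3 : 0 < n * D := Nat.mul_pos hn1 hD
      omega
    obtain ⟨T, hT⟩ : ∃ T : ℝ, T = N * D * C₁ / l + 1 / (2 * C₁ ^ 2) * (C₁ * l) := ⟨_, rfl⟩
    have hT0 : 0 ≤ T := by rw [hT]; positivity
    have h1 : g.hg ((n : 𝓞 K) * X2 - z * X1) ((n : 𝓞 K) * Z2 - z * Z1) ≤ T ^ Module.finrank ℚ K := by
      refine hg_le g _ _ T fun w => (key n z w).trans ?_
      rw [hT]
      refine add_le_add ?_ (mul_le_mul_of_nonneg_right (hz w) (by positivity))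
      have h2 : (n : ℝ) ≤ N := by exact_mod_cast hnN
      gcongr
    have h2 := hmin _ _ hne2
    rw [hhg] at h2
    have h3 : C₁ ≤ C₁ ^ Module.finrank ℚ K := le_self_pow₀ hC1 (by omega)
    have h4 : l ^ Module.finrank ℚ K ≤ (C₁ * T) ^ Module.finrank ℚ K := by
      rw [mul_pow]
      exact h2.trans (mul_le_mul h3 h1 (hg_pos g _ _ hne2).le (by positivity))
    have h5 : l ≤ C₁ * T := (pow_le_pow_iff_left₀ hl.le (by positivity) (by omega)).1 h4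
    have h6 : C₁ * T = N * D * C₁ ^ 2 / l + l / 2 := by
      rw [hT]
      field_simp
    rw [h6] at h5
    have h7 : l / 2 ≤ N * D * C₁ ^ 2 / l := by linarith
    rw [le_div_iff₀ hl] at h7
    rw [hB]
    nlinarith
  obtain ⟨z, hz⟩ := hround α hα1
  refine ⟨X1, Z1, ((1 : ℕ) : 𝓞 K) * X2 - z * X1, ((1 : ℕ) : 𝓞 K) * Z2 - z * Z1, l, ?_, hl, ?_, fun w => ⟨?_, ?_⟩⟩
  · rw [Nat.cast_one]
    linear_combination hdet
  · have h1 : l ≤ 1 + l ^ 2 := by nlinarith [sq_nonneg (l - 1)]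
    have h2 : 0 ≤ C₁ + D * C₁ + C₂ * C₁ * B := by positivity
    linarith
  · refine (hnw w).2.trans (mul_le_mul_of_nonneg_right ?_ hl.le)
    have h2 : 0 ≤ 1 + B + D * C₁ + C₂ * C₁ * B := by positivity
    linarith
  · have h1 := key 1 z w
    have h2 : ‖((1 : ℕ) : ℂ) * α w - w.embedding (z : K)‖ ≤ C₂ := by
      rw [Nat.cast_one, one_mul]
      exact hz w
    have h3 : g.nw w (((1 : ℕ) : 𝓞 K) * X2 - z * X1) (((1 : ℕ) : 𝓞 K) * Z2 - z * Z1) ≤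
        D * C₁ / l + C₂ * (C₁ * l) := by
      refine h1.trans (add_le_add (le_of_eq ?_) (mul_le_mul_of_nonneg_right h2 (by positivity)))
      rw [Nat.cast_one, one_mul]
    have h4 : (D * C₁ / l + C₂ * (C₁ * l)) * l = D * C₁ + C₂ * C₁ * l ^ 2 := by
      field_simp
    have h5 := mul_le_mul_of_nonneg_right h3 hl.le
    rw [h4] at h5
    have h6 : C₂ * C₁ * l ^ 2 ≤ C₂ * C₁ * B := mul_le_mul_of_nonneg_left hlB (by positivity)
    linarith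

end VK
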