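import Pool.Agent.Lib.MP_17a322_ntVK.RZ
import Pool.Agent.Lib.MP_10e784_agBR.RealZ
import Pool.Agent.Lib.MP_10e784_agBR.RealD

/-!
LEAF RV.  The reduction at all infinite places.
PROOF.  For every infinite place `w` let `F_w = mp w.embedding F` (a complex form).  `(F_w).I = w.embedding F.I` (`mp_I`), of absolute value `w (F.I)` (`InfinitePlace.norm_embedding_eq`), so `≤ 48 L²`; the same for
`J`; `4 I³ ≠ J²` is preserved (`w.embedding` is injective).
Complex `w` (not real): `complex_red`.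
Real `w`: the embedding has real values: `w.embedding z = ((InfinitePlace.embedding_of_isReal hw z : ℝ) : ℂ)` (`InfinitePlace.embedding_of_isReal_apply`), so `F_w = mp Complex.ofRealHom F'`, `F' = mp (embedding_of_isReal hw) F`
a real form, `|F'.I| ≤ 48 L²`, .. .  `real_zero` (`MWS`, RealZ) if `F'` has a real zero, otherwise `real_definite` (RealD), as in `Lib/MP_10e784_agBR/Red.lean`, lines 30-45: real `G', p, q, u, v`; cast to `ℂ`.
Choose for all `w` (`Classical.choose` / `choose`): `g : Gs K`.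
-/

namespace VK

open NumberField MWS

private theorem RV_real {F : Qu ℝ} {L : ℝ} (hL : 0 < L) (hI : |F.I| ≤ 48 * L ^ 2)
    (hJ : |F.J| ≤ 1728 * L ^ 3) (hd : 4 * F.I ^ 3 ≠ F.J ^ 2) :
    ∃ (G : Qu ℝ) (p q u v : ℝ), p * v - q * u = 1 ∧ F = G.sub p q u v ∧
      |G.a| ≤ 100 * L ∧ |G.b| ≤ 100 * L ∧ |G.c| ≤ 100 * L ∧ |G.d| ≤ 100 * L ∧
        |G.e| ≤ 100 * L := by
  by_cases hz : ∃ X Z : ℝ, (X ≠ 0 ∨ Z ≠ 0) ∧ F.ev X Z = 0
  · obtain ⟨X, Z, hXZ, h0⟩ := hz
    exact real_zero _ L hL hI hJ hd X Z hXZ h0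
  · refine real_definite _ L hL hI ?_
    intro X Z h0
    by_contra hc
    refine hz ⟨X, Z, ?_, h0⟩
    by_contra hn
    rw [not_or, not_not, not_not] at hn
    exact hc hn

private theorem RV_one {K : Type} [Field K] [NumberField K] (F : Qu K) (L : ℝ) (hL : 0 < L)
    (w : InfinitePlace K) (hI : w F.I ≤ 48 * L ^ 2) (hJ : w F.J ≤ 1728 * L ^ 3)
    (hd : 4 * F.I ^ 3 ≠ F.J ^ 2) :
    ∃ (G : Qu ℂ) (p q u v : ℂ), p * v - q * u = 1 ∧
      (w.IsReal → p.im = 0 ∧ q.im = 0 ∧ u.im = 0 ∧ v.im = 0) ∧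
      mp w.embedding F = G.sub p q u v ∧ Le (100 * L) G := by
  by_cases hw : w.IsReal
  · have hc : ∀ z : K, ((InfinitePlace.embedding_of_isReal hw z : ℝ) : ℂ) = w.embedding z :=
      fun z => InfinitePlace.embedding_of_isReal_apply hw z
    have habs : ∀ z : K, |InfinitePlace.embedding_of_isReal hw z| = w z := by
      intro z
      rw [← InfinitePlace.norm_embedding_eq w z, ← hc z, Complex.norm_real, Real.norm_eq_abs]
    have hd' : 4 * (mp (InfinitePlace.embedding_of_isReal hw) F).I ^ 3 ≠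
        (mp (InfinitePlace.embedding_of_isReal hw) F).J ^ 2 := by
      rw [mp_I, mp_J]
      intro h
      apply hd
      apply (InfinitePlace.embedding_of_isReal hw).injective
      rw [map_mul, map_pow, map_pow, map_ofNat]
      exact h
    obtain ⟨G, p, q, u, v, hdet, hF, ha, hb, hcc, hdd, he⟩ :=
      RV_real (F := mp (InfinitePlace.embedding_of_isReal hw) F) hL
        (by rw [mp_I, habs]; exact hI) (by rw [mp_J, habs]; exact hJ) hd'
    refine ⟨mp Complex.ofRealHom G, p, q, u, v, ?_, ?_, ?_, ?_⟩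
    · exact_mod_cast congrArg (fun r : ℝ => (r : ℂ)) hdet
    · intro _
      exact ⟨Complex.ofReal_im p, Complex.ofReal_im q, Complex.ofReal_im u, Complex.ofReal_im v⟩
    · have h1 : mp w.embedding F =
          mp Complex.ofRealHom (mp (InfinitePlace.embedding_of_isReal hw) F) := by
        ext
        · exact (hc F.a).symm
        · exact (hc F.b).symm
        · exact (hc F.c).symm
        · exact (hc F.d).symm
        · exact (hc F.e).symm
      rw [h1, hF, mp_sub]
      rfl
    · have hn : ∀ r : ℝ, ‖Complex.ofRealHom r‖ = |r| := by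
        intro r
        rw [Complex.ofRealHom_eq_coe, Complex.norm_real, Real.norm_eq_abs]
      refine ⟨?_, ?_, ?_, ?_, ?_⟩
      · exact (hn G.a).le.trans ha
      · exact (hn G.b).le.trans hb
      · exact (hn G.c).le.trans hcc
      · exact (hn G.d).le.trans hdd
      · exact (hn G.e).le.trans he
  · have hI' : ‖(mp w.embedding F).I‖ ≤ 48 * L ^ 2 := by
      rw [mp_I, InfinitePlace.norm_embedding_eq]
      exact hI
    have hJ' : ‖(mp w.embedding F).J‖ ≤ 1728 * L ^ 3 := by
      rw [mp_J, InfinitePlace.norm_embedding_eq]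
      exact hJ
    have hd' : 4 * (mp w.embedding F).I ^ 3 ≠ (mp w.embedding F).J ^ 2 := by
      rw [mp_I, mp_J]
      intro h
      apply hd
      apply w.embedding.injective
      rw [map_mul, map_pow, map_pow, map_ofNat]
      exact h
    obtain ⟨G, p, q, u, v, hdet, hF, hG⟩ := complex_red (mp w.embedding F) L hL hI' hJ' hd'
    exact ⟨G, p, q, u, v, hdet, fun h => absurd h hw, hF, hG⟩

theorem arch {K : Type} [Field K] [NumberField K] (F : Qu K) (L : ℝ) (hL : 0 < L)
    (hI : ∀ w : InfinitePlace K, w F.I ≤ 48 * L ^ 2) (hJ : ∀ w : InfinitePlace K, w F.J ≤ 1728 * L ^ 3)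
    (hd : 4 * F.I ^ 3 ≠ F.J ^ 2) :
    ∃ (g : Gs K) (G : InfinitePlace K → Qu ℂ), ∀ w, mp w.embedding F = (G w).sub (g.p w) (g.q w) (g.u w) (g.v w) ∧
      Le (100 * L) (G w) := by
  have h := fun w : InfinitePlace K => RV_one F L hL w (hI w) (hJ w) hd
  choose G p q u v hdet hre hF hG using h
  exact ⟨⟨p, q, u, v, hdet, hre⟩, G, fun w => ⟨hF w, hG w⟩⟩

end VK
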