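import Pool.Agent.Lib.MP_17a322_ntVK.RM2
import Pool.Agent.Lib.MP_17a322_ntVK.RV
import Pool.Agent.Lib.MP_17a322_ntVK.RR2
import Pool.Agent.Lib.MP_17a322_ntVK.RB

/-!
LEAF RE.  The reduced integral form of a point.
PROOF.  `exists_modelK` (constant `c₁`): `F₀` integral with `RelK (fP A x y) (F₁.sm c₁⁻¹)`, `F₁ = mp (algebraMap) F₀`.  `RelK.I_eq`, `Qu.I_sm`, `fP_I`: `F₁.I = - 48 c₁² A`, `F₁.J = - 1728 c₁³ B` (`fP_J`), so `w (F₁.I) ≤ 48 (c₁ L)²`,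
`w (F₁.J) ≤ 1728 (c₁ L)³`, `4 I³ - J² = - 110592 c₁⁶ (4 A³ + 27 B²) ≠ 0`.
`arch` (with `c₁ L`): `g`, `G`.  `redu` (constants `C₂`, `D`): `X1 Z1 X2 Z2 l`.  `F = F₀.sub X1 X2 Z1 Z2` (matrix with the columns `m₁, m₂`, determinant `D`).
REGION: `mp w.embedding (mp algebraMap F) = ((G w).sub p q u v).sub X1 X2 Z1 Z2 = (G w).sub (c1 w X1 Z1) (c1 w X2 Z2) (c2 w X1 Z1) (c2 w X2 Z2)` (`mp_sub` twice, `Qu.sub_sub`); `boundK` with `c₁ L`, `C₂`, `l`;
`‖w.embedding (F.a)‖ = w (F.a)` (`InfinitePlace.norm_embedding_eq`); `R = l²`, `R ≤ C₂²`; `C = 3000 C₂⁴ c₁ + C₂²` (use `C₂⁴ c₁ .. ≤ C`).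
RELATION: `c = c₁ D²`: `RelK (F₁.sm c₁⁻¹) ((mp F).sm c⁻¹)` with the matrix `X1 X2 Z1 Z2` (`Qu.sub_sm`, `Qu.sm_sm`, determinant `D`: `D² c⁻¹ = c₁⁻¹`), `RelK.trans`.
-/

namespace VK

open NumberField MWS

private theorem RE_norm {K : Type} [Field K] [NumberField K] (w : InfinitePlace K) (n m : ℕ) (z : K) (T : ℝ)
    (h : w z ≤ T) : w (-(n : K) * (m : K) * z) ≤ n * m * T := by
  rw [← InfinitePlace.norm_embedding_eq w, map_mul, map_mul, map_neg, map_natCast, map_natCast, norm_mul, norm_mul,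
    norm_neg, Complex.norm_natCast, Complex.norm_natCast, InfinitePlace.norm_embedding_eq]
  exact mul_le_mul_of_nonneg_left h (by positivity)

theorem exists_reducedK (K : Type) [Field K] [NumberField K] :
    ∃ (c : ℕ) (C : ℝ), 0 < c ∧ 0 < C ∧ ∀ (A B : 𝓞 K) (L : ℝ), 0 < L →
      (∀ w : InfinitePlace K, w (A : K) ≤ L ^ 2) → (∀ w : InfinitePlace K, w (B : K) ≤ L ^ 3) → ds A B ≠ 0 →
      ∀ x y : K, y ^ 2 = x ^ 3 + (A : K) * x + (B : K) →
      ∃ F : Qu (𝓞 K), RelK (fP (A : K) x y) ((mp (algebraMap (𝓞 K) K) F).sm (c : K)⁻¹) ∧ RgK C L F := by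
  obtain ⟨c₁, hc₁, hmod⟩ := exists_modelK K
  obtain ⟨C₂, D, hC₂, hD, hred⟩ := redu K
  have hc₁' : (0 : ℝ) < c₁ := by exact_mod_cast hc₁
  have hc₁K : (c₁ : K) ≠ 0 := by exact_mod_cast hc₁.ne'
  have hDK : (D : K) ≠ 0 := by exact_mod_cast hD.ne'
  refine ⟨c₁ * D ^ 2, 3000 * C₂ ^ 4 * c₁ + C₂ ^ 2, by positivity, by positivity, ?_⟩
  intro A B L hL hA hB hds x y hxy
  obtain ⟨F₀, hF₀⟩ := hmod A B x y hxy
  set F₁ : Qu K := mp (algebraMap (𝓞 K) K) F₀ with hF₁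
  have hI : F₁.I = -48 * (c₁ : K) ^ 2 * (A : K) := by
    have h1 := hF₀.I_eq
    rw [Qu.I_sm, fP_I] at h1
    field_simp at h1
    linear_combination h1
  have hJ : F₁.J = -1728 * (c₁ : K) ^ 3 * (B : K) := by
    have h1 := hF₀.J_eq
    rw [Qu.J_sm, fP_J _ _ _ _ hxy] at h1
    field_simp at h1
    linear_combination h1
  have hIw : ∀ w : InfinitePlace K, w F₁.I ≤ 48 * (c₁ * L) ^ 2 := by
    intro w
    have h1 := RE_norm w 48 (c₁ ^ 2) (A : K) _ (hA w)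
    have h2 : F₁.I = -((48 : ℕ) : K) * ((c₁ ^ 2 : ℕ) : K) * (A : K) := by
      rw [hI]
      push_cast
      ring
    rw [h2]
    refine h1.trans (le_of_eq ?_)
    push_cast
    ring
  have hJw : ∀ w : InfinitePlace K, w F₁.J ≤ 1728 * (c₁ * L) ^ 3 := by
    intro w
    have h1 := RE_norm w 1728 (c₁ ^ 3) (B : K) _ (hB w)
    have h2 : F₁.J = -((1728 : ℕ) : K) * ((c₁ ^ 3 : ℕ) : K) * (B : K) := by
      rw [hJ]
      push_cast
      ring
    rw [h2]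
    refine h1.trans (le_of_eq ?_)
    push_cast
    ring
  have hne : 4 * F₁.I ^ 3 ≠ F₁.J ^ 2 := by
    intro h0
    rw [hI, hJ] at h0
    have h1 : (110592 : K) * (c₁ : K) ^ 6 * (4 * (A : K) ^ 3 + 27 * (B : K) ^ 2) = 0 := by
      linear_combination -h0
    have h2 : (4 * (A : K) ^ 3 + 27 * (B : K) ^ 2) = 0 := by
      rcases mul_eq_zero.1 h1 with h3 | h3
      · rcases mul_eq_zero.1 h3 with h4 | h4
        · norm_num at h4
        · exact absurd h4 (pow_ne_zero _ hc₁K)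
      · exact h3
    apply hds
    have h3 : ((ds A B : 𝓞 K) : K) = 0 := by
      rw [← h2]
      simp only [ds, map_add, map_mul, map_pow, map_ofNat]
    exact_mod_cast h3
  obtain ⟨g, G, hG⟩ := arch F₁ (c₁ * L) (by positivity) hIw hJw hne
  obtain ⟨X1, Z1, X2, Z2, l, hdet, hl, hlC, hw⟩ := hred g
  have hdetK : (X1 : K) * (Z2 : K) - (X2 : K) * (Z1 : K) = (D : K) := by
    have h1 := congrArg (algebraMap (𝓞 K) K) hdet
    rw [map_sub, map_mul, map_mul, map_natCast] at h1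
    exact h1
  have hmpF : mp (algebraMap (𝓞 K) K) (F₀.sub X1 X2 Z1 Z2) = F₁.sub (X1 : K) (X2 : K) (Z1 : K) (Z2 : K) :=
    mp_sub _ _ _ _ _ _
  refine ⟨F₀.sub X1 X2 Z1 Z2, hF₀.trans ?_, ?_⟩
  · refine ⟨(X1 : K), (X2 : K), (Z1 : K), (Z2 : K), ?_, ?_⟩
    · rw [hdetK]
      exact hDK
    · rw [hdetK, Qu.sub_sm, Qu.sm_sm, hmpF]
      congr 1
      push_cast
      field_simp
  · refine ⟨l ^ 2, by positivity, ?_, ?_⟩
    · have h1 : l ^ 2 ≤ C₂ ^ 2 := by gcongr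
      have h2 : 0 ≤ 3000 * C₂ ^ 4 * c₁ := by positivity
      linarith
    · intro w
      have hFw : mp w.embedding (mp (algebraMap (𝓞 K) K) (F₀.sub X1 X2 Z1 Z2)) =
          (G w).sub (g.c1 w X1 Z1) (g.c1 w X2 Z2) (g.c2 w X1 Z1) (g.c2 w X2 Z2) := by
        rw [hmpF, mp_sub, (hG w).1, Qu.sub_sub]
        rfl
      obtain ⟨h1, h2⟩ := hw w
      have e1 : ‖g.c1 w X1 Z1‖ ≤ C₂ * l := (le_max_left _ _).trans h1
      have e2 : ‖g.c2 w X1 Z1‖ ≤ C₂ * l := (le_max_right _ _).trans h1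
      have e3 : ‖g.c1 w X2 Z2‖ * l ≤ C₂ := (mul_le_mul_of_nonneg_right (le_max_left _ _) hl.le).trans h2
      have e4 : ‖g.c2 w X2 Z2‖ * l ≤ C₂ := (mul_le_mul_of_nonneg_right (le_max_right _ _) hl.le).trans h2
      have hb := boundK (G w) (c₁ * L) C₂ l (by positivity) hl (hG w).2 _ _ _ _ e1 e2 e3 e4
      rw [← hFw] at hb
      have hc : 3000 * C₂ ^ 4 * (c₁ * L) ≤ (3000 * C₂ ^ 4 * c₁ + C₂ ^ 2) * L := by
        have : 0 ≤ C₂ ^ 2 * L := by positivity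
        linarith
      have n1 : ∀ z : 𝓞 K, w (z : K) = ‖w.embedding (algebraMap (𝓞 K) K z)‖ := fun z =>
        (InfinitePlace.norm_embedding_eq w _).symm
      obtain ⟨b1, b2, b3, b4, b5⟩ := hb
      refine ⟨?_, ?_, ?_, ?_, ?_⟩
      · rw [n1]
        exact b1.trans (mul_le_mul_of_nonneg_right hc (by positivity))
      · rw [n1]
        exact b2.trans (mul_le_mul_of_nonneg_right hc (by positivity))
      · rw [n1]
        exact b3.trans hc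
      · rw [n1]
        exact b4.trans hc
      · rw [n1]
        exact b5.trans hc

end VK
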