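import Pool.Agent.Lib.MP_17a322_ntVK.RA

/-!
LEAF RG.  Lines through a point: a COPY of `Lib/MP_10e784_agBR/Grp.lean` (on main; theorems two_of_zero, cls_of_sq, cls_of_x) over a field of characteristic zero, coefficients `a b` in the field
(`RK_eqn`, `RK_nons`, `sum_of_linK` of RA instead of `EW_eqn`, `EW_nons`, `sum_of_lin`).
-/

namespace VK

variable {F : Type} [Field F] [CharZero F] [DecidableEq F]

omit [CharZero F] [DecidableEq F] in
private theorem RG_eqn {a b : F} {l n x₁ y₁ x₂ y₂ x₃ y₃ : F}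
    (h : LinK a b l n x₁ y₁ x₂ y₂ x₃ y₃) (x y : F) (hy : y = l * x + n)
    (hx : (x - x₁) * (x - x₂) * (x - x₃) = 0) : y ^ 2 = x ^ 3 + a * x + b := by
  rw [hy]
  linear_combination x ^ 2 * h.e1 - x * h.e2 - h.e3 - hx

omit [CharZero F] [DecidableEq F] in
private theorem RG_some {a b : F} {x y x' y' : F}
    (h : (EK a b).toAffine.Nonsingular x y) (h' : (EK a b).toAffine.Nonsingular x' y')
    (hx : x' = x) :
    (.some x' y' h' : Pt a b) = .some x y h ∨ (.some x' y' h' : Pt a b) = - .some x y h := by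
  subst hx
  have e1 := (RK_eqn a b x' y).1 h.1
  have e2 := (RK_eqn a b x' y').1 h'.1
  have e3 : y' ^ 2 = y ^ 2 := by rw [e1, e2]
  have hn : (EK a b).toAffine.negY x' y = -y := by
    show -y - (0 : F) * x' - 0 = -y
    ring
  rcases sq_eq_sq_iff_eq_or_eq_neg.1 e3 with h3 | h3
  · left
    rw [WeierstrassCurve.Affine.Point.some.injEq]
    exact ⟨rfl, h3⟩
  · right
    rw [WeierstrassCurve.Affine.Point.neg_some, WeierstrassCurve.Affine.Point.some.injEq]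
    exact ⟨rfl, by rw [hn, h3]⟩

theorem two_of_zeroK {a b : F} (hd : ds a b ≠ 0) (x y : F)
    (h : (EK a b).toAffine.Nonsingular x y) (l : F)
    (h0 : l ^ 4 - 6 * x * l ^ 2 + 8 * y * l - (3 * x ^ 2 + 4 * a) = 0) :
    ∃ U : Pt a b, (.some x y h : Pt a b) = 2 • U := by
  have e := (RK_eqn a b x y).1 h.1
  have hd' := hd
  have h2 : (2 : F) ≠ 0 := two_ne_zero
  have hl : LinK a b l (y - l * x) x y ((l ^ 2 - x) / 2) (l * ((l ^ 2 - x) / 2) + (y - l * x))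
      ((l ^ 2 - x) / 2) (l * ((l ^ 2 - x) / 2) + (y - l * x)) := by
    refine ⟨by ring, by ring, by ring, by ring, ?_, ?_⟩
    · linear_combination (-1 / 4) * h0
    · linear_combination (-1) * e + (x / 4) * h0
  have h3 : (EK a b).toAffine.Nonsingular ((l ^ 2 - x) / 2)
      (l * ((l ^ 2 - x) / 2) + (y - l * x)) :=
    (RK_nons a b h2 hd' _ _).2 (RG_eqn hl _ _ rfl (by ring))
  have h4 := sum_of_linK a b h2 hd' _ _ _ _ _ _ _ _ h h3 h3 hl
  refine ⟨- .some _ _ h3, ?_⟩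
  rw [two_nsmul, ← neg_add, eq_neg_iff_add_eq_zero, ← add_assoc]
  exact h4

theorem cls_of_sqK {a b : F} (hd : ds a b ≠ 0) (x y : F)
    (h : (EK a b).toAffine.Nonsingular x y) (x' y' : F)
    (h' : (EK a b).toAffine.Nonsingular x' y') (l w : F) (hw : w ≠ 0)
    (h1 : l ^ 4 - 6 * x * l ^ 2 + 8 * y * l - (3 * x ^ 2 + 4 * a) = w ^ 2)
    (h2 : w ^ 2 * x' = x * l ^ 4 - 4 * y * l ^ 3 + (6 * x ^ 2 + 4 * a) * l ^ 2 - 4 * x * y * l +
      (4 * y ^ 2 - 3 * x ^ 3 - 4 * a * x)) :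
    ∃ U : Pt a b, (.some x' y' h' : Pt a b) = .some x y h + 2 • U := by
  have e := (RK_eqn a b x y).1 h.1
  have hd' := hd
  have t2 : (2 : F) ≠ 0 := two_ne_zero
  obtain ⟨n, hn⟩ : ∃ n, n = y - l * x := ⟨_, rfl⟩
  obtain ⟨X₁, hX₁⟩ : ∃ X, X = (l ^ 2 - x + w) / 2 := ⟨_, rfl⟩
  obtain ⟨X₂, hX₂⟩ : ∃ X, X = (l ^ 2 - x - w) / 2 := ⟨_, rfl⟩
  obtain ⟨Y₁, hY₁⟩ : ∃ Y, Y = l * X₁ + n := ⟨_, rfl⟩
  obtain ⟨Y₂, hY₂⟩ : ∃ Y, Y = l * X₂ + n := ⟨_, rfl⟩
  have hl : LinK a b l n x y X₁ Y₁ X₂ Y₂ := by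
    refine ⟨by rw [hn]; ring, hY₁, hY₂, by rw [hX₁, hX₂]; ring, ?_, ?_⟩
    · rw [hX₁, hX₂, hn]
      linear_combination (-1 / 4) * h1
    · rw [hX₁, hX₂, hn]
      linear_combination (-1) * e + (x / 4) * h1
  have n1 : (EK a b).toAffine.Nonsingular X₁ Y₁ :=
    (RK_nons a b t2 hd' _ _).2 (RG_eqn hl _ _ hY₁ (by ring))
  have n2 : (EK a b).toAffine.Nonsingular X₂ Y₂ :=
    (RK_nons a b t2 hd' _ _).2 (RG_eqn hl _ _ hY₂ (by ring))
  have h4 := sum_of_linK a b t2 hd' _ _ _ _ _ _ _ _ h n1 n2 hl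
  have hX : X₁ - X₂ = w := by rw [hX₁, hX₂]; ring
  have hXn : X₁ ≠ X₂ := fun hc => hw (by rw [← hX, hc, sub_self])
  -- the point `R = U - U'`
  have hR : (.some X₁ Y₁ n1 : Pt a b) + - .some X₂ Y₂ n2 =
      .some x y h + 2 • .some X₁ Y₁ n1 := by
    have h5 : - (.some X₂ Y₂ n2 : Pt a b) = .some x y h + .some X₁ Y₁ n1 := by
      rw [neg_eq_iff_add_eq_zero, add_comm]
      exact h4
    rw [h5, two_nsmul]
    abel
  have n2' := WeierstrassCurve.Affine.Point.neg_some n2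
  rw [n2'] at hR
  have hxy : ¬(X₁ = X₂ ∧ Y₁ = (EK a b).toAffine.negY X₂ ((EK a b).toAffine.negY X₂ Y₂)) :=
    fun hc => hXn hc.1
  rw [WeierstrassCurve.Affine.Point.add_some hxy] at hR
  have hnY : (EK a b).toAffine.negY X₂ Y₂ = -Y₂ := by
    show -Y₂ - (0 : F) * X₂ - 0 = -Y₂
    ring
  have hx' : x' = (EK a b).toAffine.addX X₁ X₂
      ((EK a b).toAffine.slope X₁ X₂ Y₁ ((EK a b).toAffine.negY X₂ Y₂)) := by
    rw [WeierstrassCurve.Affine.slope_of_X_ne hXn, hnY, hX]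
    show x' = ((Y₁ - -Y₂) / w) ^ 2 + (0 : F) * ((Y₁ - -Y₂) / w) - 0 - X₁ - X₂
    have h6 : w ^ 2 * x' = (Y₁ - -Y₂) ^ 2 - w ^ 2 * (X₁ + X₂) := by
      rw [h2, hY₁, hY₂, hX₁, hX₂, hn]
      linear_combination (-(l ^ 2 - x)) * h1
    have h7 : w ^ 2 ≠ 0 := pow_ne_zero 2 hw
    have h8 : x' = ((Y₁ - -Y₂) ^ 2 - w ^ 2 * (X₁ + X₂)) / w ^ 2 := by
      rw [eq_div_iff h7, ← h6]
      ring
    rw [h8]
    field_simp
    ring
  rcases RG_some _ h' hx' with h9 | h9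
  · refine ⟨.some X₁ Y₁ n1, ?_⟩
    rw [h9]
    exact hR
  · refine ⟨- .some x y h - .some X₁ Y₁ n1, ?_⟩
    rw [h9, hR, two_nsmul, two_nsmul]
    abel

theorem cls_of_xK {a b : F} (x y : F)
    (h : (EK a b).toAffine.Nonsingular x y) (y' : F)
    (h' : (EK a b).toAffine.Nonsingular x y') :
    ∃ U : Pt a b, (.some x y' h' : Pt a b) = .some x y h + 2 • U := by
  rcases RG_some h h' rfl with h3 | h3
  · exact ⟨0, by rw [h3, smul_zero, add_zero]⟩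
  · refine ⟨- .some x y h, ?_⟩
    rw [h3, two_nsmul]
    abel

end VK
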