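import Pool.Agent.Lib.MP_17a322_ntVK.RG

/-!
LEAF RH.  The quartic of a point determines its class modulo 2: a COPY of `Lib/MP_10e784_agBR/Cls.lean` (on main; theorems two_of_rel, cls_of_rel) over a field of characteristic zero
(`RelK` instead of `Rel`; RG: two_of_zeroK, cls_of_sqK, cls_of_xK).
-/

namespace VK

open MWS

variable {F : Type} [Field F] [CharZero F] [DecidableEq F]

private lemma RH_ev (a x y p u : F) : (fP a x y).ev p u =
    p ^ 4 - 6 * x * p ^ 2 * u ^ 2 + 8 * y * p * u ^ 3 - (3 * x ^ 2 + 4 * a) * u ^ 4 := by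
  simp only [fP, Qu.ev]
  ring

private lemma RH_g4 (a x y p u : F) : (fP a x y).g4.ev p u =
    48 * (x * p ^ 4 - 4 * y * p ^ 3 * u + (6 * x ^ 2 + 4 * a) * p ^ 2 * u ^ 2 -
      4 * x * y * p * u ^ 3 + (4 * y ^ 2 - 3 * x ^ 3 - 4 * a * x) * u ^ 4) := by
  simp only [fP, Qu.ev, Qu.g4]
  ring

theorem two_of_relK {a b : F} (hd : ds a b ≠ 0) (x y : F)
    (h : (EK a b).toAffine.Nonsingular x y) (G : Qu F) (hG : RelK (fP a x y) G)
    (h0 : G.a = 0) : ∃ U : Pt a b, (.some x y h : Pt a b) = 2 • U := by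
  obtain ⟨p, q, u, v, hD, e⟩ := hG
  have e1 : (p * v - q * u) ^ 2 * G.a = (fP a x y).ev p u := congrArg Qu.a e
  rw [h0, mul_zero, RH_ev] at e1
  have hu : u ≠ 0 := by
    intro hu
    subst hu
    have hp : p ^ 4 = 0 := by linear_combination -e1
    have hp0 : p = 0 := pow_eq_zero_iff (by norm_num) |>.1 hp
    exact hD (by rw [hp0]; ring)
  refine two_of_zeroK hd x y h (p / u) ?_
  have h2 : (p / u) ^ 4 - 6 * x * (p / u) ^ 2 + 8 * y * (p / u) - (3 * x ^ 2 + 4 * a) =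
      (p ^ 4 - 6 * x * p ^ 2 * u ^ 2 + 8 * y * p * u ^ 3 - (3 * x ^ 2 + 4 * a) * u ^ 4) / u ^ 4 := by
    field_simp
  rw [h2, ← e1, zero_div]

theorem cls_of_relK {a b : F} (hd : ds a b ≠ 0) (x y : F)
    (h : (EK a b).toAffine.Nonsingular x y) (x' y' : F)
    (h' : (EK a b).toAffine.Nonsingular x' y')
    (hR : RelK (fP a x y) (fP a x' y')) :
    ∃ U : Pt a b, (.some x' y' h' : Pt a b) = .some x y h + 2 • U := by
  obtain ⟨p, q, u, v, hD, e⟩ := hR
  have e1 : (p * v - q * u) ^ 2 * 1 = (fP a x y).ev p u := congrArg Qu.a e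
  rw [mul_one, RH_ev] at e1
  have e2 : ((fP a x' y').sm ((p * v - q * u) ^ 2)).g4.a =
      (p * v - q * u) ^ 2 * (fP a x y).g4.ev p u := by
    rw [e, Qu.g4_sub]
    rfl
  rw [RH_g4] at e2
  have e3 : ((fP a x' y').sm ((p * v - q * u) ^ 2)).g4.a =
      48 * x' * ((p * v - q * u) ^ 2) ^ 2 := by
    simp only [fP, Qu.sm, Qu.g4]
    ring
  rw [e3] at e2
  have e4 : (p * v - q * u) ^ 2 * x' = x * p ^ 4 - 4 * y * p ^ 3 * u +
      (6 * x ^ 2 + 4 * a) * p ^ 2 * u ^ 2 - 4 * x * y * p * u ^ 3 +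
      (4 * y ^ 2 - 3 * x ^ 3 - 4 * a * x) * u ^ 4 := by
    have h48 : (48 : F) ≠ 0 := by exact_mod_cast (by norm_num : (48 : ℕ) ≠ 0)
    have h3 : (48 : F) * (p * v - q * u) ^ 2 ≠ 0 := mul_ne_zero h48 (pow_ne_zero _ hD)
    refine mul_left_cancel₀ h3 ?_
    linear_combination e2
  by_cases hu : u = 0
  · subst hu
    have hp : p ≠ 0 := by
      intro hp
      exact hD (by rw [hp]; ring)
    have h4 : x' = x := by
      have h5 : p ^ 4 * x' = p ^ 4 * x := by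
        linear_combination e4 - x' * e1
      exact mul_left_cancel₀ (pow_ne_zero _ hp) h5
    subst h4
    exact cls_of_xK _ _ h _ h'
  · refine cls_of_sqK hd x y h x' y' h' (p / u) ((p * v - q * u) / u ^ 2)
      (div_ne_zero hD (pow_ne_zero _ hu)) ?_ ?_
    · have h2 : (p / u) ^ 4 - 6 * x * (p / u) ^ 2 + 8 * y * (p / u) - (3 * x ^ 2 + 4 * a) =
          (p ^ 4 - 6 * x * p ^ 2 * u ^ 2 + 8 * y * p * u ^ 3 - (3 * x ^ 2 + 4 * a) * u ^ 4) /
            u ^ 4 := by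
        field_simp
      rw [h2, ← e1]
      field_simp
    · have h2 : x * (p / u) ^ 4 - 4 * y * (p / u) ^ 3 + (6 * x ^ 2 + 4 * a) * (p / u) ^ 2 -
          4 * x * y * (p / u) + (4 * y ^ 2 - 3 * x ^ 3 - 4 * a * x) =
          (x * p ^ 4 - 4 * y * p ^ 3 * u + (6 * x ^ 2 + 4 * a) * p ^ 2 * u ^ 2 -
            4 * x * y * p * u ^ 3 + (4 * y ^ 2 - 3 * x ^ 3 - 4 * a * x) * u ^ 4) / u ^ 4 := by
        field_simp
      rw [h2, ← e4]
      field_simp

end VK
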