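import Mathlib

/-!
LEAF RI1.  The denominator of a point is a square of ideals.
`O` is a Dedekind domain, `m² d = n³ + A n d² + B d³`, `d ≠ 0` (the point is `(n/d, m/d)`).  Claim: there is a nonzero ideal `b` with `b² (d, n) = (d)`.
PROOF.  `J = (d, n)`, `J' = (d, m)` (`Ideal.span {d, n}`), both nonzero.  `L = (d) J'² = (d³, d² m, d m²)` (`Ideal.span_pair_mul_span_pair` or `Ideal.span_mul_span`, generators).  Claim 1: `L = J³`.
`L J² = J⁵`: (⊇) `d³ J² ⊆ L J²` contains `d⁵, d⁴ n, d³ n²`; `n³ + A n d² = m² d - B d³` is in `L`; times `d²`: `d² n³ + A n d⁴`, so `d² n³` is in `L J²`; times `d n`: `d n⁴ + A n² d³`, so `d n⁴` is in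
`L J²`; times `n²`: `n⁵ + A n³ d²`, so `n⁵` is in `L J²`; and `J⁵` is generated by the `d^i n^(5-i)` (`Ideal.span_pow_eq_map_homogeneousSubmodule`?, or simply write `J⁵ = J² J² J`, products of generators; or prove
`J⁵ ≤ I` by `Ideal.pow_le`..; easiest: `Ideal.span {d,n} * Ideal.span {d,n} = Ideal.span {d*d, d*n, n*d, n*n}`, repeated).
(⊆) `d³`, `d m² = n³ + A n d² + B d³` are in `J³`, and `(d² m)² = d³ (d m²)` is in `J⁶ = (J³)²`, so `(J³)² ∣ (d² m)²` (as ideals), `J³ ∣ (d² m)` (`pow_dvd_pow_iff` in the cancellative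
normalized / unique factorization monoid of ideals, or `Ideal.dvd_iff_le`, `pow_dvd_pow_iff` ), so `d² m` is in `J³`: `L ≤ J³`.
Then `L J² ≤ J⁵ ≤ L J²` and `J² ≠ 0` can be cancelled (`mul_right_cancel₀`): `L = J³`.
Claim 2: `(d) = J Q` for an ideal `Q` (`Ideal.dvd_iff_le`, `d ∈ J`).  `(d) J'² = J³` gives `Q J'² = J²` (cancel `J`), so `J'² ∣ J²`, `J' ∣ J` (`pow_dvd_pow_iff`), `J = J' b`, so `Q J'² = J'² b²`, `Q = b²`, and
`b² J = Q J = (d)`.  (`b ≠ 0` because `(d) ≠ 0`.)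
-/

namespace VK

/-- a power of an ideal with two generators is generated by the monomials -/
private theorem RI1_pow {O : Type} [CommRing O] (d n : O) : ∀ (k : ℕ) (I : Ideal O),
    (∀ i, i ≤ k → d ^ i * n ^ (k - i) ∈ I) → Ideal.span {d, n} ^ k ≤ I := by
  intro k
  induction k with
  | zero =>
    intro I h
    have h1 := h 0 le_rfl
    rw [pow_zero, Nat.sub_self, pow_zero, mul_one] at h1
    rw [(Ideal.eq_top_iff_one I).2 h1]
    exact le_top
  | succ k ih =>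
    intro I h
    have hd : Ideal.span {d, n} ^ k ≤ Submodule.comap (LinearMap.mulRight O d) I := by
      apply ih
      intro i hi
      show d ^ i * n ^ (k - i) * d ∈ I
      have h1 := h (i + 1) (by omega)
      have e1 : k + 1 - (i + 1) = k - i := by omega
      rw [e1] at h1
      have e2 : d ^ i * n ^ (k - i) * d = d ^ (i + 1) * n ^ (k - i) := by ring
      rw [e2]
      exact h1
    have hn : Ideal.span {d, n} ^ k ≤ Submodule.comap (LinearMap.mulRight O n) I := by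
      apply ih
      intro i hi
      show d ^ i * n ^ (k - i) * n ∈ I
      have h1 := h i (by omega)
      have e1 : k + 1 - i = (k - i) + 1 := by omega
      rw [e1] at h1
      have e2 : d ^ i * n ^ (k - i) * n = d ^ i * n ^ (k - i + 1) := by ring
      rw [e2]
      exact h1
    rw [pow_succ, Ideal.mul_le]
    intro r hr s hs
    obtain ⟨x, y, rfl⟩ := Ideal.mem_span_pair.1 hs
    have e1 : r * (x * d + y * n) = x * (r * d) + y * (r * n) := by ring
    rw [e1]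
    exact Ideal.add_mem _ (Ideal.mul_mem_left _ _ (hd hr)) (Ideal.mul_mem_left _ _ (hn hr))

/-- a square in the square of an ideal -/
private theorem RI1_sq {O : Type} [CommRing O] [IsDedekindDomain O] (I : Ideal O) (x : O)
    (h : x ^ 2 ∈ I ^ 2) : x ∈ I := by
  have h1 : I ^ 2 ∣ Ideal.span {x} ^ 2 := by
    rw [Ideal.dvd_iff_le, Ideal.span_singleton_pow, Ideal.span_singleton_le_iff_mem]
    exact h
  have h2 := (UniqueFactorizationMonoid.pow_dvd_pow_iff_dvd (two_ne_zero)).1 h1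
  rw [Ideal.dvd_iff_le, Ideal.span_singleton_le_iff_mem] at h2
  exact h2

theorem sqrt_ideal {O : Type} [CommRing O] [IsDedekindDomain O] (A B n m d : O) (hd : d ≠ 0)
    (h : m ^ 2 * d = n ^ 3 + A * n * d ^ 2 + B * d ^ 3) :
    ∃ b : Ideal O, b ≠ ⊥ ∧ b ^ 2 * Ideal.span {d, n} = Ideal.span {d} := by
  obtain ⟨J, hJ⟩ : ∃ J : Ideal O, J = Ideal.span {d, n} := ⟨_, rfl⟩
  obtain ⟨J', hJ'⟩ : ∃ J' : Ideal O, J' = Ideal.span {d, m} := ⟨_, rfl⟩
  obtain ⟨L, hL⟩ : ∃ L : Ideal O, L = Ideal.span {d} * J' ^ 2 := ⟨_, rfl⟩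
  have hdJ : d ∈ J := by
    rw [hJ]
    exact Ideal.subset_span (Set.mem_insert _ _)
  have hnJ : n ∈ J := by
    rw [hJ]
    exact Ideal.subset_span (Set.mem_insert_of_mem _ rfl)
  have hdJ' : d ∈ J' := by
    rw [hJ']
    exact Ideal.subset_span (Set.mem_insert _ _)
  have hmJ' : m ∈ J' := by
    rw [hJ']
    exact Ideal.subset_span (Set.mem_insert_of_mem _ rfl)
  have hdd : d ∈ Ideal.span {d} := Ideal.mem_span_singleton_self d
  have hJ0 : J ≠ 0 := by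
    intro h0
    rw [h0] at hdJ
    exact hd hdJ
  have hJ'0 : J' ≠ 0 := by
    intro h0
    rw [h0] at hdJ'
    exact hd hdJ'
  have hD0 : Ideal.span {d} ≠ (0 : Ideal O) := by
    intro h0
    rw [h0] at hdd
    exact hd hdd
  -- the elements of `L`
  have l1 : d ^ 3 ∈ L := by
    rw [hL, show d ^ 3 = d * (d ^ 2) by ring]
    exact Ideal.mul_mem_mul hdd (Ideal.pow_mem_pow hdJ' 2)
  have l3 : d * m ^ 2 ∈ L := by
    rw [hL]
    exact Ideal.mul_mem_mul hdd (Ideal.pow_mem_pow hmJ' 2)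
  -- the elements of `J ^ 2`
  have j1 : d ^ 2 ∈ J ^ 2 := Ideal.pow_mem_pow hdJ 2
  have j2 : d * n ∈ J ^ 2 := by
    rw [pow_two]
    exact Ideal.mul_mem_mul hdJ hnJ
  have j3 : n ^ 2 ∈ J ^ 2 := Ideal.pow_mem_pow hnJ 2
  have hn3 : n ^ 3 = d * m ^ 2 - A * n * d ^ 2 - B * d ^ 3 := by linear_combination -h
  have m5 : d ^ 5 ∈ L * J ^ 2 := by
    rw [show d ^ 5 = d ^ 3 * d ^ 2 by ring]
    exact Ideal.mul_mem_mul l1 j1
  have m4 : d ^ 4 * n ∈ L * J ^ 2 := by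
    rw [show d ^ 4 * n = d ^ 3 * (d * n) by ring]
    exact Ideal.mul_mem_mul l1 j2
  have m3 : d ^ 3 * n ^ 2 ∈ L * J ^ 2 := Ideal.mul_mem_mul l1 j3
  have m2 : d ^ 2 * n ^ 3 ∈ L * J ^ 2 := by
    have e : d ^ 2 * n ^ 3 = d * m ^ 2 * d ^ 2 - A * (d ^ 4 * n) - B * d ^ 5 := by
      rw [hn3]
      ring
    rw [e]
    exact Ideal.sub_mem _ (Ideal.sub_mem _ (Ideal.mul_mem_mul l3 j1) (Ideal.mul_mem_left _ _ m4))
      (Ideal.mul_mem_left _ _ m5)
  have m1 : d * n ^ 4 ∈ L * J ^ 2 := by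
    have e : d * n ^ 4 = d * m ^ 2 * (d * n) - A * (d ^ 3 * n ^ 2) - B * (d ^ 4 * n) := by
      rw [show d * n ^ 4 = d * n * n ^ 3 by ring, hn3]
      ring
    rw [e]
    exact Ideal.sub_mem _ (Ideal.sub_mem _ (Ideal.mul_mem_mul l3 j2) (Ideal.mul_mem_left _ _ m3))
      (Ideal.mul_mem_left _ _ m4)
  have m0 : n ^ 5 ∈ L * J ^ 2 := by
    have e : n ^ 5 = d * m ^ 2 * n ^ 2 - A * (d ^ 2 * n ^ 3) - B * (d ^ 3 * n ^ 2) := by
      rw [show n ^ 5 = n ^ 2 * n ^ 3 by ring, show d ^ 2 * n ^ 3 = n ^ 3 * d ^ 2 by ring]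
      rw [show n ^ 2 * n ^ 3 = n ^ 2 * (d * m ^ 2 - A * n * d ^ 2 - B * d ^ 3) by rw [← hn3]]
      ring
    rw [e]
    exact Ideal.sub_mem _ (Ideal.sub_mem _ (Ideal.mul_mem_mul l3 j3) (Ideal.mul_mem_left _ _ m2))
      (Ideal.mul_mem_left _ _ m3)
  have hle1 : J ^ 3 * J ^ 2 ≤ L * J ^ 2 := by
    rw [← pow_add, hJ, ← hJ]
    have h5 : Ideal.span {d, n} ^ 5 ≤ L * J ^ 2 := by
      apply RI1_pow
      intro i hi
      interval_cases i
      · rw [pow_zero, one_mul]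
        exact m0
      · rw [pow_one]
        exact m1
      · exact m2
      · exact m3
      · rw [show 5 - 4 = 1 by rfl, pow_one]
        exact m4
      · rw [Nat.sub_self, pow_zero, mul_one]
        exact m5
    rw [← hJ] at h5
    exact h5
  -- `L ≤ J ^ 3`
  have k1 : d ^ 3 ∈ J ^ 3 := Ideal.pow_mem_pow hdJ 3
  have k3 : d * m ^ 2 ∈ J ^ 3 := by
    have e : d * m ^ 2 = n ^ 3 + A * (n * d ^ 2) + B * d ^ 3 := by rw [hn3]; ring
    rw [e]
    refine Ideal.add_mem _ (Ideal.add_mem _ (Ideal.pow_mem_pow hnJ 3) (Ideal.mul_mem_left _ _ ?_))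
      (Ideal.mul_mem_left _ _ k1)
    rw [show (3 : ℕ) = 1 + 2 by rfl, pow_add, pow_one]
    exact Ideal.mul_mem_mul hnJ j1
  have k2 : d ^ 2 * m ∈ J ^ 3 := by
    apply RI1_sq
    rw [show (d ^ 2 * m) ^ 2 = d ^ 3 * (d * m ^ 2) by ring, pow_two (J ^ 3)]
    exact Ideal.mul_mem_mul k1 k3
  have hle2 : L ≤ J ^ 3 := by
    rw [hL, Ideal.span_singleton_mul_le_iff]
    intro z hz
    have h6 : Ideal.span {d, m} ^ 2 ≤ Submodule.comap (LinearMap.mulLeft O d) (J ^ 3) := by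
      apply RI1_pow
      intro i hi
      show d * (d ^ i * m ^ (2 - i)) ∈ J ^ 3
      interval_cases i
      · rw [pow_zero, one_mul]
        exact k3
      · rw [show d * (d ^ 1 * m ^ (2 - 1)) = d ^ 2 * m by
          rw [pow_one, show (2 - 1 : ℕ) = 1 by rfl, pow_one]; ring]
        exact k2
      · rw [show d * (d ^ 2 * m ^ (2 - 2)) = d ^ 3 by
          rw [Nat.sub_self, pow_zero, mul_one]; ring]
        exact k1
    rw [← hJ'] at h6
    exact h6 hz
  have hLJ : L = J ^ 3 := by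
    apply mul_right_cancel₀ (pow_ne_zero 2 hJ0)
    exact le_antisymm (Ideal.mul_mono_left hle2) hle1
  -- `(d) = J Q`
  obtain ⟨Q, hQ⟩ : J ∣ Ideal.span {d} := by
    rw [Ideal.dvd_iff_le, Ideal.span_singleton_le_iff_mem]
    exact hdJ
  have e1 : Q * J' ^ 2 = J ^ 2 := by
    apply mul_left_cancel₀ hJ0
    rw [← mul_assoc, ← hQ, ← hL, hLJ]
    ring
  have e2 : J' ∣ J := by
    have h7 : J' ^ 2 ∣ J ^ 2 := ⟨Q, by rw [← e1, mul_comm]⟩
    exact (UniqueFactorizationMonoid.pow_dvd_pow_iff_dvd (two_ne_zero)).1 h7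
  obtain ⟨b, hb⟩ := e2
  have e3 : Q = b ^ 2 := by
    apply mul_right_cancel₀ (pow_ne_zero 2 hJ'0)
    rw [e1, hb, mul_pow, mul_comm]
  refine ⟨b, ?_, ?_⟩
  · intro h0
    apply hJ0
    rw [hb, h0]
    exact mul_zero _
  · rw [← hJ, ← e3, mul_comm, ← hQ]

end VK
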