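import Mathlib

/-!
LEAF RI2.  Small elements of ideals (Minkowski; Mathlib has it: `NumberField.exists_ne_zero_mem_ideal_of_norm_le`).
There is `C` depending only on `K` such that every nonzero ideal `I` of `𝓞 K` has a nonzero element `t` with `|N(t)| ≤ C N(I)`.
(`Ideal.absNorm`, `Algebra.norm ℤ t`; the Mathlib statement is about fractional ideals or about `Algebra.norm ℚ (a : K)` as a rational / real number: take `C = ⌈constant⌉₊` and cast; `Algebra.coe_norm_int`,
`Ideal.absNorm_span_singleton`.)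
-/

namespace VK

open NumberField

theorem small_mem (K : Type) [Field K] [NumberField K] :
    ∃ C : ℕ, 0 < C ∧ ∀ I : Ideal (𝓞 K), I ≠ ⊥ → ∃ t ∈ I, t ≠ 0 ∧
      Ideal.absNorm (Ideal.span {t}) ≤ C * Ideal.absNorm I := by
  set M : ℝ := (4 / Real.pi) ^ InfinitePlace.nrComplexPlaces K *
        (Module.finrank ℚ K).factorial / (Module.finrank ℚ K) ^ (Module.finrank ℚ K) * Real.sqrt |discr K| with hM
  refine ⟨⌈M⌉₊ + 1, Nat.succ_pos _, fun I hI => ?_⟩
  have hI' : I ∈ nonZeroDivisors (Ideal (𝓞 K)) := mem_nonZeroDivisors_iff_ne_zero.mpr hI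
  obtain ⟨_, ⟨a, ha, rfl⟩, h_nz, h_nm⟩ :=
    exists_ne_zero_mem_ideal_of_norm_le_mul_sqrt_discr K (FractionalIdeal.mk0 K ⟨I, hI'⟩)
  refine ⟨a, ha, ?_, ?_⟩
  · intro h0
    apply h_nz
    rw [h0, map_zero]
  · have h1 : ((Ideal.absNorm (Ideal.span {a}) : ℕ) : ℝ) ≤ M * (Ideal.absNorm I : ℝ) := by
      rw [← FractionalIdeal.absNorm_span_singleton (𝓞 K), Algebra.linearMap_apply,
        ← FractionalIdeal.coeIdeal_span_singleton, FractionalIdeal.coeIdeal_absNorm,
        FractionalIdeal.coe_mk0, FractionalIdeal.coeIdeal_absNorm, Rat.cast_natCast, Rat.cast_natCast] at h_nm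
      rw [hM]
      refine h_nm.trans (le_of_eq ?_)
      ring
    have h2 : M * (Ideal.absNorm I : ℝ) ≤ ((⌈M⌉₊ + 1 : ℕ) : ℝ) * (Ideal.absNorm I : ℝ) := by
      refine mul_le_mul_of_nonneg_right ?_ (Nat.cast_nonneg _)
      rw [Nat.cast_add, Nat.cast_one]
      exact (Nat.le_ceil M).trans (le_add_of_nonneg_right zero_le_one)
    have h3 := h1.trans h2
    exact_mod_cast h3

end VK
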