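import Pool.Agent.Lib.MP_17a322_ntVK.RI1
import Pool.Agent.Lib.MP_17a322_ntVK.RI2

/-!
LEAF RI3.  Lowest terms up to a constant.
PROOF.  `x = n/d`, `y = m/d` with a common denominator `d ≠ 0` (`IsLocalization`/`IsFractionRing.div_surjective` twice, or `IsLocalization.exist_integer_multiples`), `m² d = n³ + A n d² + B d³`.
`sqrt_ideal`: `b ≠ 0`, `b² (d, n) = (d)`.  `small_mem`: `t ∈ b`, `t ≠ 0`, `N(t) ≤ C N(b)`.
`(t) = b c` for an ideal `c` (`Ideal.dvd_iff_le`), `N(c) ≤ C` (`N` is multiplicative, `N(b) ≠ 0`: `Ideal.absNorm_eq_zero_iff`).  `t² n ∈ b² (d, n) = (d)`: `t² n = r d` with `r` in `𝓞 K`, `x = r/t²`.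
`(t², r) (d) = (t² d, t² n) = (t)² (d, n) = c² b² (d, n) = c² (d)`, so `(t², r) = c²` (cancel `(d)`), of norm at most `C²`, nonzero; the natural number `N(c²)` is in it (`Ideal.absNorm_mem`) and divides
`c0 = (C²)!` (`Nat.dvd_factorial`), so `c0` is in `(t², r)`: `Ideal.mem_span_pair` gives `a, b`.  (`c0` depends only on `K`.)
`s = t³ y`: `s² = t⁶ (x³ + A x + B) = r³ + A r t⁴ + B t⁶` is in `𝓞 K`, so `s` is integral over `ℤ` (`IsIntegral.of_pow`), an element of `𝓞 K`.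
-/

namespace VK

open NumberField

private theorem RI3_pair {R : Type} [CommRing R] (a x y : R) :
    Ideal.span {a} * Ideal.span {x, y} = Ideal.span {a * x, a * y} := by
  rw [Ideal.span_insert, Ideal.mul_sup, Ideal.span_singleton_mul_span_singleton,
    Ideal.span_singleton_mul_span_singleton, ← Ideal.span_insert]

theorem lowest (K : Type) [Field K] [NumberField K] :
    ∃ c : ℕ, 0 < c ∧ ∀ (A B : 𝓞 K) (x y : K), y ^ 2 = x ^ 3 + (A : K) * x + (B : K) →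
      ∃ r s t a b : 𝓞 K, t ≠ 0 ∧ a * t ^ 2 + b * r = (c : 𝓞 K) ∧ x = (r : K) / (t : K) ^ 2 ∧
        y = (s : K) / (t : K) ^ 3 ∧ s ^ 2 = r ^ 3 + A * r * t ^ 4 + B * t ^ 6 := by
  obtain ⟨C, hC, hCI⟩ := small_mem K
  refine ⟨(C ^ 2).factorial, Nat.factorial_pos _, fun A B x y hxy => ?_⟩
  have hinj : Function.Injective (algebraMap (𝓞 K) K) := FaithfulSMul.algebraMap_injective (𝓞 K) K
  have hxy' : y ^ 2 = x ^ 3 + algebraMap (𝓞 K) K A * x + algebraMap (𝓞 K) K B := hxy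
  clear hxy
  obtain ⟨n0, d0, hd0, hx⟩ := IsFractionRing.div_surjective (𝓞 K) x
  obtain ⟨m0, e0, he0, hy⟩ := IsFractionRing.div_surjective (𝓞 K) y
  have hd0' : d0 ≠ 0 := nonZeroDivisors.ne_zero hd0
  have he0' : e0 ≠ 0 := nonZeroDivisors.ne_zero he0
  have hd0K : algebraMap (𝓞 K) K d0 ≠ 0 := fun h => hd0' (hinj (by rw [h, map_zero]))
  have he0K : algebraMap (𝓞 K) K e0 ≠ 0 := fun h => he0' (hinj (by rw [h, map_zero]))
  obtain ⟨n, m, d, hd, hxd, hyd⟩ : ∃ n m d : 𝓞 K, d ≠ 0 ∧ x * algebraMap (𝓞 K) K d = algebraMap (𝓞 K) K n ∧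
      y * algebraMap (𝓞 K) K d = algebraMap (𝓞 K) K m := by
    refine ⟨n0 * e0, m0 * d0, d0 * e0, mul_ne_zero hd0' he0', ?_, ?_⟩
    · rw [map_mul, map_mul, ← hx]
      field_simp
    · rw [map_mul, map_mul, ← hy]
      field_simp
  have hdK : algebraMap (𝓞 K) K d ≠ 0 := fun h => hd (hinj (by rw [h, map_zero]))
  have hmain : m ^ 2 * d = n ^ 3 + A * n * d ^ 2 + B * d ^ 3 := by
    apply hinj
    simp only [map_mul, map_add, map_pow]
    rw [← hxd, ← hyd]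
    linear_combination (algebraMap (𝓞 K) K d) ^ 3 * hxy'
  obtain ⟨b, hb0, hb⟩ := sqrt_ideal A B n m d hd hmain
  obtain ⟨t, htb, ht0, htN⟩ := hCI b hb0
  obtain ⟨c, hc⟩ := Ideal.dvd_span_singleton.2 htb
  have hspt : Ideal.span {t} ≠ (⊥ : Ideal (𝓞 K)) := by
    rw [Ne, Ideal.span_singleton_eq_bot]
    exact ht0
  have hspd : Ideal.span {d} ≠ (⊥ : Ideal (𝓞 K)) := by
    rw [Ne, Ideal.span_singleton_eq_bot]
    exact hd
  have hc0 : c ≠ ⊥ := by
    rintro rfl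
    rw [Ideal.mul_bot] at hc
    exact hspt hc
  have hNb : 0 < Ideal.absNorm b := Nat.pos_of_ne_zero fun h => hb0 (Ideal.absNorm_eq_zero_iff.1 h)
  have hNc0 : 0 < Ideal.absNorm c := Nat.pos_of_ne_zero fun h => hc0 (Ideal.absNorm_eq_zero_iff.1 h)
  have hNc : Ideal.absNorm c ≤ C := by
    rw [hc, map_mul, mul_comm] at htN
    exact Nat.le_of_mul_le_mul_right htN hNb
  have htn : t ^ 2 * n ∈ Ideal.span {d} := by
    rw [← hb]
    refine Ideal.mul_mem_mul (Ideal.pow_mem_pow htb 2) ?_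
    exact Ideal.subset_span (Set.mem_insert_of_mem _ (Set.mem_singleton _))
  obtain ⟨r, hr⟩ := Ideal.mem_span_singleton'.1 htn
  have htK : algebraMap (𝓞 K) K t ≠ 0 := fun h => ht0 (hinj (by rw [h, map_zero]))
  have hxr : x = algebraMap (𝓞 K) K r / algebraMap (𝓞 K) K t ^ 2 := by
    rw [eq_div_iff (pow_ne_zero 2 htK)]
    have h1 := congrArg (algebraMap (𝓞 K) K) hr
    rw [map_mul, map_mul, map_pow, ← hxd] at h1
    apply mul_right_cancel₀ hdK
    rw [h1]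
    ring
  have hI : Ideal.span {t ^ 2, r} = c ^ 2 := by
    apply mul_left_cancel₀ (a := Ideal.span {d}) hspd
    rw [RI3_pair]
    have e1 : d * t ^ 2 = t ^ 2 * d := mul_comm _ _
    have e2 : d * r = t ^ 2 * n := by rw [mul_comm, hr]
    rw [e1, e2, ← RI3_pair, ← Ideal.span_singleton_pow, hc, mul_pow, mul_comm (b ^ 2), mul_assoc, hb, mul_comm]
  have hmem : ((C ^ 2).factorial : 𝓞 K) ∈ Ideal.span {t ^ 2, r} := by
    have h1 : Ideal.absNorm (c ^ 2) ∣ (C ^ 2).factorial := by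
      rw [map_pow]
      exact Nat.dvd_factorial (pow_pos hNc0 2) (Nat.pow_le_pow_left hNc 2)
    obtain ⟨q, hq⟩ := h1
    rw [hI, hq, Nat.cast_mul]
    exact Ideal.mul_mem_right _ _ (Ideal.absNorm_mem (c ^ 2))
  obtain ⟨a, b', hab⟩ := Ideal.mem_span_pair.1 hmem
  have hs : (algebraMap (𝓞 K) K t ^ 3 * y) ^ 2 = algebraMap (𝓞 K) K (r ^ 3 + A * r * t ^ 4 + B * t ^ 6) := by
    simp only [map_mul, map_add, map_pow]
    have h1 : algebraMap (𝓞 K) K r = x * algebraMap (𝓞 K) K t ^ 2 := by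
      rw [hxr, div_mul_cancel₀ _ (pow_ne_zero 2 htK)]
    rw [h1]
    linear_combination (algebraMap (𝓞 K) K t) ^ 6 * hxy'
  have hint : IsIntegral ℤ (algebraMap (𝓞 K) K t ^ 3 * y) := by
    apply IsIntegral.of_pow (n := 2) (by norm_num)
    rw [hs]
    exact RingOfIntegers.isIntegral_coe _
  refine ⟨r, ⟨algebraMap (𝓞 K) K t ^ 3 * y, hint⟩, t, a, b', ht0, hab, hxr, ?_, ?_⟩
  · show y = (algebraMap (𝓞 K) K t ^ 3 * y) / algebraMap (𝓞 K) K t ^ 3
    rw [mul_div_cancel_left₀ _ (pow_ne_zero 3 htK)]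
  · apply hinj
    rw [← hs, map_pow]
    rfl

end VK
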