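import Mathlib

/-!
LEAF RM1.  The elements `k, m, δ, j` (algebra in a commutative ring, `a t² + b r = c`).
PROOF.  Put `β = 3 a² b t⁴ + 3 a b² r t² + b³ r²`, so `c³ = a³ t⁶ + β r` (cube of `a t² + b r = c`).  `k = β s`, `m = a³ s`: `c³ s = k r + t⁶ m` (first identity).
Write `c₃ = c³`.  `c₃² s² = (k r + t⁶ m)²` and `s² = r³ + A r t⁴ + B t⁶` give `r² (k² - c₃² r) = c₃² A r t⁴ + t⁶ u`, `u = c₃² B - 2 k r m - t⁶ m²`.  Multiply by `β²`, `β r = c₃ - a³ t⁶`: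
`(c₃ - a³ t⁶)² (k² - c₃² r) = β² r² (k² - c₃² r) = c₃² A β (β r) t⁴ + β² t⁶ u = c₃² A β (c₃ - a³ t⁶) t⁴ + β² t⁶ u`, so
`c₃² (k² - c₃² r) = c₃³ A β t⁴ + t⁶ w` with `w = (2 c₃ a³ - a⁶ t⁶)(k² - c₃² r) - c₃² A β a³ t⁴ + β² u`.  Put `δ = c₃³ A β + t² w`: `c₃² k² - c₃⁴ r = t⁴ δ` (second identity).
`r δ = c₃³ A (c₃ - a³ t⁶) + t² r w = c₃⁴ A + t² j` with `j = r w - c₃³ A a³ t⁴` (third identity).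
(All by `linear_combination`; checked by hand.)
-/

namespace VK

theorem ints {O : Type} [CommRing O] (A B r s t a b c : O) (hc : a * t ^ 2 + b * r = c)
    (h : s ^ 2 = r ^ 3 + A * r * t ^ 4 + B * t ^ 6) :
    ∃ k m δ j : O, c ^ 3 * s = k * r + t ^ 6 * m ∧ (c ^ 3) ^ 2 * k ^ 2 - (c ^ 3) ^ 4 * r = t ^ 4 * δ ∧
      r * δ = (c ^ 3) ^ 4 * A + t ^ 2 * j := by
  obtain ⟨β, hβ⟩ : ∃ β : O, β * r = c ^ 3 - a ^ 3 * t ^ 6 :=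
    ⟨3 * a ^ 2 * b * t ^ 4 + 3 * a * b ^ 2 * r * t ^ 2 + b ^ 3 * r ^ 2, by rw [← hc]; ring⟩
  generalize c ^ 3 = c₃ at hβ ⊢
  obtain ⟨k, hk⟩ : ∃ k : O, k = β * s := ⟨_, rfl⟩
  obtain ⟨m, hm⟩ : ∃ m : O, m = a ^ 3 * s := ⟨_, rfl⟩
  have h1 : c₃ * s = k * r + t ^ 6 * m := by
    rw [hk, hm]
    linear_combination (-s) * hβ
  obtain ⟨u, hu⟩ : ∃ u : O, u = c₃ ^ 2 * B - 2 * k * r * m - t ^ 6 * m ^ 2 := ⟨_, rfl⟩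
  have h2 : r ^ 2 * (k ^ 2 - c₃ ^ 2 * r) = c₃ ^ 2 * A * r * t ^ 4 + t ^ 6 * u := by
    rw [hu]
    linear_combination (-(c₃ * s + k * r + t ^ 6 * m)) * h1 + c₃ ^ 2 * h
  obtain ⟨w, hw⟩ : ∃ w : O, w = (2 * c₃ * a ^ 3 - a ^ 6 * t ^ 6) * (k ^ 2 - c₃ ^ 2 * r) -
    c₃ ^ 2 * A * β * a ^ 3 * t ^ 4 + β ^ 2 * u := ⟨_, rfl⟩
  refine ⟨k, m, c₃ ^ 3 * A * β + t ^ 2 * w, r * w - c₃ ^ 3 * A * a ^ 3 * t ^ 4, h1, ?_, ?_⟩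
  · rw [hw]
    linear_combination β ^ 2 * h2 - ((c₃ - a ^ 3 * t ^ 6 + β * r) * (k ^ 2 - c₃ ^ 2 * r) -
      c₃ ^ 2 * A * β * t ^ 4) * hβ
  · linear_combination (c₃ ^ 3 * A) * hβ

end VK
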