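import Pool.Agent.Lib.MP_17a322_ntVK.RDefs
import Pool.Agent.Lib.MP_17a322_ntVK.RI3
import Pool.Agent.Lib.MP_17a322_ntVK.RM1

/-!
LEAF RM2.  The integral model of the quartic of a point (model: `exists_model` in `Lib/MP_10e784_agBR/Mod.lean`).
PROOF.  `lowest` gives `c₀` and `r s t a b`; `ints` gives `k m δ j`; `C = c₀³` (as a natural number), so `C s = k r + t⁶ m`, `C² k² - C⁴ r = t⁴ δ`, `r δ = C⁴ A + t² j`.
Take the matrix `p = C² t`, `q = C k / (C² t) = k / (C t)`, `u = 0`, `v = 1` of determinant `C² t` (so `x = (C⁴ r)/(C² t)²`, `y = (C⁶ s)/(C² t)³`: with `k' = C k`, `r' = C⁴ r`, `s' = C⁶ s`, `t' = C² t` the form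
`t'^(-2) f(t' X + (k'/t') Z, Z)` is `(t'², 4 k', 6 (k'² - r')/t'², 4 (k'³ - 3 r' k' + 2 s')/t'⁴, (k'⁴ - 6 r' k'² + 8 s' k' - 3 r'² - 4 A t'⁴)/t'⁶)`).
By the three identities these five numbers are `C⁴ t²`, `4 C k`, `6 t² δ / C⁴`, `4 (C k δ + 2 C⁵ t² m)/C⁸`, `(t² δ² + 8 C⁶ k m + 4 C⁴ j)/C¹²` (`s' = k' r' + C⁵ t⁶ m`, `k'² = r' + t⁴ δ`, `r' δ = C⁸ A + C⁴ t² j`).
So with the constant `c = C¹²` the form `F = (C¹⁶ t², 4 C¹³ k, 6 C⁸ t² δ, 4 C⁴ (C k δ + 2 C⁵ t² m), t² δ² + 8 C⁶ k m + 4 C⁴ j)` is integral and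
`(mp F).sm c⁻¹ .sm (det²) = (fP A x y).sub p q u v`: five identities in `K` (`field_simp`; substitute `s = (k r + t⁶ m)/C`, `r = (C² k² - t⁴ δ)/C⁴`, `A = (r δ - t² j)/C⁴`, then `ring`; everything is a polynomial
identity in `C, k, t, m, δ, j`).
-/

namespace VK

open NumberField MWS

/-- the five identities in a field -/
private theorem RM2_field {K : Type} [Field K] (C k t m δ j r s A : K) (hC : C ≠ 0) (ht : t ≠ 0)
    (h1 : C * s = k * r + t ^ 6 * m) (h2 : C ^ 2 * k ^ 2 - C ^ 4 * r = t ^ 4 * δ)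
    (h3 : r * δ = C ^ 4 * A + t ^ 2 * j) :
    (((⟨C ^ 16 * t ^ 2, 4 * C ^ 13 * k, 6 * C ^ 8 * t ^ 2 * δ,
      4 * C ^ 4 * (C * k * δ + 2 * C ^ 5 * t ^ 2 * m),
      t ^ 2 * δ ^ 2 + 8 * C ^ 6 * k * m + 4 * C ^ 4 * j⟩ : Qu K).sm (C ^ 12)⁻¹).sm
      ((C ^ 2 * t * 1 - k / (C * t) * 0) ^ 2)) =
      (fP A (r / t ^ 2) (s / t ^ 3)).sub (C ^ 2 * t) (k / (C * t)) 0 1 := by
  have e2 : r = (C ^ 2 * k ^ 2 - t ^ 4 * δ) / C ^ 4 := by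
    rw [eq_div_iff (pow_ne_zero _ hC)]
    linear_combination -h2
  have e1 : s = (k * r + t ^ 6 * m) / C := by
    rw [eq_div_iff hC]
    linear_combination h1
  have e3 : A = (r * δ - t ^ 2 * j) / C ^ 4 := by
    rw [eq_div_iff (pow_ne_zero _ hC)]
    linear_combination -h3
  rw [e3, e1, e2]
  ext
  · simp only [Qu.sub, Qu.sm, fP]
    field_simp
    ring
  · simp only [Qu.sub, Qu.sm, fP]
    field_simp
    ring
  · simp only [Qu.sub, Qu.sm, fP]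
    field_simp
    ring
  · simp only [Qu.sub, Qu.sm, fP]
    field_simp
    ring
  · simp only [Qu.sub, Qu.sm, fP]
    field_simp
    ring

theorem exists_modelK (K : Type) [Field K] [NumberField K] :
    ∃ c : ℕ, 0 < c ∧ ∀ (A B : 𝓞 K) (x y : K), y ^ 2 = x ^ 3 + (A : K) * x + (B : K) →
      ∃ F : Qu (𝓞 K), RelK (fP (A : K) x y) ((mp (algebraMap (𝓞 K) K) F).sm (c : K)⁻¹) := by
  obtain ⟨c, hc, H⟩ := lowest K
  refine ⟨(c ^ 3) ^ 12, by positivity, fun A B x y h => ?_⟩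
  obtain ⟨r, s, t, a, b, ht, hab, hx, hy, hE⟩ := H A B x y h
  obtain ⟨k, m, δ, j, h1, h2, h3⟩ := ints A B r s t a b (c : 𝓞 K) hab hE
  have hC : ((c : K) ^ 3) ≠ 0 := pow_ne_zero _ (by exact_mod_cast hc.ne')
  have htK : (t : K) ≠ 0 := fun h0 => ht (RingOfIntegers.ext h0)
  have g1 := congrArg (algebraMap (𝓞 K) K) h1
  have g2 := congrArg (algebraMap (𝓞 K) K) h2
  have g3 := congrArg (algebraMap (𝓞 K) K) h3
  simp only [map_mul, map_add, map_sub, map_pow, map_natCast] at g1 g2 g3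
  refine ⟨⟨((c : 𝓞 K) ^ 3) ^ 16 * t ^ 2, 4 * ((c : 𝓞 K) ^ 3) ^ 13 * k,
    6 * ((c : 𝓞 K) ^ 3) ^ 8 * t ^ 2 * δ,
    4 * ((c : 𝓞 K) ^ 3) ^ 4 * (((c : 𝓞 K) ^ 3) * k * δ + 2 * ((c : 𝓞 K) ^ 3) ^ 5 * t ^ 2 * m),
    t ^ 2 * δ ^ 2 + 8 * ((c : 𝓞 K) ^ 3) ^ 6 * k * m + 4 * ((c : 𝓞 K) ^ 3) ^ 4 * j⟩,
    ((c : K) ^ 3) ^ 2 * (t : K), (k : K) / ((c : K) ^ 3 * (t : K)), 0, 1, ?_, ?_⟩
  · rw [mul_one, mul_zero, sub_zero]
    exact mul_ne_zero (pow_ne_zero _ hC) htK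
  · rw [hx, hy]
    refine Eq.trans ?_ (RM2_field ((c : K) ^ 3) (k : K) (t : K) (m : K) (δ : K) (j : K) (r : K)
      (s : K) (A : K) hC htK g1 g2 g3)
    congr 1
    push_cast
    congr 1

end VK
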