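import Pool.Agent.Lib.MP_17a322_ntVK.RDefs

/-!
LEAF RN1.  The lengths `g.nw w X Z` of the vectors `g_w (X, Z)` (maximum norm in `ℂ²`) and their product `g.hg X Z`.
prod_w: `InfinitePlace.prod_eq_abs_norm`: `∏ w, w x ^ w.mult = |Algebra.norm ℚ x|`; `Algebra.coe_norm_int` (or `RingOfIntegers.coe_norm..`), `Ideal.absNorm_span_singleton` (`absNorm (span {z}) = (Algebra.norm ℤ z).natAbs`).
one_le_of_prod: the product is a nonzero natural number.
nw_mul: `c1`, `c2` are linear, `‖w.embedding z‖ = w z` (`InfinitePlace.norm_embedding_eq`), `mul_max_of_nonneg`.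
nw_pos: if both coordinates of `g_w m` are zero then `X = v c1 - q c2 = 0` and `Z = p c2 - u c1 = 0` (`g.det`), and `w.embedding` is injective.
hg_mul: product of `nw_mul`, `mul_pow`, `Finset.prod_mul_distrib`, `prod_w`.   hg_pos: `Finset.prod_pos`.
hg_le: `Finset.prod_le_prod`, `Finset.prod_pow_eq_pow_sum`, `InfinitePlace.sum_mult_eq`.
-/

namespace VK

open NumberField MWS

variable {K : Type} [Field K] [NumberField K]

theorem prod_w (z : 𝓞 K) : ∏ w : InfinitePlace K, w (z : K) ^ w.mult = (Ideal.absNorm (Ideal.span {z}) : ℝ) := by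
  rw [InfinitePlace.prod_eq_abs_norm, Ideal.absNorm_span_singleton, ← Algebra.coe_norm_int z]
  rw [← Int.cast_abs, Rat.cast_intCast, Int.abs_eq_natAbs, Int.cast_natCast]

theorem one_le_prod_w (z : 𝓞 K) (hz : z ≠ 0) : 1 ≤ ∏ w : InfinitePlace K, w (z : K) ^ w.mult := by
  rw [prod_w]
  have h1 : Ideal.absNorm (Ideal.span {z}) ≠ 0 := by
    rw [Ne, Ideal.absNorm_eq_zero_iff, Ideal.span_singleton_eq_bot]
    exact hz
  exact_mod_cast Nat.one_le_iff_ne_zero.2 h1

theorem nw_mul (g : Gs K) (w : InfinitePlace K) (z X Z : 𝓞 K) :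
    g.nw w (z * X) (z * Z) = w (z : K) * g.nw w X Z := by
  have e1 : ((z * X : 𝓞 K) : K) = (z : K) * (X : K) := map_mul (algebraMap (𝓞 K) K) z X
  have e2 : ((z * Z : 𝓞 K) : K) = (z : K) * (Z : K) := map_mul (algebraMap (𝓞 K) K) z Z
  have h1 : g.c1 w (z * X) (z * Z) = w.embedding (z : K) * g.c1 w X Z := by
    unfold Gs.c1
    rw [e1, e2, map_mul w.embedding, map_mul w.embedding]
    ring
  have h2 : g.c2 w (z * X) (z * Z) = w.embedding (z : K) * g.c2 w X Z := by
    unfold Gs.c2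
    rw [e1, e2, map_mul w.embedding, map_mul w.embedding]
    ring
  unfold Gs.nw
  rw [h1, h2, norm_mul, norm_mul, InfinitePlace.norm_embedding_eq, mul_max_of_nonneg]
  exact apply_nonneg w _

theorem nw_nonneg (g : Gs K) (w : InfinitePlace K) (X Z : 𝓞 K) : 0 ≤ g.nw w X Z :=
  le_max_of_le_left (norm_nonneg _)

theorem nw_pos (g : Gs K) (w : InfinitePlace K) (X Z : 𝓞 K) (h : X ≠ 0 ∨ Z ≠ 0) : 0 < g.nw w X Z := by
  rcases (nw_nonneg g w X Z).lt_or_eq with h0 | h0
  · exact h0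
  · exfalso
    have h1 : ‖g.c1 w X Z‖ ≤ 0 := by
      rw [h0]
      exact le_max_left _ _
    have h2 : ‖g.c2 w X Z‖ ≤ 0 := by
      rw [h0]
      exact le_max_right _ _
    rw [norm_le_zero_iff] at h1 h2
    have h3 : w.embedding (X : K) = 0 := by
      have h4 : g.v w * g.c1 w X Z - g.q w * g.c2 w X Z =
          (g.p w * g.v w - g.q w * g.u w) * w.embedding (X : K) := by
        unfold Gs.c1 Gs.c2
        ring
      rw [h1, h2, g.det w, one_mul, mul_zero, mul_zero, sub_zero] at h4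
      exact h4.symm
    have h5 : w.embedding (Z : K) = 0 := by
      have h4 : g.p w * g.c2 w X Z - g.u w * g.c1 w X Z =
          (g.p w * g.v w - g.q w * g.u w) * w.embedding (Z : K) := by
        unfold Gs.c1 Gs.c2
        ring
      rw [h1, h2, g.det w, one_mul, mul_zero, mul_zero, sub_zero] at h4
      exact h4.symm
    rw [map_eq_zero] at h3 h5
    rcases h with h | h
    · exact h (by exact_mod_cast h3)
    · exact h (by exact_mod_cast h5)

theorem hg_mul (g : Gs K) (z X Z : 𝓞 K) :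
    g.hg (z * X) (z * Z) = (Ideal.absNorm (Ideal.span {z}) : ℝ) * g.hg X Z := by
  unfold Gs.hg
  rw [← prod_w, ← Finset.prod_mul_distrib]
  refine Finset.prod_congr rfl fun w _ => ?_
  rw [nw_mul, mul_pow]

theorem hg_pos (g : Gs K) (X Z : 𝓞 K) (h : X ≠ 0 ∨ Z ≠ 0) : 0 < g.hg X Z :=
  Finset.prod_pos fun w _ => pow_pos (nw_pos g w X Z h) _

theorem hg_le (g : Gs K) (X Z : 𝓞 K) (T : ℝ) (h : ∀ w, g.nw w X Z ≤ T) :
    g.hg X Z ≤ T ^ Module.finrank ℚ K := by
  unfold Gs.hg
  refine (Finset.prod_le_prod (fun w _ => pow_nonneg (nw_nonneg g w X Z) _) fun w _ =>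
    pow_le_pow_left₀ (nw_nonneg g w X Z) (h w) _).trans ?_
  rw [Finset.prod_pow_eq_pow_sum, InfinitePlace.sum_mult_eq]

end VK
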