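import Pool.Agent.Lib.MP_17a322_ntVK.RN1

/-!
LEAF RN3.  A nearly minimal vector of `O²` for the product of the lengths.
(1) LOWER BOUND.  `κ_w = ‖p‖ + ‖q‖ + ‖u‖ + ‖v‖` (at `w`; positive because of `det`).  `X = v c1 - q c2`, `Z = p c2 - u c1` (through `w.embedding`), so `w X, w Z ≤ κ_w nw`.  If `X ≠ 0`:
`1 ≤ ∏ w X ^ mult ≤ ∏ κ_w ^ mult * hg X Z` (`one_le_prod_w`), the same if `Z ≠ 0`.  So `hg X Z ≥ c > 0`, `c = (∏ κ_w ^ mult)⁻¹`, for all `(X, Z) ≠ 0`.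
(2) The infimum `i` of the set of the values `hg X Z`, `(X, Z) ≠ 0` (nonempty: `(1, 0)`; bounded below by `c`) is at least `c > 0`, so `2 i > i` and there is a value `< 2 i` (`exists_lt_of_csInf_lt`), and `i ≤ hg X' Z'` for
all other vectors (`csInf_le`).
-/

namespace VK

open NumberField MWS

variable {K : Type} [Field K] [NumberField K]

/-- the constant at one place -/
private noncomputable def RN3_k (g : Gs K) (w : InfinitePlace K) : ℝ :=
  ‖g.p w‖ + ‖g.q w‖ + ‖g.u w‖ + ‖g.v w‖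

private theorem RN3_k_nonneg (g : Gs K) (w : InfinitePlace K) : 0 ≤ RN3_k g w := by
  unfold RN3_k; positivity

private theorem RN3_c1 (g : Gs K) (w : InfinitePlace K) (X Z : 𝓞 K) :
    w.embedding (X : K) = g.v w * g.c1 w X Z - g.q w * g.c2 w X Z := by
  have h := g.det w
  simp only [Gs.c1, Gs.c2]
  linear_combination (-(w.embedding (X : K))) * h

private theorem RN3_c2 (g : Gs K) (w : InfinitePlace K) (X Z : 𝓞 K) :
    w.embedding (Z : K) = g.p w * g.c2 w X Z - g.u w * g.c1 w X Z := by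
  have h := g.det w
  simp only [Gs.c1, Gs.c2]
  linear_combination (-(w.embedding (Z : K))) * h

private theorem RN3_bd (A B c d : ℂ) (k n : ℝ) (hA : ‖A‖ + ‖B‖ ≤ k) (hc : ‖c‖ ≤ n) (hd : ‖d‖ ≤ n) :
    ‖A * c - B * d‖ ≤ k * n := by
  have hn : 0 ≤ n := (norm_nonneg c).trans hc
  calc ‖A * c - B * d‖ ≤ ‖A * c‖ + ‖B * d‖ := norm_sub_le _ _
    _ = ‖A‖ * ‖c‖ + ‖B‖ * ‖d‖ := by rw [norm_mul, norm_mul]
    _ ≤ ‖A‖ * n + ‖B‖ * n := by
        gcongr
    _ = (‖A‖ + ‖B‖) * n := by ring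
    _ ≤ k * n := by gcongr

private theorem RN3_X (g : Gs K) (w : InfinitePlace K) (X Z : 𝓞 K) :
    w (X : K) ≤ RN3_k g w * g.nw w X Z := by
  rw [← InfinitePlace.norm_embedding_eq, RN3_c1 g w X Z]
  refine RN3_bd _ _ _ _ _ _ ?_ (le_max_left _ _) (le_max_right _ _)
  unfold RN3_k
  have h1 := norm_nonneg (g.p w)
  have h2 := norm_nonneg (g.u w)
  linarith

private theorem RN3_Z (g : Gs K) (w : InfinitePlace K) (X Z : 𝓞 K) :
    w (Z : K) ≤ RN3_k g w * g.nw w X Z := by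
  rw [← InfinitePlace.norm_embedding_eq, RN3_c2 g w X Z]
  refine RN3_bd _ _ _ _ _ _ ?_ (le_max_right _ _) (le_max_left _ _)
  unfold RN3_k
  have h1 := norm_nonneg (g.q w)
  have h2 := norm_nonneg (g.v w)
  linarith

private theorem RN3_lower (g : Gs K) (X Z : 𝓞 K) (h : X ≠ 0 ∨ Z ≠ 0) :
    1 ≤ (∏ w : InfinitePlace K, RN3_k g w ^ w.mult) * g.hg X Z := by
  have key : ∀ Y : 𝓞 K, Y ≠ 0 → (∀ w : InfinitePlace K, w (Y : K) ≤ RN3_k g w * g.nw w X Z) →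
      1 ≤ (∏ w : InfinitePlace K, RN3_k g w ^ w.mult) * g.hg X Z := by
    intro Y hY hb
    refine (one_le_prod_w Y hY).trans ?_
    unfold Gs.hg
    rw [← Finset.prod_mul_distrib]
    apply Finset.prod_le_prod
    · intro w _
      exact pow_nonneg (apply_nonneg w _) _
    · intro w _
      rw [← mul_pow]
      exact pow_le_pow_left₀ (apply_nonneg w _) (hb w) _
  rcases h with h | h
  · exact key X h (fun w => RN3_X g w X Z)
  · exact key Z h (fun w => RN3_Z g w X Z)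

theorem near_min (g : Gs K) : ∃ X Z : 𝓞 K, (X ≠ 0 ∨ Z ≠ 0) ∧
    ∀ X' Z' : 𝓞 K, (X' ≠ 0 ∨ Z' ≠ 0) → g.hg X Z ≤ 2 * g.hg X' Z' := by
  set P : ℝ := ∏ w : InfinitePlace K, RN3_k g w ^ w.mult with hP
  have hP0 : 0 ≤ P := Finset.prod_nonneg (fun w _ => pow_nonneg (RN3_k_nonneg g w) _)
  let S : Set ℝ := {x | ∃ X Z : 𝓞 K, (X ≠ 0 ∨ Z ≠ 0) ∧ x = g.hg X Z}
  have hne : S.Nonempty := ⟨g.hg 1 0, 1, 0, Or.inl one_ne_zero, rfl⟩
  have hPpos : 0 < P := by
    have h1 := RN3_lower g 1 0 (Or.inl one_ne_zero)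
    rw [← hP] at h1
    rcases hP0.lt_or_eq with h | h
    · exact h
    · rw [← h, zero_mul] at h1
      linarith
  have hlow : ∀ x ∈ S, P⁻¹ ≤ x := by
    rintro x ⟨X, Z, h, rfl⟩
    have h1 := RN3_lower g X Z h
    rw [← hP] at h1
    rw [inv_le_iff_one_le_mul₀ hPpos, mul_comm]
    exact h1
  have hbdd : BddBelow S := ⟨P⁻¹, fun x hx => hlow x hx⟩
  have hinf : P⁻¹ ≤ sInf S := le_csInf hne hlow
  have hpos : 0 < sInf S := (inv_pos.mpr hPpos).trans_le hinf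
  obtain ⟨x, ⟨X, Z, h, rfl⟩, hx⟩ := exists_lt_of_csInf_lt hne (show sInf S < 2 * sInf S by linarith)
  refine ⟨X, Z, h, fun X' Z' h' => ?_⟩
  have h2 : sInf S ≤ g.hg X' Z' := csInf_le hbdd ⟨X', Z', h', rfl⟩
  linarith

end VK
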