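import Mathlib

/-!
LEAF RN4.  Balancing by Minkowski's theorem (no units).
PROOF.  `NumberField.mixedEmbedding.exists_ne_zero_mem_ringOfIntegers_lt` with `f w = C l / c w` (in `ℝ≥0`): it needs `minkowskiBound K ↑1 < volume (convexBodyLT K f)`, and `convexBodyLT_volume`:
`volume = convexBodyLTFactor K * ∏ w, f w ^ w.mult`, `one_le_convexBodyLTFactor`, and `∏ (C l / c w) ^ mult = (C l) ^ finrank / ∏ c w ^ mult ≥ C ^ finrank` (`InfinitePlace.sum_mult_eq`), which exceeds
`minkowskiBound` (finite: `minkowskiBound_lt_top`) for a suitable `C ≥ 1` (`finrank ≥ 1`: `C ^ finrank ≥ C`; `C = (minkowskiBound).toReal + 1`).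
-/

namespace VK

open NumberField

theorem balance (K : Type) [Field K] [NumberField K] :
    ∃ C : ℝ, 1 ≤ C ∧ ∀ (c : InfinitePlace K → ℝ) (l : ℝ), (∀ w, 0 < c w) → 0 < l →
      ∏ w : InfinitePlace K, c w ^ w.mult ≤ l ^ Module.finrank ℚ K →
      ∃ z : 𝓞 K, z ≠ 0 ∧ ∀ w, w (z : K) * c w ≤ C * l := by
  classical
  set B : ENNReal := mixedEmbedding.minkowskiBound K ↑1 with hB
  have hBtop : B < ⊤ := mixedEmbedding.minkowskiBound_lt_top K ↑1
  refine ⟨B.toReal + 1, by linarith [ENNReal.toReal_nonneg (a := B)], ?_⟩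
  set C : ℝ := B.toReal + 1 with hC
  have hC1 : 1 ≤ C := by rw [hC]; linarith [ENNReal.toReal_nonneg (a := B)]
  have hC0 : 0 < C := by linarith
  intro c l hc hl hprod
  have hf : ∀ w, 0 < C * l / c w := fun w => div_pos (mul_pos hC0 hl) (hc w)
  let f : InfinitePlace K → NNReal := fun w => ⟨C * l / c w, (hf w).le⟩
  have hreal : C ≤ ∏ w : InfinitePlace K, (C * l / c w) ^ w.mult := by
    have h1 : ∏ w : InfinitePlace K, (C * l / c w) ^ w.mult
        = (C * l) ^ Module.finrank ℚ K / ∏ w : InfinitePlace K, c w ^ w.mult := by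
      simp_rw [div_pow]
      rw [Finset.prod_div_distrib, Finset.prod_pow_eq_pow_sum, InfinitePlace.sum_mult_eq]
    have hpos : 0 < ∏ w : InfinitePlace K, c w ^ w.mult :=
      Finset.prod_pos fun w _ => pow_pos (hc w) _
    have hfr : Module.finrank ℚ K ≠ 0 := (Module.finrank_pos (R := ℚ) (M := K)).ne'
    have hCn : C ≤ C ^ Module.finrank ℚ K := le_self_pow₀ hC1 hfr
    rw [h1, le_div_iff₀ hpos, mul_pow]
    calc C * ∏ w : InfinitePlace K, c w ^ w.mult
        ≤ C ^ Module.finrank ℚ K * l ^ Module.finrank ℚ K :=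
          mul_le_mul hCn hprod hpos.le (pow_nonneg hC0.le _)
      _ = _ := rfl
  have hnn : B.toNNReal < mixedEmbedding.convexBodyLTFactor K * ∏ w : InfinitePlace K, f w ^ w.mult := by
    have h2 : B.toNNReal < ∏ w : InfinitePlace K, f w ^ w.mult := by
      rw [← NNReal.coe_lt_coe, NNReal.coe_prod]
      have h3 : ∏ w : InfinitePlace K, ((f w ^ w.mult : NNReal) : ℝ)
          = ∏ w : InfinitePlace K, (C * l / c w) ^ w.mult :=
        Finset.prod_congr rfl fun w _ => by rw [NNReal.coe_pow]; rfl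
      rw [h3]
      have h4 : ((B.toNNReal : NNReal) : ℝ) = B.toReal := rfl
      rw [h4]
      linarith
    calc B.toNNReal < 1 * ∏ w : InfinitePlace K, f w ^ w.mult := by rw [one_mul]; exact h2
      _ ≤ _ := mul_le_mul_left (mixedEmbedding.one_le_convexBodyLTFactor K) _
  have hvol : mixedEmbedding.minkowskiBound K ↑1
      < MeasureTheory.volume (mixedEmbedding.convexBodyLT K f) := by
    rw [mixedEmbedding.convexBodyLT_volume, ← hB, ← ENNReal.coe_toNNReal hBtop.ne]
    exact_mod_cast hnn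
  obtain ⟨z, hz, hzw⟩ := mixedEmbedding.exists_ne_zero_mem_ringOfIntegers_lt K hvol
  refine ⟨z, hz, fun w => ?_⟩
  have h5 : w (z : K) < C * l / c w := hzw w
  have h6 : w (z : K) * c w < C * l := (lt_div_iff₀ (hc w)).1 h5
  exact h6.le

end VK
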