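import Pool.Agent.Lib.MP_17a322_ntVK.RN3
import Pool.Agent.Lib.MP_17a322_ntVK.RN4

/-!
LEAF RN5.  A balanced nearly minimal vector.
PROOF.  `e = finrank ℚ K ≥ 1`.  `near_min`: `m₀ = (X₀, Z₀)`, `h₀ = hg m₀ > 0`; `l₀ = h₀^(1/e)` (a positive real with `l₀^e = h₀`: `Real.rpow`, `Real.rpow_natCast`, `Real.rpow_mul`).  `balance` (constant `C₁ ≥ 1`) with
`c w = nw w m₀`: `z ≠ 0`, `w z * nw w m₀ ≤ C₁ l₀`.  `m = z m₀`: `nw w m ≤ C₁ l₀` (`nw_mul`), `hg m = N(z) hg m₀ ≥ h₀` (`hg_mul`, `N(z) ≥ 1`) and `hg m ≤ (C₁ l₀)^e = C₁^e h₀` (`hg_le`).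
Put `l = (hg m)^(1/e)`, `l^e = hg m`, `l₀ ≤ l` (`pow_le_pow_left` / `pow_le_pow_iff_left`), so `nw w m ≤ C₁ l` for all `w`.
LOWER BOUND at `w₀`: `l^e = hg m = nw w₀ m ^ mult * ∏_(w ≠ w₀) nw w m ^ mult ≤ nw w₀ m ^ mult * (C₁ l)^(e - mult)` (`Finset.mul_prod_erase`, `sum_mult_eq`), so `l ^ mult ≤ C₁^(e - mult) nw ^ mult ≤ (C₁^e nw) ^ mult`
(`C₁ ≥ 1`, `mult ≥ 1`), and `l ≤ C₁^e nw w₀ m`.
MINIMALITY: `hg m ≤ C₁^e h₀ ≤ 2 C₁^e hg m'` for all `m' ≠ 0`.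
`C = 2 C₁^e + C₁` (only `K`).
-/

namespace VK

open NumberField MWS

theorem balanced_min (K : Type) [Field K] [NumberField K] :
    ∃ C : ℝ, 1 ≤ C ∧ ∀ g : Gs K, ∃ (X Z : 𝓞 K) (l : ℝ), (X ≠ 0 ∨ Z ≠ 0) ∧ 0 < l ∧
      g.hg X Z = l ^ Module.finrank ℚ K ∧ (∀ w, l ≤ C * g.nw w X Z ∧ g.nw w X Z ≤ C * l) ∧
      ∀ X' Z' : 𝓞 K, (X' ≠ 0 ∨ Z' ≠ 0) → g.hg X Z ≤ C * g.hg X' Z' := by
  classical
  obtain ⟨C1, hC1, hbal⟩ := balance K
  have he : Module.finrank ℚ K ≠ 0 := (Module.finrank_pos : 0 < Module.finrank ℚ K).ne'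
  have hC1e : (1 : ℝ) ≤ C1 ^ Module.finrank ℚ K := one_le_pow₀ hC1
  have hC10 : (0 : ℝ) < C1 := lt_of_lt_of_le one_pos hC1
  refine ⟨2 * C1 ^ Module.finrank ℚ K + C1, by linarith, fun g => ?_⟩
  obtain ⟨X0, Z0, h0, hmin⟩ := near_min g
  have hh0 : 0 < g.hg X0 Z0 := hg_pos g X0 Z0 h0
  obtain ⟨l0, hl0⟩ : ∃ l0 : ℝ, l0 = g.hg X0 Z0 ^ (((Module.finrank ℚ K : ℕ) : ℝ)⁻¹) := ⟨_, rfl⟩
  have hl0p : 0 < l0 := by rw [hl0]; exact Real.rpow_pos_of_pos hh0 _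
  have hl0e : l0 ^ Module.finrank ℚ K = g.hg X0 Z0 := by
    rw [hl0]; exact Real.rpow_inv_natCast_pow hh0.le he
  obtain ⟨z, hz, hzw⟩ := hbal (fun w => g.nw w X0 Z0) l0 (fun w => nw_pos g w X0 Z0 h0) hl0p
    (le_of_eq hl0e.symm)
  have hm : z * X0 ≠ 0 ∨ z * Z0 ≠ 0 := h0.imp (mul_ne_zero hz) (mul_ne_zero hz)
  have hN : (1 : ℝ) ≤ (Ideal.absNorm (Ideal.span {z}) : ℝ) := by
    have h1 : Ideal.absNorm (Ideal.span {z}) ≠ 0 := by
      rw [Ne, Ideal.absNorm_eq_zero_iff, Ideal.span_singleton_eq_bot]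
      exact hz
    exact_mod_cast Nat.one_le_iff_ne_zero.2 h1
  have hup0 : ∀ w, g.nw w (z * X0) (z * Z0) ≤ C1 * l0 := fun w => by
    rw [nw_mul]
    exact hzw w
  have hhm : 0 < g.hg (z * X0) (z * Z0) := hg_pos g _ _ hm
  have hge : g.hg X0 Z0 ≤ g.hg (z * X0) (z * Z0) := by
    rw [hg_mul]
    exact le_mul_of_one_le_left hh0.le hN
  have hle : g.hg (z * X0) (z * Z0) ≤ C1 ^ Module.finrank ℚ K * g.hg X0 Z0 := by
    refine (hg_le g _ _ _ hup0).trans (le_of_eq ?_)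
    rw [mul_pow, hl0e]
  obtain ⟨l, hl⟩ : ∃ l : ℝ, l = g.hg (z * X0) (z * Z0) ^ (((Module.finrank ℚ K : ℕ) : ℝ)⁻¹) := ⟨_, rfl⟩
  have hlp : 0 < l := by rw [hl]; exact Real.rpow_pos_of_pos hhm _
  have hle' : l ^ Module.finrank ℚ K = g.hg (z * X0) (z * Z0) := by
    rw [hl]; exact Real.rpow_inv_natCast_pow hhm.le he
  have hl0l : l0 ≤ l := by
    rw [hl0, hl]
    exact Real.rpow_le_rpow hh0.le hge (by positivity)
  have hup : ∀ w, g.nw w (z * X0) (z * Z0) ≤ C1 * l := fun w =>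
    (hup0 w).trans (mul_le_mul_of_nonneg_left hl0l hC10.le)
  have hlow : ∀ w, l ≤ C1 ^ Module.finrank ℚ K * g.nw w (z * X0) (z * Z0) := by
    intro w
    have hn0 : 0 < g.nw w (z * X0) (z * Z0) := nw_pos g w _ _ hm
    have h1 : ∏ w' ∈ Finset.univ.erase w, g.nw w' (z * X0) (z * Z0) ^ w'.mult ≤
        ∏ w' ∈ Finset.univ.erase w, (C1 * l) ^ w'.mult :=
      Finset.prod_le_prod (fun w' _ => pow_nonneg (nw_nonneg g w' _ _) _)
        (fun w' _ => pow_le_pow_left₀ (nw_nonneg g w' _ _) (hup w') _)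
    have h2 : (C1 * l) ^ w.mult * ∏ w' ∈ Finset.univ.erase w, (C1 * l) ^ w'.mult =
        C1 ^ Module.finrank ℚ K * l ^ Module.finrank ℚ K := by
      rw [Finset.mul_prod_erase _ (fun w' : InfinitePlace K => (C1 * l) ^ w'.mult) (Finset.mem_univ w),
        Finset.prod_pow_eq_pow_sum, InfinitePlace.sum_mult_eq, mul_pow]
    have h3 : l ^ Module.finrank ℚ K = g.nw w (z * X0) (z * Z0) ^ w.mult *
        ∏ w' ∈ Finset.univ.erase w, g.nw w' (z * X0) (z * Z0) ^ w'.mult := by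
      rw [hle', Gs.hg, Finset.mul_prod_erase _ (fun w' : InfinitePlace K =>
        g.nw w' (z * X0) (z * Z0) ^ w'.mult) (Finset.mem_univ w)]
    have h4 : (C1 * l) ^ w.mult * l ^ Module.finrank ℚ K ≤
        g.nw w (z * X0) (z * Z0) ^ w.mult * (C1 ^ Module.finrank ℚ K * l ^ Module.finrank ℚ K) := by
      rw [← h2]
      calc (C1 * l) ^ w.mult * l ^ Module.finrank ℚ K
          = (C1 * l) ^ w.mult * (g.nw w (z * X0) (z * Z0) ^ w.mult *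
              ∏ w' ∈ Finset.univ.erase w, g.nw w' (z * X0) (z * Z0) ^ w'.mult) := by rw [← h3]
        _ ≤ (C1 * l) ^ w.mult * (g.nw w (z * X0) (z * Z0) ^ w.mult *
              ∏ w' ∈ Finset.univ.erase w, (C1 * l) ^ w'.mult) := by gcongr
        _ = _ := by ring
    have h5 : (C1 * l) ^ w.mult ≤ g.nw w (z * X0) (z * Z0) ^ w.mult * C1 ^ Module.finrank ℚ K := by
      have h6 : (0 : ℝ) < l ^ Module.finrank ℚ K := pow_pos hlp _
      refine le_of_mul_le_mul_right ?_ h6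
      calc (C1 * l) ^ w.mult * l ^ Module.finrank ℚ K ≤ _ := h4
        _ = _ := by ring
    have h7 : (C1 * l) ^ w.mult ≤ (C1 ^ Module.finrank ℚ K * g.nw w (z * X0) (z * Z0)) ^ w.mult := by
      refine h5.trans ?_
      rw [mul_pow, mul_comm]
      exact mul_le_mul_of_nonneg_right (le_self_pow₀ hC1e w.mult_pos.ne') (pow_nonneg hn0.le _)
    have h8 : C1 * l ≤ C1 ^ Module.finrank ℚ K * g.nw w (z * X0) (z * Z0) :=
      (pow_le_pow_iff_left₀ (by positivity) (by positivity) w.mult_pos.ne').1 h7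
    exact (le_mul_of_one_le_left hlp.le hC1).trans h8
  refine ⟨z * X0, z * Z0, l, hm, hlp, hle'.symm, fun w => ⟨?_, ?_⟩, fun X' Z' h' => ?_⟩
  · refine (hlow w).trans (mul_le_mul_of_nonneg_right ?_ (nw_nonneg g w _ _))
    linarith
  · refine (hup w).trans (mul_le_mul_of_nonneg_right ?_ hlp.le)
    linarith
  · have h9 : 0 < g.hg X' Z' := hg_pos g X' Z' h'
    calc g.hg (z * X0) (z * Z0) ≤ C1 ^ Module.finrank ℚ K * g.hg X0 Z0 := hle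
      _ ≤ C1 ^ Module.finrank ℚ K * (2 * g.hg X' Z') :=
          mul_le_mul_of_nonneg_left (hmin X' Z' h') (by linarith)
      _ = (2 * C1 ^ Module.finrank ℚ K) * g.hg X' Z' := by ring
      _ ≤ (2 * C1 ^ Module.finrank ℚ K + C1) * g.hg X' Z' :=
          mul_le_mul_of_nonneg_right (by linarith) h9.le

end VK
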