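import Pool.Agent.Lib.MP_17a322_ntVK.RDefs

/-!
LEAF RZ.  Reduction of a complex binary quartic: a COPY of `Lib/MP_10e784_agBR/RealZ.lean` (on main) over `ℂ`.
(0) There is a zero `(X₀, Z₀) ≠ (0, 0)`: if `F.a = 0` take `(1, 0)`; otherwise `F(X, 1)` is a polynomial of degree 4 over `ℂ`, which has a root (`IsAlgClosed.exists_root`, or `Complex.exists_root`), `Z₀ = 1`.
(1) A matrix `M₁` of determinant 1 with first column `(X₀, Z₀)`: second column `(0, X₀⁻¹)` if `X₀ ≠ 0`, `(- Z₀⁻¹, 0)` if `X₀ = 0`.  `F₁ = F.sub M₁` has `a = 0` (`Qu.sub_a`), the same `I`, `J`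
(`Qu.I_sub`, `Qu.J_sub`).  `I = - 3 b d + c²`, `J = 9 b c d - 27 e b² - 2 c³`; `b = 0` would give `4 I³ = J²`.
(2) `F₂ = F₁.sub 1 s 0 1`, `s = - c/(3 b)`: `a = 0`, `b` unchanged, `c = 0`.
(3) `F₃ = F₂.sub μ 0 0 μ⁻¹`, `μ` with `μ² = L / b` (`IsAlgClosed.exists_pow_nat_eq` / `Complex.cpow`): `b₃ = L`, `a = c = 0`, `I = - 3 L d₃`: `‖d₃‖ ≤ 16 L`, `J = - 27 e₃ L²`: `‖e₃‖ ≤ 64 L`.
(4) `F = F₃.sub (M₁ M₂ M₃)⁻¹` (`Qu.sub_sub`, `Qu.sub_id`; inverse of `(p q; u v)`: `(v, -q; -u, p)`).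
-/

namespace VK

open MWS

private def RZ_E (F G : Qu ℂ) : Prop := ∃ p q u v : ℂ, p * v - q * u = 1 ∧ F = G.sub p q u v

private theorem RZ_trans {F G H : Qu ℂ} (h1 : RZ_E F G) (h2 : RZ_E G H) : RZ_E F H := by
  obtain ⟨k, l, m, n, hd, e1⟩ := h1
  obtain ⟨p, q, u, v, hd', e2⟩ := h2
  refine ⟨p * k + q * m, p * l + q * n, u * k + v * m, u * l + v * n, ?_, ?_⟩
  · have : (p * k + q * m) * (u * l + v * n) - (p * l + q * n) * (u * k + v * m) =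
        (p * v - q * u) * (k * n - l * m) := by ring
    rw [this, hd, hd', mul_one]
  · rw [← Qu.sub_sub, ← e2]
    exact e1

private theorem RZ_sub (F : Qu ℂ) {p q u v : ℂ} (h : p * v - q * u = 1) : RZ_E F (F.sub p q u v) := by
  refine ⟨v, -q, -u, p, by rw [← h]; ring, ?_⟩
  rw [Qu.sub_sub]
  have e1 : p * v + q * -u = 1 := by rw [← h]; ring
  have e2 : p * -q + q * p = 0 := by ring
  have e3 : u * v + v * -u = 0 := by ring
  have e4 : u * -q + v * p = 1 := by rw [← h]; ring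
  rw [e1, e2, e3, e4, Qu.sub_id]

private theorem RZ_zero (F : Qu ℂ) : ∃ X Z : ℂ, (X ≠ 0 ∨ Z ≠ 0) ∧ F.ev X Z = 0 := by
  by_cases ha : F.a = 0
  · refine ⟨1, 0, Or.inl one_ne_zero, ?_⟩
    simp only [Qu.ev, ha]
    ring
  · obtain ⟨P, hP⟩ : ∃ P : Polynomial ℂ, P = Polynomial.C F.a * Polynomial.X ^ 4 +
        Polynomial.C F.b * Polynomial.X ^ 3 + Polynomial.C F.c * Polynomial.X ^ 2 +
        Polynomial.C F.d * Polynomial.X + Polynomial.C F.e := ⟨_, rfl⟩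
    have h4 : P.coeff 4 = F.a := by
      rw [hP]
      simp
    have hdeg : P.degree ≠ 0 := by
      intro h
      apply ha
      rw [← h4]
      refine Polynomial.coeff_eq_zero_of_degree_lt ?_
      rw [h]
      norm_num
    obtain ⟨X, hX⟩ := IsAlgClosed.exists_root P hdeg
    refine ⟨X, 1, Or.inr one_ne_zero, ?_⟩
    rw [Polynomial.IsRoot.def, hP] at hX
    simp only [Polynomial.eval_add, Polynomial.eval_mul, Polynomial.eval_C, Polynomial.eval_pow,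
      Polynomial.eval_X] at hX
    simp only [Qu.ev]
    linear_combination hX

private theorem RZ_col (X Z : ℂ) (h : X ≠ 0 ∨ Z ≠ 0) : ∃ q v : ℂ, X * v - q * Z = 1 := by
  by_cases hX : X = 0
  · have hZ : Z ≠ 0 := by
      rcases h with h | h
      · exact absurd hX h
      · exact h
    refine ⟨-Z⁻¹, 0, ?_⟩
    rw [mul_zero, neg_mul, inv_mul_cancel₀ hZ]
    ring
  · refine ⟨0, X⁻¹, ?_⟩
    rw [mul_inv_cancel₀ hX]
    ring

theorem complex_red (F : Qu ℂ) (L : ℝ) (hL : 0 < L) (hI : ‖F.I‖ ≤ 48 * L ^ 2)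
    (hJ : ‖F.J‖ ≤ 1728 * L ^ 3) (hd : 4 * F.I ^ 3 ≠ F.J ^ 2) :
    ∃ (G : Qu ℂ) (p q u v : ℂ), p * v - q * u = 1 ∧ F = G.sub p q u v ∧ Le (100 * L) G := by
  obtain ⟨X, Z, hXZ, h0⟩ := RZ_zero F
  obtain ⟨q1, v1, hdet1⟩ := RZ_col X Z hXZ
  -- step 1
  obtain ⟨F1, hF1⟩ : ∃ F1, F1 = F.sub X q1 Z v1 := ⟨_, rfl⟩
  have hE1 : RZ_E F F1 := by
    rw [hF1]
    exact RZ_sub F hdet1
  have ha1 : F1.a = 0 := by
    rw [hF1, Qu.sub_a]
    exact h0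
  have hI1 : F1.I = F.I := by
    rw [hF1, Qu.I_sub, hdet1, one_pow, one_mul]
  have hJ1 : F1.J = F.J := by
    rw [hF1, Qu.J_sub, hdet1, one_pow, one_mul]
  have hb1 : F1.b ≠ 0 := by
    intro hb
    apply hd
    rw [← hI1, ← hJ1]
    simp only [Qu.I, Qu.J, ha1, hb]
    ring
  -- step 2
  obtain ⟨F2, hF2⟩ : ∃ F2, F2 = F1.sub 1 (-F1.c / (3 * F1.b)) 0 1 := ⟨_, rfl⟩
  have hdet2 : (1 : ℂ) * 1 - (-F1.c / (3 * F1.b)) * 0 = 1 := by ring
  have hE2 : RZ_E F1 F2 := by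
    rw [hF2]
    exact RZ_sub F1 hdet2
  have ha2 : F2.a = 0 := by
    rw [hF2]
    simp only [Qu.sub, ha1]
    ring
  have hb2 : F2.b = F1.b := by
    rw [hF2]
    simp only [Qu.sub, ha1]
    ring
  have hc2 : F2.c = 0 := by
    rw [hF2]
    simp only [Qu.sub, ha1]
    field_simp
    ring
  have hI2 : F2.I = F.I := by
    rw [hF2, Qu.I_sub, hdet2, one_pow, one_mul, hI1]
  have hJ2 : F2.J = F.J := by
    rw [hF2, Qu.J_sub, hdet2, one_pow, one_mul, hJ1]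
  -- step 3
  obtain ⟨μ, hμ2⟩ : ∃ μ : ℂ, μ ^ 2 = (L : ℂ) / F1.b :=
    IsAlgClosed.exists_pow_nat_eq _ two_pos
  have hLc : (L : ℂ) ≠ 0 := Complex.ofReal_ne_zero.2 hL.ne'
  have hμ0 : μ ≠ 0 := by
    intro h
    rw [h] at hμ2
    have h1 : (L : ℂ) / F1.b ≠ 0 := div_ne_zero hLc hb1
    apply h1
    rw [← hμ2]
    ring
  have hdet3 : μ * μ⁻¹ - 0 * 0 = 1 := by
    rw [mul_inv_cancel₀ hμ0]
    ring
  obtain ⟨G, hG⟩ : ∃ G, G = F2.sub μ 0 0 μ⁻¹ := ⟨_, rfl⟩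
  have hE3 : RZ_E F2 G := by
    rw [hG]
    exact RZ_sub F2 hdet3
  have ha3 : G.a = 0 := by
    rw [hG]
    simp only [Qu.sub, ha2]
    ring
  have hb3 : G.b = F1.b * μ ^ 2 := by
    rw [hG]
    simp only [Qu.sub, ha2, hb2]
    field_simp
    ring
  have hc3 : G.c = 0 := by
    rw [hG]
    simp only [Qu.sub, ha2, hc2]
    ring
  have hI3 : G.I = F.I := by
    rw [hG, Qu.I_sub, hdet3, one_pow, one_mul, hI2]
  have hJ3 : G.J = F.J := by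
    rw [hG, Qu.J_sub, hdet3, one_pow, one_mul, hJ2]
  have hbL : G.b = (L : ℂ) := by
    rw [hb3, hμ2, mul_div_cancel₀ _ hb1]
  have hnL : ‖(L : ℂ)‖ = L := by
    rw [Complex.norm_real, Real.norm_eq_abs, abs_of_pos hL]
  have hId : F.I = -3 * ((L : ℂ) * G.d) := by
    rw [← hI3, ← hbL]
    simp only [Qu.I, ha3, hc3]
    ring
  have hJe : F.J = -27 * (G.e * (L : ℂ) ^ 2) := by
    rw [← hJ3, ← hbL]
    simp only [Qu.J, ha3, hc3]
    ring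
  have hn3 : ‖(-3 : ℂ)‖ = 3 := by
    rw [norm_neg]
    simp
  have hn27 : ‖(-27 : ℂ)‖ = 27 := by
    rw [norm_neg]
    simp
  have hd3 : ‖G.d‖ ≤ 16 * L := by
    rw [hId, norm_mul, norm_mul, hnL, hn3] at hI
    have : L * ‖G.d‖ ≤ L * (16 * L) := by nlinarith only [hI]
    exact le_of_mul_le_mul_left this hL
  have he3 : ‖G.e‖ ≤ 64 * L := by
    rw [hJe, norm_mul, norm_mul, norm_pow, hnL, hn27] at hJ
    have : L ^ 2 * ‖G.e‖ ≤ L ^ 2 * (64 * L) := by nlinarith only [hJ]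
    exact le_of_mul_le_mul_left this (pow_pos hL 2)
  obtain ⟨p, q, u, v, hdet, hFG⟩ := RZ_trans (RZ_trans hE1 hE2) hE3
  refine ⟨G, p, q, u, v, hdet, hFG, ?_, ?_, ?_, ?_, ?_⟩
  · rw [ha3, norm_zero]
    positivity
  · rw [hbL, hnL]
    linarith only [hL]
  · rw [hc3, norm_zero]
    positivity
  · linarith only [hd3, hL]
  · linarith only [he3, hL]

end VK
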