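import Pool.Agent.Lib.MP_10e784_agBS.S3

/-!
# LEAF SF2: the sum over all `g`-tuples of curves (as `sum_tuples` of `MP_10e784_agBG/GB`, needs only `box_crt`)

PROOF.  As `sum_tuples`, with the index set `Fin g × Fin 2 × Fin e` instead of `Fin g × Fin 2`, `h (l, 0, k) = H ^ 2`, `h (l, 1, k) = H ^ 3`; `f p b = 1 - κ` if `(∑ k, b (l, 0, k) * w p k, ∑ k, b (l, 1, k) * w p k) ∈ G p` for all `l`,
else `1`.  For `p ∈ S` the map `(ZMod p) ^ (2 e) → (ZMod p)²`, `(α, β) ↦ (∑ α_k w_k, ∑ β_k w_k)` is additive and surjective (`w p ≠ 0`), so the preimage of `G p` has `#(G p) * p ^ (2 e) / p ^ 2 ≥ γ p * p ^ (2 e)` elements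
(`MWS.card_surj` of `MP_17a322_ntCI/HA` is a model: all the fibres have the same number of elements); `∑_b f p b = p ^ (2 e g) - κ (#preimage) ^ g ≤ (1 - κ (γ p) ^ g) p ^ (2 e g)`, and
`∏ (1 - κ γ^g) ≤ exp (-κ ∑ γ^g)`, `∏ (4 h) = ((16 H⁵) ^ e) ^ g`.
-/

namespace VK

open Finset

private noncomputable def SF2_equiv {A B : Type} [AddCommGroup A] [AddCommGroup B] (f : A →+ B)
    (hf : Function.Surjective f) (S : Set B) : {c : A // f c ∈ S} ≃ S × f.ker where
  toFun c := (⟨f c.1, c.2⟩, ⟨c.1 - Function.surjInv hf (f c.1), by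
    rw [AddMonoidHom.mem_ker, map_sub, Function.surjInv_eq hf, sub_self]⟩)
  invFun y := ⟨Function.surjInv hf y.1.1 + y.2.1, by
    rw [map_add, Function.surjInv_eq hf, AddMonoidHom.mem_ker.1 y.2.2, add_zero]
    exact y.1.2⟩
  left_inv c := Subtype.ext (by
    show Function.surjInv hf (f c.1) + (c.1 - Function.surjInv hf (f c.1)) = c.1
    abel)
  right_inv y := by
    have h : f (Function.surjInv hf y.1.1 + y.2.1) = y.1.1 := by
      rw [map_add, Function.surjInv_eq hf, AddMonoidHom.mem_ker.1 y.2.2, add_zero]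
    refine Prod.ext (Subtype.ext h) (Subtype.ext ?_)
    show Function.surjInv hf y.1.1 + y.2.1 - Function.surjInv hf (f (Function.surjInv hf y.1.1 + y.2.1)) = y.2.1
    rw [h]
    abel

/-- The homomorphism `(α, β) ↦ (∑ α_k w_k, ∑ β_k w_k)`. -/
private def SF2_hom {p e : ℕ} (w : Fin e → ZMod p) :
    ((Fin e → ZMod p) × (Fin e → ZMod p)) →+ (ZMod p × ZMod p) where
  toFun c := (∑ k, c.1 k * w k, ∑ k, c.2 k * w k)
  map_zero' := by simp
  map_add' a b := by simp [add_mul, Finset.sum_add_distrib]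

private theorem SF2_surj {p e : ℕ} [Fact p.Prime] (w : Fin e → ZMod p) (hw : w ≠ 0) :
    Function.Surjective (SF2_hom w) := by
  classical
  obtain ⟨k, hk⟩ := Function.ne_iff.1 hw
  rw [Pi.zero_apply] at hk
  rintro ⟨a, b⟩
  refine ⟨(Pi.single k (a * (w k)⁻¹), Pi.single k (b * (w k)⁻¹)), ?_⟩
  show ((∑ j, (Pi.single k (a * (w k)⁻¹) : Fin e → ZMod p) j * w j,
    ∑ j, (Pi.single k (b * (w k)⁻¹) : Fin e → ZMod p) j * w j) : ZMod p × ZMod p) = (a, b)
  have h1 : ∀ a : ZMod p, ∑ j, (Pi.single k (a * (w k)⁻¹) : Fin e → ZMod p) j * w j = a := by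
    intro a
    rw [Finset.sum_eq_single k]
    · rw [Pi.single_eq_same, mul_assoc, inv_mul_cancel₀ hk, mul_one]
    · intro j _ hj
      rw [Pi.single_eq_of_ne hj, zero_mul]
    · intro h
      exact absurd (mem_univ k) h
  rw [h1, h1]

private theorem SF2_card {p e : ℕ} [Fact p.Prime] (w : Fin e → ZMod p) (hw : w ≠ 0)
    (G : Set (ZMod p × ZMod p)) :
    Nat.card {c : (Fin e → ZMod p) × (Fin e → ZMod p) // SF2_hom w c ∈ G} * p ^ 2 =
      Nat.card G * p ^ (2 * e) := by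
  have h1 : ∀ T : Set (ZMod p × ZMod p),
      Nat.card {c : (Fin e → ZMod p) × (Fin e → ZMod p) // SF2_hom w c ∈ T} =
        Nat.card T * Nat.card (SF2_hom w).ker := fun T => by
    rw [Nat.card_congr (SF2_equiv (SF2_hom w) (SF2_surj w hw) T), Nat.card_prod]
  have h2 := h1 Set.univ
  have h3 : Nat.card {c : (Fin e → ZMod p) × (Fin e → ZMod p) //
      SF2_hom w c ∈ (Set.univ : Set (ZMod p × ZMod p))} = p ^ (2 * e) := by
    rw [Nat.card_congr (Equiv.subtypeUnivEquiv fun c => Set.mem_univ _), Nat.card_prod,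
      Nat.card_fun, Nat.card_eq_fintype_card, Nat.card_eq_fintype_card, ZMod.card, Fintype.card_fin,
      two_mul, pow_add]
  have h4 : Nat.card (Set.univ : Set (ZMod p × ZMod p)) = p ^ 2 := by
    rw [Nat.card_univ, Nat.card_prod, Nat.card_eq_fintype_card, ZMod.card, sq]
  rw [h3, h4] at h2
  rw [h1 G, h2]
  ring

open Classical in
private theorem SF2_sum {p g e : ℕ} [NeZero p] (κ : ℝ) (w : Fin e → ZMod p)
    (G : Set (ZMod p × ZMod p)) :
    ∑ b : Fin g × Fin 2 × Fin e → ZMod p,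
      (if ∀ l, (∑ k, b (l, 0, k) * w k, ∑ k, b (l, 1, k) * w k) ∈ G then 1 - κ else 1) =
      (p : ℝ) ^ (g * (2 * e)) -
        κ * (Nat.card {c : (Fin e → ZMod p) × (Fin e → ZMod p) // SF2_hom w c ∈ G} : ℝ) ^ g := by
  let E : (Fin g × Fin 2 × Fin e → ZMod p) ≃ (Fin g → (Fin e → ZMod p) × (Fin e → ZMod p)) :=
    { toFun := fun b l => (fun k => b (l, 0, k), fun k => b (l, 1, k))
      invFun := fun z t => ![(z t.1).1, (z t.1).2] t.2.1 t.2.2
      left_inv := by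
        intro b
        funext ⟨l, j, k⟩
        fin_cases j <;> rfl
      right_inv := by
        intro z
        rfl }
  have h1 : ∑ b : Fin g × Fin 2 × Fin e → ZMod p,
      (if ∀ l, (∑ k, b (l, 0, k) * w k, ∑ k, b (l, 1, k) * w k) ∈ G then 1 - κ else 1) =
      ∑ z : Fin g → (Fin e → ZMod p) × (Fin e → ZMod p),
        (if ∀ l, SF2_hom w (z l) ∈ G then 1 - κ else 1) :=
    Fintype.sum_equiv E _ _ fun b => rfl
  have h2 : ∀ z : Fin g → (Fin e → ZMod p) × (Fin e → ZMod p),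
      (if ∀ l, SF2_hom w (z l) ∈ G then 1 - κ else (1 : ℝ)) =
      1 - κ * (if ∀ l, SF2_hom w (z l) ∈ G then 1 else 0) := by
    intro z
    split_ifs <;> ring
  rw [h1, Finset.sum_congr rfl fun z _ => h2 z, Finset.sum_sub_distrib, ← Finset.mul_sum,
    Finset.sum_boole]
  have h3 : (univ.filter fun z : Fin g → (Fin e → ZMod p) × (Fin e → ZMod p) =>
      ∀ l, SF2_hom w (z l) ∈ G).card =
      Nat.card {c : (Fin e → ZMod p) × (Fin e → ZMod p) // SF2_hom w c ∈ G} ^ g := by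
    have h4 : (univ.filter fun z : Fin g → (Fin e → ZMod p) × (Fin e → ZMod p) =>
        ∀ l, SF2_hom w (z l) ∈ G) =
        Fintype.piFinset fun _ : Fin g =>
          univ.filter fun z : (Fin e → ZMod p) × (Fin e → ZMod p) => SF2_hom w z ∈ G := by
      ext z
      simp only [mem_filter, mem_univ, true_and, Fintype.mem_piFinset]
    have h5 : Nat.card {c : (Fin e → ZMod p) × (Fin e → ZMod p) // SF2_hom w c ∈ G} =
        (univ.filter fun z : (Fin e → ZMod p) × (Fin e → ZMod p) => SF2_hom w z ∈ G).card := by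
      rw [Nat.card_eq_fintype_card, Fintype.card_subtype]
    rw [h4, h5, Fintype.card_piFinset_const]
  rw [h3]
  have h6 : ∑ _z : Fin g → (Fin e → ZMod p) × (Fin e → ZMod p), (1 : ℝ) =
      (p : ℝ) ^ (g * (2 * e)) := by
    rw [Finset.sum_const, Finset.card_univ, Fintype.card_fun, Fintype.card_prod, Fintype.card_fun,
      ZMod.card, Fintype.card_fin, Fintype.card_fin, nsmul_eq_mul, mul_one, ← pow_add, ← two_mul,
      ← pow_mul, mul_comm (2 * e) g]
    push_cast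
    rfl
  rw [h6]
  push_cast
  rfl

open Classical in
theorem sum_tuplesK {g e : ℕ} (S : Finset ℕ) (hS : ∀ p ∈ S, p.Prime) {H : ℕ} (hq : ∏ p ∈ S, p ≤ H) {κ : ℝ} (h0 : 0 ≤ κ)
    (h1 : κ ≤ 1) (w : (p : ℕ) → Fin e → ZMod p) (hw : ∀ p ∈ S, w p ≠ 0) (G : (p : ℕ) → Set (ZMod p × ZMod p)) (γ : ℕ → ℝ)
    (hγ0 : ∀ p ∈ S, 0 ≤ γ p) (hγ : ∀ p ∈ S, γ p * (p : ℝ) ^ 2 ≤ (Nat.card (G p) : ℝ)) :
    ∑ z ∈ Fintype.piFinset (fun _ : Fin g => (Fintype.piFinset fun _ : Fin e => Icc (-((H : ℤ) ^ 2)) ((H : ℤ) ^ 2)) ×ˢ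
      (Fintype.piFinset fun _ : Fin e => Icc (-((H : ℤ) ^ 3)) ((H : ℤ) ^ 3))),
      (1 - κ) ^ (S.filter fun p => ∀ l, (∑ k, (((z l).1 k : ℤ) : ZMod p) * w p k,
        ∑ k, (((z l).2 k : ℤ) : ZMod p) * w p k) ∈ G p).card ≤
      ((16 * (H : ℝ) ^ 5) ^ e) ^ g * Real.exp (-(κ * ∑ p ∈ S, γ p ^ g)) := by
  let h : Fin g × Fin 2 × Fin e → ℕ := fun t => ![H ^ 2, H ^ 3] t.2.1
  let f : (p : ℕ) → (Fin g × Fin 2 × Fin e → ZMod p) → ℝ := fun p b =>
    if ∀ l, (∑ k, b (l, 0, k) * w p k, ∑ k, b (l, 1, k) * w p k) ∈ G p then 1 - κ else 1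
  have hf0 : ∀ p b, 0 ≤ f p b := by
    intro p b
    show 0 ≤ if ∀ l, (∑ k, b (l, 0, k) * w p k, ∑ k, b (l, 1, k) * w p k) ∈ G p then 1 - κ else 1
    split_ifs <;> linarith
  have hle : ∀ i, ∏ p ∈ S, p ≤ h i := by
    rintro ⟨l, j, k⟩
    refine hq.trans ?_
    fin_cases j
    · exact Nat.le_self_pow (by norm_num) H
    · exact Nat.le_self_pow (by norm_num) H
  have hcard : Fintype.card (Fin g × Fin 2 × Fin e) = g * (2 * e) := by
    rw [Fintype.card_prod, Fintype.card_prod, Fintype.card_fin, Fintype.card_fin, Fintype.card_fin]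
  have hg : ∀ p ∈ S, ∀ [NeZero p], ∑ b : Fin g × Fin 2 × Fin e → ZMod p, f p b ≤
      (1 - κ * γ p ^ g) * (p : ℝ) ^ Fintype.card (Fin g × Fin 2 × Fin e) := by
    intro p hp _
    have : Fact p.Prime := ⟨hS p hp⟩
    have e1 : ∑ b : Fin g × Fin 2 × Fin e → ZMod p, f p b = (p : ℝ) ^ (g * (2 * e)) -
        κ * (Nat.card {c : (Fin e → ZMod p) × (Fin e → ZMod p) // SF2_hom (w p) c ∈ G p} : ℝ) ^ g :=
      SF2_sum κ (w p) (G p)
    rw [e1, hcard]
    have hp0 : (0 : ℝ) < (p : ℝ) ^ 2 := by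
      have : (0 : ℝ) < p := by exact_mod_cast (hS p hp).pos
      positivity
    have h5 : (Nat.card {c : (Fin e → ZMod p) × (Fin e → ZMod p) // SF2_hom (w p) c ∈ G p} : ℝ) *
        (p : ℝ) ^ 2 = (Nat.card (G p) : ℝ) * (p : ℝ) ^ (2 * e) := by
      exact_mod_cast SF2_card (w p) (hw p hp) (G p)
    have h6 : γ p * (p : ℝ) ^ (2 * e) ≤
        (Nat.card {c : (Fin e → ZMod p) × (Fin e → ZMod p) // SF2_hom (w p) c ∈ G p} : ℝ) := by
      refine le_of_mul_le_mul_right ?_ hp0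
      rw [h5]
      have := mul_le_mul_of_nonneg_right (hγ p hp) (show (0 : ℝ) ≤ (p : ℝ) ^ (2 * e) by positivity)
      calc γ p * (p : ℝ) ^ (2 * e) * (p : ℝ) ^ 2 = γ p * (p : ℝ) ^ 2 * (p : ℝ) ^ (2 * e) := by ring
        _ ≤ _ := this
    have h2 : (γ p * (p : ℝ) ^ (2 * e)) ^ g ≤
        (Nat.card {c : (Fin e → ZMod p) × (Fin e → ZMod p) // SF2_hom (w p) c ∈ G p} : ℝ) ^ g :=
      pow_le_pow_left₀ (mul_nonneg (hγ0 p hp) (by positivity)) h6 g
    have h3 : (γ p * (p : ℝ) ^ (2 * e)) ^ g = γ p ^ g * (p : ℝ) ^ (g * (2 * e)) := by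
      rw [mul_pow, ← pow_mul, mul_comm (2 * e) g]
    rw [h3] at h2
    have := mul_le_mul_of_nonneg_left h2 h0
    linarith
  have key := MWS.box_crt S hS h hle f hf0 (fun p => 1 - κ * γ p ^ g) hg
  have e2 : ∏ i, (4 * (h i : ℝ)) = ((16 * (H : ℝ) ^ 5) ^ e) ^ g := by
    rw [Fintype.prod_prod_type]
    have e0 : ∀ l : Fin g, ∏ j : Fin 2 × Fin e, (4 * (h (l, j) : ℝ)) = (16 * (H : ℝ) ^ 5) ^ e := by
      intro l
      rw [Fintype.prod_prod_type, Fin.prod_univ_two, Finset.prod_congr rfl fun k _ =>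
        show 4 * (h (l, 0, k) : ℝ) = 4 * (H : ℝ) ^ 2 from by
          show 4 * ((H ^ 2 : ℕ) : ℝ) = _
          push_cast
          rfl, Finset.prod_congr rfl fun k _ =>
        show 4 * (h (l, 1, k) : ℝ) = 4 * (H : ℝ) ^ 3 from by
          show 4 * ((H ^ 3 : ℕ) : ℝ) = _
          push_cast
          rfl, Finset.prod_const, Finset.prod_const, Finset.card_univ, Fintype.card_fin, ← mul_pow]
      congr 1
      ring
    rw [Finset.prod_congr rfl fun l _ => e0 l, Finset.prod_const, Finset.card_univ,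
      Fintype.card_fin]
  have hnn : ∀ p ∈ S, 0 ≤ 1 - κ * γ p ^ g := by
    intro p hp
    have : NeZero p := ⟨(hS p hp).ne_zero⟩
    have h2 := hg p hp
    have h3 : 0 ≤ ∑ b : Fin g × Fin 2 × Fin e → ZMod p, f p b :=
      Finset.sum_nonneg fun b _ => hf0 p b
    have h4 : (0 : ℝ) < (p : ℝ) ^ Fintype.card (Fin g × Fin 2 × Fin e) := by
      have : (0 : ℝ) < p := by exact_mod_cast (hS p hp).pos
      positivity
    by_contra hcon
    push Not at hcon
    have := mul_neg_of_neg_of_pos hcon h4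
    linarith
  have e3 : ∏ p ∈ S, (1 - κ * γ p ^ g) ≤ Real.exp (-(κ * ∑ p ∈ S, γ p ^ g)) := by
    rw [Finset.mul_sum, ← Finset.sum_neg_distrib, Real.exp_sum]
    refine Finset.prod_le_prod hnn fun p _ => ?_
    have := Real.add_one_le_exp (-(κ * γ p ^ g))
    linarith
  have e4 : ∑ z ∈ Fintype.piFinset (fun _ : Fin g =>
      (Fintype.piFinset fun _ : Fin e => Icc (-((H : ℤ) ^ 2)) ((H : ℤ) ^ 2)) ×ˢ
      (Fintype.piFinset fun _ : Fin e => Icc (-((H : ℤ) ^ 3)) ((H : ℤ) ^ 3))),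
      (1 - κ) ^ (S.filter fun p => ∀ l, (∑ k, (((z l).1 k : ℤ) : ZMod p) * w p k,
        ∑ k, (((z l).2 k : ℤ) : ZMod p) * w p k) ∈ G p).card =
      ∑ c ∈ Fintype.piFinset (fun i => Icc (-(h i : ℤ)) (h i)),
        ∏ p ∈ S, f p (fun i => ((c i : ℤ) : ZMod p)) := by
    refine Finset.sum_nbij' (fun z => fun t => ![(z t.1).1, (z t.1).2] t.2.1 t.2.2)
      (fun c => fun l => (fun k => c (l, 0, k), fun k => c (l, 1, k))) ?_ ?_ ?_ ?_ ?_
    · intro z hz
      rw [Fintype.mem_piFinset] at hz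
      rw [Fintype.mem_piFinset]
      rintro ⟨l, j, k⟩
      have hl := hz l
      rw [mem_product, Fintype.mem_piFinset, Fintype.mem_piFinset] at hl
      have hl1 := hl.1 k
      have hl2 := hl.2 k
      fin_cases j
      · simpa [h] using hl1
      · simpa [h] using hl2
    · intro c hc
      rw [Fintype.mem_piFinset] at hc
      rw [Fintype.mem_piFinset]
      intro l
      rw [mem_product, Fintype.mem_piFinset, Fintype.mem_piFinset]
      refine ⟨fun k => ?_, fun k => ?_⟩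
      · simpa [h] using hc (l, 0, k)
      · simpa [h] using hc (l, 1, k)
    · intro z _
      rfl
    · intro c _
      funext ⟨l, j, k⟩
      fin_cases j <;> rfl
    · intro z _
      show _ = ∏ p ∈ S, if ∀ l, (∑ k, (((z l).1 k : ℤ) : ZMod p) * w p k,
        ∑ k, (((z l).2 k : ℤ) : ZMod p) * w p k) ∈ G p then 1 - κ else 1
      rw [Finset.prod_ite, Finset.prod_const_one, mul_one, Finset.prod_const]
  rw [e4]
  refine key.trans ?_
  rw [e2]
  exact mul_le_mul_of_nonneg_left e3 (by positivity)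

end VK
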