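import Mathlib

/-!
# LEAF SP1: the choice of the parameters in terms of `X` (Mathlib only; as `par_gX` of `MP_10e784_agBG/GE`)

PROOF.  As `par_gX` (copy).  `s = min (1 / (8 (K₁ + 1))) ((1 - 1 / A) / 4)`, `a = X ^ s`, `c₀ = s / 4` (independent of `g`, `Q`, `q`, `k`, `t₀`); `U = ⌊a²⌋₊`, `t = ⌊a⌋₊`, `b = Nat.clog 2 (3 X)` (`3 X ≤ 2 ^ b`, `b ≤ 4 log X`), `Y = 3 X / U + 1`.
For `X` large: `U ≥ a² / 2 → ∞` (so `U ≥ K₁` and `U ≥ K₁ log X`, and `Y ≤ 8 X / a² < X / Q`), `U ^ K₁ ≤ X ^ (1/4) ≤ X / Q`, `4 U ≤ Y`, `Y U ≤ 4 X`, `X ^ (1 / A) ≤ X ^ (1 - 2 s) ≤ X / a² ≤ Y` (`2 s ≤ (1 - 1 / A) / 2`).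
Loss: `g (t + 1) b Y log 4 ≤ g (2 a) (4 log X) (4 X / U) 2 ≤ 128 g X (log X) / a`; gain `q X / (log X) ^ (g + 1)`; loss `≤ gain / 2` because `(256 g / q) (log X) ^ (g + 2) ≤ a` for `X` large.
`(4 X + 4) ^ c₀ ≤ a ^ (1/2) ≤ gain / 2`.  Last line: `k log (4 X + 5) + (4 X + 4) ^ c₀ ≤ a / 2 ≤ t log 2`.  `t → ∞`.
-/

namespace VK

open Filter

private theorem SP1_log (C δ : ℝ) (n : ℕ) (hδ : 0 < δ) :
    ∀ᶠ x : ℝ in atTop, C * Real.log x ^ n ≤ x ^ δ := by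
  have h := (isLittleO_log_rpow_rpow_atTop (n : ℝ) hδ).bound (c := 1 / (|C| + 1)) (by positivity)
  filter_upwards [h, eventually_ge_atTop 1] with x hx h1
  have h0 : 0 ≤ Real.log x := Real.log_nonneg h1
  rw [Real.rpow_natCast, Real.norm_of_nonneg (by positivity),
    Real.norm_of_nonneg (by positivity)] at hx
  have h2 : C * Real.log x ^ n ≤ (|C| + 1) * Real.log x ^ n :=
    mul_le_mul_of_nonneg_right (by linarith [le_abs_self C]) (by positivity)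
  have h3 : (|C| + 1) * Real.log x ^ n ≤ (|C| + 1) * (1 / (|C| + 1) * x ^ δ) :=
    mul_le_mul_of_nonneg_left hx (by positivity)
  have h4 : (|C| + 1) * (1 / (|C| + 1) * x ^ δ) = x ^ δ := by
    field_simp
  linarith

private theorem SP1_ge (C δ : ℝ) (hδ : 0 < δ) : ∀ᶠ x : ℝ in atTop, C ≤ x ^ δ :=
  (tendsto_rpow_atTop hδ).eventually_ge_atTop C

private theorem SP1_clog {X : ℕ} (hX : 1 ≤ X) (hl : 4 ≤ Real.log X) :
    (Nat.clog 2 (3 * X) : ℝ) ≤ 4 * Real.log X := by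
  have hx : (0 : ℝ) < X := by exact_mod_cast hX
  have h1 : 2 ^ (Nat.clog 2 (3 * X)).pred < 3 * X := Nat.pow_pred_clog_lt_self (by norm_num) (by omega)
  have h2 : (2 : ℝ) ^ (Nat.clog 2 (3 * X)).pred < 3 * X := by exact_mod_cast h1
  have h3 := Real.log_lt_log (by positivity) h2
  rw [Real.log_pow, Real.log_mul (by norm_num) (by positivity)] at h3
  have h4 : (Nat.clog 2 (3 * X) : ℝ) ≤ (Nat.clog 2 (3 * X)).pred + 1 := by
    exact_mod_cast Nat.le_succ_of_pred_le le_rfl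
  have h5 := Real.log_two_gt_d9
  have h6 : Real.log 3 ≤ 2 := by
    have h7 := Real.log_le_sub_one_of_pos (show (0 : ℝ) < 3 by norm_num)
    linarith
  have h7 : (0 : ℝ) ≤ ((Nat.clog 2 (3 * X)).pred : ℝ) := Nat.cast_nonneg _
  nlinarith

private theorem SP1_div (X n : ℕ) (hn : 0 < n) : 3 * X ≤ (3 * X / n + 1) * n := by
  have h1 := Nat.div_add_mod (3 * X) n
  have h2 := Nat.mod_lt (3 * X) hn
  nlinarith

/-- The loss. -/
private theorem SP1_loss {x l a q U t e Y w : ℝ} (g : ℕ) (hx : 0 < x) (hl : 0 < l) (ha : 0 < a) (hq : 0 < q)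
    (hU : a * a / 2 ≤ U) (ht : t + 1 ≤ 2 * a) (ht0 : 0 ≤ t) (he0 : 0 ≤ e) (he : e ≤ 4 * l)
    (hY0 : 0 ≤ Y) (hY : Y * U ≤ 4 * x) (h1 : 256 * ((g : ℝ) + 1) / q * l ^ (g + 2) ≤ a)
    (hw : w * l ^ (g + 1) ≤ q * x / 2) :
    (g : ℝ) * ((t + 1) * e * Y * Real.log 4) + w ≤ q * x / l ^ (g + 1) := by
  have h4 : Real.log 4 ≤ 2 := by
    have h5 : Real.log 4 = 2 * Real.log 2 := by
      rw [show (4 : ℝ) = 2 ^ 2 by norm_num, Real.log_pow]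
      norm_num
    have h6 := Real.log_two_lt_d9
    linarith
  have h4' : 0 ≤ Real.log 4 := Real.log_nonneg (by norm_num)
  have hU0 : 0 < U := lt_of_lt_of_le (by positivity) hU
  have h2 : 256 * ((g : ℝ) + 1) * l ^ (g + 2) ≤ q * a := by
    have h3 := mul_le_mul_of_nonneg_left h1 hq.le
    have h5 : q * (256 * ((g : ℝ) + 1) / q * l ^ (g + 2)) = 256 * ((g : ℝ) + 1) * l ^ (g + 2) := by
      field_simp
    linarith
  rw [le_div_iff₀ (by positivity)]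
  have hg : (g : ℝ) ≤ (g : ℝ) + 1 := by linarith
  have h5 : (g : ℝ) * ((t + 1) * e * Y * Real.log 4) ≤ ((g : ℝ) + 1) * ((2 * a) * (4 * l) * Y * 2) := by
    gcongr
  have h6 : (g : ℝ) * ((t + 1) * e * Y * Real.log 4) * l ^ (g + 1) * U ≤ (q * x / 2) * U := by
    calc (g : ℝ) * ((t + 1) * e * Y * Real.log 4) * l ^ (g + 1) * U
        ≤ ((g : ℝ) + 1) * ((2 * a) * (4 * l) * Y * 2) * l ^ (g + 1) * U := by gcongr
      _ = 16 * ((g : ℝ) + 1) * a * l ^ (g + 2) * (Y * U) := by ring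
      _ ≤ 16 * ((g : ℝ) + 1) * a * l ^ (g + 2) * (4 * x) := by gcongr
      _ = (256 * ((g : ℝ) + 1) * l ^ (g + 2)) * (a * x / 4) := by ring
      _ ≤ (q * a) * (a * x / 4) := by gcongr
      _ = (q * x / 2) * (a * a / 2) := by ring
      _ ≤ (q * x / 2) * U := by gcongr
  have h7 : (g : ℝ) * ((t + 1) * e * Y * Real.log 4) * l ^ (g + 1) ≤ q * x / 2 :=
    le_of_mul_le_mul_right h6 hU0
  linarith

theorem par_XK (K₁ : ℕ) (A : ℝ) (hA : 1 < A) : ∃ c₀ : ℝ, 0 < c₀ ∧ ∀ (g k t₀ : ℕ) (Q q : ℝ), 1 ≤ Q → 0 < q →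
    ∀ᶠ X : ℕ in atTop,
    ∃ U t b Y : ℕ, 1 ≤ U ∧ K₁ ≤ U ∧ (U : ℝ) ^ K₁ ≤ X / Q ∧ (K₁ : ℝ) * Real.log X ≤ U ∧ 3 * X ≤ 2 ^ b ∧
    4 * U ≤ Y ∧ 3 * X ≤ Y * U ^ 1 ∧ (Y : ℝ) < X / Q ∧ (X : ℝ) ≤ (Y : ℝ) ^ A ∧ t₀ ≤ t ∧
    (g : ℝ) * (((t : ℝ) + 1) * b * Y * Real.log 4) + (4 * (X : ℝ) + 4) ^ c₀ ≤ q * X / (Real.log X) ^ (g + 1) ∧
    k * Real.log (4 * X + 5) + (4 * (X : ℝ) + 4) ^ c₀ ≤ t * Real.log 2 := by
  obtain ⟨s, hs⟩ : ∃ s : ℝ, s = min (1 / (8 * ((K₁ : ℝ) + 1))) ((1 - 1 / A) / 4) := ⟨_, rfl⟩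
  have hK1 : (0 : ℝ) ≤ K₁ := Nat.cast_nonneg _
  have hA0 : 0 < A := by linarith
  have hA1 : 1 / A < 1 := by
    rw [div_lt_one hA0]
    exact hA
  have hs0 : 0 < s := by
    rw [hs]
    refine lt_min (by positivity) ?_
    linarith
  have hs1 : s * (8 * ((K₁ : ℝ) + 1)) ≤ 1 := by
    have h1 : s ≤ 1 / (8 * ((K₁ : ℝ) + 1)) := by
      rw [hs]
      exact min_le_left _ _
    rwa [le_div_iff₀ (by positivity)] at h1
  have hsA : s ≤ (1 - 1 / A) / 4 := by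
    rw [hs]
    exact min_le_right _ _
  have hs8 : s ≤ 1 / 8 := by nlinarith
  have hsK : 2 * s * K₁ ≤ 1 / 4 := by nlinarith
  refine ⟨s / 4, by positivity, fun g k t₀ K q hK hq => ?_⟩
  have hnat := tendsto_natCast_atTop_atTop (R := ℝ)
  filter_upwards [hnat.eventually (SP1_ge (K₁ + 4) s hs0), hnat.eventually (SP1_ge K (3 / 4) (by norm_num)),
    hnat.eventually (SP1_ge 4 (1 / 4) (by norm_num)),
    hnat.eventually (SP1_log (256 * ((g : ℝ) + 1) / q) s (g + 2) hs0),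
    hnat.eventually (SP1_log (2 / q) (1 / 4) (g + 1) (by norm_num)),
    hnat.eventually (SP1_log (20 * ((k : ℝ) + 1)) s 1 hs0),
    hnat.eventually (SP1_ge 10 (s / 2) (by positivity)), hnat.eventually (eventually_ge_atTop 100),
    hnat.eventually (Real.tendsto_log_atTop.eventually_ge_atTop 4),
    hnat.eventually (SP1_log K₁ s 1 hs0), hnat.eventually (SP1_ge (8 * K) s hs0),
    hnat.eventually (SP1_ge t₀ s hs0)]
    with X A1 A2 A3 A4 A5 A6 A7 A8 A9 A10 A11 A12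
  obtain ⟨x, hx⟩ : ∃ x : ℝ, x = X := ⟨_, rfl⟩
  rw [← hx] at A1 A2 A3 A4 A5 A6 A7 A8 A10 A11 A12
  have hx0 : 0 < x := by linarith
  have hx1 : 1 ≤ x := by linarith
  have hX1 : 1 ≤ X := by
    have h1 : (1 : ℝ) ≤ X := by rw [← hx]; exact hx1
    exact_mod_cast h1
  obtain ⟨a, ha⟩ : ∃ a : ℝ, a = x ^ s := ⟨_, rfl⟩
  have haa : x ^ (2 * s) = a * a := by
    rw [ha, ← Real.rpow_add hx0]
    congr 1
    ring
  have ha4 : (K₁ : ℝ) + 4 ≤ a := by rw [ha]; exact A1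
  have ha0 : 0 < a := by linarith
  have hUle : ((⌊a * a⌋₊ : ℕ) : ℝ) ≤ a * a := Nat.floor_le (by positivity)
  have hUlt : a * a - 1 < ((⌊a * a⌋₊ : ℕ) : ℝ) := Nat.sub_one_lt_floor _
  obtain ⟨U, hU⟩ : ∃ U : ℕ, U = ⌊a * a⌋₊ := ⟨_, rfl⟩
  rw [← hU] at hUle hUlt
  have hU2 : a * a / 2 ≤ U := by nlinarith
  have hUK : (K₁ : ℝ) ≤ U := by nlinarith
  have hU1 : (1 : ℝ) ≤ U := by nlinarith
  have hUa : a ≤ U := by nlinarith
  have hU1' : 1 ≤ U := by exact_mod_cast hU1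
  have htle : ((⌊a⌋₊ : ℕ) : ℝ) ≤ a := Nat.floor_le ha0.le
  have htlt : a - 1 < ((⌊a⌋₊ : ℕ) : ℝ) := Nat.sub_one_lt_floor _
  have hq4 : x ^ (1 / 4 : ℝ) * x ^ (3 / 4 : ℝ) = x := by
    rw [← Real.rpow_add hx0]
    norm_num
  have hpK : (U : ℝ) ^ K₁ ≤ x ^ (1 / 4 : ℝ) := by
    calc (U : ℝ) ^ K₁ ≤ (a * a) ^ K₁ := by gcongr
      _ = x ^ (2 * s * K₁) := by rw [← haa, ← Real.rpow_natCast, ← Real.rpow_mul hx0.le]
      _ ≤ x ^ (1 / 4 : ℝ) := Real.rpow_le_rpow_of_exponent_le hx1 hsK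
  have hUx : (U : ℝ) ≤ x ^ (1 / 4 : ℝ) := by
    refine hUle.trans ?_
    rw [← haa]
    exact Real.rpow_le_rpow_of_exponent_le hx1 (by linarith)
  have h34 : x ^ (3 / 4 : ℝ) ≤ x := by
    have h6 : 0 ≤ x ^ (3 / 4 : ℝ) := by positivity
    nlinarith
  have hU2x : 4 * (U : ℝ) ^ 2 ≤ x := by
    have h1 : (U : ℝ) ^ 2 ≤ x ^ (1 / 4 : ℝ) * x ^ (1 / 4 : ℝ) := by
      rw [pow_two]
      gcongr
    have h2 : x ^ (1 / 4 : ℝ) * x ^ (1 / 4 : ℝ) * x ^ (1 / 4 : ℝ) = x ^ (3 / 4 : ℝ) := by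
      rw [← Real.rpow_add hx0, ← Real.rpow_add hx0]
      norm_num
    have h3 : 0 ≤ x ^ (1 / 4 : ℝ) * x ^ (1 / 4 : ℝ) := by positivity
    nlinarith
  have hw : (4 * x + 4) ^ (s / 4) ≤ x ^ (s / 2) := by
    have h1 : 4 * x + 4 ≤ x ^ (2 : ℝ) := by
      rw [Real.rpow_two]
      nlinarith
    calc (4 * x + 4) ^ (s / 4) ≤ (x ^ (2 : ℝ)) ^ (s / 4) :=
          Real.rpow_le_rpow (by positivity) h1 (by positivity)
      _ = x ^ (s / 2) := by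
          rw [← Real.rpow_mul hx0.le]
          congr 1
          ring
  have hl : 0 < Real.log x := by
    rw [hx]
    linarith
  have he : (Nat.clog 2 (3 * X) : ℝ) ≤ 4 * Real.log x := by
    rw [hx]
    exact SP1_clog hX1 A9
  have hw1 : (4 * x + 4) ^ (s / 4) * Real.log x ^ (g + 1) ≤ q * x / 2 := by
    have h1 : (4 * x + 4) ^ (s / 4) ≤ x ^ (1 / 4 : ℝ) :=
      hw.trans (Real.rpow_le_rpow_of_exponent_le hx1 (by linarith))
    have h3 : Real.log x ^ (g + 1) ≤ q / 2 * x ^ (1 / 4 : ℝ) := by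
      have h4 := mul_le_mul_of_nonneg_left A5 (show 0 ≤ q / 2 by positivity)
      have h5 : q / 2 * (2 / q * Real.log x ^ (g + 1)) = Real.log x ^ (g + 1) := by field_simp
      linarith
    have h4 : x ^ (1 / 4 : ℝ) * x ^ (1 / 4 : ℝ) ≤ x := by
      have h2 : x ^ (1 / 4 : ℝ) * x ^ (1 / 4 : ℝ) = x ^ (1 / 2 : ℝ) := by
        rw [← Real.rpow_add hx0]
        norm_num
      rw [h2]
      calc x ^ (1 / 2 : ℝ) ≤ x ^ (1 : ℝ) := Real.rpow_le_rpow_of_exponent_le hx1 (by norm_num)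
        _ = x := Real.rpow_one x
    calc (4 * x + 4) ^ (s / 4) * Real.log x ^ (g + 1)
        ≤ x ^ (1 / 4 : ℝ) * (q / 2 * x ^ (1 / 4 : ℝ)) := by gcongr
      _ = q / 2 * (x ^ (1 / 4 : ℝ) * x ^ (1 / 4 : ℝ)) := by ring
      _ ≤ q / 2 * x := by gcongr
      _ = q * x / 2 := by ring
  have hYle : ((3 * X / U ^ 1 + 1 : ℕ) : ℝ) * U ≤ 4 * x := by
    have h1 : ((3 * X / U ^ 1 * U : ℕ) : ℝ) ≤ 3 * x := by
      rw [hx, pow_one]
      exact_mod_cast Nat.div_mul_le_self (3 * X) U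
    have h2 : (U : ℝ) ≤ x := by nlinarith
    push_cast at h1 ⊢
    linarith
  have hYge : 3 * x ≤ ((3 * X / U ^ 1 + 1 : ℕ) : ℝ) * U := by
    have h1 := SP1_div X (U ^ 1) (by positivity)
    have h2 : ((3 * X : ℕ) : ℝ) ≤ (((3 * X / U ^ 1 + 1) * U ^ 1 : ℕ) : ℝ) := by exact_mod_cast h1
    rw [pow_one] at h2 ⊢
    push_cast at h2 ⊢
    rw [hx]
    exact h2
  have hY0 : (0 : ℝ) ≤ ((3 * X / U ^ 1 + 1 : ℕ) : ℝ) := Nat.cast_nonneg _
  refine ⟨U, ⌊a⌋₊, Nat.clog 2 (3 * X), 3 * X / U ^ 1 + 1, hU1', by exact_mod_cast hUK, ?_, ?_,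
    Nat.le_pow_clog (by norm_num) _, ?_, SP1_div X _ (by positivity), ?_, ?_, ?_, ?_, ?_⟩
  · rw [← hx, le_div_iff₀ (by linarith)]
    calc (U : ℝ) ^ K₁ * K ≤ x ^ (1 / 4 : ℝ) * x ^ (3 / 4 : ℝ) := by gcongr
      _ = x := hq4
  · rw [← hx]
    rw [pow_one, ← ha] at A10
    exact A10.trans hUa
  · refine le_trans ?_ (Nat.le_succ _)
    rw [Nat.le_div_iff_mul_le (by positivity)]
    have h1 : (4 * (U : ℝ)) * U ^ 1 ≤ 3 * X := by
      rw [← hx]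
      nlinarith
    exact_mod_cast h1
  · rw [← hx, lt_div_iff₀ (by linarith)]
    have h1 : 8 * K ≤ a := by rw [ha]; exact A11
    have h2 : ((3 * X / U ^ 1 + 1 : ℕ) : ℝ) * (a * a / 2) ≤ 4 * x :=
      (mul_le_mul_of_nonneg_left hU2 hY0).trans hYle
    have h3' : 8 * K * 4 ≤ a * a := mul_le_mul h1 (by linarith) (by norm_num) ha0.le
    have h3 : 16 * K ≤ a * a / 2 := by linarith
    have h4 : ((3 * X / U ^ 1 + 1 : ℕ) : ℝ) * (16 * K) ≤ 4 * x :=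
      (mul_le_mul_of_nonneg_left h3 hY0).trans h2
    linarith
  · rw [← hx]
    have h1 : x ^ (1 - 2 * s) ≤ ((3 * X / U ^ 1 + 1 : ℕ) : ℝ) := by
      have h2 : x ^ (1 - 2 * s) * (a * a) = x := by
        rw [← haa, ← Real.rpow_add hx0]
        norm_num
      have h3 : ((3 * X / U ^ 1 + 1 : ℕ) : ℝ) * U ≤ ((3 * X / U ^ 1 + 1 : ℕ) : ℝ) * (a * a) :=
        mul_le_mul_of_nonneg_left hUle hY0
      have h4 : x ^ (1 - 2 * s) * (a * a) ≤ ((3 * X / U ^ 1 + 1 : ℕ) : ℝ) * (a * a) := by linarith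
      exact le_of_mul_le_mul_right h4 (by positivity)
    have h2 : x ^ (1 / A) ≤ x ^ (1 - 2 * s) := Real.rpow_le_rpow_of_exponent_le hx1 (by linarith)
    calc x = (x ^ (1 / A)) ^ A := by
          rw [← Real.rpow_mul hx0.le, one_div, inv_mul_cancel₀ hA0.ne', Real.rpow_one]
      _ ≤ _ := Real.rpow_le_rpow (by positivity) (h2.trans h1) hA0.le
  · refine Nat.le_floor ?_
    rw [ha]
    exact A12
  · have h1 := SP1_loss (x := x) (l := Real.log x) (a := a) (q := q) (U := U) (t := (⌊a⌋₊ : ℕ))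
      (e := (Nat.clog 2 (3 * X) : ℕ)) (Y := ((3 * X / U ^ 1 + 1 : ℕ) : ℝ)) (w := (4 * x + 4) ^ (s / 4)) g
      hx0 hl ha0 hq hU2 (by linarith) (by positivity) (by positivity) he (by positivity) hYle
      (by rw [ha]; exact A4) hw1
    rw [hx] at h1
    exact h1
  · rw [← hx]
    have h1 : Real.log (4 * x + 5) ≤ 2 * Real.log x := by
      rw [← Real.log_rpow hx0, Real.rpow_two]
      refine Real.log_le_log (by positivity) ?_
      nlinarith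
    have h2 : x ^ (s / 2) * x ^ (s / 2) = a := by
      rw [ha, ← Real.rpow_add hx0]
      congr 1
      ring
    have h3 := Real.log_two_gt_d9
    rw [pow_one, ← ha] at A6
    have h5 : 10 * x ^ (s / 2) ≤ a := by
      rw [← h2]
      gcongr
    have hk0 : (0 : ℝ) ≤ k := Nat.cast_nonneg _
    have h6 : (k : ℝ) * Real.log (4 * x + 5) ≤ a / 10 := by
      have h7 : (k : ℝ) * Real.log (4 * x + 5) ≤ k * (2 * Real.log x) := mul_le_mul_of_nonneg_left h1 hk0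
      linarith
    have h8 : (a - 1) * 0.69 ≤ ((⌊a⌋₊ : ℕ) : ℝ) * Real.log 2 :=
      mul_le_mul htlt.le (by linarith) (by norm_num) (by positivity)
    linarith

end VK
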