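import Pool.Agent.Lib.MP_17a322_ntVK.SR1

/-!
# LEAF ST1: the parameter `x / y` on the kernel of reduction (as `MP_10e784_agV/C5`)

Notation `v = π.V.valuation` (values in a linearly ordered group with zero, `v z ≤ 1 ↔ z ∈ V`, `v z < 1` for `z ∈ V` with `z = 0` or `z⁻¹ ∉ V`).
PROOF of `t_valK`: `v x > 1`, so `v (y²) = v (x³ + A x + B) = v x ^ 3` (dominating term); `v (x / y) ^ 2 = v x ^ 2 / v x ^ 3 = (v x)⁻¹`.
PROOF of `t_sumK`.  `lin_of_sum` (EA): `l, n`.  With `v_i = v (x_i / y_i) < 1`: `v x_i = v_i⁻²`, `v y_i = v_i⁻³`.  `n² = B + x₁ x₂ x₃` (`e3`): `v n = (v₁ v₂ v₃)⁻¹` (`v n ^ 2 = (v₁ v₂ v₃)⁻²`); `l² = x₁ + x₂ + x₃`: `v l ^ 2 ≤ w⁻²` where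
`w = min v_i`, so `v l ≤ w⁻¹`.  Identity: `x₁ y₂ y₃ + x₂ y₁ y₃ + x₃ y₁ y₂ = 2 A l n - 3 B l²` (`linear_combination (3 * l ^ 2) * e3 - (2 * l * n) * e2 - n ^ 2 * e1` after `rw [y1, y2, y3]`), so
`v (∑ x_i / y_i) ≤ max (w⁻¹ (v₁ v₂ v₃)⁻¹) (w⁻²) (v₁ v₂ v₃)³ ≤ w⁻¹ (v₁ v₂ v₃)² ≤ m (product of two of the v_i <= m times ..) < m`, `m = max v_i`: e.g. `w⁻¹ (v₁ v₂ v₃)² = (v₁ v₂ v₃ / w) (v₁ v₂ v₃) ≤ m² · m < m`.
-/

namespace VK

open LVH

private theorem ST1_one_lt {Γ : Type*} [LinearOrderedCommGroupWithZero Γ] {a : Γ} (h : ¬ a ≤ 1) :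
    1 < a ∧ a ≠ 0 :=
  ⟨not_le.1 h, (lt_trans zero_lt_one (not_le.1 h)).ne'⟩

/-- the dominating term -/
private theorem ST1_dom {K Γ : Type*} [Field K] [LinearOrderedCommGroupWithZero Γ] (v : Valuation K Γ) {x y : K}
    (h : v y < v x) : v (x + y) = v x := by
  rw [add_comm]
  exact Valuation.map_add_eq_of_lt_right v h

private theorem ST1_m1 {M : Type*} [CommMonoid M] (L n P : M) : L * n * P ^ 3 = (L * P) * P * (n * P) := by
  simp only [pow_succ, pow_zero, one_mul]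
  ac_rfl

private theorem ST1_m2 {M : Type*} [CommMonoid M] (L P : M) : L * L * P ^ 3 = (L * P) * (L * P) * P := by
  simp only [pow_succ, pow_zero, one_mul]
  ac_rfl

private theorem ST1_m3 {M : Type*} [CommMonoid M] (a b c s t u : M) :
    a * b * c * (s * t * u) ^ 2 = (a * s ^ 2) * (b * t ^ 2) * (c * u ^ 2) := by
  simp only [pow_succ, pow_zero, one_mul]
  ac_rfl

private theorem ST1_m4 {M : Type*} [CommMonoid M] (a s t u : M) : a * (s * t * u) ^ 2 = (a * s ^ 2) * (t * u) ^ 2 := by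
  simp only [pow_succ, pow_zero, one_mul]
  ac_rfl

private theorem ST1_m5 {M : Type*} [CommMonoid M] (a s t u : M) : a * (s * t * u) ^ 2 = (a * t ^ 2) * (s * u) ^ 2 := by
  simp only [pow_succ, pow_zero, one_mul]
  ac_rfl

private theorem ST1_m6 {M : Type*} [CommMonoid M] (a s t u : M) : a * (s * t * u) ^ 2 = (a * u ^ 2) * (s * t) ^ 2 := by
  simp only [pow_succ, pow_zero, one_mul]
  ac_rfl

private theorem ST1_sq {Γ : Type*} [LinearOrderedCommGroupWithZero Γ] {a b : Γ} (h : a ^ 2 ≤ b ^ 2) : a ≤ b := by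
  by_contra hc
  exact absurd h (not_le.2 (pow_lt_pow_left₀ (not_le.1 hc) zero_le two_ne_zero))

private theorem ST1_end {Γ : Type*} [LinearOrderedCommGroupWithZero Γ] {L n P m : Γ} (hP : P < 1) (hm : m < 1)
    (hm0 : 0 < m) (hn : n * P = 1) (hL : L * P ≤ m * m) : max (L * n) (L * L) * P ^ 3 < m := by
  have h1 : m * m * P < m := by
    have h2 : m * P < 1 := mul_lt_one' hm hP
    calc m * m * P = m * (m * P) := mul_assoc _ _ _
      _ < m * 1 := mul_lt_mul_of_pos_left h2 hm0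
      _ = m := mul_one m
  have h3 : L * n * P ^ 3 < m := by
    calc L * n * P ^ 3 = (L * P) * P * (n * P) := ST1_m1 L n P
      _ = (L * P) * P := by rw [hn, mul_one]
      _ ≤ m * m * P := mul_le_mul_left hL P
      _ < m := h1
  have h4 : L * L * P ^ 3 < m := by
    calc L * L * P ^ 3 = (L * P) * (L * P) * P := ST1_m2 L P
      _ ≤ (m * m) * (m * m) * P := mul_le_mul_left (mul_le_mul' hL hL) P
      _ ≤ (m * m) * 1 * P := mul_le_mul_left (mul_le_mul_right (mul_le_one' hm.le hm.le) _) P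
      _ = m * m * P := by rw [mul_one]
      _ < m := h1
  rcases max_choice (L * n) (L * L) with h | h
  · rw [h]; exact h3
  · rw [h]; exact h4

theorem t_valK {K : Type} [Field K] {p : ℕ} (π : Pl K p) {A B : K} (hA : A ∈ π.V) (hB : B ∈ π.V) {x y : K}
    (h : y ^ 2 = x ^ 3 + A * x + B) (hx : x ∉ π.V) :
    x ≠ 0 ∧ y ≠ 0 ∧ π.V.valuation (x / y) < 1 ∧ π.V.valuation x * π.V.valuation (x / y) ^ 2 = 1 ∧
      π.V.valuation y * π.V.valuation (x / y) ^ 3 = 1 := by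
  have hx1 : ¬ π.V.valuation x ≤ 1 := fun h1 => hx ((π.V.valuation_le_one_iff x).1 h1)
  have hA1 := (π.V.valuation_le_one_iff A).2 hA
  have hB1 := (π.V.valuation_le_one_iff B).2 hB
  generalize π.V.valuation = v at hx1 hA1 hB1 ⊢
  obtain ⟨h1, h0⟩ := ST1_one_lt hx1
  have h3 : v x < v (x ^ 3) := by
    rw [map_pow]
    calc v x = v x * 1 := (mul_one _).symm
      _ < v x * (v x ^ 2) :=
        mul_lt_mul_of_pos_left (one_lt_pow' h1 two_ne_zero) (lt_trans zero_lt_one h1)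
      _ = v x ^ 3 := (pow_succ' (v x) 2).symm
  have h4 : v (A * x + B) < v (x ^ 3) := by
    refine lt_of_le_of_lt (Valuation.map_add v _ _) (lt_of_le_of_lt (max_le ?_ ?_) h3)
    · rw [map_mul]
      calc v A * v x ≤ 1 * v x := mul_le_mul_left hA1 _
        _ = v x := one_mul _
    · exact hB1.trans h1.le
  have h5 : v y ^ 2 = v x ^ 3 := by
    rw [← map_pow, h, add_assoc, ST1_dom v h4, map_pow]
  have hx0 : x ≠ 0 := fun hx0 => h0 (by rw [hx0, map_zero])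
  have hvy : v y ≠ 0 := by
    intro hy
    rw [hy] at h5
    exact pow_ne_zero 3 h0 (by rw [← h5]; simp)
  have hy0 : y ≠ 0 := fun hy0 => hvy (by rw [hy0, map_zero])
  have h6 : v x * v (x / y) ^ 2 = 1 := by
    rw [map_div₀, div_pow, h5, mul_div_assoc', ← pow_succ', div_self (pow_ne_zero 3 h0)]
  have h7 : v y * v (x / y) ^ 3 = 1 := by
    rw [map_div₀, div_pow, ← h5, mul_div_assoc', ← pow_succ', div_self (pow_ne_zero 3 hvy)]
  refine ⟨hx0, hy0, ?_, h6, h7⟩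
  by_contra hc
  have h8 : 1 ≤ v (x / y) ^ 2 := one_le_pow_of_one_le' (not_lt.1 hc) 2
  have h9 : v x * 1 ≤ v x * v (x / y) ^ 2 := mul_le_mul_right h8 _
  rw [h6, mul_one] at h9
  exact absurd h9 hx1

theorem t_sumK {K : Type} [Field K] [DecidableEq K] [CharZero K] {p : ℕ} (π : Pl K p) {A B : K} (hA : A ∈ π.V)
    (hB : B ∈ π.V) {x₁ y₁ x₂ y₂ x₃ y₃ : K} {h₁ : (EK A B).toAffine.Nonsingular x₁ y₁}
    {h₂ : (EK A B).toAffine.Nonsingular x₂ y₂} {h₃ : (EK A B).toAffine.Nonsingular x₃ y₃}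
    (h : (.some x₁ y₁ h₁ : Pt A B) + .some x₂ y₂ h₂ + .some x₃ y₃ h₃ = 0) (g₁ : x₁ ∉ π.V) (g₂ : x₂ ∉ π.V)
    (g₃ : x₃ ∉ π.V) :
    π.V.valuation (x₁ / y₁ + x₂ / y₂ + x₃ / y₃) <
      max (π.V.valuation (x₁ / y₁)) (max (π.V.valuation (x₂ / y₂)) (π.V.valuation (x₃ / y₃))) := by
  obtain ⟨l, n, hL⟩ := lin_of_sum A B (two_ne_zero) x₁ y₁ x₂ y₂ x₃ y₃ h₁ h₂ h₃ h
  obtain ⟨a1, b1, c1, d1, f1⟩ := t_valK π hA hB ((EK_eqn A B x₁ y₁).1 h₁.1) g₁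
  obtain ⟨a2, b2, c2, d2, f2⟩ := t_valK π hA hB ((EK_eqn A B x₂ y₂).1 h₂.1) g₂
  obtain ⟨a3, b3, c3, d3, f3⟩ := t_valK π hA hB ((EK_eqn A B x₃ y₃).1 h₃.1) g₃
  have hx1 : ¬ π.V.valuation x₁ ≤ 1 := fun h1 => g₁ ((π.V.valuation_le_one_iff x₁).1 h1)
  have hx2 : ¬ π.V.valuation x₂ ≤ 1 := fun h1 => g₂ ((π.V.valuation_le_one_iff x₂).1 h1)
  have hx3 : ¬ π.V.valuation x₃ ≤ 1 := fun h1 => g₃ ((π.V.valuation_le_one_iff x₃).1 h1)
  have hB1 := (π.V.valuation_le_one_iff B).2 hB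
  have hA2 := (π.V.valuation_le_one_iff (2 * A)).2
    (mul_mem (by simp) hA)
  have hB3 := (π.V.valuation_le_one_iff (3 * B)).2
    (mul_mem (by simp) hB)
  generalize π.V.valuation = v at *
  obtain ⟨hx1, hx1'⟩ := ST1_one_lt hx1
  obtain ⟨hx2, hx2'⟩ := ST1_one_lt hx2
  obtain ⟨hx3, hx3'⟩ := ST1_one_lt hx3
  have hn2 : n ^ 2 = x₁ * x₂ * x₃ + B := by linear_combination (-1 : K) * hL.e3
  have hX : v B < v (x₁ * x₂ * x₃) := by
    rw [map_mul, map_mul]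
    refine lt_of_le_of_lt hB1 ?_
    exact one_lt_mul'' (one_lt_mul'' hx1 hx2) hx3
  have hn : v n ^ 2 = v x₁ * v x₂ * v x₃ := by
    rw [← map_pow, hn2, ST1_dom v hX, map_mul, map_mul]
  have hl : v l ^ 2 ≤ max (max (v x₁) (v x₂)) (v x₃) := by
    rw [← map_pow, hL.e1]
    exact (Valuation.map_add v _ _).trans (max_le_max (Valuation.map_add v _ _) le_rfl)
  have hid : x₁ * y₂ * y₃ + x₂ * y₁ * y₃ + x₃ * y₁ * y₂ = (2 * A) * (l * n) - (3 * B) * (l * l) := by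
    rw [hL.y1, hL.y2, hL.y3]
    linear_combination (3 * l ^ 2) * hL.e3 - (2 * l * n) * hL.e2 - n ^ 2 * hL.e1
  have hsum : x₁ / y₁ + x₂ / y₂ + x₃ / y₃ = (x₁ * y₂ * y₃ + x₂ * y₁ * y₃ + x₃ * y₁ * y₂) /
      (y₁ * y₂ * y₃) := by
    field_simp
  have hnum : v (x₁ * y₂ * y₃ + x₂ * y₁ * y₃ + x₃ * y₁ * y₂) ≤ max (v l * v n) (v l * v l) := by
    rw [hid]
    refine (Valuation.map_sub v _ _).trans (max_le_max ?_ ?_)
    · rw [map_mul, map_mul v l n]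
      exact mul_le_of_le_one_left' hA2
    · rw [map_mul, map_mul v l l]
      exact mul_le_of_le_one_left' hB3
  have hvs : v (x₁ / y₁ + x₂ / y₂ + x₃ / y₃) = v (x₁ * y₂ * y₃ + x₂ * y₁ * y₃ + x₃ * y₁ * y₂) *
      (v (x₁ / y₁) * v (x₂ / y₂) * v (x₃ / y₃)) ^ 3 := by
    rw [hsum, map_div₀, map_mul v (y₁ * y₂) y₃, map_mul v y₁ y₂, div_eq_mul_inv]
    congr 1
    rw [mul_pow, mul_pow, mul_inv, mul_inv, inv_eq_of_mul_eq_one_right f1,
      inv_eq_of_mul_eq_one_right f2, inv_eq_of_mul_eq_one_right f3]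
  rw [hvs]
  obtain ⟨t1, ht1⟩ : ∃ t, t = v (x₁ / y₁) := ⟨_, rfl⟩
  obtain ⟨t2, ht2⟩ : ∃ t, t = v (x₂ / y₂) := ⟨_, rfl⟩
  obtain ⟨t3, ht3⟩ : ∃ t, t = v (x₃ / y₃) := ⟨_, rfl⟩
  rw [← ht1] at c1 d1 f1 ⊢
  rw [← ht2] at c2 d2 f2 ⊢
  rw [← ht3] at c3 d3 f3 ⊢
  obtain ⟨m, hm⟩ : ∃ m, m = max t1 (max t2 t3) := ⟨_, rfl⟩
  rw [← hm]
  have hm1 : t1 ≤ m := hm ▸ le_max_left _ _
  have hm2 : t2 ≤ m := hm ▸ (le_max_left _ _).trans (le_max_right _ _)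
  have hm3 : t3 ≤ m := hm ▸ (le_max_right _ _).trans (le_max_right _ _)
  have hmlt : m < 1 := hm ▸ max_lt c1 (max_lt c2 c3)
  have ht10 : t1 ≠ 0 := by
    rintro rfl
    simp at d1
  have hm0 : 0 < m := lt_of_lt_of_le (zero_lt_iff.2 ht10) hm1
  refine lt_of_le_of_lt (mul_le_mul_left hnum _) (ST1_end (mul_lt_one' (mul_lt_one' c1 c2) c3) hmlt hm0 ?_ ?_)
  · have h8 : (v n * (t1 * t2 * t3)) ^ 2 = 1 := by
      rw [mul_pow, hn]
      calc v x₁ * v x₂ * v x₃ * (t1 * t2 * t3) ^ 2 =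
          (v x₁ * t1 ^ 2) * (v x₂ * t2 ^ 2) * (v x₃ * t3 ^ 2) := ST1_m3 _ _ _ _ _ _
        _ = 1 := by rw [d1, d2, d3, mul_one, mul_one]
    exact le_antisymm (ST1_sq (by rw [h8, one_pow])) (ST1_sq (by rw [h8, one_pow]))
  · apply ST1_sq
    calc (v l * (t1 * t2 * t3)) ^ 2 = v l ^ 2 * (t1 * t2 * t3) ^ 2 := mul_pow _ _ _
      _ ≤ max (max (v x₁) (v x₂)) (v x₃) * (t1 * t2 * t3) ^ 2 := mul_le_mul_left hl _
      _ ≤ (m * m) ^ 2 := by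
        rcases max_choice (max (v x₁) (v x₂)) (v x₃) with h9 | h9
        · rw [h9]
          rcases max_choice (v x₁) (v x₂) with h9 | h9
          · rw [h9]
            calc v x₁ * (t1 * t2 * t3) ^ 2 = (v x₁ * t1 ^ 2) * (t2 * t3) ^ 2 := ST1_m4 _ _ _ _
              _ = (t2 * t3) ^ 2 := by rw [d1, one_mul]
              _ ≤ (m * m) ^ 2 := pow_le_pow_left' (mul_le_mul' hm2 hm3) 2
          · rw [h9]
            calc v x₂ * (t1 * t2 * t3) ^ 2 = (v x₂ * t2 ^ 2) * (t1 * t3) ^ 2 := ST1_m5 _ _ _ _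
              _ = (t1 * t3) ^ 2 := by rw [d2, one_mul]
              _ ≤ (m * m) ^ 2 := pow_le_pow_left' (mul_le_mul' hm1 hm3) 2
        · rw [h9]
          calc v x₃ * (t1 * t2 * t3) ^ 2 = (v x₃ * t3 ^ 2) * (t1 * t2) ^ 2 := ST1_m6 _ _ _ _
            _ = (t1 * t2) ^ 2 := by rw [d3, one_mul]
            _ ≤ (m * m) ^ 2 := pow_le_pow_left' (mul_le_mul' hm1 hm2) 2

end VK
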