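import Pool.Agent.Lib.MP_17a322_ntVK.SR3
import Pool.Agent.Lib.MP_17a322_ntVK.ST1

/-!
# LEAF ST2: the kernel of reduction has no torsion prime to `p` (as `MP_10e784_agV/C6`)

PROOF of `ker_freeK`.  Notation `v = π.V.valuation`, `τ (a, b) = a / b`.  As `ker_free` of `agV/C6` with a weaker estimate: by induction on `1 ≤ n < q`: `n P = (a, b)` with `a ∉ V`, `v (a / b) ≤ v (x / y)` and
`v (a / b - n (x / y)) < v (x / y)`.  Step: `t_sumK` for the three points `n P`, `P`, `- (n + 1) P` (all in the kernel: `exists_redK`; not `0`); if `v (τ ((n+1) P)) > v (x / y)` then `v (τ (n P) + τ P - τ ((n+1) P)) = v (τ ((n+1) P))` (the largest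
term), contradiction to `t_sumK`; so the maximum is `v (x / y)` and `v (τ (n P) + τ P - τ ((n+1) P)) < v (x / y)`, add.  If `q P = 0`: `(q - 1) P = - P`, so `v (- x / y - (q - 1) (x / y)) = v (q) v (x / y) = v (x / y)` (as `q ≠ p` is a unit of `V`: its residue
is not zero, `res_zero`), contradiction.  (`q = 2`: the case `n = 1`.)
PROOF of `tors_M`.  The homomorphism `ρ` of `exists_redK` is injective on `{P // M • P = 0}`: if `M • P = M • Q = 0`, `ρ P = ρ Q`, `σ = P - Q ≠ 0`: `ρ σ = 0`, `M • σ = 0`, some multiple of `σ` has prime order `q ∣ M`, `q ≠ p`, and is in the kernel.  `card_pt` (EB).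
-/

namespace VK

open LVH

private theorem ST2_eq {K : Type} [Field K] [DecidableEq K] {A B x y : K}
    (h : (EK A B).toAffine.Nonsingular x y) : y ^ 2 = x ^ 3 + A * x + B :=
  (EK_eqn A B x y).1 h.1

private theorem ST2_negY {K : Type} [Field K] {A B : K} (x y : K) :
    (EK A B).toAffine.negY x y = -y := by
  simp [WeierstrassCurve.Affine.negY, EK]

/-- the step: the third point -/
private theorem ST2_step {K : Type} [Field K] [DecidableEq K] [CharZero K] {p : ℕ} (π : Pl K p) {A B : K}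
    (hA : A ∈ π.V) (hB : B ∈ π.V) {x y a b c d : K}
    {h : (EK A B).toAffine.Nonsingular x y} {h1 : (EK A B).toAffine.Nonsingular a b}
    {h2 : (EK A B).toAffine.Nonsingular c d} (gx : x ∉ π.V) (ga : a ∉ π.V) (gc : c ∉ π.V)
    (hs : (.some c d h2 : Pt A B) = .some a b h1 + .some x y h)
    (ka : π.V.valuation (a / b) ≤ π.V.valuation (x / y)) (n : ℕ)
    (hn : π.V.valuation (a / b - n * (x / y)) < π.V.valuation (x / y)) :
    π.V.valuation (c / d) ≤ π.V.valuation (x / y) ∧
      π.V.valuation (c / d - ((n + 1 : ℕ) : K) * (x / y)) < π.V.valuation (x / y) := by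
  obtain ⟨k, hk⟩ : ∃ k, k = π.V.valuation (x / y) := ⟨_, rfl⟩
  obtain ⟨l, hl⟩ : ∃ l, l = π.V.valuation (c / d) := ⟨_, rfl⟩
  have hsum : (.some a b h1 : Pt A B) + .some x y h +
      .some c ((EK A B).toAffine.negY c d)
        ((WeierstrassCurve.Affine.nonsingular_neg (W' := (EK A B).toAffine) c d).2 h2) = 0 := by
    have e := add_neg_cancel (.some c d h2 : Pt A B)
    rw [WeierstrassCurve.Affine.Point.neg_some] at e
    rw [← hs]
    exact e
  have hts := t_sumK π hA hB hsum ga gx gc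
  rw [ST2_negY, div_neg, Valuation.map_neg, ← hk, ← hl] at hts
  rw [← hk] at ka hn
  have hE : π.V.valuation (a / b + x / y + -(c / d)) < max k l :=
    lt_of_lt_of_le hts (max_le (ka.trans (le_max_left k l)) le_rfl)
  have hkl : l ≤ k := by
    by_contra hlt
    rw [not_le] at hlt
    rw [max_eq_right hlt.le] at hE
    have h3 : π.V.valuation (a / b + x / y + -(a / b + x / y + -(c / d))) < l := by
      refine Valuation.map_add_lt _ (Valuation.map_add_lt _ (lt_of_le_of_lt ka hlt) ?_) ?_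
      · rw [← hk]
        exact hlt
      · rw [Valuation.map_neg]
        exact hE
    have e1 : a / b + x / y + -(a / b + x / y + -(c / d)) = c / d := by ring
    rw [e1, ← hl] at h3
    exact lt_irrefl _ h3
  rw [max_eq_left hkl] at hE
  refine ⟨by rw [← hk, ← hl]; exact hkl, ?_⟩
  rw [← hk]
  have h6 : π.V.valuation (a / b - n * (x / y) + -(a / b + x / y + -(c / d))) < k := by
    refine Valuation.map_add_lt _ hn ?_
    rw [Valuation.map_neg]
    exact hE
  have e1 : a / b - n * (x / y) + -(a / b + x / y + -(c / d)) =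
      c / d - ((n + 1 : ℕ) : K) * (x / y) := by
    push_cast
    ring
  rw [e1] at h6
  exact h6

theorem ker_freeK {K : Type} [Field K] [DecidableEq K] [CharZero K] {p : ℕ} [Fact p.Prime] (π : Pl K p) {A B : K}
    (hA : A ∈ π.V) (hB : B ∈ π.V) (hp2 : p ≠ 2) (hd : ds (res π A) (res π B) ≠ 0) {x y : K}
    (h : (EK A B).toAffine.Nonsingular x y) (hx : x ∉ π.V) (q : ℕ) (hq : q.Prime) (hqp : q ≠ p) :
    q • (.some x y h : Pt A B) ≠ 0 := by
  intro h0
  obtain ⟨P, hP⟩ : ∃ P : Pt A B, P = .some x y h := ⟨_, rfl⟩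
  have hP0 : P ≠ 0 := by
    rw [hP]
    exact WeierstrassCurve.Affine.Point.some_ne_zero h
  rw [← hP] at h0
  have hne : ∀ j : ℕ, 0 < j → j < q → j • P ≠ 0 := by
    intro j hj hjq hj0
    have h1 : addOrderOf P ∣ q := addOrderOf_dvd_of_nsmul_eq_zero h0
    have h2 : addOrderOf P ∣ j := addOrderOf_dvd_of_nsmul_eq_zero hj0
    rcases (Nat.dvd_prime hq).1 h1 with h3 | h3
    · exact hP0 (AddMonoid.addOrderOf_eq_one_iff.1 h3)
    · rw [h3] at h2
      have := Nat.le_of_dvd hj h2
      omega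
  obtain ⟨ρ, hρ⟩ := exists_redK π hA hB hp2 hd
  have hρP : ρ P = 0 := by
    rw [hP]
    exact (hρ x y h).1 hx
  obtain ⟨hx0, hy0, -, -, -⟩ := t_valK π hA hB (ST2_eq h) hx
  have hxy : x / y ≠ 0 := div_ne_zero hx0 hy0
  have hvpos : 0 < π.V.valuation (x / y) := zero_lt_iff.2 ((Valuation.ne_zero_iff _).2 hxy)
  have key : ∀ n : ℕ, 0 < n → n < q → ∃ (a b : K) (h1 : (EK A B).toAffine.Nonsingular a b),
      n • P = .some a b h1 ∧ a ∉ π.V ∧ π.V.valuation (a / b) ≤ π.V.valuation (x / y) ∧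
      π.V.valuation (a / b - n * (x / y)) < π.V.valuation (x / y) := by
    intro n hn
    induction n, hn using Nat.le_induction with
    | base =>
      intro _
      refine ⟨x, y, h, ?_, hx, le_refl _, ?_⟩
      · exact (one_nsmul P).trans hP
      · have e0 : x / y - ((0 + 1 : ℕ) : K) * (x / y) = 0 := by
          push_cast
          ring
        rw [e0, map_zero]
        exact hvpos
    | succ n hn ih =>
      intro hlt
      obtain ⟨a, b, h1, e1, ga, ka, hE⟩ := ih (by omega)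
      have hR0 := hne (n + 1) (by omega) hlt
      obtain ⟨R, hR⟩ : ∃ R : Pt A B, R = (n + 1) • P := ⟨_, rfl⟩
      rw [← hR] at hR0
      rcases R with _ | ⟨c, d, h2⟩
      · exact absurd rfl hR0
      · have hρR : ρ (.some c d h2) = 0 := by
          rw [hR, map_nsmul, hρP, smul_zero]
        have gc : c ∉ π.V := by
          intro hc
          obtain ⟨h', e'⟩ := (hρ c d h2).2 hc
          rw [hρR] at e'
          exact WeierstrassCurve.Affine.Point.some_ne_zero h' e'.symm
        have hs : (.some c d h2 : Pt A B) = .some a b h1 + .some x y h := by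
          rw [hR, succ_nsmul, e1, hP]
        obtain ⟨k2, hE2⟩ := ST2_step π hA hB hx ga gc hs ka n hE
        exact ⟨c, d, h2, hR.symm, gc, k2, hE2⟩
  have hq2 := hq.two_le
  obtain ⟨a, b, h1, e1, -, -, hE⟩ := key (q - 1) (by omega) (by omega)
  have e2 : (q - 1) • P = -P := by
    have h3 : (q - 1) • P + P = 0 := by
      rw [← succ_nsmul, Nat.sub_add_cancel (by omega), h0]
    exact eq_neg_of_add_eq_zero_left h3
  rw [e2, hP, WeierstrassCurve.Affine.Point.neg_some] at e1
  obtain ⟨e3, e4⟩ := WeierstrassCurve.Affine.Point.some.inj e1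
  rw [ST2_negY] at e4
  rw [← e3, ← e4] at hE
  have e5 : x / -y - ((q - 1 : ℕ) : K) * (x / y) = -((q : K) * (x / y)) := by
    rw [Nat.cast_sub (by omega : 1 ≤ q), div_neg]
    push_cast
    ring
  rw [e5, Valuation.map_neg, map_mul] at hE
  have hqV : (q : K) ∈ π.V := natCast_mem π.V q
  have hqi : (q : K)⁻¹ ∈ π.V := by
    by_contra hc
    have h3 := π.ker ⟨(q : K), hqV⟩ hc
    have h4 : (⟨(q : K), hqV⟩ : π.V) = ((q : ℕ) : π.V) := Subtype.ext rfl
    rw [h4, map_natCast, ZMod.natCast_eq_zero_iff] at h3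
    exact hqp ((Nat.prime_dvd_prime_iff_eq Fact.out hq).1 h3).symm
  have hv1 : π.V.valuation (q : K) = 1 := by
    have h3 := (ValuationSubring.valuation_le_one_iff π.V (q : K)).2 hqV
    have h4 := (ValuationSubring.valuation_le_one_iff π.V (q : K)⁻¹).2 hqi
    rw [map_inv₀] at h4
    have hq0 : (q : K) ≠ 0 := by exact_mod_cast hq.ne_zero
    have h5 : 0 < π.V.valuation (q : K) := zero_lt_iff.2 ((Valuation.ne_zero_iff _).2 hq0)
    exact le_antisymm h3 ((inv_le_one₀ h5).1 h4)
  rw [hv1, one_mul] at hE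
  exact lt_irrefl _ hE

theorem tors_M {K : Type} [Field K] [DecidableEq K] [CharZero K] {p : ℕ} [Fact p.Prime] (π : Pl K p) {A B : K}
    (hA : A ∈ π.V) (hB : B ∈ π.V) (hp2 : p ≠ 2) (hd : ds (res π A) (res π B) ≠ 0) {M : ℕ} (hM : ¬ p ∣ M) :
    Nat.card {P : Pt A B // M • P = 0} ≤ MWS.nz (res π A) (res π B) + 1 := by
  have hfin : Finite (Pt (res π A) (res π B)) := fin_pt hp2 hd
  obtain ⟨ρ, hρ⟩ := exists_redK π hA hB hp2 hd
  rw [← card_pt hp2 hd]
  refine Nat.card_le_card_of_injective (fun t : {P : Pt A B // M • P = 0} => ρ t.1) ?_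
  rintro ⟨P, hP⟩ ⟨Q, hQ⟩ h0
  have h0' : ρ P = ρ Q := h0
  refine Subtype.ext ?_
  by_contra hne
  obtain ⟨t, ht⟩ : ∃ t : Pt A B, t = P - Q := ⟨_, rfl⟩
  have ht0 : t ≠ 0 := by
    rw [ht]
    exact sub_ne_zero.2 hne
  have hMt : M • t = 0 := by rw [ht, nsmul_sub, hP, hQ, sub_zero]
  have hρt : ρ t = 0 := by rw [ht, map_sub, h0', sub_self]
  have hM0 : 0 < M := by
    rcases Nat.eq_zero_or_pos M with h | h
    · exact absurd (h ▸ dvd_zero p) hM
    · exact h
  have hoM : addOrderOf t ∣ M := addOrderOf_dvd_of_nsmul_eq_zero hMt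
  have hfo : 0 < addOrderOf t := Nat.pos_of_dvd_of_pos hoM hM0
  have ho1 : addOrderOf t ≠ 1 := fun h => ht0 (AddMonoid.addOrderOf_eq_one_iff.1 h)
  obtain ⟨q, hq, hqd⟩ := Nat.exists_prime_and_dvd ho1
  have hqp : q ≠ p := fun h => hM (h ▸ hqd.trans hoM)
  obtain ⟨m, hm⟩ := hqd
  have hm0 : 0 < m := by
    rcases Nat.eq_zero_or_pos m with h | h
    · rw [h, mul_zero] at hm
      omega
    · exact h
  obtain ⟨σ, hσ⟩ : ∃ σ : Pt A B, σ = m • t := ⟨_, rfl⟩
  have hσ0 : σ ≠ 0 := by
    rw [hσ]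
    intro h
    have h3 := Nat.le_of_dvd hm0 (addOrderOf_dvd_of_nsmul_eq_zero h)
    have h4 := hq.two_le
    rw [hm] at h3
    nlinarith
  have hqσ : q • σ = 0 := by
    rw [hσ, ← mul_nsmul', ← hm]
    exact addOrderOf_nsmul_eq_zero t
  have hρσ : ρ σ = 0 := by rw [hσ, map_nsmul, hρt, smul_zero]
  rcases σ with _ | ⟨x, y, h⟩
  · exact hσ0 rfl
  · have hx : x ∉ π.V := by
      intro hc
      obtain ⟨h', e'⟩ := (hρ x y h).2 hc
      rw [hρσ] at e'
      exact WeierstrassCurve.Affine.Point.some_ne_zero h' e'.symm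
    exact ker_freeK π hA hB hp2 hd h hx q hq hqp hqσ

end VK
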